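import Mathlib
import Pool.Agent.Lib.helper29.CFL2

/-! The periodic bracket texts. -/

namespace Pool.Agent.Lib.MP_dfa990_al
open Pool.Agent.Lib.helper29

inductive Lt | a | A | d | D | t | T
  deriving DecidableEq, Fintype

namespace Lt
def op : Lt → Bool
  | a => true | d => true | t => true | _ => false
def mir : Lt → Lt
  | a => D | D => a | A => d | d => A | t => T | T => t
def bar : Lt → Lt
  | a => A | A => a | d => D | D => d | t => T | T => t
@[simp] lemma mir_mir (x : Lt) : x.mir.mir = x := by cases x <;> rfl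
@[simp] lemma bar_bar (x : Lt) : x.bar.bar = x := by cases x <;> rfl
@[simp] lemma op_mir (x : Lt) : x.mir.op = !x.op := by cases x <;> rfl
@[simp] lemma op_bar (x : Lt) : x.bar.op = !x.op := by cases x <;> rfl
lemma mir_bar (x : Lt) : x.bar.mir = x.mir.bar := by cases x <;> rfl
lemma mir_inj {x y : Lt} (h : x.mir = y.mir) : x = y := by
  rw [← mir_mir x, h, mir_mir]
lemma bar_inj {x y : Lt} (h : x.bar = y.bar) : x = y := by
  rw [← bar_bar x, h, bar_bar]
@[simp] lemma mir_a : a.mir = D := rfl
@[simp] lemma mir_A : A.mir = d := rfl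
@[simp] lemma mir_d : d.mir = A := rfl
@[simp] lemma mir_D : D.mir = a := rfl
@[simp] lemma mir_t : t.mir = T := rfl
@[simp] lemma mir_T : T.mir = t := rfl
@[simp] lemma bar_a : a.bar = A := rfl
@[simp] lemma bar_d : d.bar = D := rfl
@[simp] lemma bar_t : t.bar = T := rfl
@[simp] lemma bar_A : A.bar = a := rfl
@[simp] lemma bar_D : D.bar = d := rfl
@[simp] lemma bar_T : T.bar = t := rfl
@[simp] lemma op_a : a.op = true := rfl
@[simp] lemma op_d : d.op = true := rfl
@[simp] lemma op_t : t.op = true := rfl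
@[simp] lemma op_A : A.op = false := rfl
@[simp] lemma op_D : D.op = false := rfl
@[simp] lemma op_T : T.op = false := rfl
end Lt
open Lt

def dag (v : List Lt) : List Lt := v.reverse.map mir

@[simp] lemma dag_nil : dag [] = [] := rfl
@[simp] lemma dag_cons (x : Lt) (v : List Lt) : dag (x :: v) = dag v ++ [x.mir] := by simp [dag]
@[simp] lemma dag_append (u v : List Lt) : dag (u ++ v) = dag v ++ dag u := by simp [dag]
@[simp] lemma dag_dag (v : List Lt) : dag (dag v) = v := by
  simp [dag, List.map_reverse, Function.comp_def]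
@[simp] lemma length_dag (v : List Lt) : (dag v).length = v.length := by simp [dag]
lemma dag_inj {u v : List Lt} (h : dag u = dag v) : u = v := by rw [← dag_dag u, h, dag_dag]
lemma count_dag (x : Lt) (v : List Lt) : (dag v).count x = v.count x.mir := by
  induction v with
  | nil => rfl
  | cons y v ih =>
    simp only [dag_cons, List.count_append, ih, List.count_cons, List.count_nil]
    cases x <;> cases y <;> simp

def AA : ℕ → List Lt
  | 0 => []
  | j + 1 => AA j ++ (a :: (AA j ++ dag (AA j)) ++ [A])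

def DD (j : ℕ) : List Lt := dag (AA j)

def chunk (o : Lt) (n : ℕ) : List Lt := o :: (AA n ++ DD n) ++ [o.bar]

@[simp] lemma AA_zero : AA 0 = [] := rfl
@[simp] lemma DD_zero : DD 0 = [] := rfl
@[simp] lemma dag_AA (j : ℕ) : dag (AA j) = DD j := rfl
@[simp] lemma dag_DD (j : ℕ) : dag (DD j) = AA j := dag_dag _
lemma AA_succ (j : ℕ) : AA (j + 1) = AA j ++ chunk a j := rfl
lemma dag_chunk (o : Lt) (n : ℕ) : dag (chunk o n) = chunk o.bar.mir n := by
  cases o <;> simp [chunk]
lemma DD_succ (j : ℕ) : DD (j + 1) = chunk d j ++ DD j := by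
  rw [DD, AA_succ, dag_append, dag_chunk]; rfl

lemma len_AA (j : ℕ) : ((AA j).length : ℤ) = 3 ^ j - 1 := by
  induction j with
  | zero => simp
  | succ j ih => simp [AA, -dag_AA, ih]; ring
lemma len_DD (j : ℕ) : ((DD j).length : ℤ) = 3 ^ j - 1 := by rw [DD, length_dag, len_AA]
lemma len_chunk (o : Lt) (n : ℕ) : ((chunk o n).length : ℤ) = 2 * 3 ^ n := by
  simp [chunk, len_AA, len_DD]; ring

def cell (j : ℕ) (x : Lt) : List Lt := if x.op then x :: AA j else DD j ++ [x]

lemma len_cell (j : ℕ) (x : Lt) : ((cell j x).length : ℤ) = 3 ^ j := by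
  unfold cell; split_ifs <;> simp [len_AA, len_DD]

def muf (x : Lt) (r : ℤ) : Lt :=
  if x.op then (if r = 0 then x else if r = 1 then a else A)
  else (if r = 0 then d else if r = 1 then D else x)

lemma cell_succ (j : ℕ) (x : Lt) :
    cell (j + 1) x = cell j (muf x 0) ++ cell j (muf x 1) ++ cell j (muf x 2) := by
  cases x <;> simp [cell, muf, AA_succ, DD_succ, chunk]

def TT : ℕ → ℤ → Lt
  | 0, i => if i % 2 = 0 then t else T
  | h + 1, i => muf (TT h (i / 3)) (i % 3)

lemma TT_succ (h : ℕ) (i : ℤ) : TT (h + 1) i = muf (TT h (i / 3)) (i % 3) := rfl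

lemma TT_succ' (h : ℕ) (q r : ℤ) (h0 : 0 ≤ r) (h3 : r < 3) :
    TT (h + 1) (3 * q + r) = muf (TT h q) r := by
  rw [TT_succ, show (3 * q + r) / 3 = q by omega, show (3 * q + r) % 3 = r by omega]

def At (V : ℤ → Lt) : ℤ → List Lt → Prop
  | _, [] => True
  | i, x :: v => V i = x ∧ At V (i + 1) v

@[simp] lemma At_nil (V : ℤ → Lt) (i : ℤ) : At V i [] := trivial
@[simp] lemma At_cons (V : ℤ → Lt) (i : ℤ) (x : Lt) (v : List Lt) :
    At V i (x :: v) ↔ V i = x ∧ At V (i + 1) v := Iff.rfl
lemma At_append (V : ℤ → Lt) (i : ℤ) (u v : List Lt) :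
    At V i (u ++ v) ↔ At V i u ∧ At V (i + u.length) v := by
  induction u generalizing i with
  | nil => simp
  | cons x u ih =>
    simp only [List.cons_append, At_cons, ih, List.length_cons, and_assoc]
    rw [show i + 1 + (u.length : ℤ) = i + ((u.length + 1 : ℕ) : ℤ) by push_cast; ring]

lemma At.left {V : ℤ → Lt} {i : ℤ} {u v : List Lt} (h : At V i (u ++ v)) : At V i u :=
  ((At_append _ _ _ _).1 h).1
lemma At.right {V : ℤ → Lt} {i : ℤ} {u v : List Lt} (h : At V i (u ++ v)) :
    At V (i + u.length) v := ((At_append _ _ _ _).1 h).2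
lemma At.app {V : ℤ → Lt} {i j : ℤ} {u v : List Lt} (h : At V i u) (h' : At V j v)
    (e : j = i + u.length) : At V i (u ++ v) := (At_append _ _ _ _).2 ⟨h, e ▸ h'⟩
lemma At.cast {V : ℤ → Lt} {i j : ℤ} {u : List Lt} (h : At V i u) (e : i = j) : At V j u := e ▸ h

lemma At.congr {V V' : ℤ → Lt} {i i' : ℤ} {v : List Lt} (h : At V i v)
    (e : ∀ r : ℤ, 0 ≤ r → r < v.length → V' (i' + r) = V (i + r)) : At V' i' v := by
  induction v generalizing i i' with
  | nil => trivial
  | cons x v ih =>
    refine ⟨?_, ih h.2 (fun r h0 h1 => ?_)⟩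
    · have := e 0 le_rfl (by simp); simpa [h.1] using this
    · have := e (r + 1) (by omega) (by simp; omega)
      rw [show i' + 1 + r = i' + (r + 1) by ring, show i + 1 + r = i + (r + 1) by ring]; exact this

lemma At.agree {V V' : ℤ → Lt} {i i' : ℤ} {v : List Lt} (h : At V i v) (h' : At V' i' v)
    (r : ℤ) (h0 : 0 ≤ r) (h1 : r < v.length) : V (i + r) = V' (i' + r) := by
  induction v generalizing i i' r with
  | nil => simp at h1; omega
  | cons x v ih =>
    rcases h0.eq_or_lt with rfl | h0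
    · simp [h.1, h'.1]
    · have := ih h.2 h'.2 (r - 1) (by omega) (by simp at h1; omega)
      rwa [show i + 1 + (r - 1) = i + r by ring, show i' + 1 + (r - 1) = i' + r by ring] at this

lemma At.pre {V : ℤ → Lt} {i : ℤ} {u v : List Lt} (hu : At V i u) (hv : At V i v)
    (hl : u.length ≤ v.length) : u <+: v := by
  induction u generalizing i v with
  | nil => exact List.nil_prefix
  | cons x u ih =>
    cases v with
    | nil => simp at hl
    | cons y v =>
      rw [List.cons_prefix_cons]
      exact ⟨hu.1.symm.trans hv.1, ih hu.2 hv.2 (by simpa using hl)⟩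

lemma At.eq {V : ℤ → Lt} {i : ℤ} {u v : List Lt} (hu : At V i u) (hv : At V i v)
    (hl : u.length = v.length) : u = v := (hu.pre hv hl.le).eq_of_length hl

/-- The segment of a text. -/
def seg (V : ℤ → Lt) : ℤ → ℕ → List Lt
  | _, 0 => []
  | i, n + 1 => V i :: seg V (i + 1) n

@[simp] lemma length_seg (V : ℤ → Lt) (i : ℤ) (n : ℕ) : (seg V i n).length = n := by
  induction n generalizing i with
  | zero => rfl
  | succ n ih => simp [seg, ih]
lemma At_seg (V : ℤ → Lt) (i : ℤ) (n : ℕ) : At V i (seg V i n) := by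
  induction n generalizing i with
  | zero => trivial
  | succ n ih => exact ⟨rfl, ih _⟩
lemma At.eq_seg {V : ℤ → Lt} {i : ℤ} {v : List Lt} (h : At V i v) : v = seg V i v.length :=
  h.eq (At_seg _ _ _) (by simp)
lemma seg_add (V : ℤ → Lt) (i : ℤ) (n m : ℕ) :
    seg V i (n + m) = seg V i n ++ seg V (i + n) m :=
  (At_seg _ _ _).eq ((At_seg _ _ _).app (At_seg _ _ _) (by simp)) (by simp)

def flip (V : ℤ → Lt) (i : ℤ) : Lt := (V (-1 - i)).mir

@[simp] lemma flip_flip (V : ℤ → Lt) : flip (flip V) = V := by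
  funext i; simp [flip]

lemma At.dg {V : ℤ → Lt} {i : ℤ} {v : List Lt} (h : At V i v) :
    At (flip V) (-i - v.length) (dag v) := by
  induction v generalizing i with
  | nil => trivial
  | cons x v ih =>
    rw [dag_cons]
    refine At.app ((ih h.2).cast (by simp; ring)) (j := -1 - i) ⟨?_, trivial⟩ (by simp; ring)
    simp [flip, h.1]

lemma muf_mir (x : Lt) (r : ℤ) (h0 : 0 ≤ r) (h3 : r < 3) :
    muf x.mir (2 - r) = (muf x r).mir := by
  have : r = 0 ∨ r = 1 ∨ r = 2 := by omega
  rcases this with rfl | rfl | rfl <;> cases x <;> rfl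

lemma flip_TT (h : ℕ) : flip (TT h) = TT h := by
  funext i
  induction h generalizing i with
  | zero => simp only [flip, TT]; split_ifs <;> first | rfl | omega
  | succ h ih =>
    have := ih (i / 3)
    simp only [flip] at this ⊢
    rw [TT_succ, TT_succ, show (-1 - i) / 3 = -1 - i / 3 by omega, ← this,
      show (-1 - i) % 3 = 2 - i % 3 by omega, ← muf_mir _ _ (by omega) (by omega)]
    congr 1; ring

lemma TT_neg (h : ℕ) (i : ℤ) : TT h (-1 - i) = (TT h i).mir := by
  have := congrFun (flip_TT h) i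
  simp only [flip] at this
  rw [← this, mir_mir]

lemma At.dgT {h : ℕ} {i : ℤ} {v : List Lt} (hv : At (TT h) i v) :
    At (TT h) (-i - v.length) (dag v) := by
  have := hv.dg; rwa [flip_TT] at this

lemma grid (h j : ℕ) (i : ℤ) : At (TT (h + j)) (3 ^ j * i) (cell j (TT h i)) := by
  induction j generalizing h i with
  | zero => simp [cell]
  | succ j ih =>
    rw [cell_succ, show h + (j + 1) = (h + 1) + j by ring]
    have h0 := ih (h + 1) (3 * i + 0)
    have h1 := ih (h + 1) (3 * i + 1)
    have h2 := ih (h + 1) (3 * i + 2)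
    rw [TT_succ' _ _ _ (by omega) (by omega)] at h0 h1 h2
    refine ((h0.cast (by ring)).app h1 ?_).app h2 ?_
    · rw [len_cell]; ring
    · simp only [List.length_append, Nat.cast_add, len_cell]; ring

def el (h : ℕ) : ℤ := 2 * 3 ^ h

lemma el_pos (h : ℕ) : 0 < el h := by unfold el; positivity
lemma el_succ (h : ℕ) : el (h + 1) = 3 * el h := by unfold el; ring
lemma pow3_pos (h : ℕ) : (0 : ℤ) < 3 ^ h := by positivity
lemma el_mono {h h' : ℕ} (hh : h ≤ h') : el h ≤ el h' := by
  unfold el; have := pow_le_pow_right₀ (show (1 : ℤ) ≤ 3 by norm_num) hh; omega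
lemma el_ge (h : ℕ) (hh : 1 ≤ h) : 6 ≤ el h := by simpa [el] using el_mono hh

lemma TT_eq_t (h : ℕ) (i : ℤ) : TT h i = t ↔ el h ∣ i := by
  induction h generalizing i with
  | zero => simp only [TT, el]; split_ifs <;> simp <;> omega
  | succ h ih =>
    rw [TT_succ, el_succ]
    have e : 3 * el h ∣ i ↔ i % 3 = 0 ∧ el h ∣ i / 3 := by
      constructor
      · rintro ⟨c, rfl⟩
        refine ⟨by rw [mul_assoc]; omega, c, by rw [mul_assoc]; omega⟩
      · rintro ⟨h1, c, h2⟩; exact ⟨c, by rw [mul_assoc, ← h2]; omega⟩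
    rw [e, ← ih]
    have : i % 3 = 0 ∨ i % 3 = 1 ∨ i % 3 = 2 := by omega
    rcases this with h1 | h1 | h1 <;> rw [h1] <;> cases TT h (i / 3) <;> simp [muf]

lemma TT_add (h : ℕ) (i c : ℤ) : TT h (i + el h * c) = TT h i := by
  induction h generalizing i with
  | zero => simp only [TT, el]; congr 1; simp
  | succ h ih =>
    rw [TT_succ, TT_succ, el_succ, mul_assoc, show (i + 3 * (el h * c)) / 3 = i / 3 + el h * c by omega,
      ih, show (i + 3 * (el h * c)) % 3 = i % 3 by omega]

lemma TT_per {h : ℕ} {i j : ℤ} (hd : el h ∣ i - j) : TT h i = TT h j := by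
  obtain ⟨c, hc⟩ := hd
  rw [show i = j + el h * c by omega, TT_add]

lemma At.per {h : ℕ} {i j : ℤ} {v : List Lt} (hv : At (TT h) i v) (hd : el h ∣ j - i) :
    At (TT h) j v := hv.congr (fun r _ _ => TT_per (by simpa using hd))

lemma TT_eq_T (h : ℕ) (i : ℤ) : TT h i = T ↔ el h ∣ i + 1 := by
  rw [← dvd_neg, show -(i + 1) = -1 - i by ring, ← TT_eq_t, TT_neg]
  cases TT h i <;> simp

/-- Reflection in a block boundary. -/
lemma TT_refl {h : ℕ} {β : ℤ} (hβ : el h ∣ β) (r : ℤ) : TT h (β - 1 - r) = (TT h (β + r)).mir := by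
  rw [← TT_neg]
  refine TT_per ?_
  rw [show β - 1 - r - (-1 - (β + r)) = 2 * β by ring]
  exact hβ.mul_left 2

lemma At.refl {h : ℕ} {β i : ℤ} {v : List Lt} (hβ : el h ∣ β) (hv : At (TT h) i v) :
    At (TT h) (2 * β - i - v.length) (dag v) :=
  hv.dgT.per (by rw [show 2 * β - i - v.length - (-i - v.length) = 2 * β by ring]; exact hβ.mul_left 2)

/-! ### Counting markers -/

lemma count_t {h : ℕ} {i : ℤ} {v : List Lt} (hv : At (TT h) i v) :
    (v.count t : ℤ) = (i + v.length + el h - 1) / el h - (i + el h - 1) / el h := by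
  induction v generalizing i with
  | nil => simp
  | cons x v ih =>
    rw [List.count_cons, Nat.cast_add, ih hv.2]
    have hp := el_pos h
    have e1 : i + 1 + v.length + el h - 1 = i + ((x :: v).length : ℕ) + el h - 1 := by
      simp; ring
    rw [e1]
    have key : (i + 1 + el h - 1) / el h = (i + el h - 1) / el h + if el h ∣ i then 1 else 0 := by
      have h1 := Int.mul_ediv_add_emod i (el h)
      have h2 := Int.emod_nonneg i hp.ne'
      have h3 := Int.emod_lt_of_pos i hp
      have a1 : (i + 1 + el h - 1) / el h = i / el h + 1 := by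
        rw [show i + 1 + el h - 1 = i + 1 * el h by ring, Int.add_mul_ediv_right _ _ hp.ne']
      rw [a1]
      split_ifs with hd
      · have h4 : i % el h = 0 := Int.emod_eq_zero_of_dvd hd
        congr 1
        symm
        rw [Int.ediv_eq_iff_of_pos hp]
        constructor <;> nlinarith
      · have h4 : i % el h ≠ 0 := fun h => hd (Int.dvd_of_emod_eq_zero h)
        rw [add_zero]
        symm
        rw [Int.ediv_eq_iff_of_pos hp]
        have : 1 ≤ i % el h := by omega
        constructor <;> nlinarith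
    rw [key, ← hv.1]
    by_cases hd : el h ∣ i
    · simp [hd, (TT_eq_t h i).2 hd]; ring
    · have : TT h i ≠ t := fun h' => hd ((TT_eq_t h i).1 h')
      simp [hd, this]

lemma ceil_spec (h : ℕ) (x : ℤ) : x ≤ el h * ((x + el h - 1) / el h) ∧
    el h * ((x + el h - 1) / el h) < x + el h := by
  have hp := el_pos h
  have h1 := Int.mul_ediv_add_emod (x + el h - 1) (el h)
  have h2 := Int.emod_nonneg (x + el h - 1) hp.ne'
  have h3 := Int.emod_lt_of_pos (x + el h - 1) hp
  constructor <;> linarith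

lemma ceil_dvd {h : ℕ} {x : ℤ} (hx : el h ∣ x) : el h * ((x + el h - 1) / el h) = x := by
  obtain ⟨c, rfl⟩ := hx
  have hp := el_pos h
  congr 1
  rw [Int.ediv_eq_iff_of_pos hp]
  constructor <;> nlinarith

lemma cnt_lt {h : ℕ} {i : ℤ} {v : List Lt} (hv : At (TT h) i v) :
    (v.length : ℤ) < (v.count t + 1) * el h := by
  rw [count_t hv]
  have h1 := ceil_spec h (i + v.length)
  have h2 := ceil_spec h i
  nlinarith

lemma cnt_ge {h : ℕ} {i : ℤ} {v : List Lt} (hv : At (TT h) i v) :
    (v.count t : ℤ) * el h < v.length + el h := by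
  rw [count_t hv]
  have h1 := ceil_spec h (i + v.length)
  have h2 := ceil_spec h i
  nlinarith

lemma cnt_start {h : ℕ} {i : ℤ} {v : List Lt} (hv : At (TT h) i v) (hi : el h ∣ i) :
    (v.length : ℤ) ≤ v.count t * el h := by
  rw [count_t hv]
  have h1 := ceil_spec h (i + v.length)
  have h2 := ceil_dvd hi
  nlinarith

lemma cnt_bd {h : ℕ} {i : ℤ} {v : List Lt} (hv : At (TT h) i v) (hi : el h ∣ i)
    (hj : el h ∣ i + v.length) : (v.length : ℤ) = v.count t * el h := by
  rw [count_t hv]
  have h1 := ceil_dvd hj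
  have h2 := ceil_dvd hi
  nlinarith

lemma cnt_end {h : ℕ} {i : ℤ} {v : List Lt} (hv : At (TT h) i v)
    (hj : el h ∣ i + v.length) : (v.count t : ℤ) * el h ≤ v.length := by
  rw [count_t hv]
  have h1 := ceil_dvd hj
  have h2 := ceil_spec h i
  nlinarith

lemma cnt_le {h : ℕ} {i : ℤ} {v : List Lt} (hv : At (TT h) i v) {c : ℕ}
    (hl : (v.length : ℤ) ≤ c * el h) : v.count t ≤ c := by
  have h1 := cnt_ge hv
  have hp := el_pos h
  have : (v.count t : ℤ) < c + 1 := by nlinarith
  omega

/-- Piece bound. -/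
lemma aligned_of_agree {h h' : ℕ} {o o' : ℤ} (hh : h ≤ h')
    (hag : ∀ r, 0 ≤ r → r < 2 * el h → TT h (o + r) = TT h' (o' + r)) :
    h = h' ∧ el h ∣ o - o' := by
  have hp := el_pos h
  have c1 := ceil_spec h o
  set β := el h * ((o + el h - 1) / el h) with hβ
  have d1 : el h ∣ β := Dvd.intro _ rfl
  have e1 : TT h' (o' + (β - o)) = t := by
    rw [← hag _ (by omega) (by omega), TT_eq_t]; simpa using d1
  have e2 : TT h' (o' + (β - o + el h)) = t := by
    rw [← hag _ (by omega) (by omega), TT_eq_t]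
    rw [show o + (β - o + el h) = β + el h by ring]; exact d1.add dvd_rfl
  rw [TT_eq_t] at e1 e2
  have d3 : el h' ∣ el h := by simpa using e2.sub e1
  have : h' ≤ h := by
    by_contra hc
    have h1 := el_mono (show h + 1 ≤ h' by omega)
    have h2 := Int.le_of_dvd hp d3
    rw [el_succ] at h1; omega
  obtain rfl : h = h' := by omega
  refine ⟨rfl, ?_⟩
  have := d1.sub e1
  rwa [show β - (o' + (β - o)) = o - o' by ring] at this

lemma aligned_of_agree' {h h' : ℕ} {o o' : ℤ} {n : ℤ} (hn : 2 * el h ≤ n ∨ 2 * el h' ≤ n)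
    (hag : ∀ r, 0 ≤ r → r < n → TT h (o + r) = TT h' (o' + r)) :
    h = h' ∧ el h ∣ o - o' := by
  rcases le_total h h' with hh | hh
  · have := el_mono hh
    exact aligned_of_agree hh (fun r h0 h1 => hag r h0 (by omega))
  · have := el_mono hh
    obtain ⟨rfl, h2⟩ := aligned_of_agree hh (fun r h0 h1 => (hag r h0 (by omega)).symm)
    exact ⟨rfl, by simpa using h2.neg_right⟩

end Pool.Agent.Lib.MP_dfa990_al
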