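import Mathlib
import Pool.Agent.Lib.MP_dfa990_al.Text

/-! Bracket classes, determinism and the node structure of the texts. -/

namespace Pool.Agent.Lib.MP_dfa990_al
open Pool.Agent.Lib.helper29 Lt

def mt (o c : Lt) : Prop := (o = a ∧ c = A) ∨ (o = d ∧ c = D)
def ChA (v : List Lt) : Prop := ∃ x, Bal mt x ∧ v = a :: x ++ [A]
def ChD (v : List Lt) : Prop := ∃ x, Bal mt x ∧ v = d :: x ++ [D]
def Ch (v : List Lt) : Prop := ChA v ∨ ChD v

lemma bal_append {x y : List Lt} (hx : Bal mt x) (hy : Bal mt y) : Bal mt (x ++ y) := by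
  induction hx with
  | nil => exact hy
  | node o c u v hm hu _ _ ih => simpa using Bal.node o c u (v ++ y) hm hu ih

lemma bal_dag {x : List Lt} (hx : Bal mt x) : Bal mt (dag x) := by
  induction hx with
  | nil => exact Bal.nil
  | node o c u v hm _ _ ih1 ih2 =>
    have : Bal mt (c.mir :: dag u ++ o.mir :: []) :=
      Bal.node _ _ _ _ (by rcases hm with ⟨rfl, rfl⟩ | ⟨rfl, rfl⟩ <;> simp [mt]) ih1 Bal.nil
    simpa using bal_append ih2 this

lemma ChA.dg {v : List Lt} (h : ChA v) : ChD (dag v) := by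
  obtain ⟨x, hx, rfl⟩ := h; exact ⟨dag x, bal_dag hx, by simp⟩
lemma ChD.dg {v : List Lt} (h : ChD v) : ChA (dag v) := by
  obtain ⟨x, hx, rfl⟩ := h; exact ⟨dag x, bal_dag hx, by simp⟩
lemma Ch.dg {v : List Lt} (h : Ch v) : Ch (dag v) := h.elim (fun h => Or.inr h.dg) (fun h => Or.inl h.dg)
lemma ChA.ch {v : List Lt} (h : ChA v) : Ch v := Or.inl h
lemma ChD.ch {v : List Lt} (h : ChD v) : Ch v := Or.inr h
lemma Ch.bal {v : List Lt} (h : Ch v) : Bal mt v := by
  rcases h with ⟨x, hx, rfl⟩ | ⟨x, hx, rfl⟩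
  · exact Bal.node _ _ _ _ (Or.inl ⟨rfl, rfl⟩) hx Bal.nil
  · exact Bal.node _ _ _ _ (Or.inr ⟨rfl, rfl⟩) hx Bal.nil

lemma rep_dag {P Q : List Lt → Prop} (hPQ : ∀ x, P x → Q (dag x)) {n : ℕ} {v : List Lt}
    (h : Rep P n v) : Rep Q n (dag v) := by
  induction h with
  | nil => exact Rep.nil
  | cons n x w hx _ ih => rw [dag_append]; exact ih.snoc (hPQ _ hx)

lemma rep_bal {n : ℕ} {v : List Lt} (h : Rep Ch n v) : Bal mt v := by
  induction h with
  | nil => exact Bal.nil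
  | cons n x w hx _ ih => exact bal_append hx.bal ih

lemma bal_rep {v : List Lt} (h : Bal mt v) : ∃ n, Rep Ch n v := by
  induction h with
  | nil => exact ⟨0, Rep.nil⟩
  | node o c u v hm hu _ _ ih =>
    obtain ⟨n, hn⟩ := ih
    have : Ch (o :: u ++ [c]) := by
      rcases hm with ⟨rfl, rfl⟩ | ⟨rfl, rfl⟩
      · exact Or.inl ⟨u, hu, rfl⟩
      · exact Or.inr ⟨u, hu, rfl⟩
    exact ⟨_, by simpa using Rep.cons _ _ _ this hn⟩

def dep (v : List Lt) : ℤ := (v.map (fun x => if x.op then (1 : ℤ) else -1)).sum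

@[simp] lemma dep_nil : dep [] = 0 := rfl
@[simp] lemma dep_cons (x : Lt) (v : List Lt) :
    dep (x :: v) = (if x.op then 1 else -1) + dep v := by simp [dep]
@[simp] lemma dep_append (u v : List Lt) : dep (u ++ v) = dep u + dep v := by simp [dep]

lemma bal_dep {x : List Lt} (hx : Bal mt x) : dep x = 0 ∧ ∀ p, p <+: x → 0 ≤ dep p := by
  induction hx with
  | nil => exact ⟨rfl, fun p hp => by rw [List.prefix_nil.1 hp]; rfl⟩
  | node o c u v hm _ _ ih1 ih2 =>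
    have ho : o.op = true ∧ c.op = false := by rcases hm with ⟨rfl, rfl⟩ | ⟨rfl, rfl⟩ <;> simp
    refine ⟨by simp [ho, ih1.1, ih2.1], fun p hp => ?_⟩
    cases p with
    | nil => rfl
    | cons y p =>
      rw [List.cons_append, List.cons_prefix_cons] at hp
      obtain ⟨rfl, ⟨s, hs⟩⟩ := hp
      rcases List.append_eq_append_iff.1 hs with ⟨q, h1, h2⟩ | ⟨q, h1, h2⟩
      · have := ih1.2 p ⟨q, h1.symm⟩
        simp [ho]; omega
      · cases q with
        | nil =>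
          have := ih1.2 p ⟨[], by simpa using h1⟩
          simp [ho]; omega
        | cons z q =>
          simp only [List.cons_append, List.cons.injEq] at h2
          obtain ⟨rfl, h2⟩ := h2
          have := ih2.2 q ⟨s, h2.symm⟩
          simp [h1, ho, ih1.1]; omega

/-- A class of words is deterministic: at most one member occurs at any place. -/
def Det (K : List Lt → Prop) : Prop :=
  ∀ (V : ℤ → Lt) (i : ℤ) (u v : List Lt), K u → K v → At V i u → At V i v → u = v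

lemma Det.mono {K K' : List Lt → Prop} (h : Det K) (e : ∀ x, K' x → K x) : Det K' :=
  fun V i u v hu hv => h V i u v (e _ hu) (e _ hv)

lemma det_of_le {K : List Lt → Prop} (h : ∀ u v, K u → K v → u <+: v → u = v) : Det K := by
  intro V i u v hu hv au av
  rcases le_total u.length v.length with hl | hl
  · exact h _ _ hu hv (au.pre av hl)
  · exact (h _ _ hv hu (av.pre au hl)).symm

lemma Ch.form {v : List Lt} (h : Ch v) :
    ∃ o x, (o = a ∨ o = d) ∧ Bal mt x ∧ v = o :: x ++ [o.bar] := by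
  rcases h with ⟨x, hx, rfl⟩ | ⟨x, hx, rfl⟩
  · exact ⟨a, x, Or.inl rfl, hx, rfl⟩
  · exact ⟨d, x, Or.inr rfl, hx, rfl⟩

lemma det_Ch : Det Ch := by
  refine det_of_le (fun u v hu hv huv => ?_)
  obtain ⟨o, x, ho, hx, rfl⟩ := hu.form
  obtain ⟨o', x', ho', hx', rfl⟩ := hv.form
  rw [List.cons_append, List.cons_append, List.cons_prefix_cons] at huv
  obtain ⟨rfl, huv⟩ := huv
  rcases List.prefix_concat_iff.1 huv with h | h
  · rw [List.cons_append, List.cons_append, h]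
  · have := (bal_dep hx').2 _ h
    have h0 := (bal_dep hx).1
    rcases ho with rfl | rfl <;> simp [h0] at this

lemma det_ChA : Det ChA := det_Ch.mono (fun _ => ChA.ch)
lemma det_ChD : Det ChD := det_Ch.mono (fun _ => ChD.ch)

lemma Det.rep {K : List Lt → Prop} (hK : Det K) (n : ℕ) : Det (Rep K n) := by
  intro V i u v hu hv au av
  induction hu generalizing i v with
  | nil => exact (rep_zero.1 hv).symm
  | cons n x w hx _ ih =>
    obtain ⟨y, z, hy, hz, rfl⟩ := rep_succ.1 hv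
    obtain rfl := hK V i x y hx hy au.left av.left
    rw [ih _ _ hz au.right av.right]

lemma star_det {K : List Lt → Prop} (hK : Det K) (fs : Lt → Prop)
    (hf : ∀ x, K x → ∃ y r, x = y :: r ∧ fs y) {V : ℤ → Lt} {i : ℤ} {n n' : ℕ}
    {u u' : List Lt} (hu : Rep K n u) (hu' : Rep K n' u') (au : At V i u) (au' : At V i u')
    (h1 : ¬ fs (V (i + u.length))) (h2 : ¬ fs (V (i + u'.length))) : n = n' ∧ u = u' := by
  induction hu generalizing i n' u' with
  | nil =>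
    cases hu' with
    | nil => exact ⟨rfl, rfl⟩
    | cons n x w hx hw =>
      obtain ⟨y, r, rfl, hy⟩ := hf x hx
      exact absurd (by simpa [au'.1] using hy) h1
  | cons n x w hx hw ih =>
    cases hu' with
    | nil =>
      obtain ⟨y, r, rfl, hy⟩ := hf x hx
      exact absurd (by simpa [au.1] using hy) h2
    | cons n' x' w' hx' hw' =>
      obtain rfl := hK V i x x' hx hx' au.left au'.left
      obtain ⟨rfl, rfl⟩ := ih hw' au.right au'.right (by simpa [add_assoc] using h1)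
        (by simpa [add_assoc] using h2)
      exact ⟨rfl, rfl⟩

lemma star_le {K : List Lt → Prop} (hK : Det K) (fs : Lt → Prop)
    (hf : ∀ x, K x → ∃ y r, x = y :: r ∧ fs y) {V : ℤ → Lt} {i : ℤ} {n n' : ℕ}
    {u u' : List Lt} (hu : Rep K n u) (hu' : Rep K n' u') (au : At V i u) (au' : At V i u')
    (h2 : ¬ fs (V (i + u'.length))) : n ≤ n' := by
  induction hu generalizing i n' u' with
  | nil => omega
  | cons n x w hx hw ih =>
    cases hu' with
    | nil =>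
      obtain ⟨y, r, rfl, hy⟩ := hf x hx
      exact absurd (by simpa [au.1] using hy) h2
    | cons n' x' w' hx' hw' =>
      obtain rfl := hK V i x x' hx hx' au.left au'.left
      have := ih hw' au.right au'.right (by simpa [add_assoc] using h2)
      omega

lemma ChA.fst {x : List Lt} (h : ChA x) : ∃ y r, x = y :: r ∧ y = a := by
  obtain ⟨u, -, rfl⟩ := h; exact ⟨a, _, rfl, rfl⟩
lemma ChD.fst {x : List Lt} (h : ChD x) : ∃ y r, x = y :: r ∧ y = d := by
  obtain ⟨u, -, rfl⟩ := h; exact ⟨d, _, rfl, rfl⟩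
lemma Ch.fst {x : List Lt} (h : Ch x) : ∃ y r, x = y :: r ∧ y.op = true := by
  rcases h with ⟨u, -, rfl⟩ | ⟨u, -, rfl⟩
  · exact ⟨a, _, rfl, rfl⟩
  · exact ⟨d, _, rfl, rfl⟩

lemma rep_AA (j : ℕ) : Rep ChA j (AA j) := by
  induction j with
  | zero => exact Rep.nil
  | succ j ih =>
    rw [AA_succ]
    have h1 := rep_bal (ih.mono (fun _ => ChA.ch))
    exact ih.snoc ⟨AA j ++ DD j, bal_append h1 (bal_dag h1), rfl⟩
lemma rep_DD (j : ℕ) : Rep ChD j (DD j) := rep_dag (fun _ => ChA.dg) (rep_AA j)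
lemma bal_AA (j : ℕ) : Bal mt (AA j) := rep_bal ((rep_AA j).mono (fun _ => ChA.ch))
lemma bal_DD (j : ℕ) : Bal mt (DD j) := bal_dag (bal_AA j)
lemma chA_chunk (j : ℕ) : ChA (chunk a j) := ⟨_, bal_append (bal_AA j) (bal_DD j), rfl⟩
lemma chD_chunk (j : ℕ) : ChD (chunk d j) := ⟨_, bal_append (bal_AA j) (bal_DD j), rfl⟩
lemma rep_AD (j : ℕ) : Rep Ch (j + j) (AA j ++ DD j) :=
  ((rep_AA j).mono (fun _ => ChA.ch)).append ((rep_DD j).mono (fun _ => ChD.ch))

lemma bal_count {x : List Lt} (h : Bal mt x) : x.count t = 0 ∧ x.count T = 0 := by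
  induction h with
  | nil => simp
  | node o c u v hm _ _ ih1 ih2 =>
    rcases hm with ⟨rfl, rfl⟩ | ⟨rfl, rfl⟩ <;> simp [ih1, ih2]

/-- `AA m` continues `AA n` with the letter `a`. -/
lemma AA_lt {n m : ℕ} (h : n < m) : ∃ r, AA m = AA n ++ chunk a n ++ r := by
  induction m with
  | zero => omega
  | succ m ih =>
    rcases Nat.lt_succ_iff_lt_or_eq.1 h with h | rfl
    · obtain ⟨r, hr⟩ := ih h
      exact ⟨r ++ chunk a m, by rw [AA_succ, hr]; simp⟩
    · exact ⟨[], by simp [AA_succ]⟩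

lemma DD_lt {n m : ℕ} (h : n < m) : ∃ r, DD m = r ++ chunk d n ++ DD n := by
  obtain ⟨r, hr⟩ := AA_lt h
  exact ⟨dag r, by rw [DD, hr]; simp [dag_chunk]⟩

/-- First letter of `DD n` followed by a closing letter is not `a`. -/
lemma At.DD_ne_a {V : ℤ → Lt} {i : ℤ} {n : ℕ} {c : Lt} (hc : c.op = false)
    (h : At V i (DD n ++ [c])) : V i ≠ a := by
  cases n with
  | zero => simp at h; rw [h]; rintro rfl; simp at hc
  | succ n => rw [DD_succ, chunk] at h; rw [h.1]; simp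

def Nd (h : ℕ) (i : ℤ) (o : Lt) (n : ℕ) : Prop := o.op = true ∧ At (TT h) i (chunk o n)

lemma Nd.fst {h : ℕ} {i : ℤ} {o : Lt} {n : ℕ} (H : Nd h i o n) : TT h i = o := H.2.1
lemma Nd.atA {h : ℕ} {i : ℤ} {o : Lt} {n : ℕ} (H : Nd h i o n) : At (TT h) (i + 1) (AA n) := by
  have : At (TT h) (i + 1) (AA n ++ DD n ++ [o.bar]) := H.2.2
  exact this.left.left
lemma Nd.atD {h : ℕ} {i : ℤ} {o : Lt} {n : ℕ} (H : Nd h i o n) :
    At (TT h) (i + 3 ^ n) (DD n ++ [o.bar]) := by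
  have : At (TT h) (i + 1) (AA n ++ DD n ++ [o.bar]) := H.2.2
  rw [List.append_assoc] at this
  exact this.right.cast (by rw [len_AA]; ring)
lemma Nd.mid_ne {h : ℕ} {i : ℤ} {o : Lt} {n : ℕ} (H : Nd h i o n) : TT h (i + 3 ^ n) ≠ a :=
  H.atD.DD_ne_a (by simp [H.1])
lemma Nd.last {h : ℕ} {i : ℤ} {o : Lt} {n : ℕ} (H : Nd h i o n) :
    TT h (i + 2 * 3 ^ n - 1) = o.bar := by
  have := H.atD.right.1; rw [len_DD] at this; rw [← this]; congr 1; ring

lemma Nd.dg {h : ℕ} {i : ℤ} {o : Lt} {n : ℕ} (H : Nd h i o n) :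
    Nd h (-i - 2 * 3 ^ n) o.bar.mir n := by
  refine ⟨by simp [H.1], ?_⟩
  have := H.2.dgT
  rwa [len_chunk, dag_chunk] at this

lemma Nd.unique {h : ℕ} {i : ℤ} {o o' : Lt} {n n' : ℕ} (H : Nd h i o n) (H' : Nd h i o' n') :
    o = o' ∧ n = n' := by
  refine ⟨H.fst.symm.trans H'.fst, (star_det det_ChA (· = a) (fun _ => ChA.fst) (rep_AA n)
    (rep_AA n') H.atA H'.atA ?_ ?_).1⟩
  · rw [len_AA, show i + 1 + (3 ^ n - 1) = i + 3 ^ n by ring]; exact H.mid_ne
  · rw [len_AA, show i + 1 + (3 ^ n' - 1) = i + 3 ^ n' by ring]; exact H'.mid_ne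

/-- Aligned form of a node. -/
def NdG (h : ℕ) (i : ℤ) (o : Lt) (n : ℕ) : Prop :=
  o.op = true ∧ ∃ g q, h = g + n ∧ i = 3 ^ n * q ∧ TT g q = o ∧ TT g (q + 1) = o.bar

lemma NdG.nd {h : ℕ} {i : ℤ} {o : Lt} {n : ℕ} (H : NdG h i o n) : Nd h i o n := by
  obtain ⟨ho, g, q, rfl, rfl, h1, h2⟩ := H
  refine ⟨ho, ?_⟩
  have a1 := grid g n q
  have a2 := grid g n (q + 1)
  rw [h1] at a1; rw [h2] at a2
  have := a1.app a2 (by rw [len_cell]; ring)
  simpa [cell, ho, chunk] using this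

lemma exists_NdG (h : ℕ) (i : ℤ) (ho : (TT h i).op = true) : ∃ n, NdG h i (TT h i) n := by
  induction h generalizing i with
  | zero =>
    refine ⟨0, ho, 0, i, rfl, by simp, rfl, ?_⟩
    simp only [TT] at ho ⊢
    split_ifs at ho ⊢ <;> first | rfl | omega
  | succ h ih =>
    obtain ⟨q, r, rfl, hr⟩ : ∃ q r, i = 3 * q + r ∧ (r = 0 ∨ r = 1 ∨ r = 2) :=
      ⟨i / 3, i % 3, by omega, by omega⟩
    have e0 := TT_succ' h q 0 (by omega) (by omega)
    have e1 := TT_succ' h q 1 (by omega) (by omega)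
    have e2 := TT_succ' h q 2 (by omega) (by omega)
    cases hx : (TT h q).op
    · rcases hr with rfl | rfl | rfl
      · refine ⟨0, ho, h + 1, _, rfl, by simp, rfl, ?_⟩
        rw [show 3 * q + 0 + 1 = 3 * q + 1 by ring, e1, e0]; simp [muf, hx]
      · rw [e1] at ho; simp [muf, hx] at ho
      · rw [e2] at ho; simp [muf, hx] at ho
    · rcases hr with rfl | rfl | rfl
      · obtain ⟨n, -, g, q', rfl, rfl, h1, h2⟩ := ih q hx
        have : TT (g + n + 1) (3 * (3 ^ n * q') + 0) = TT (g + n) (3 ^ n * q') := by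
          rw [e0]; simp [muf, hx]
        refine ⟨n + 1, ho, g, q', rfl, by ring, by rw [this, h1], by rw [this, h2]⟩
      · refine ⟨0, ho, h + 1, _, rfl, by simp, rfl, ?_⟩
        rw [show 3 * q + 1 + 1 = 3 * q + 2 by ring, e1, e2]; simp [muf, hx]
      · rw [e2] at ho; simp [muf, hx] at ho

lemma exists_Nd (h : ℕ) (i : ℤ) (ho : (TT h i).op = true) : ∃ n, Nd h i (TT h i) n :=
  (exists_NdG h i ho).imp (fun _ H => H.nd)

lemma Nd.ndG {h : ℕ} {i : ℤ} {o : Lt} {n : ℕ} (H : Nd h i o n) : NdG h i o n := by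
  obtain ⟨n', H'⟩ := exists_NdG h i (by rw [H.fst]; exact H.1)
  rw [H.fst] at H'
  obtain ⟨-, rfl⟩ := H.unique H'.nd
  exact H'

lemma Nd.le {h : ℕ} {i : ℤ} {o : Lt} {n : ℕ} (H : Nd h i o n) : n ≤ h ∧ (3 : ℤ) ^ n ∣ i := by
  obtain ⟨-, g, q, rfl, rfl, -⟩ := H.ndG
  exact ⟨by omega, Dvd.intro _ rfl⟩

lemma exists_Nd_close (h : ℕ) (i : ℤ) (hc : (TT h i).op = false) :
    ∃ n, Nd h (i + 1 - 2 * 3 ^ n) (TT h i).bar n := by
  obtain ⟨n, H⟩ := exists_Nd h (-1 - i) (by rw [TT_neg]; simp [hc])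
  refine ⟨n, ?_⟩
  have := H.dg
  rw [TT_neg, ← mir_bar, mir_mir] at this
  rwa [show -(-1 - i) - 2 * 3 ^ n = i + 1 - 2 * 3 ^ n by ring] at this

lemma Nd.eq_t {h : ℕ} {i : ℤ} {n : ℕ} (H : Nd h i t n) : n = h := by
  obtain ⟨-, g, q, rfl, rfl, h1, h2⟩ := H.ndG
  rw [TT_eq_t] at h1
  rw [bar_t, TT_eq_T] at h2
  have : el g ∣ 2 := by simpa [add_assoc] using h2.sub h1
  have h3 := Int.le_of_dvd (by norm_num) this
  cases g with
  | zero => simp
  | succ g => have := el_ge (g + 1) (by omega); omega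

lemma Nd.parent_a {h : ℕ} {i : ℤ} {n : ℕ} (H : Nd h i a n) :
    ∃ o n', n < n' ∧ Nd h (i - 3 ^ n) o n' := by
  obtain ⟨-, g, q, rfl, rfl, h1, h2⟩ := H.ndG
  cases g with
  | zero => simp only [TT] at h1; split_ifs at h1
  | succ g =>
    obtain ⟨p, r, rfl, hr⟩ : ∃ p r, q = 3 * p + r ∧ (r = 0 ∨ r = 1 ∨ r = 2) :=
      ⟨q / 3, q % 3, by omega, by omega⟩
    have e0 := TT_succ' g p 0 (by omega) (by omega)
    have e1 := TT_succ' g p 1 (by omega) (by omega)
    have e2 := TT_succ' g p 2 (by omega) (by omega)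
    rcases hr with rfl | rfl | rfl
    · rw [show 3 * p + 0 + 1 = 3 * p + 1 by ring, e1] at h2
      rw [e0] at h1
      revert h1 h2; cases TT g p <;> simp [muf]
    · have hx : (TT g p).op = true := by
        rw [e1] at h1; revert h1; cases TT g p <;> simp [muf]
      obtain ⟨m, -, g', q', rfl, rfl, h3, h4⟩ := exists_NdG g p hx
      refine ⟨_, m + 1 + n, by omega, NdG.nd ⟨hx, g', q', by ring, by ring, h3, h4⟩⟩
    · rw [e2] at h1; revert h1; cases TT g p <;> simp [muf]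

lemma Nd.parent_d {h : ℕ} {i : ℤ} {n : ℕ} (H : Nd h i d n) :
    ∃ o n', n < n' ∧ Nd h (i + 3 ^ (n + 1) - 2 * 3 ^ n') o n' := by
  obtain ⟨o, n', hn, H'⟩ := H.dg.parent_a
  exact ⟨_, n', hn, by have := H'.dg; rwa [show -(-i - 2 * 3 ^ n - 3 ^ n) - 2 * 3 ^ n' =
    i + 3 ^ (n + 1) - 2 * 3 ^ n' by ring] at this⟩

/-- What follows a `d`-node. -/
lemma Nd.after_d {h : ℕ} {i : ℤ} {n : ℕ} (H : Nd h i d n) :
    ∃ o n', n < n' ∧ Nd h (i + 3 ^ (n + 1) - 2 * 3 ^ n') o n' ∧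
      At (TT h) (i + 2 * 3 ^ n) (DD n ++ [o.bar]) := by
  obtain ⟨o, n', hn, H'⟩ := H.parent_d
  refine ⟨o, n', hn, H', ?_⟩
  obtain ⟨r, hr⟩ := DD_lt hn
  have h1 := H'.atD
  have h2 := len_DD n'
  rw [hr] at h1 h2
  rw [List.append_assoc] at h1
  refine h1.right.cast ?_
  simp only [List.length_append, Nat.cast_add, len_chunk, len_DD] at h2 ⊢
  rw [pow_succ]; linarith

/-- What follows an `a`-node. -/
lemma Nd.after_a {h : ℕ} {i : ℤ} {n : ℕ} (H : Nd h i a n) :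
    Nd h (i + 2 * 3 ^ n) a (n + 1) ∨ ∃ o, Nd h (i - 3 ^ n) o (n + 1) ∧
      At (TT h) (i + 2 * 3 ^ n) (DD (n + 1) ++ [o.bar]) := by
  obtain ⟨o, n', hn, H'⟩ := H.parent_a
  rcases (Nat.succ_le_of_lt hn).eq_or_lt with rfl | hn
  · exact Or.inr ⟨o, H', H'.atD.cast (by rw [pow_succ]; ring)⟩
  · left
    obtain ⟨r, hr⟩ := AA_lt hn
    have h1 := H'.atA
    rw [hr] at h1
    exact ⟨rfl, h1.left.right.cast (by rw [len_AA, pow_succ]; ring)⟩

lemma Nd.after_t {h : ℕ} {i : ℤ} {n : ℕ} (H : Nd h i t n) : Nd h (i + 2 * 3 ^ n) t n := by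
  obtain rfl := H.eq_t
  exact ⟨rfl, H.2.per (by simp [el])⟩

def dl (c o : Lt) : ℕ := if c = A ∧ o = a then 2 else if c = D ∧ o = d then 0 else 1

lemma dl_le (c o : Lt) : dl c o ≤ 2 := by unfold dl; split_ifs <;> omega
lemma dl_mir (c o : Lt) : dl o.mir c.mir + dl c o = 2 := by cases c <;> cases o <;> rfl

/-- Parameters of adjacent siblings. -/
lemma Nd.sib {h : ℕ} {i : ℤ} {o o' : Lt} {n n' : ℕ} (H : Nd h i o n)
    (H' : Nd h (i + 2 * 3 ^ n) o' n') : n' + 1 = n + dl o.bar o' := by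
  have ho := H.1
  cases o <;> simp at ho
  · rcases H.after_a with H2 | ⟨o, -, H2⟩
    · obtain ⟨rfl, rfl⟩ := H2.unique H'; rfl
    · rw [DD_succ, List.append_assoc] at H2
      obtain ⟨rfl, rfl⟩ := Nd.unique ⟨rfl, H2.left⟩ H'; rfl
  · obtain ⟨o, m, -, H1, H2⟩ := H.after_d
    cases n with
    | zero =>
      have h1 := H'.fst
      have h2 := H'.1
      simp at H2
      rw [← h1] at h2
      simp only [pow_zero, mul_one] at h2
      rw [H2] at h2; simp [H1.1] at h2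
    | succ n =>
      rw [DD_succ, List.append_assoc] at H2
      obtain ⟨rfl, rfl⟩ := Nd.unique ⟨rfl, H2.left⟩ H'; rfl
  · obtain ⟨rfl, rfl⟩ := H.after_t.unique H'; rfl

/-- After an opening letter, a run of `a`-chunks is an initial part of the node. -/
lemma Nd.repA {h : ℕ} {i : ℤ} {o : Lt} {n c : ℕ} {u : List Lt} (H : Nd h i o n)
    (hu : Rep ChA c u) (au : At (TT h) (i + 1) u) : c ≤ n ∧ u = AA c := by
  have hc : c ≤ n := star_le det_ChA (· = a) (fun _ => ChA.fst) hu (rep_AA n) au H.atA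
    (by rw [len_AA, show i + 1 + (3 ^ n - 1) = i + 3 ^ n by ring]; exact H.mid_ne)
  refine ⟨hc, det_ChA.rep c _ _ _ _ hu (rep_AA c) au ?_⟩
  rcases hc.eq_or_lt with rfl | hc
  · exact H.atA
  · obtain ⟨r, hr⟩ := AA_lt hc
    have := H.atA
    rw [hr] at this
    exact this.left.left

lemma alpha_pat {h : ℕ} {i : ℤ} {o : Lt} {c : ℕ} {u : List Lt} (ho : o.op = true)
    (hu : Rep ChA c u) (au : At (TT h) i (o :: u)) :
    u = AA c ∧ ∃ n, c ≤ n ∧ Nd h i o n ∧ (TT h (i + 3 ^ c) ≠ a → n = c) := by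
  obtain ⟨n, H⟩ := exists_Nd h i (by rw [au.1]; exact ho)
  rw [au.1] at H
  obtain ⟨h1, h2⟩ := H.repA hu au.2
  refine ⟨h2, n, h1, H, fun hne => ?_⟩
  by_contra hc
  obtain ⟨r, hr⟩ := AA_lt (show c < n by omega)
  have := H.atA
  rw [hr] at this
  have h3 := this.left.right.1
  rw [len_AA, show i + 1 + (3 ^ c - 1) = i + 3 ^ c by ring] at h3
  exact hne h3

lemma delta_pat {h : ℕ} {i : ℤ} {c : Lt} {j : ℕ} {u : List Lt} (hc : c.op = false)
    (hu : Rep ChD j u) (au : At (TT h) i (u ++ [c])) :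
    u = DD j ∧ ∃ n, j ≤ n ∧ Nd h (i + 3 ^ j - 2 * 3 ^ n) c.bar n ∧ (TT h (i - 1) ≠ D → n = j) := by
  have a1 := au.dgT
  rw [dag_append] at a1
  obtain ⟨h1, n, h2, H, h3⟩ := alpha_pat (by simp [hc]) (rep_dag (fun _ => ChD.dg) hu) a1
  have h4 : u = DD j := by rw [← dag_dag u, h1]; rfl
  subst h4
  simp only [List.length_append, Nat.cast_add, len_DD, List.length_singleton] at H h3
  refine ⟨rfl, n, h2, ?_, fun hne => h3 ?_⟩
  · have := H.dg
    rw [← mir_bar, mir_mir] at this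
    rwa [show -(-i - (3 ^ j - 1 + ((1 : ℕ) : ℤ))) - 2 * 3 ^ n = i + 3 ^ j - 2 * 3 ^ n by
      push_cast; ring] at this
  · rw [show -i - (3 ^ j - 1 + ((1 : ℕ) : ℤ)) + 3 ^ j = -1 - (i - 1) by push_cast; ring, TT_neg]
    intro h; apply hne; rw [← mir_mir (TT _ _), h]; rfl

end Pool.Agent.Lib.MP_dfa990_al
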