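import Mathlib
import Pool.Agent.Lib.MP_dfa990_al.Struct

/-! Common continuations of two places with different preceding letters. -/

namespace Pool.Agent.Lib.MP_dfa990_al
open Pool.Agent.Lib.helper29 Lt

def Agr (h1 : ℕ) (i1 : ℤ) (h2 : ℕ) (i2 : ℤ) (p : ℤ) : Prop :=
  ∀ r : ℤ, 0 ≤ r → r < p → TT h1 (i1 + r) = TT h2 (i2 + r)

lemma Agr.symm {h1 h2 : ℕ} {i1 i2 p : ℤ} (H : Agr h1 i1 h2 i2 p) : Agr h2 i2 h1 i1 p :=
  fun r h0 h1 => (H r h0 h1).symm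

lemma Agr.le {h1 h2 : ℕ} {i1 i2 p P : ℤ} (H : Agr h1 i1 h2 i2 p) (hP : 0 ≤ P)
    (hne : TT h1 (i1 + P) ≠ TT h2 (i2 + P)) : p ≤ P := by
  by_contra hc
  exact hne (H P hP (by omega))

lemma Agr.ge {h1 h2 : ℕ} {i1 i2 P : ℤ} {u : List Lt} (hP : 0 ≤ P)
    (hne : TT h1 (i1 + P) ≠ TT h2 (i2 + P)) (a1 : At (TT h1) i1 u) (a2 : At (TT h2) i2 u) :
    (u.length : ℤ) ≤ P := by
  by_contra hc
  exact hne (a1.agree a2 P hP (by omega))

lemma Nd.atA_le {h : ℕ} {i : ℤ} {o : Lt} {n c : ℕ} (H : Nd h i o n) (hc : c ≤ n) :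
    At (TT h) (i + 1) (AA c) := by
  rcases hc.eq_or_lt with rfl | hc
  · exact H.atA
  · obtain ⟨r, hr⟩ := AA_lt hc
    have := H.atA
    rw [hr] at this
    exact this.left.left

lemma Nd.at_a {h : ℕ} {i : ℤ} {o : Lt} {n c : ℕ} (H : Nd h i o n) (hc : c < n) :
    Nd h (i + 3 ^ c) a c := by
  obtain ⟨r, hr⟩ := AA_lt hc
  have := H.atA
  rw [hr] at this
  exact ⟨rfl, this.left.right.cast (by rw [len_AA]; ring)⟩

lemma mm_open_lt {h1 h2 : ℕ} {j1 j2 : ℤ} {o1 o2 : Lt} {n1 n2 : ℕ} (H1 : Nd h1 j1 o1 n1)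
    (H2 : Nd h2 j2 o2 n2) (hn : n1 < n2) : TT h1 (j1 + 3 ^ n1) ≠ TT h2 (j2 + 3 ^ n1) := by
  rw [(H2.at_a hn).fst]; exact H1.mid_ne

lemma at_DD_nd {h : ℕ} {i : ℤ} {n : ℕ} {r : List Lt} (H : At (TT h) i (DD (n + 1) ++ r)) :
    Nd h i d n := by
  rw [DD_succ, List.append_assoc] at H
  exact ⟨rfl, H.left⟩

lemma bound_open_lt {h1 h2 : ℕ} {i1 i2 p : ℤ} {o1 o2 : Lt} {n1 n2 : ℕ} (H1 : Nd h1 (i1 - 1) o1 n1)
    (H2 : Nd h2 (i2 - 1) o2 n2) (hn : n1 < n2) (hag : Agr h1 i1 h2 i2 p) : p ≤ 3 ^ n1 - 1 := by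
  have := pow3_pos n1
  refine hag.le (by omega) ?_
  have := mm_open_lt H1 H2 hn
  rwa [show i1 - 1 + 3 ^ n1 = i1 + (3 ^ n1 - 1) by ring,
    show i2 - 1 + 3 ^ n1 = i2 + (3 ^ n1 - 1) by ring] at this

lemma pow3_le {n m : ℕ} (h : n ≤ m) : (3 : ℤ) ^ n ≤ 3 ^ m := pow_le_pow_right₀ (by norm_num) h

lemma bound_open {h1 h2 : ℕ} {i1 i2 p : ℤ} {o1 o2 : Lt} {n1 n2 : ℕ} (H1 : Nd h1 (i1 - 1) o1 n1)
    (H2 : Nd h2 (i2 - 1) o2 n2) (ho : o1 ≠ o2) (hag : Agr h1 i1 h2 i2 p) :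
    p ≤ 2 * 3 ^ n1 - 2 := by
  have p1 := pow3_pos n1
  rcases lt_trichotomy n1 n2 with hn | rfl | hn
  · have := bound_open_lt H1 H2 hn hag; omega
  · refine hag.le (by omega) ?_
    have e1 := H1.last
    have e2 := H2.last
    rw [show i1 - 1 + 2 * 3 ^ n1 - 1 = i1 + (2 * 3 ^ n1 - 2) by ring] at e1
    rw [show i2 - 1 + 2 * 3 ^ n1 - 1 = i2 + (2 * 3 ^ n1 - 2) by ring] at e2
    rw [e1, e2]; exact fun h => ho (bar_inj h)
  · have := bound_open_lt H2 H1 hn hag.symm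
    have := pow3_le hn.le
    omega

lemma bound_D_lt {h1 h2 : ℕ} {i1 i2 p : ℤ} {c1 c2 : Lt} {n1 n2 : ℕ} (hc1 : c1.op = false)
    (H1 : At (TT h1) i1 (DD n1 ++ [c1])) (H2 : At (TT h2) i2 (DD n2 ++ [c2])) (hn : n1 < n2)
    (hag : Agr h1 i1 h2 i2 p) : 3 * p ≤ 3 ^ n1 := by
  obtain ⟨n2, rfl⟩ : ∃ m, n2 = m + 1 := ⟨n2 - 1, by omega⟩
  have G2 := at_DD_nd H2
  cases n1 with
  | zero =>
    have : p ≤ 0 := hag.le le_rfl (by
      simp at H1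
      rw [add_zero, add_zero, H1, G2.fst]; rintro rfl; simp at hc1)
    simp; omega
  | succ n1 =>
    have G1 := at_DD_nd H1
    have := hag.le (pow3_pos n1).le (mm_open_lt G1 G2 (by omega))
    rw [pow_succ]; omega

lemma Nd.after_not_a {h : ℕ} {i : ℤ} {n : ℕ} (H : Nd h i d n) : TT h (i + 2 * 3 ^ n) ≠ a := by
  obtain ⟨o, n', -, H1, H2⟩ := H.after_d
  exact H2.DD_ne_a (by simp [H1.1])

/-- The situation after an `a`-node whose continuation agrees with one after a `d`-node. -/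
lemma AD_cases {h1 h2 : ℕ} {i1 i2 : ℤ} {n1 n2 : ℕ} (H1 : Nd h1 (i1 - 2 * 3 ^ n1) a n1)
    (H2 : Nd h2 (i2 - 2 * 3 ^ n2) d n2) :
    TT h1 i1 ≠ TT h2 i2 ∨ ∃ o1 o2 m, n2 < m ∧ Nd h1 (i1 - 3 ^ (n1 + 1)) o1 (n1 + 1) ∧
      At (TT h1) i1 (DD (n1 + 1) ++ [o1.bar]) ∧ Nd h2 (i2 + 3 ^ n2 - 2 * 3 ^ m) o2 m ∧
      At (TT h2) i2 (DD n2 ++ [o2.bar]) := by
  rcases H1.after_a with G | ⟨o1, G1, G2⟩
  · left
    have e1 := G.fst
    have e2 := H2.after_not_a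
    rw [sub_add_cancel] at e1 e2
    rw [e1]; exact e2.symm
  · right
    obtain ⟨o2, m, hm, G3, G4⟩ := H2.after_d
    rw [sub_add_cancel] at G2 G4
    refine ⟨o1, o2, m, hm, ?_, G2, ?_, G4⟩
    · rwa [show i1 - 2 * 3 ^ n1 - 3 ^ n1 = i1 - 3 ^ (n1 + 1) by ring] at G1
    · rwa [show i2 - 2 * 3 ^ n2 + 3 ^ (n2 + 1) - 2 * 3 ^ m = i2 + 3 ^ n2 - 2 * 3 ^ m by ring] at G3

lemma bound_AD_lt {h1 h2 : ℕ} {i1 i2 p : ℤ} {n1 n2 : ℕ} (H1 : Nd h1 (i1 - 2 * 3 ^ n1) a n1)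
    (H2 : Nd h2 (i2 - 2 * 3 ^ n2) d n2) (hn : n1 + 1 < n2) (hag : Agr h1 i1 h2 i2 p) :
    p ≤ 3 ^ n1 := by
  rcases AD_cases H1 H2 with hne | ⟨o1, o2, m, -, G1, G2, G3, G4⟩
  · have := hag.le le_rfl (by simpa using hne)
    have := pow3_pos n1; omega
  · have := bound_D_lt (by simp [G1.1]) G2 G4 hn hag
    rw [pow_succ] at this; omega

lemma bound_AD_gt {h1 h2 : ℕ} {i1 i2 p : ℤ} {n1 n2 : ℕ} (H1 : Nd h1 (i1 - 2 * 3 ^ n1) a n1)
    (H2 : Nd h2 (i2 - 2 * 3 ^ n2) d n2) (hn : n2 < n1 + 1) (hag : Agr h1 i1 h2 i2 p) :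
    3 * p ≤ 3 ^ n2 := by
  rcases AD_cases H1 H2 with hne | ⟨o1, o2, m, -, G1, G2, G3, G4⟩
  · have := hag.le le_rfl (by simpa using hne)
    have := pow3_pos n2; omega
  · exact bound_D_lt (by simp [G3.1]) G4 G2 hn hag.symm

/-- Two nodes with the same closing letter, the first one smaller, both followed by the same
opening letter. -/
lemma next_lt {h1 h2 : ℕ} {j1 j2 : ℤ} {o : Lt} {n1 n2 : ℕ} (H1 : Nd h1 (j1 - 2 * 3 ^ n1) o n1)
    (H2 : Nd h2 (j2 - 2 * 3 ^ n2) o n2) (hn : n1 < n2) {o' : Lt} (ho' : o'.op = true)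
    (e1 : TT h1 j1 = o') (e2 : TT h2 j2 = o') :
    ∃ m1 m2, m1 + 1 = n1 + dl o.bar o' ∧ m1 < m2 ∧ Nd h1 j1 o' m1 ∧ Nd h2 j2 o' m2 := by
  obtain ⟨m1, G1⟩ := exists_Nd h1 j1 (by rw [e1]; exact ho')
  obtain ⟨m2, G2⟩ := exists_Nd h2 j2 (by rw [e2]; exact ho')
  rw [e1] at G1; rw [e2] at G2
  have s1 := H1.sib (by rwa [sub_add_cancel])
  have s2 := H2.sib (by rwa [sub_add_cancel])
  exact ⟨m1, m2, s1, by omega, G1, G2⟩

lemma bound_AD_eq {h1 h2 : ℕ} {i1 i2 p : ℤ} {n1 r1 r2 : ℕ} {u1 u2 : List Lt} {c1 c2 o1 o2 : Lt}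
    (H1 : Nd h1 (i1 - 2 * 3 ^ n1) a n1) (hx : TT h2 (i2 - 1) = D)
    (hu1 : Rep ChD r1 u1) (hu2 : Rep ChD r2 u2) (hc1 : c1.op = false) (hc2 : c2.op = false)
    (a1 : At (TT h1) i1 (u1 ++ [c1, o1])) (a2 : At (TT h2) i2 (u2 ++ [c2, o2]))
    (hag : Agr h1 i1 h2 i2 p) :
    (c1 ≠ c2 → p ≤ 3 ^ (n1 + 1) - 1) ∧ (o1 ≠ o2 → p ≤ 3 ^ (n1 + 1)) ∧
      (o1.op = true → 3 * p ≤ 3 ^ (n1 + 2) + 3 ^ (n1 + 1 + dl c1 o1)) := by
  have p1 := pow3_pos n1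
  have p2 := pow3_pos (n1 + 1 + dl c1 o1)
  have q1 : (3 : ℤ) ^ (n1 + 1) = 3 * 3 ^ n1 := by ring
  have q2 : (3 : ℤ) ^ (n1 + 2) = 9 * 3 ^ n1 := by ring
  obtain ⟨n2, H2⟩ := exists_Nd_close h2 (i2 - 1) (by rw [hx]; rfl)
  rw [hx, sub_add_cancel, bar_D] at H2
  rcases AD_cases H1 H2 with hne | ⟨x1, x2, m, hm, G1, G2, G3, G4⟩
  · have := hag.le le_rfl (by simpa using hne)
    refine ⟨fun _ => by omega, fun _ => by omega, fun _ => by omega⟩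
  rcases lt_trichotomy (n1 + 1) n2 with hn | rfl | hn
  · have := bound_AD_lt H1 H2 hn hag
    refine ⟨fun _ => by omega, fun _ => by omega, fun _ => by omega⟩
  swap
  · have := bound_AD_gt H1 H2 hn hag
    have := pow3_le (show n2 ≤ n1 by omega)
    refine ⟨fun _ => by omega, fun _ => by omega, fun _ => by omega⟩
  have b1 : At (TT h1) i1 (u1 ++ [c1]) := by
    rw [show u1 ++ [c1, o1] = (u1 ++ [c1]) ++ [o1] by simp] at a1; exact a1.left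
  have b2 : At (TT h2) i2 (u2 ++ [c2]) := by
    rw [show u2 ++ [c2, o2] = (u2 ++ [c2]) ++ [o2] by simp] at a2; exact a2.left
  obtain ⟨-, rfl⟩ := star_det det_ChD (· = d) (fun _ => ChD.fst) hu1 (rep_DD _) b1.left G2.left
    (by rw [b1.right.1]; rintro rfl; simp at hc1)
    (by rw [G2.right.1]; intro h; have := G1.1; rw [← bar_bar x1, h] at this; simp at this)
  obtain ⟨-, rfl⟩ := star_det det_ChD (· = d) (fun _ => ChD.fst) hu2 (rep_DD _) b2.left G4.left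
    (by rw [b2.right.1]; rintro rfl; simp at hc2)
    (by rw [G4.right.1]; intro h; have := G3.1; rw [← bar_bar x2, h] at this; simp at this)
  have e1 := a1.right
  have e2 := a2.right
  have f1 := G2.right.1
  have f2 := G4.right.1
  rw [len_DD] at e1 e2 f1 f2
  have g1 : TT h1 (i1 + 3 ^ (n1 + 1)) = o1 := by rw [← e1.2.1]; congr 1; ring
  have g2 : TT h2 (i2 + 3 ^ (n1 + 1)) = o2 := by rw [← e2.2.1]; congr 1; ring
  have k1 : c1 ≠ c2 → p ≤ 3 ^ (n1 + 1) - 1 := fun hne =>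
    hag.le (by omega) (by rw [e1.1, e2.1]; exact hne)
  have k2 : o1 ≠ o2 → p ≤ 3 ^ (n1 + 1) := fun hne =>
    hag.le (by omega) (by rw [g1, g2]; exact hne)
  refine ⟨k1, k2, fun ho => ?_⟩
  by_cases hc : c1 = c2
  swap
  · have := k1 hc; omega
  by_cases hoo : o1 = o2
  swap
  · have := k2 hoo; omega
  subst hc hoo
  obtain rfl : x1 = x2 := bar_inj (by rw [← f1, ← f2, e1.1, e2.1])
  obtain rfl : c1 = x1.bar := by rw [← f1, e1.1]
  obtain ⟨m1, m2, s1, hlt, K1, K2⟩ := next_lt (j1 := i1 + 3 ^ (n1 + 1)) (j2 := i2 + 3 ^ (n1 + 1))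
    (by rwa [show i1 + 3 ^ (n1 + 1) - 2 * 3 ^ (n1 + 1) = i1 - 3 ^ (n1 + 1) by ring]) G3 hm ho g1 g2
  have := hag.le (P := 3 ^ (n1 + 1) + 3 ^ m1) (by positivity)
    (by rw [← add_assoc, ← add_assoc]; exact mm_open_lt K1 K2 hlt)
  rw [← s1, pow_succ 3 m1]; omega

/-- The unbounded cases of the classification. -/
def Big (h1 : ℕ) (i1 : ℤ) (h2 : ℕ) (i2 : ℤ) (P : ℤ) : Prop :=
  (∃ o1 o2 n1 n2, 2 ≤ n1 ∧ Nd h1 (i1 - 1) o1 n1 ∧ Nd h2 (i2 - 1) o2 n2 ∧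
    ((n1 = n2 ∧ P = 2 * 3 ^ n1 - 2) ∨ (n1 < n2 ∧ P = 3 ^ n1 - 1))) ∨
  (∃ n1 n2 c1 c2, 1 ≤ n1 ∧ 2 ≤ n2 ∧ Nd h1 (i1 - 2 * 3 ^ n1) a n1 ∧ Nd h2 (i2 - 2 * 3 ^ n2) d n2 ∧
    c1.op = false ∧ c2.op = false ∧
    At (TT h1) i1 (DD (n1 + 1) ++ [c1]) ∧ At (TT h2) i2 (DD n2 ++ [c2]) ∧
    ((n1 + 1 < n2 ∧ P = 3 ^ n1) ∨ (n2 < n1 + 1 ∧ 3 * P = 3 ^ n2) ∨
      (n2 = n1 + 1 ∧ ((c1 ≠ c2 ∧ P = 3 ^ n2 - 1) ∨
        (c1 = c2 ∧ TT h1 (i1 + 3 ^ n2) ≠ TT h2 (i2 + 3 ^ n2) ∧ P = 3 ^ n2) ∨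
        (c1 = c2 ∧ ∃ o m, o.op = true ∧ m + 1 = n2 + dl c1 o ∧ P = 3 ^ n2 + 3 ^ m ∧
          At (TT h1) (i1 + 3 ^ n2) (o :: AA m) ∧ At (TT h2) (i2 + 3 ^ n2) (o :: AA m))))))

lemma class_open {h1 h2 : ℕ} {i1 i2 P : ℤ} {o1 o2 : Lt} {n1 n2 : ℕ} (H1 : Nd h1 (i1 - 1) o1 n1)
    (H2 : Nd h2 (i2 - 1) o2 n2) (ho : o1 ≠ o2) (hn : n1 ≤ n2) (hP : 0 ≤ P)
    (hag : Agr h1 i1 h2 i2 P) (hne : TT h1 (i1 + P) ≠ TT h2 (i2 + P)) :
    P ≤ 12 ∨ Big h1 i1 h2 i2 P := by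
  have b1 := bound_open H1 H2 ho hag
  by_cases h2 : n1 ≤ 1
  · have := pow3_le h2; left; omega
  right; left
  refine ⟨o1, o2, n1, n2, by omega, H1, H2, ?_⟩
  rcases hn.eq_or_lt with rfl | hn
  · left
    have a1 := H1.2.2
    have a2 := H2.2.2
    rw [sub_add_cancel] at a1 a2
    have := Agr.ge hP hne (At.left a1) (At.left a2)
    simp only [List.length_append, Nat.cast_add, len_AA, len_DD] at this
    exact ⟨rfl, by omega⟩
  · right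
    have a1 := H1.atA
    have a2 := H2.atA_le hn.le
    rw [sub_add_cancel] at a1 a2
    have := Agr.ge hP hne a1 a2
    rw [len_AA] at this
    have := bound_open_lt H1 H2 hn hag
    exact ⟨hn, by omega⟩

lemma Nd.next_op {h : ℕ} {i : ℤ} {o : Lt} {n : ℕ} (H : Nd h i o n) (hn : 1 ≤ n) :
    (TT h (i + 2 * 3 ^ n)).op = true := by
  have ho := H.1
  cases o <;> simp at ho
  · rcases H.after_a with G | ⟨o, -, G⟩
    · rw [G.fst]; rfl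
    · rw [(at_DD_nd G).fst]; rfl
  · obtain ⟨o, m, -, -, G⟩ := H.after_d
    obtain ⟨n, rfl⟩ : ∃ m, n = m + 1 := ⟨n - 1, by omega⟩
    rw [(at_DD_nd G).fst]; rfl
  · rw [H.after_t.fst]; rfl

lemma class_AD {h1 h2 : ℕ} {i1 i2 P : ℤ} (x1 : TT h1 (i1 - 1) = A) (x2 : TT h2 (i2 - 1) = D)
    (hP : 0 ≤ P) (hag : Agr h1 i1 h2 i2 P) (hne : TT h1 (i1 + P) ≠ TT h2 (i2 + P)) :
    P ≤ 12 ∨ Big h1 i1 h2 i2 P := by
  obtain ⟨n1, H1⟩ := exists_Nd_close h1 (i1 - 1) (by rw [x1]; rfl)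
  obtain ⟨n2, H2⟩ := exists_Nd_close h2 (i2 - 1) (by rw [x2]; rfl)
  rw [x1, sub_add_cancel, bar_A] at H1
  rw [x2, sub_add_cancel, bar_D] at H2
  rcases AD_cases H1 H2 with hne | ⟨y1, y2, m, hm, G1, G2, G3, G4⟩
  · have := hag.le le_rfl (by simpa using hne); left; omega
  have c1 : y1.bar.op = false := by simp [G1.1]
  have c2 : y2.bar.op = false := by simp [G3.1]
  rcases lt_trichotomy (n1 + 1) n2 with hn | rfl | hn
  · have b := bound_AD_lt H1 H2 hn hag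
    by_cases h0 : n1 = 0
    · subst h0; left; omega
    right; right
    refine ⟨n1, n2, _, _, by omega, by omega, H1, H2, c1, c2, G2, G4, Or.inl ⟨hn, ?_⟩⟩
    obtain ⟨n2, rfl⟩ : ∃ m, n2 = m + 1 := ⟨n2 - 1, by omega⟩
    have K1 := at_DD_nd G2
    have K2 := at_DD_nd G4
    have := Agr.ge (u := d :: AA n1) hP hne ⟨K1.fst, K1.atA⟩ ⟨K2.fst, K2.atA_le (by omega)⟩
    simp only [List.length_cons, Nat.cast_add, len_AA] at this
    omega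
  swap
  · have b := bound_AD_gt H1 H2 hn hag
    by_cases h0 : n2 ≤ 1
    · have := pow3_le h0; left; omega
    right; right
    refine ⟨n1, n2, _, _, by omega, by omega, H1, H2, c1, c2, G2, G4, Or.inr (Or.inl ⟨hn, ?_⟩)⟩
    obtain ⟨n2, rfl⟩ : ∃ m, n2 = m + 1 := ⟨n2 - 1, by omega⟩
    have K1 := at_DD_nd G2
    have K2 := at_DD_nd G4
    have := Agr.ge (u := d :: AA n2) hP hne ⟨K1.fst, K1.atA_le (by omega)⟩ ⟨K2.fst, K2.atA⟩
    simp only [List.length_cons, Nat.cast_add, len_AA] at this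
    rw [pow_succ] at b ⊢
    omega
  have a1 : At (TT h1) i1 (DD (n1 + 1) ++ [y1.bar, TT h1 (i1 + 3 ^ (n1 + 1))]) := by
    rw [show ∀ x y : Lt, DD (n1 + 1) ++ [x, y] = (DD (n1 + 1) ++ [x]) ++ [y] by simp]
    exact G2.app (j := i1 + 3 ^ (n1 + 1)) ⟨rfl, trivial⟩ (by simp [len_DD])
  have a2 : At (TT h2) i2 (DD (n1 + 1) ++ [y2.bar, TT h2 (i2 + 3 ^ (n1 + 1))]) := by
    rw [show ∀ x y : Lt, DD (n1 + 1) ++ [x, y] = (DD (n1 + 1) ++ [x]) ++ [y] by simp]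
    exact G4.app (j := i2 + 3 ^ (n1 + 1)) ⟨rfl, trivial⟩ (by simp [len_DD])
  obtain ⟨k1, k2, k3⟩ := bound_AD_eq H1 x2 (rep_DD _) (rep_DD _) c1 c2 a1 a2 hag
  have ho : (TT h1 (i1 + 3 ^ (n1 + 1))).op = true := by
    have := G1.next_op (by omega)
    rwa [show i1 - 3 ^ (n1 + 1) + 2 * 3 ^ (n1 + 1) = i1 + 3 ^ (n1 + 1) by ring] at this
  by_cases h0 : n1 = 0
  · subst h0
    have := k3 ho
    have := pow3_le (show 0 + 1 + dl y1.bar (TT h1 (i1 + 3 ^ (0 + 1))) ≤ 3 by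
      have := dl_le y1.bar (TT h1 (i1 + 3 ^ (0 + 1))); omega)
    left; omega
  right; right
  refine ⟨n1, n1 + 1, _, _, by omega, by omega, H1, H2, c1, c2, G2, G4, Or.inr (Or.inr ⟨rfl, ?_⟩)⟩
  by_cases hc : y1.bar = y2.bar
  swap
  · left
    have := Agr.ge hP hne G2.left G4.left
    rw [len_DD] at this
    have := k1 hc
    exact ⟨hc, by omega⟩
  right
  by_cases hoo : TT h1 (i1 + 3 ^ (n1 + 1)) = TT h2 (i2 + 3 ^ (n1 + 1))
  swap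
  · left
    have := Agr.ge hP hne G2 (hc ▸ G4)
    simp only [List.length_append, Nat.cast_add, len_DD, List.length_singleton] at this
    have := k2 hoo
    exact ⟨hc, hoo, by omega⟩
  right
  obtain rfl : y1 = y2 := bar_inj hc
  obtain ⟨m1, m2, s1, hlt, K1, K2⟩ := next_lt (j1 := i1 + 3 ^ (n1 + 1)) (j2 := i2 + 3 ^ (n1 + 1))
    (by rwa [show i1 + 3 ^ (n1 + 1) - 2 * 3 ^ (n1 + 1) = i1 - 3 ^ (n1 + 1) by ring]) G3 hm ho
    rfl hoo.symm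
  have b1 : At (TT h1) (i1 + 3 ^ (n1 + 1)) (TT h1 (i1 + 3 ^ (n1 + 1)) :: AA m1) := ⟨rfl, K1.atA⟩
  have b2 : At (TT h2) (i2 + 3 ^ (n1 + 1)) (TT h1 (i1 + 3 ^ (n1 + 1)) :: AA m1) :=
    ⟨hoo.symm, K2.atA_le hlt.le⟩
  refine ⟨rfl, _, m1, ho, s1, ?_, b1, b2⟩
  have := Agr.ge hP hne (G2.app b1 (by simp [len_DD])) (G4.app b2 (by simp [len_DD]))
  simp only [List.length_append, Nat.cast_add, len_DD, List.length_cons, len_AA,
    List.length_nil] at this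
  have := k3 ho
  rw [← s1, pow_succ 3 m1, pow_succ 3 (n1 + 1)] at this
  omega

lemma class_open_close {h1 h2 : ℕ} {i1 i2 P : ℤ} (x1 : (TT h1 (i1 - 1)).op = true)
    (x2 : (TT h2 (i2 - 1)).op = false) (hag : Agr h1 i1 h2 i2 P) : P ≤ 12 := by
  obtain ⟨n1, H1⟩ := exists_Nd h1 (i1 - 1) x1
  obtain ⟨n2, H2⟩ := exists_Nd_close h2 (i2 - 1) x2
  rw [sub_add_cancel] at H2
  generalize TT h1 (i1 - 1) = o1 at H1
  generalize (TT h2 (i2 - 1)).bar = o2 at H2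
  have ho1 := H1.1
  have ho2 := H2.1
  by_contra hP
  have e0 := hag 0 (by omega) (by omega)
  have e1 := hag 1 (by omega) (by omega)
  rw [add_zero, add_zero] at e0
  cases n1 with
  | succ n1 =>
    have K := (H1.at_a (show 0 < n1 + 1 by omega)).2
    simp only [pow_zero, sub_add_cancel, chunk, AA_zero, DD_zero, List.append_nil, List.cons_append,
      List.nil_append, At_cons, bar_a] at K
    rw [K.1] at e0; rw [K.2.1] at e1
    cases o2 <;> simp at ho2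
    · rcases H2.after_a with G | ⟨o, -, G⟩
      · have := (G.at_a (show 0 < n2 + 1 by omega)).fst
        rw [sub_add_cancel, pow_zero, ← e1] at this; simp at this
      · have := (at_DD_nd G).fst
        rw [sub_add_cancel, ← e0] at this; simp at this
    · have := H2.after_not_a
      rw [sub_add_cancel, ← e0] at this; simp at this
    · have := H2.after_t.fst
      rw [sub_add_cancel, ← e0] at this; simp at this
  | zero =>
    have f1 := H1.last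
    rw [show i1 - 1 + 2 * 3 ^ 0 - 1 = i1 by ring] at f1
    have hn2 : n2 = 0 := by
      by_contra hn
      have := H2.next_op (by omega)
      rw [sub_add_cancel, ← e0, f1] at this; simp [ho1] at this
    subst hn2
    cases o2 <;> simp at ho2
    · rcases H2.after_a with G | ⟨o, -, G⟩
      · have := G.fst
        rw [sub_add_cancel, ← e0, f1] at this; rw [← bar_bar o1, this] at ho1; simp at ho1
      · have := (at_DD_nd G).fst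
        rw [sub_add_cancel, ← e0, f1] at this; rw [← bar_bar o1, this] at ho1; simp at ho1
    · obtain ⟨o, m, hm, G1, G2⟩ := H2.after_d
      simp only [pow_zero, mul_one, sub_add_cancel, DD_zero, List.nil_append, At_cons] at G2
      obtain rfl : o1 = o := bar_inj (by rw [← f1, e0, G2.1])
      have ho : (TT h2 (i2 + 1)).op = true := by
        have := G1.next_op hm
        rwa [show i2 - 2 * 3 ^ 0 + 3 ^ (0 + 1) - 2 * 3 ^ m + 2 * 3 ^ m = i2 + 1 by ring] at this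
      obtain ⟨m1, m2, s1, hlt, K1, K2⟩ := next_lt (j1 := i1 + 1) (j2 := i2 + 1) (n1 := 0)
        (by rwa [show i1 + 1 - 2 * 3 ^ 0 = i1 - 1 by ring])
        (by rwa [show i2 - 2 * 3 ^ 0 + 3 ^ (0 + 1) - 2 * 3 ^ m = i2 + 1 - 2 * 3 ^ m by ring] at G1)
        hm ho e1 rfl
      have := hag.le (P := 1 + 3 ^ m1) (by positivity)
        (by rw [← add_assoc, ← add_assoc]; exact mm_open_lt K1 K2 hlt)
      have := pow3_le (show m1 ≤ 1 by have := dl_le o1.bar (TT h2 (i2 + 1)); omega)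
      omega
    · have := H2.after_t.fst
      rw [sub_add_cancel, ← e0, f1] at this; rw [← bar_bar o1, this] at ho1; simp at ho1

lemma class_T {h1 h2 : ℕ} {i1 i2 P : ℤ} (x1 : TT h1 (i1 - 1) = T)
    (x2 : TT h2 (i2 - 1) ≠ T) (hag : Agr h1 i1 h2 i2 P) : P ≤ 12 := by
  have : P ≤ 0 := hag.le le_rfl (by
    rw [TT_eq_T, sub_add_cancel, ← TT_eq_t] at x1
    rw [add_zero, add_zero, x1]
    intro h
    apply x2
    rw [TT_eq_T, sub_add_cancel, ← TT_eq_t]; exact h.symm)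
  omega

theorem classify {h1 h2 : ℕ} {i1 i2 P : ℤ} (hx : TT h1 (i1 - 1) ≠ TT h2 (i2 - 1)) (hP : 0 ≤ P)
    (hag : Agr h1 i1 h2 i2 P) (hne : TT h1 (i1 + P) ≠ TT h2 (i2 + P)) :
    P ≤ 12 ∨ Big h1 i1 h2 i2 P ∨ Big h2 i2 h1 i1 P := by
  cases o1 : (TT h1 (i1 - 1)).op <;> cases o2 : (TT h2 (i2 - 1)).op
  · by_cases t1 : TT h1 (i1 - 1) = T
    · exact Or.inl (class_T t1 (t1 ▸ hx.symm) hag)
    by_cases t2 : TT h2 (i2 - 1) = T
    · exact Or.inl (class_T t2 t1 hag.symm)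
    have : (TT h1 (i1 - 1) = A ∧ TT h2 (i2 - 1) = D) ∨ (TT h1 (i1 - 1) = D ∧ TT h2 (i2 - 1) = A) := by
      revert hx o1 o2 t1 t2
      cases TT h1 (i1 - 1) <;> cases TT h2 (i2 - 1) <;> simp
    rcases this with ⟨e1, e2⟩ | ⟨e1, e2⟩
    · rcases class_AD e1 e2 hP hag hne with h | h
      · exact Or.inl h
      · exact Or.inr (Or.inl h)
    · rcases class_AD e2 e1 hP hag.symm hne.symm with h | h
      · exact Or.inl h
      · exact Or.inr (Or.inr h)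
  · exact Or.inl (class_open_close o2 o1 hag.symm)
  · exact Or.inl (class_open_close o1 o2 hag)
  · obtain ⟨n1, H1⟩ := exists_Nd _ _ o1
    obtain ⟨n2, H2⟩ := exists_Nd _ _ o2
    rcases le_total n1 n2 with hn | hn
    · rcases class_open H1 H2 hx hn hP hag hne with h | h
      · exact Or.inl h
      · exact Or.inr (Or.inl h)
    · rcases class_open H2 H1 hx.symm hn hP hag.symm hne.symm with h | h
      · exact Or.inl h
      · exact Or.inr (Or.inr h)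

end Pool.Agent.Lib.MP_dfa990_al
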