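import Mathlib
import Pool.Agent.Lib.MP_dfa990_al.Classify

/-! Breakers: context-free certificates that a word does not occur in any text. -/

namespace Pool.Agent.Lib.MP_dfa990_al
open Pool.Agent.Lib.helper29 Lt

def ok2 : Lt → Lt → Bool
  | a, a => true | a, A => true | d, a => true | d, D => true | t, a => true
  | A, a => true | A, d => true | D, d => true | D, A => true | D, D => true | D, T => true
  | T, t => true | _, _ => false

lemma ok2_TT (h : ℕ) (i : ℤ) :
    ok2 (TT h i) (TT h (i + 1)) = true ∨ (h = 0 ∧ TT h i = t ∧ TT h (i + 1) = T) := by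
  induction h generalizing i with
  | zero => simp only [TT]; split_ifs <;> first | omega | simp [ok2]
  | succ h ih =>
    left
    obtain ⟨q, r, rfl, hr⟩ : ∃ q r, i = 3 * q + r ∧ (r = 0 ∨ r = 1 ∨ r = 2) :=
      ⟨i / 3, i % 3, by omega, by omega⟩
    have e0 := TT_succ' h q 0 (by omega) (by omega)
    have e1 := TT_succ' h q 1 (by omega) (by omega)
    have e2 := TT_succ' h q 2 (by omega) (by omega)
    have e3 := TT_succ' h (q + 1) 0 (by omega) (by omega)
    rcases hr with rfl | rfl | rfl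
    · rw [show 3 * q + 0 + 1 = 3 * q + 1 by ring, e0, e1]; cases TT h q <;> rfl
    · rw [show 3 * q + 1 + 1 = 3 * q + 2 by ring, e1, e2]; cases TT h q <;> rfl
    · rw [show 3 * q + 2 + 1 = 3 * (q + 1) + 0 by ring, e2, e3]
      have := ih q
      revert this
      cases TT h q <;> cases TT h (q + 1) <;> simp [ok2, muf]

def Brk (v : List Lt) : Prop :=
  (∃ x y, ok2 x y = false ∧ v = [x, y]) ∨
  (∃ o x, o.op = true ∧ x ≠ A ∧ v = [o, a, x]) ∨
  (∃ x c, c.op = false ∧ x ≠ d ∧ v = [x, D, c]) ∨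
  (∃ o c, (o.op = true ∧ c.op = false ∧ c ≠ o.bar) ∧ ∃ r u, Rep Ch r u ∧ v = o :: u ++ [c]) ∨
  (∃ x c o y, (x ≠ D ∧ y ≠ a ∧ c.op = false ∧ o.op = true) ∧ ∃ n n' u u', Rep ChD n u ∧
    Rep ChA n' u' ∧ n' + 1 ≠ n + dl c o ∧ v = x :: u ++ [c, o] ++ u' ++ [y])

lemma open_a_A {h : ℕ} {i : ℤ} (ho : (TT h i).op = true) (ha : TT h (i + 1) = a) :
    TT h (i + 1 + 1) = A := by
  obtain ⟨n, H⟩ := exists_Nd h i ho
  cases n with
  | zero => have := H.mid_ne; simp [ha] at this
  | succ n =>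
    have := (H.at_a (show 0 < n + 1 by omega)).last
    rw [show i + 3 ^ 0 + 2 * 3 ^ 0 - 1 = i + 1 + 1 by ring] at this
    exact this

lemma Nd.close {h : ℕ} {i : ℤ} {o c : Lt} {n r : ℕ} {u : List Lt} (H : Nd h i o n)
    (hu : Rep Ch r u) (hc : c.op = false) (au : At (TT h) (i + 1) (u ++ [c])) :
    u = AA n ++ DD n ∧ c = o.bar := by
  have a1 : At (TT h) (i + 1) (AA n ++ DD n ++ [o.bar]) := H.2.2
  obtain ⟨-, rfl⟩ := star_det det_Ch (fun x => x.op = true) (fun _ => Ch.fst) hu (rep_AD n)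
    au.left a1.left (by rw [au.right.1]; simp [hc]) (by rw [a1.right.1]; simp [H.1])
  exact ⟨rfl, au.right.1.symm.trans a1.right.1⟩

lemma sib_pat {h : ℕ} {i : ℤ} {x c o y : Lt} {n n' : ℕ} {u u' : List Lt} (hx : x ≠ D) (hy : y ≠ a)
    (hc : c.op = false) (ho : o.op = true) (hu : Rep ChD n u) (hu' : Rep ChA n' u')
    (hv : At (TT h) i (x :: u ++ [c, o] ++ u' ++ [y])) : n' + 1 = n + dl c o := by
  have e : x :: u ++ [c, o] ++ u' ++ [y] = [x] ++ ((u ++ [c]) ++ ((o :: u') ++ [y])) := by simp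
  rw [e] at hv
  have b1 := hv.right.left
  have b2 := hv.right.right.left
  have b3 := hv.right.right.right.1
  obtain ⟨rfl, m, -, H, k⟩ := delta_pat hc hu b1
  obtain ⟨rfl, m', -, H', k'⟩ := alpha_pat ho hu' b2
  simp only [List.length_append, List.length_cons, List.length_nil, Nat.cast_add, len_DD, len_AA,
    Nat.cast_one, zero_add] at H H' k k' b3
  obtain rfl := k (by rw [show i + 1 - 1 = i by ring, hv.1]; exact hx)
  obtain rfl := k' (by
    rw [show i + 1 + (3 ^ m - 1 + 1) + 3 ^ n' = i + 1 + (3 ^ m - 1 + 1) + (3 ^ n' - 1 + 1) by ring, b3]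
    exact hy)
  have := H.sib (by
    rwa [show i + 1 + 3 ^ m - 2 * 3 ^ m + 2 * 3 ^ m = i + 1 + (3 ^ m - 1 + 1) by ring])
  simpa using this

lemma Brk.sound {v : List Lt} (hv : Brk v) {h : ℕ} (hh : 1 ≤ h) {i : ℤ} : ¬ At (TT h) i v := by
  intro av
  rcases hv with ⟨x, y, hxy, rfl⟩ | ⟨o, x, ho, hx, rfl⟩ | ⟨x, c, hc, hx, rfl⟩ |
    ⟨o, c, ⟨ho, hc, hne⟩, r, u, hu, rfl⟩ | ⟨x, c, o, y, ⟨hx, hy, hc, ho⟩, n, n', u, u', hu, hu', hne, rfl⟩
  · have := ok2_TT h i
    rw [av.1, av.2.1, hxy] at this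
    simp at this; omega
  · exact hx (av.2.2.1.symm.trans (open_a_A (by rw [av.1]; exact ho) av.2.1))
  · have b := av.dgT
    simp only [dag_cons, dag_nil, List.nil_append, List.cons_append, At_cons] at b
    have := open_a_A (by rw [b.1]; simp [hc]) b.2.1
    rw [b.2.2.1] at this
    exact hx (by rw [← mir_mir x, this]; rfl)
  · obtain ⟨n, H⟩ := exists_Nd h i (by rw [av.1]; exact ho)
    rw [av.1] at H
    exact hne (H.close hu hc av.2).2
  · exact hne (sib_pat hx hy hc ho hu hu' av)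

lemma rep_count {K : List Lt → Prop} (hK : ∀ x, K x → Ch x) {n : ℕ} {u : List Lt}
    (hu : Rep K n u) : u.count t = 0 ∧ u.count T = 0 := bal_count (rep_bal (hu.mono hK))

lemma count_single_le (x y : Lt) : (if (x == y) = true then 1 else 0) ≤ 1 := by split_ifs <;> omega

lemma Brk.small {v : List Lt} (hv : Brk v) : v.count t ≤ 4 ∧ v.count T ≤ 4 ∧ v ≠ [] := by
  rcases hv with ⟨x, y, hxy, rfl⟩ | ⟨o, x, ho, hx, rfl⟩ | ⟨x, c, hc, hx, rfl⟩ |
    ⟨o, c, -, r, u, hu, rfl⟩ | ⟨x, c, o, y, -, n, n', u, u', hu, hu', hne, rfl⟩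
  · exact ⟨List.count_le_length.trans (by simp), List.count_le_length.trans (by simp), by simp⟩
  · exact ⟨List.count_le_length.trans (by simp), List.count_le_length.trans (by simp), by simp⟩
  · exact ⟨List.count_le_length.trans (by simp), List.count_le_length.trans (by simp), by simp⟩
  · obtain ⟨h1, h2⟩ := rep_count (fun _ h => h) hu
    simp only [List.count_append, List.count_cons, List.count_nil, h1, h2]
    refine ⟨?_, ?_, by simp⟩ <;> split_ifs <;> omega
  · obtain ⟨h1, h2⟩ := rep_count (fun _ => ChD.ch) hu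
    obtain ⟨h3, h4⟩ := rep_count (fun _ => ChA.ch) hu'
    simp only [List.count_append, List.count_cons, List.count_nil, h1, h2, h3, h4]
    refine ⟨?_, ?_, by simp⟩ <;> split_ifs <;> omega

lemma cf_ChA : CF ChA :=
  ((CF.single [a]).append ((CF.bal mt).append (CF.single [A]))).congr (fun w => by
    constructor
    · rintro ⟨_, _, rfl, ⟨x, _, hx, rfl, rfl⟩, rfl⟩; exact ⟨x, hx, rfl⟩
    · rintro ⟨x, hx, rfl⟩; exact ⟨_, _, rfl, ⟨x, _, hx, rfl, rfl⟩, rfl⟩)
lemma cf_ChD : CF ChD :=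
  ((CF.single [d]).append ((CF.bal mt).append (CF.single [D]))).congr (fun w => by
    constructor
    · rintro ⟨_, _, rfl, ⟨x, _, hx, rfl, rfl⟩, rfl⟩; exact ⟨x, hx, rfl⟩
    · rintro ⟨x, hx, rfl⟩; exact ⟨_, _, rfl, ⟨x, _, hx, rfl, rfl⟩, rfl⟩)
lemma cf_Ch : CF Ch := cf_ChA.or cf_ChD

lemma CF.dg {P : List Lt → Prop} (h : CF P) : CF (fun w => P (dag w)) :=
  (h.reverse.map mir).congr (fun w => by
    constructor
    · rintro ⟨v, hv, rfl⟩; simpa [dag, List.map_reverse, Function.comp_def] using hv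
    · intro hw
      exact ⟨(dag w).reverse, by simpa using hw, by simp [dag, Function.comp_def]⟩)

/-- Close a pair language with the left part mirrored. -/
lemma CFP.closeD {P : List Lt → List Lt → Prop} (h : CFP P) {L : List Lt → Prop} (hL : CF L) :
    CF (fun w => ∃ l m r, P l r ∧ L m ∧ w = dag l ++ m ++ r) :=
  (h.close mir id hL).congr (fun w => by simp [dag])

/-- Pairs of runs with prescribed difference of lengths. -/
lemma cfp_diff {K K' : List Lt → Prop} (hK : CF K) (hK' : CF K') (p q : ℕ) :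
    CFP (fun l r => ∃ n, Rep K (n + p) l ∧ Rep K' (n + q) r) :=
  ((CFP.star hK hK').comp (CFP.prod (hK.rep p) (hK'.rep q))).congr (fun l r => by
    constructor
    · rintro ⟨_, _, _, _, ⟨n, h1, h2⟩, ⟨h3, h4⟩, rfl, rfl⟩
      exact ⟨n, h1.append h3, h2.append h4⟩
    · rintro ⟨n, h1, h2⟩
      obtain ⟨a1, a2, b1, b2, rfl⟩ := h1.split
      obtain ⟨a3, a4, b3, b4, rfl⟩ := h2.split
      exact ⟨_, _, _, _, ⟨n, b1, b3⟩, ⟨b2, b4⟩, rfl, rfl⟩)

lemma cfp_le {K K' : List Lt → Prop} (hK : CF K) (hK' : CF K') (p q : ℕ) :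
    CFP (fun l r => ∃ n n', Rep K n l ∧ Rep K' n' r ∧ n + q ≤ n' + p) := by
  have h1 : CFP (fun l r => ∃ n n', Rep K n l ∧ Rep K' n' r ∧ n ≤ n') :=
    ((CFP.star hK hK').comp (CFP.prod (CF.single []) hK'.star)).congr (fun l r => by
      constructor
      · rintro ⟨_, _, _, _, ⟨n, h1, h2⟩, ⟨rfl, m, h4⟩, rfl, rfl⟩
        exact ⟨n, _, by simpa using h1, h2.append h4, by omega⟩
      · rintro ⟨n, n', h1, h2, hn⟩
        obtain ⟨m, rfl⟩ := Nat.exists_eq_add_of_le hn
        obtain ⟨a3, a4, b3, b4, rfl⟩ := h2.split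
        exact ⟨l, [], _, _, ⟨n, h1, b3⟩, ⟨rfl, m, b4⟩, by simp, rfl⟩)
  refine (CFP.exists_mem (Set.finite_Iic (p, q)) (P := fun x l r => q + x.1 ≤ p + x.2 ∧
    ∃ l1 l2 r1 r2, (∃ n n', Rep K n l1 ∧ Rep K' n' r1 ∧ n ≤ n') ∧ (Rep K x.1 l2 ∧ Rep K' x.2 r2) ∧
      l = l1 ++ l2 ∧ r = r1 ++ r2) (fun x _ => CFP.and_const _ (fun _ =>
      h1.comp (CFP.prod (hK.rep _) (hK'.rep _))))).congr (fun l r => ?_)
  constructor
  · rintro ⟨x, -, hx, _, _, _, _, ⟨n, n', g1, g2, hn⟩, ⟨g3, g4⟩, rfl, rfl⟩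
    exact ⟨_, _, g1.append g3, g2.append g4, by omega⟩
  · rintro ⟨n, n', g1, g2, hn⟩
    by_cases hpq : p ≤ q
    · obtain ⟨m, rfl⟩ : ∃ m, n' = m + (q - p) := ⟨n' - (q - p), by omega⟩
      obtain ⟨a3, a4, b3, b4, rfl⟩ := g2.split
      exact ⟨(0, q - p), by simp, by simp; omega, l, [], _, _, ⟨n, m, g1, b3, by omega⟩,
        ⟨Rep.nil, b4⟩, by simp, rfl⟩
    · obtain ⟨m, x, rfl, hx, hm⟩ : ∃ m x, n = m + x ∧ x ≤ p - q ∧ m ≤ n' :=
        ⟨n - min n (p - q), min n (p - q), by omega, by omega, by omega⟩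
      obtain ⟨a3, a4, b3, b4, rfl⟩ := g1.split
      exact ⟨(x, 0), by simp; omega, by simp; omega, _, _, r, [], ⟨m, n', b3, g2, hm⟩,
        ⟨b4, Rep.nil⟩, rfl, by simp⟩

lemma cfp_ne {K K' : List Lt → Prop} (hK : CF K) (hK' : CF K') (p q : ℕ) :
    CFP (fun l r => ∃ n n', Rep K n l ∧ Rep K' n' r ∧ n' + p ≠ n + q) :=
  ((cfp_le hK hK' p (q + 1)).or (cfp_le hK' hK q (p + 1)).swap).congr (fun l r => by
    constructor
    · rintro (⟨n, n', h1, h2, h3⟩ | ⟨n', n, h2, h1, h3⟩) <;> exact ⟨n, n', h1, h2, by omega⟩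
    · rintro ⟨n, n', h1, h2, h3⟩
      rcases lt_or_gt_of_ne h3 with h | h
      · exact Or.inr ⟨n', n, h2, h1, by omega⟩
      · exact Or.inl ⟨n, n', h1, h2, by omega⟩)

lemma cf_Brk : CF Brk := by
  refine CF.or (CF.exists fun x => CF.exists fun y => CF.and_const _ fun _ => CF.single _)
    (CF.or ((CF.exists fun o => CF.exists fun x => CF.and_const (o.op = true ∧ x ≠ A)
      fun _ => CF.single [o, a, x]).congr (fun w => by simp only [and_assoc]))
    (CF.or ((CF.exists fun x => CF.exists fun c : Lt => CF.and_const (c.op = false ∧ x ≠ d)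
      fun _ => CF.single [x, D, c]).congr (fun w => by simp only [and_assoc]))
    (CF.or (CF.exists fun o => CF.exists fun c => CF.and_const _ fun _ => ?_)
      (CF.exists fun x => CF.exists fun c => CF.exists fun o => CF.exists fun y =>
        CF.and_const _ fun _ => ?_))))
  · refine ((CF.single [o]).append (cf_Ch.star.append (CF.single [c]))).congr (fun w => ?_)
    constructor
    · rintro ⟨_, _, rfl, ⟨u, _, ⟨r, hu⟩, rfl, rfl⟩, rfl⟩; exact ⟨r, u, hu, rfl⟩
    · rintro ⟨r, u, hu, rfl⟩; exact ⟨_, _, rfl, ⟨u, _, ⟨r, hu⟩, rfl, rfl⟩, rfl⟩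
  · refine (CFP.closeD ((cfp_ne cf_ChA cf_ChA 1 (dl c o)).comp
      (CFP.prod (CF.single [x.mir]) (CF.single [y]))) (CF.single [c, o])).congr (fun w => ?_)
    constructor
    · rintro ⟨_, _, _, ⟨l, _, r, _, ⟨n, n', h1, h2, h3⟩, ⟨rfl, rfl⟩, rfl, rfl⟩, rfl, rfl⟩
      exact ⟨n, n', dag l, r, rep_dag (fun _ => ChA.dg) h1, h2, h3, by simp⟩
    · rintro ⟨n, n', u, u', h1, h2, h3, rfl⟩
      exact ⟨_, _, _, ⟨dag u, _, u', _, ⟨n, n', rep_dag (fun _ => ChD.dg) h1, h2, h3⟩,
        ⟨rfl, rfl⟩, rfl, rfl⟩, rfl, by simp⟩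

/-! ### Words without breakers -/

def NoB (v : List Lt) : Prop := ∀ u, u <:+: v → ¬ Brk u

lemma NoB.mono {u v : List Lt} (h : NoB v) (huv : u <:+: v) : NoB u :=
  fun w hw => h w (hw.trans huv)

lemma NoB.two {p s : List Lt} {x y : Lt} (h : NoB (p ++ x :: y :: s)) : ok2 x y = true := by
  by_contra hc
  exact h [x, y] ⟨p, s, by simp⟩ (Or.inl ⟨x, y, by simpa using hc, rfl⟩)

def VCh (v : List Lt) : Prop := ∃ o n, (o = a ∨ o = d) ∧ v = chunk o n

lemma chunk_eq (o : Lt) (n : ℕ) : chunk o n = o :: (AA n ++ (DD n ++ [o.bar])) := by simp [chunk]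

lemma chunk_end {o : Lt} (ho : o.op = true) (n : ℕ) :
    ∃ p x, x ≠ D ∧ chunk o n = p ++ x :: (DD n ++ [o.bar]) := by
  cases n with
  | zero => exact ⟨[], o, by rintro rfl; simp at ho, by simp [chunk]⟩
  | succ n => exact ⟨o :: (AA n ++ a :: (AA n ++ DD n)), A, by simp, by simp [chunk, AA]⟩

lemma chunk_start {o : Lt} (ho : o.op = true) (n : ℕ) :
    ∃ y s, y ≠ a ∧ chunk o n = o :: (AA n ++ y :: s) := by
  cases n with
  | zero => exact ⟨o.bar, [], by intro h; rw [← bar_bar o, h] at ho; simp at ho, by simp [chunk]⟩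
  | succ n => exact ⟨d, _, by simp, by simp [chunk, DD_succ]; rfl⟩

lemma NoB.sib {p s : List Lt} {o o' : Lt} {n n' : ℕ} (ho : o.op = true) (ho' : o'.op = true)
    (h : NoB (p ++ chunk o n ++ chunk o' n' ++ s)) : n' + 1 = n + dl o.bar o' := by
  obtain ⟨p1, x, hx, e1⟩ := chunk_end ho n
  obtain ⟨y, s1, hy, e2⟩ := chunk_start ho' n'
  by_contra hne
  refine h (x :: DD n ++ [o.bar, o'] ++ AA n' ++ [y]) ⟨p ++ p1, s1 ++ s, by rw [e1, e2]; simp⟩ ?_
  exact Or.inr (Or.inr (Or.inr (Or.inr ⟨x, o.bar, o', y, ⟨hx, hy, by simp [ho], ho'⟩, n, n', _, _,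
    rep_DD n, rep_AA n', hne, rfl⟩)))

lemma chunk_last (o : Lt) (n : ℕ) : ∃ p, chunk o n = p ++ [o.bar] := ⟨_, rfl⟩
lemma chunk_head (o : Lt) (n : ℕ) : ∃ p, chunk o n = o :: p := ⟨_, rfl⟩

lemma noB_desc {r : ℕ} {rest : List Lt} (hr : Rep VCh r rest) {c : Lt} (hc : c.op = false) (n : ℕ)
    (h : NoB (chunk d n ++ rest ++ [c])) : rest = DD n := by
  induction hr generalizing n with
  | nil =>
    cases n with
    | zero => rfl
    | succ n =>
      exfalso
      obtain ⟨p, hp⟩ : ∃ p, chunk d (n + 1) = p ++ [D, D] := by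
        obtain ⟨p, hp⟩ := DD_lt (show 0 < n + 1 by omega)
        exact ⟨d :: (AA (n + 1) ++ p ++ [d]), by rw [chunk, hp]; simp [chunk]⟩
      exact h [D, D, c] ⟨p, [], by rw [hp]; simp⟩ (Or.inr (Or.inr (Or.inl ⟨D, c, hc, by simp, rfl⟩)))
  | cons r x w hx _ ih =>
    obtain ⟨o, m, ho | ho, rfl⟩ := hx
    · subst ho
      obtain ⟨p, hp⟩ := chunk_last d n
      obtain ⟨q, hq⟩ := chunk_head a m
      have := NoB.two (p := p) (s := q ++ w ++ [c]) (x := D) (y := a)
        (by rw [hp, hq] at h; simpa using h)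
      simp [ok2] at this
    · subst ho
      have := NoB.sib (p := []) (s := w ++ [c]) (o := d) (o' := d) (n := n) (n' := m) rfl rfl
        (by simpa using h)
      obtain rfl : n = m + 1 := by simp [dl] at this; omega
      rw [ih m (h.mono ⟨chunk d (m + 1), [], by simp⟩), DD_succ]

lemma noB_asc {r : ℕ} {rest : List Lt} (hr : Rep VCh r rest) {o c : Lt} (ho : o.op = true)
    (hc : c.op = false) (j : ℕ) (h : NoB (o :: AA j ++ rest ++ [c])) :
    ∃ n, AA j ++ rest = AA n ++ DD n := by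
  induction hr generalizing j with
  | nil =>
    cases j with
    | zero => exact ⟨0, rfl⟩
    | succ j =>
      exfalso
      obtain ⟨p, hp⟩ := chunk_last a j
      have := NoB.two (p := o :: (AA j ++ p)) (s := []) (x := A) (y := c)
        (by rw [AA_succ, hp] at h; simpa using h)
      revert this hc; cases c <;> simp [ok2]
  | cons r x w hx hw ih =>
    obtain ⟨o', m, ho' | ho', rfl⟩ := hx
    · subst ho'
      have : m = j := by
        cases j with
        | zero =>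
          cases m with
          | zero => rfl
          | succ m =>
            exfalso
            obtain ⟨p, hp⟩ := AA_lt (show 0 < m + 1 by omega)
            refine h [o, a, a] ⟨[], A :: (p ++ DD (m + 1) ++ [A] ++ w ++ [c]), ?_⟩
              (Or.inr (Or.inl ⟨o, a, ho, by simp, rfl⟩))
            rw [chunk, hp]; simp [chunk]
        | succ j =>
          have := NoB.sib (p := o :: AA j) (s := w ++ [c]) (o := a) (o' := a) (n := j) (n' := m)
            rfl rfl (by rw [AA_succ] at h; simpa using h)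
          simp [dl] at this; omega
      subst this
      have := ih (m + 1) (by rw [AA_succ]; simpa using h)
      rwa [AA_succ, List.append_assoc] at this
    · subst ho'
      cases j with
      | zero =>
        exfalso
        obtain ⟨q, hq⟩ := chunk_head d m
        have := NoB.two (p := []) (s := q ++ w ++ [c]) (x := o) (y := d)
          (by rw [hq] at h; simpa using h)
        revert this ho; cases o <;> simp [ok2]
      | succ j =>
        have := NoB.sib (p := o :: AA j) (s := w ++ [c]) (o := a) (o' := d) (n := j) (n' := m)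
            rfl rfl (by rw [AA_succ] at h; simpa using h)
        obtain rfl : m = j := by simp [dl] at this; omega
        rw [noB_desc hw hc m (h.mono ⟨o :: AA (m + 1), [], by simp⟩)]
        exact ⟨m + 1, by rw [DD_succ]⟩

lemma noB_bal {x : List Lt} (hx : Bal mt x) (h : NoB x) : ∃ r, Rep VCh r x := by
  induction hx with
  | nil => exact ⟨0, Rep.nil⟩
  | node o c u v hm _ _ ih1 ih2 =>
    obtain ⟨r1, h1⟩ := ih1 (h.mono ⟨[o], c :: v, by simp⟩)
    obtain ⟨r2, h2⟩ := ih2 (h.mono ⟨o :: u ++ [c], [], by simp⟩)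
    have ho : o.op = true ∧ c.op = false ∧ c = o.bar ∧ (o = a ∨ o = d) := by
      rcases hm with ⟨rfl, rfl⟩ | ⟨rfl, rfl⟩ <;> simp
    obtain ⟨n, hn⟩ := noB_asc h1 ho.1 ho.2.1 0 (h.mono ⟨[], v, by simp⟩)
    simp only [AA_zero, List.nil_append] at hn
    refine ⟨r2 + 1, ?_⟩
    have := Rep.cons _ _ _ (⟨o, n, ho.2.2.2, rfl⟩ : VCh (chunk o n)) h2
    rw [hn, ho.2.2.1]
    simpa [chunk] using this

inductive Stk : List Lt → Prop
  | base (r : ℕ) (x : List Lt) : Rep Ch r x → Stk (t :: x)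
  | push (s : List Lt) (o : Lt) (r : ℕ) (x : List Lt) : Stk s → (o = a ∨ o = d) → Rep Ch r x →
      Stk (s ++ o :: x)

lemma Stk.app {s y : List Lt} (hs : Stk s) (hy : Ch y) : Stk (s ++ y) := by
  cases hs with
  | base r x hx => exact Stk.base _ _ (hx.snoc hy)
  | push s o r x hs ho hx =>
    rw [List.append_assoc, List.cons_append]; exact Stk.push _ _ _ _ hs ho (hx.snoc hy)

lemma Stk.close {s : List Lt} (hs : Stk s) {c : Lt} (hc : c.op = false) (h : NoB (s ++ [c])) :
    (c = T ∧ ∃ r x, Rep Ch r x ∧ s = t :: x) ∨ (c ≠ T ∧ Stk (s ++ [c])) := by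
  cases hs with
  | base r x hx =>
    left
    refine ⟨?_, r, x, hx, rfl⟩
    by_contra hne
    exact h _ List.infix_rfl (Or.inr (Or.inr (Or.inr (Or.inl ⟨t, c, ⟨rfl, hc, hne⟩, r, x, hx, rfl⟩))))
  | push s o r x hs ho hx =>
    right
    have hoo : o.op = true := by rcases ho with rfl | rfl <;> rfl
    have : c = o.bar := by
      by_contra hne
      exact h (o :: x ++ [c]) ⟨s, [], by simp⟩
        (Or.inr (Or.inr (Or.inr (Or.inl ⟨o, c, ⟨hoo, hc, hne⟩, r, x, hx, rfl⟩))))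
    subst this
    refine ⟨by rcases ho with rfl | rfl <;> simp, ?_⟩
    rw [List.append_assoc]
    refine hs.app ?_
    rcases ho with rfl | rfl
    · exact Or.inl ⟨x, rep_bal hx, rfl⟩
    · exact Or.inr ⟨x, rep_bal hx, rfl⟩

lemma noB_stk {y : List Lt} (h1 : t ∉ y) (h2 : T ∉ y) (h : NoB (t :: y)) : Stk (t :: y) := by
  induction y using List.reverseRecOn with
  | nil => exact Stk.base 0 [] Rep.nil
  | append_singleton y c ih =>
    simp only [List.mem_append, List.mem_singleton, not_or] at h1 h2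
    have hs := ih h1.1 h2.1 (h.mono ⟨[], [c], by simp⟩)
    cases hc : c.op
    · rcases hs.close hc h with ⟨h3, -⟩ | ⟨-, h3⟩
      · exact absurd h3.symm h2.2
      · exact h3
    · exact Stk.push (t :: y) c 0 [] hs (by revert hc h1; cases c <;> simp) Rep.nil

lemma noB_block {y : List Lt} (h1 : t ∉ y) (h : NoB (t :: y ++ [t])) :
    ∃ n, 1 ≤ n ∧ t :: y = chunk t n := by
  rcases List.eq_nil_or_concat y with rfl | ⟨z, c, rfl⟩
  · have := NoB.two (p := []) (s := []) (x := t) (y := t) h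
    simp [ok2] at this
  rw [List.concat_eq_append] at h1 h ⊢
  obtain rfl : c = T := by
    have := NoB.two (p := t :: z) (s := []) (x := c) (y := t) (by simpa using h)
    revert this; cases c <;> simp [ok2]
  have h2 : T ∉ z := by
    intro hz
    obtain ⟨p, s, rfl⟩ := List.append_of_mem hz
    cases s with
    | nil =>
      have := NoB.two (p := t :: p) (s := [t]) (x := T) (y := T) (by simpa using h)
      simp [ok2] at this
    | cons x s =>
      have := NoB.two (p := t :: p) (s := s ++ [T, t]) (x := T) (y := x) (by simpa using h)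
      have hx : x ≠ t := by rintro rfl; simp at h1
      revert this hx; cases x <;> simp [ok2]
  have hs := noB_stk (fun hz => h1 (by simp [hz])) h2 (h.mono ⟨[], [T, t], by simp⟩)
  rcases hs.close (c := T) rfl (h.mono ⟨[], [t], by simp⟩) with ⟨-, r, x, hx, e⟩ | ⟨h3, -⟩
  · obtain rfl : z = x := by simpa using e
    obtain ⟨r', hr'⟩ := noB_bal (rep_bal hx) (h.mono ⟨[t], [T, t], by simp⟩)
    obtain ⟨n, hn⟩ := noB_asc hr' (o := t) (c := T) rfl rfl 0 (h.mono ⟨[], [t], by simp⟩)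
    simp only [AA_zero, List.nil_append] at hn
    subst hn
    refine ⟨n, ?_, rfl⟩
    by_contra hn
    obtain rfl : n = 0 := by omega
    have := NoB.two (p := []) (s := [t]) (x := t) (y := T) (by simpa using h)
    simp [ok2] at this
  · exact absurd rfl h3

lemma nd_zero (h : ℕ) : Nd h 0 t h := by
  obtain ⟨n, H⟩ := exists_Nd h 0 (by rw [(TT_eq_t h 0).2 (dvd_zero _)]; rfl)
  rw [(TT_eq_t h 0).2 (dvd_zero _)] at H
  rwa [H.eq_t] at H

lemma split_first_t {y : List Lt} (hy : 1 ≤ y.count t) : ∃ y1 y2, t ∉ y1 ∧ y = y1 ++ t :: y2 := by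
  induction y with
  | nil => simp at hy
  | cons x y ih =>
    by_cases hx : x = t
    · exact ⟨[], y, by simp, by simp [hx]⟩
    · obtain ⟨y1, y2, h1, rfl⟩ := ih (by simpa [List.count_cons, hx] using hy)
      exact ⟨x :: y1, y2, by simp [h1, Ne.symm hx], rfl⟩

lemma noB_run (M : ℕ) {y : List Lt} (h : NoB (t :: y)) (hM : M + 1 ≤ y.count t) :
    ∃ n, 1 ≤ n ∧ ∃ u s, t :: y = u ++ t :: s ∧ At (TT n) 0 u ∧
      (u.length : ℤ) = (M + 1) * el n := by
  induction M generalizing y with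
  | zero =>
    obtain ⟨y1, y2, h1, rfl⟩ := split_first_t (by omega : 1 ≤ y.count t)
    obtain ⟨n, hn, e⟩ := noB_block h1 (h.mono ⟨[], y2, by simp⟩)
    exact ⟨n, hn, t :: y1, y2, rfl, e ▸ (nd_zero n).2, by rw [e, len_chunk]; simp [el]⟩
  | succ M ih =>
    obtain ⟨y1, y2, h1, rfl⟩ := split_first_t (by omega : 1 ≤ y.count t)
    obtain ⟨n, hn, e⟩ := noB_block h1 (h.mono ⟨[], y2, by simp⟩)
    have hc : y1.count t = 0 := List.count_eq_zero.2 h1
    obtain ⟨n', hn', u, s, e', au, hl⟩ := ih (y := y2) (h.mono ⟨t :: y1, [], by simp⟩)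
      (by simp [List.count_append, hc] at hM; omega)
    have hp := el_pos n'
    obtain ⟨u', rfl⟩ : chunk t n' <+: u := (nd_zero n').2.pre au (by
      have := len_chunk t n'
      have h3 : (2 : ℤ) * 3 ^ n' = el n' := rfl
      have : ((chunk t n').length : ℤ) ≤ u.length := by rw [hl, this, h3]; nlinarith
      exact_mod_cast this)
    have := NoB.sib (p := []) (s := u' ++ t :: s) (o := t) (o' := t) (n := n) (n' := n') rfl rfl
      (by rw [← e, List.append_assoc, ← List.append_assoc (chunk t n'), ← e']; simpa using h)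
    obtain rfl : n' = n := by simp [dl] at this; omega
    refine ⟨n', hn, chunk t n' ++ (chunk t n' ++ u'), s, ?_, ?_, ?_⟩
    · rw [List.append_assoc, ← e', ← e]; rfl
    · exact (nd_zero n').2.app (au.per (j := el n') (by simp)) (by rw [len_chunk]; simp [el])
    · rw [List.length_append, Nat.cast_add, hl, len_chunk]; simp [el]; ring

lemma noB_long (M : ℕ) {v : List Lt} (h : NoB v) (hM : M + 2 ≤ v.count t) :
    ∃ n, 1 ≤ n ∧ ∃ p u s, v = p ++ u ++ s ∧ At (TT n) 0 u ∧ (u.length : ℤ) = (M + 1) * el n := by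
  obtain ⟨y1, y2, h1, rfl⟩ := split_first_t (by omega : 1 ≤ v.count t)
  have hc : y1.count t = 0 := List.count_eq_zero.2 h1
  obtain ⟨n, hn, u, s, e, au, hl⟩ := noB_run M (y := y2) (h.mono ⟨y1, [], by simp⟩)
    (by simp [List.count_append, hc] at hM; omega)
  exact ⟨n, hn, y1, u, t :: s, by rw [e]; simp, au, hl⟩

end Pool.Agent.Lib.MP_dfa990_al
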