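import Mathlib
import Pool.Agent.Lib.MP_dfa990_al.Brk

/-! Arms: certificates locating the end of a long window by reflections in block boundaries. -/

namespace Pool.Agent.Lib.MP_dfa990_al
open Pool.Agent.Lib.helper29 Lt

def HeadOK (p q : List Lt) : Prop := ∀ (V : ℤ → Lt) (i : ℤ), At V i p → At V i q → p = q
def Inc (p q : List Lt) : Prop := ∀ (V : ℤ → Lt) (i : ℤ), At V i p → At V i q → False

lemma headOK_nil : HeadOK [] [] := fun _ _ _ _ => rfl

def Chain (dk k' : List Lt) (w : ℕ) (ch : List Lt) : Prop :=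
  ∃ F F' v v' : List Lt, F.length = F'.length ∧ F'.head? = some t ∧ v.length = v'.length ∧
    v'.head? = some t ∧ (F' ++ k' ++ v).count t = w ∧ ch = dag dk ++ F ++ (F' ++ k' ++ v) ++ v'

def ArmD (dr de e' dk k' G : List Lt) (u f : Lt) (w n : ℕ) (ω : List Lt) : Prop :=
  ∃ (x0 x0' : List Lt) (u' : Lt) (ch : List Lt), x0.length = x0'.length ∧ x0'.head? = some t ∧
    Chain dk k' w ch ∧ (x0' ++ u' :: e' ++ ch ++ G ++ [f]).count t = n ∧
    ω = dr ++ dag de ++ u :: x0 ++ (x0' ++ u' :: e' ++ ch ++ G ++ [f])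

lemma At.head {V : ℤ → Lt} {i : ℤ} {v : List Lt} {x : Lt} (h : At V i v) (hx : v.head? = some x) :
    V i = x := by
  cases v with
  | nil => simp at hx
  | cons y v => simp at hx; rw [← hx]; exact h.1

lemma At.head_eq {V : ℤ → Lt} {i : ℤ} {v : List Lt} (h : At V i v) (hv : 0 < v.length) :
    v.head? = some (V i) := by
  cases v with
  | nil => simp at hv
  | cons y v => simp [h.1]

lemma Chain.sound {dk k' ch : List Lt} {w : ℕ} (H : Chain dk k' w ch) (hk : HeadOK dk k')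
    {h : ℕ} {p : ℤ} (a : At (TT h) p ch) :
    At (TT h) p (dag dk) ∧ (ch.length : ℤ) = 2 * w * el h := by
  obtain ⟨F, F', v, v', l1, t1, l2, t2, hc, rfl⟩ := H
  have a1 := a.left.left.left
  have a2 := a.left.right
  have a3 := a.right
  have d1 := (TT_eq_t _ _).1 (a2.left.left.head t1)
  have d2 := (TT_eq_t _ _).1 (a3.head t2)
  have b1 := a1.refl d1
  have b2 := a2.left.right
  rw [dag_dag] at b1
  obtain rfl := hk _ _ b1 (b2.cast (by simp [l1]; ring))
  have := cnt_bd a2 d1 (by rw [add_assoc, ← Nat.cast_add, ← List.length_append]; exact d2)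
  refine ⟨a1, ?_⟩
  rw [hc] at this
  simp only [List.length_append, Nat.cast_add, length_dag] at this ⊢
  have : (F.length : ℤ) = F'.length := by exact_mod_cast l1
  have : (v.length : ℤ) = v'.length := by exact_mod_cast l2
  linarith

lemma next_bd (h : ℕ) (x : ℤ) : ∃ β, el h ∣ β ∧ x ≤ β ∧ β < x + el h :=
  ⟨_, Dvd.intro _ rfl, (ceil_spec h x).1, (ceil_spec h x).2⟩

lemma exists_seg (V : ℤ → Lt) {i j : ℤ} (hij : i ≤ j) :
    ∃ v : List Lt, At V i v ∧ (v.length : ℤ) = j - i :=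
  ⟨seg V i (j - i).toNat, At_seg _ _ _, by simp; omega⟩

lemma chain_complete {h : ℕ} {p : ℤ} {dk : List Lt} (a : At (TT h) p (dag dk))
    (hl : (dk.length : ℤ) ≤ 3 * el h) :
    ∃ ch, Chain dk dk 5 ch ∧ At (TT h) p ch ∧ (ch.length : ℤ) = 10 * el h := by
  have hp := el_pos h
  obtain ⟨β, d1, b1, b2⟩ := next_bd h (p + 3 * el h + 1)
  obtain ⟨F, aF, lF⟩ := exists_seg (TT h) (show p + dk.length ≤ β by omega)
  obtain ⟨v, av, lv⟩ := exists_seg (TT h) (show 2 * β - p ≤ β + 5 * el h by omega)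
  have d2 : el h ∣ β + 5 * el h := d1.add (Dvd.intro_left _ rfl)
  have aF' : At (TT h) β (dag F) := (aF.refl d1).cast (by omega)
  have ak : At (TT h) (β + F.length) dk := by
    have := a.refl d1
    rw [dag_dag] at this
    exact this.cast (by simp; omega)
  have av' : At (TT h) (β + 5 * el h) (dag v) := (av.refl d2).cast (by omega)
  have am : At (TT h) β (dag F ++ dk ++ v) :=
    (aF'.app ak (by simp)).app av (by simp; omega)
  have hc := cnt_bd am d1 (by simp only [List.length_append, Nat.cast_add, length_dag]; rw [show β + ((F.length : ℤ) + dk.length + v.length) = β + 5 * el h by omega]; exact d2)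
  refine ⟨_, ⟨F, dag F, v, dag v, by simp, ?_, by simp, ?_, ?_, rfl⟩, ?_, ?_⟩
  · rw [aF'.head_eq (by simp; omega), (TT_eq_t _ _).2 d1]
  · rw [av'.head_eq (by simp; omega), (TT_eq_t _ _).2 d2]
  · simp only [List.length_append, Nat.cast_add, length_dag] at hc
    have : ((dag F ++ dk ++ v).count t : ℤ) * el h = 5 * el h := by omega
    exact_mod_cast mul_right_cancel₀ hp.ne' this
  · exact ((a.app aF (by simp)).app am (by simp; omega)).app av' (by simp; omega)
  · simp only [List.length_append, Nat.cast_add, length_dag]; omega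

lemma ArmD.sound {dr de e' dk k' G ω : List Lt} {u f : Lt} {w n : ℕ}
    (H : ArmD dr de e' dk k' G u f w n ω) (h1 : HeadOK de e') (h2 : HeadOK dk k')
    {V : ℤ → Lt} {a : ℤ} (hω : At V a ω) :
    ∃ (β y : ℤ) (ρ : List Lt), a < β ∧ At V β ρ ∧ ρ.count t = n ∧ β + ρ.length = a + ω.length ∧
      V β = t ∧ ∀ (h : ℕ) (o s : ℤ), s ≤ β →
      (∀ r, s ≤ r → r < a + ω.length → V r = TT h (o + r)) →
      el h ∣ o + β ∧ a + ω.length - β = y + 2 * w * el h + G.length + 1 ∧
      At (TT h) (o + β + y) (dag dk) ∧ At (TT h) (o + β + y) (G ++ [f]) ∧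
      (a + dr.length ≤ s → β - s ≤ y) ∧ (s ≤ a + dr.length → β - (a + dr.length) = y) := by
  obtain ⟨x0, x0', u', ch, l1, t1, hch, hn, rfl⟩ := H
  have aρ := hω.right
  have ade := hω.left.left.right
  have l1' : (x0.length : ℤ) = x0'.length := by exact_mod_cast l1
  set β : ℤ := a + ((dr ++ dag de ++ u :: x0).length : ℕ) with hβ
  have hβ' : β = a + dr.length + de.length + 1 + x0.length := by simp [hβ]; ring
  have vt : V β = t := aρ.left.left.left.left.head t1
  refine ⟨β, x0.length + 1 + e'.length, _, by omega, aρ, hn, by simp [hβ]; ring, vt, ?_⟩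
  intro h o s hs hV
  have lω : a + ((dr ++ dag de ++ u :: x0 ++ (x0' ++ u' :: e' ++ ch ++ G ++ [f])).length : ℕ) =
      β + x0.length + 1 + e'.length + ch.length + G.length + 1 := by simp [hβ', l1]; ring
  rw [lω] at hV ⊢
  have tρ : At (TT h) (o + β) (x0' ++ u' :: e' ++ ch ++ G ++ [f]) := by
    refine aρ.congr (fun r h0 hr => ?_)
    rw [hV _ (by omega) (by simp at hr; omega), add_assoc]
  have d1 : el h ∣ o + β := (TT_eq_t _ _).1 (tρ.left.left.left.left.head t1)
  have te : At (TT h) (o + β + x0.length + 1) e' := (tρ.left.left.left.right.2).cast (by omega)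
  obtain ⟨c1, c2⟩ := hch.sound h2 tρ.left.left.right
  have tG : At (TT h) (o + β + (x0.length + 1 + e'.length)) (G ++ [f]) := by
    rw [List.append_assoc] at tρ
    refine tρ.right.per ⟨-(2 * w), ?_⟩
    simp only [List.length_append, List.length_cons, Nat.cast_add, c2]; push_cast; linarith
  have key : ∀ r : ℤ, 0 ≤ r → s ≤ a + dr.length + de.length - 1 - r →
      flip V (-(a + dr.length) - de.length + r) = TT h (o + β + x0.length + 1 + r) := by
    intro r h0 hr
    have := TT_refl d1 (x0.length + 1 + r)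
    rw [flip, hV _ (by omega) (by omega),
      show o + (-1 - (-(a + dr.length) - de.length + r)) = o + β - 1 - (x0.length + 1 + r) by omega,
      this, mir_mir]
    congr 1; ring
  have fde : At (flip V) (-(a + dr.length) - de.length) de := by
    have := ade.dg
    rwa [dag_dag, length_dag] at this
  refine ⟨d1, by omega, c1.cast (by simp; omega), tG, fun hs' => ?_, fun hs' => ?_⟩
  · by_contra hc
    have : At (flip V) (-(a + dr.length) - de.length) e' :=
      te.congr (fun r h0 hr => key r h0 (by omega))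
    obtain rfl := h1 _ _ fde this
    omega
  · have : At (TT h) (o + β + x0.length + 1) de :=
      fde.congr (fun r h0 hr => (key r h0 (by omega)).symm)
    obtain rfl := h1 _ _ this te
    omega

lemma arm_complete {h : ℕ} {a : ℤ} {dr de dk G : List Lt} {f : Lt}
    (a1 : At (TT h) a (dr ++ dag de)) (lde : (de.length : ℤ) ≤ 2 * el h)
    (a2 : At (TT h) (-(a + dr.length)) (dag dk)) (ldk : (dk.length : ℤ) ≤ 3 * el h)
    (a3 : At (TT h) (-(a + dr.length)) (G ++ [f])) :
    ∃ (β : ℤ) (ρ ω : List Lt), ArmD dr de de dk dk G (TT h (a + dr.length + de.length)) f 5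
      (ρ.count t) ω ∧ At (TT h) a ω ∧ At (TT h) β ρ ∧ el h ∣ β ∧ a + dr.length + 3 * el h ≤ β ∧
      β < a + dr.length + 4 * el h ∧ β + ρ.length = a + ω.length ∧
      (ρ.length : ℤ) = β - (a + dr.length) + 10 * el h + G.length + 1 := by
  have hp := el_pos h
  have hp2 : 2 ≤ el h := by have := el_mono (Nat.zero_le h); simpa [el] using this
  set c : ℤ := a + dr.length with hc
  obtain ⟨β, d1, b1, b2⟩ := next_bd h (c + 3 * el h)
  obtain ⟨x0, ax, lx⟩ := exists_seg (TT h) (show c + de.length + 1 ≤ β by omega)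
  have ax' : At (TT h) β (dag x0) := (ax.refl d1).cast (by omega)
  have ade : At (TT h) (β + x0.length + 1) de := by
    have := a1.right.refl d1
    rw [dag_dag] at this
    exact this.cast (by simp; omega)
  have per : el h ∣ 2 * β - c - -c := by
    rw [show 2 * β - c - -c = 2 * β by ring]; exact d1.mul_left 2
  obtain ⟨ch, hch, ach, lch⟩ := chain_complete (a2.per per) ldk
  have aG : At (TT h) (2 * β - c + 10 * el h) (G ++ [f]) :=
    (a3.per per).per (by rw [show 2 * β - c + 10 * el h - (2 * β - c) = el h * 10 by ring]; exact Dvd.intro _ rfl)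
  have aρ : At (TT h) β (dag x0 ++ TT h (β + x0.length) :: de ++ ch ++ G ++ [f]) := by
    rw [List.append_assoc]
    exact ((ax'.app (v := _ :: de) ⟨rfl, ade⟩ (by simp)).app ach (by simp; omega)).app aG
      (by simp; omega)
  refine ⟨β, _, _, ⟨x0, dag x0, _, ch, by simp, ?_, hch, rfl, rfl⟩, ?_, aρ, d1, b1, by omega,
    ?_, ?_⟩
  · rw [ax'.head_eq (by simp; omega), (TT_eq_t _ _).2 d1]
  · refine (a1.app (j := c + de.length) (v := _ :: x0) ⟨rfl, ax⟩ (by simp [hc]; ring)).app aρ ?_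
    simp; omega
  · simp; omega
  · simp; omega

/-! ### Context-freeness -/

lemma cfp_link : CFP (fun l r : List Lt => l.length = r.length ∧ r.head? = some t) :=
  CFP.eqlen.regR (Reg.head (· = some t))

def ChainL (PT : List Lt → List Lt → Prop) (w : ℕ) (ch : List Lt) : Prop :=
  ∃ dk k', PT dk k' ∧ Chain dk k' w ch

lemma cf_chainL {PT : List Lt → List Lt → Prop} (hPT : CFP PT) (w : ℕ) : CF (ChainL PT w) := by
  refine (CF.exists_mem (Set.finite_Iic w) (fun w1 _ =>
    (CFP.closeD ((cfp_link.comp hPT).regR (Reg.count_eq t w1)) (CF.single [])).append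
    (CFP.closeD (cfp_link.regL (Reg.count_eq T (w - w1))) (CF.single [])))).congr (fun ch => ?_)
  constructor
  · rintro ⟨w1, hw, _, _, ⟨_, _, _, ⟨⟨F, dk, F', k', ⟨h1, h2⟩, h3, rfl, rfl⟩, h4⟩, rfl, rfl⟩,
      ⟨v, _, v', ⟨⟨h5, h6⟩, h7⟩, rfl, rfl⟩, rfl⟩
    refine ⟨dk, k', h3, dag F, F', dag v, v', by simpa, h2, by simpa, h6, ?_, by simp⟩
    rw [List.count_append, h4, count_dag, mir_t, h7]; simp at hw; omega
  · rintro ⟨dk, k', h3, F, F', v, v', h1, h2, h5, h6, h7, rfl⟩
    rw [List.count_append] at h7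
    refine ⟨(F' ++ k').count t, by simp only [Set.mem_Iic]; omega, _, _,
      ⟨_, _, _, ⟨⟨dag F, dk, F', k', ⟨by simpa, h2⟩, h3, rfl, rfl⟩, rfl⟩, rfl, rfl⟩,
      ⟨dag v, _, v', ⟨⟨by simpa, h6⟩, ?_⟩, rfl, rfl⟩, by simp⟩
    rw [count_dag, mir_T]; omega

def P0 (p q : List Lt) : Prop := p = [] ∧ q = []
lemma cfp_P0 : CFP P0 := CFP.prod (CF.single []) (CF.single [])

/-- Arms with linked heads and a prescribed class `K` of continuations. -/
def EndG (H PT : List Lt → List Lt → Prop) (K : List Lt → Prop) (u f : Lt) (w n : ℕ)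
    (ω : List Lt) : Prop :=
  ∃ de e' dk k' G, H de e' ∧ PT dk k' ∧ K G ∧ ArmD [] de e' dk k' G u f w n ω

lemma cf_EndG {H PT : List Lt → List Lt → Prop} {K : List Lt → Prop} (hH : CFP H) (hPT : CFP PT)
    (hK : CF K) (u f : Lt) (w n : ℕ) : CF (EndG H PT K u f w n) := by
  refine (CFP.closeD ((((cfp_link.comp (CFP.prod (CF.single [u.mir]) (CF.letter fun _ => True))).comp
    hH).comp (CFP.prod (CF.single []) ((cf_chainL hPT w).append (hK.append (CF.single [f]))))).regR
    (Reg.count_eq t n)) (CF.single [])).congr (fun ω => ?_)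
  constructor
  · rintro ⟨_, _, _, ⟨⟨_, _, _, _, ⟨_, de, _, e', ⟨x0, _, x0', _, ⟨h1, h2⟩, ⟨rfl, u', -, rfl⟩, rfl, rfl⟩,
      hH, rfl, rfl⟩, ⟨rfl, ch, _, ⟨dk, k', h3, h4⟩, ⟨G, _, hG, rfl, rfl⟩, rfl⟩, rfl, rfl⟩, h5⟩,
      rfl, rfl⟩
    exact ⟨de, e', dk, k', G, hH, h3, hG, dag x0, x0', u', ch, by simpa, h2, h4,
      by simpa using h5, by simp⟩
  · rintro ⟨de, e', dk, k', G, hH, h3, hG, x0, x0', u', ch, h1, h2, h4, h5, rfl⟩
    exact ⟨_, _, _, ⟨⟨_, _, _, _, ⟨_, de, _, e', ⟨dag x0, _, x0', _, ⟨by simpa, h2⟩,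
      ⟨rfl, u', trivial, rfl⟩, rfl, rfl⟩, hH, rfl, rfl⟩,
      ⟨rfl, ch, _, ⟨dk, k', h3, h4⟩, ⟨G, _, hG, rfl, rfl⟩, rfl⟩, rfl, rfl⟩, by simpa using h5⟩,
      rfl, by simp⟩

/-- The part of an arm between its head and its free region. -/
def Tail (E : List Lt → Prop) (PT : List Lt → List Lt → Prop) (u : Lt) (w nx : ℕ)
    (tl : List Lt) : Prop :=
  ∃ (x0 x0' : List Lt) (u' : Lt) (e' ch : List Lt), x0.length = x0'.length ∧ x0'.head? = some t ∧
    E e' ∧ ChainL PT w ch ∧ x0.count t = nx ∧ tl = u :: x0 ++ (x0' ++ u' :: e' ++ ch)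

lemma cf_Tail {E : List Lt → Prop} {PT : List Lt → List Lt → Prop} (hE : CF E) (hPT : CFP PT)
    (u : Lt) (w nx : ℕ) : CF (Tail E PT u w nx) := by
  refine (CFP.closeD ((cfp_link.regL (Reg.count_eq T nx)).comp (CFP.prod (CF.single [u.mir])
    ((CF.letter fun _ => True).append (hE.append (cf_chainL hPT w))))) (CF.single [])).congr
    (fun ω => ?_)
  constructor
  · rintro ⟨_, _, _, ⟨x0, _, x0', _, ⟨⟨h1, h2⟩, h3⟩, ⟨rfl, _, _, ⟨u', -, rfl⟩, ⟨e', ch, h4, h5, rfl⟩, rfl⟩,
      rfl, rfl⟩, rfl, rfl⟩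
    exact ⟨dag x0, x0', u', e', ch, by simpa, h2, h4, h5, by rw [count_dag, mir_t, h3], by simp⟩
  · rintro ⟨x0, x0', u', e', ch, h1, h2, h4, h5, h3, rfl⟩
    exact ⟨_, _, _, ⟨dag x0, _, x0', _, ⟨⟨by simpa, h2⟩, by rw [count_dag, mir_T, h3]⟩,
      ⟨rfl, _, _, ⟨u', trivial, rfl⟩, ⟨e', ch, h4, h5, rfl⟩, rfl⟩, rfl, rfl⟩, rfl, by simp⟩

end Pool.Agent.Lib.MP_dfa990_al
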