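import Mathlib
import Pool.Agent.Lib.MP_dfa990_al.Arm

/-! Scale descent: certifying a lower bound on the total length of two free regions. -/

namespace Pool.Agent.Lib.MP_dfa990_al
open Pool.Agent.Lib.helper29 Lt

/-- The part of a cell before its pending run; `b` is the kind of cell. -/
def CellIn (b : Bool) (c : ℕ) (v : List Lt) : Prop :=
  ∃ (o : Lt) (u1 u2 : List Lt) (r : ℕ), Rep ChA c u1 ∧
    if b then o.op = true ∧ Rep ChA r u2 ∧ v = o :: u1 ++ a :: u2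
    else Rep ChD r u2 ∧ v = d :: u1 ++ u2 ++ [D]

def CellTl (b : Bool) (v : List Lt) : Prop := ∃ x : Lt, (if b then x = A else x.op = false) ∧ v = [x]

def CellP (c c' : ℕ) (v : List Lt) : Prop :=
  ∃ b v1 u3 v2, CellIn b c v1 ∧ Rep ChD c' u3 ∧ CellTl b v2 ∧ v = v1 ++ u3 ++ v2

lemma opened_sound {h : ℕ} {i : ℤ} {o : Lt} {c c' r : ℕ} {u1 u2 u3 : List Lt} (ho : o.op = true)
    (h1 : Rep ChA c u1) (h2 : Rep ChA r u2) (h3 : Rep ChD c' u3)
    (av : At (TT h) i (o :: u1 ++ a :: u2 ++ u3 ++ [A])) :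
    c' = c ∧ o :: u1 ++ a :: u2 ++ u3 ++ [A] = o :: AA (c + 1) := by
  have hc : ChA (a :: (u2 ++ u3) ++ [A]) := ⟨u2 ++ u3, bal_append
    (rep_bal (h2.mono fun _ => ChA.ch)) (rep_bal (h3.mono fun _ => ChD.ch)), rfl⟩
  have e : o :: u1 ++ a :: u2 ++ u3 ++ [A] = o :: (u1 ++ (a :: (u2 ++ u3) ++ [A])) := by simp
  rw [e] at av ⊢
  obtain ⟨e1, -⟩ := alpha_pat ho (h1.snoc hc) av
  obtain ⟨rfl, -⟩ := alpha_pat ho h1 (At.left (u := o :: u1) av)
  refine ⟨?_, by rw [e1]⟩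
  rw [AA_succ] at e1
  have e2 : u2 ++ u3 = AA c ++ DD c := by
    have := List.append_cancel_left e1
    rw [chunk, List.cons_append, List.cons_append, List.cons.injEq] at this
    exact List.append_cancel_right this.2
  have a2 : At (TT h) (i + 1 + (AA c).length + 1) (u2 ++ u3 ++ [A]) := (av.2.right).2
  have a3 := a2
  rw [e2] at a3
  rw [List.append_assoc] at a2 a3
  have n1 : TT h (i + 1 + (AA c).length + 1 + u2.length) ≠ a := by
    cases h3 with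
    | nil => rw [a2.right.1]; simp
    | cons n x w hx _ => obtain ⟨y, s, rfl, rfl⟩ := hx.fst; rw [a2.right.1]; simp
  obtain ⟨-, rfl⟩ := star_det det_ChA (· = a) (fun _ => ChA.fst) h2 (rep_AA c) a2.left a3.left n1
    (a3.right.DD_ne_a rfl)
  exact (star_det det_ChD (· = d) (fun _ => ChD.fst) h3 (rep_DD c) a2.right.left a3.right.left
    (by rw [a2.right.right.1]; simp) (by rw [a3.right.right.1]; simp)).1

lemma CellP.sound {h : ℕ} {i : ℤ} {c c' : ℕ} {v : List Lt} (H : CellP c c' v)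
    (av : At (TT h) i v) : c' = c ∧ (v.length : ℤ) = 3 ^ (c + 1) := by
  obtain ⟨b, _, u3, _, ⟨o, u1, u2, r, h1, hb⟩, h3, ⟨x, hx, rfl⟩, rfl⟩ := H
  cases b
  · simp only [Bool.false_eq_true, if_false] at hb hx
    obtain ⟨h2, rfl⟩ := hb
    obtain ⟨n, H⟩ := exists_Nd h i (by rw [av.1]; rfl)
    rw [av.1] at H
    have a1 : At (TT h) (i + 1) (u1 ++ u2 ++ [D]) := av.left.left.2
    obtain ⟨e1, -⟩ := H.close ((h1.mono fun _ => ChA.ch).append (h2.mono fun _ => ChD.ch)) rfl a1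
    have n1 : TT h (i + 1 + u1.length) ≠ a := by
      rw [List.append_assoc] at a1
      cases h2 with
      | nil => rw [a1.right.1]; simp
      | cons n x w hx _ => obtain ⟨y, s, rfl, rfl⟩ := hx.fst; rw [a1.right.1]; simp
    obtain ⟨rfl, -⟩ := star_det det_ChA (· = a) (fun _ => ChA.fst) h1 (rep_AA n) a1.left.left H.atA
      n1 (by rw [len_AA, show i + 1 + (3 ^ n - 1) = i + 3 ^ n by ring]; exact H.mid_ne)
    have e2 : d :: u1 ++ u2 ++ [D] = chunk d c := by rw [chunk, ← e1]; simp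
    rw [e2, List.append_assoc] at av
    rw [e2]
    obtain ⟨o, m, -, G1, G2⟩ := H.after_d
    have a2 := av.right
    rw [len_chunk] at a2
    obtain ⟨rfl, rfl⟩ := star_det det_ChD (· = d) (fun _ => ChD.fst) h3 (rep_DD c) a2.left G2.left
      (by rw [a2.right.1]; rintro rfl; simp at hx)
      (by rw [G2.right.1]; intro h; have := G1.1; rw [← bar_bar o, h] at this; simp at this)
    simp [len_chunk, len_DD]; ring
  · simp only [if_true] at hb hx
    obtain ⟨ho, h2, rfl⟩ := hb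
    subst hx
    obtain ⟨e1, e2⟩ := opened_sound ho h1 h2 h3 av
    rw [e2]
    simp [e1, len_AA]

lemma cellP_cell (c : ℕ) (x : Lt) : CellP c c (cell (c + 1) x) := by
  cases hx : x.op
  · exact ⟨false, d :: AA c ++ DD c ++ [D], DD c, [x], ⟨d, AA c, DD c, c, rep_AA c, by simp [rep_DD]⟩,
      rep_DD c, ⟨x, by simpa, rfl⟩, by simp [cell, hx, DD_succ, chunk]⟩
  · exact ⟨true, x :: AA c ++ a :: AA c, DD c, [A], ⟨x, AA c, AA c, c, rep_AA c, by simp [rep_AA, hx]⟩,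
      rep_DD c, ⟨A, by simp, rfl⟩, by simp [cell, hx, AA_succ, chunk]⟩

section run
variable (k : ℕ) (E : ℤ)

def goodN (N : ℤ) (off : ℕ) : Prop := -(100 * k) ≤ N ∧ N ≤ 100 * k ∧ off ≤ 900 * k + 2

def Fin2 (X : ℤ) (n1 n2 : Bool) (G1 G2 : List Lt) : Prop :=
  ∃ r1 r2 : ℕ, (r1 ≤ 200 ∧ r2 ≤ 200 ∧ (n1 = true → 1 ≤ r1) ∧ (n2 = true → 1 ≤ r2) ∧
    X ≤ k * (r1 + r2) + E) ∧ G1.length = r1 ∧ G2.length = r2

inductive Run : ℤ → ℕ → Bool → Bool → ℕ → List Lt → List Lt → Prop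
  | finA (off : ℕ) (n1 n2 : Bool) (c : ℕ) (G1 G2) : Fin2 k E 0 n1 n2 G1 G2 → Run 0 off n1 n2 c G1 G2
  | finB (N : ℤ) (n1 n2 : Bool) (c : ℕ) (G1 G2) : Fin2 k E N n1 n2 G1 G2 →
      Run N (c + 1) n1 n2 c G1 G2
  | desc (N : ℤ) (off : ℕ) (n1 n2 : Bool) (c : ℕ) (G1 G2) : goodN k (3 * N) (off + 1) →
      Run (3 * N) (off + 1) n1 n2 c G1 G2 → Run N off n1 n2 c G1 G2
  | con1 (N : ℤ) (off : ℕ) (n1 n2 : Bool) (c c' : ℕ) (v G1 G2) : goodN k (N - k) 0 → CellP c c' v →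
      Run (N - k) 0 false n2 c' G1 G2 → Run N off n1 n2 (c + off) (v ++ G1) G2
  | con2 (N : ℤ) (off : ℕ) (n1 n2 : Bool) (c c' : ℕ) (v G1 G2) : goodN k (N - k) 0 → CellP c c' v →
      Run (N - k) 0 n1 false c' G1 G2 → Run N off n1 n2 (c + off) G1 (v ++ G2)

variable {k E}

lemma CellP.pos {c c' : ℕ} {v : List Lt} (H : CellP c c' v) : 1 ≤ v.length := by
  obtain ⟨b, _, u3, _, -, -, ⟨x, -, rfl⟩, rfl⟩ := H
  simp; omega

lemma Run.need {N : ℤ} {off : ℕ} {n1 n2 : Bool} {c : ℕ} {G1 G2 : List Lt}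
    (H : Run k E N off n1 n2 c G1 G2) :
    (n1 = true → 1 ≤ G1.length) ∧ (n2 = true → 1 ≤ G2.length) := by
  induction H with
  | finA off n1 n2 c G1 G2 hf => obtain ⟨_, _, h, rfl, rfl⟩ := hf; exact ⟨h.2.2.1, h.2.2.2.1⟩
  | finB N n1 n2 c G1 G2 hf => obtain ⟨_, _, h, rfl, rfl⟩ := hf; exact ⟨h.2.2.1, h.2.2.2.1⟩
  | desc _ _ _ _ _ _ _ _ _ ih => exact ih
  | con1 _ _ _ _ _ _ _ _ _ _ hv _ ih => exact ⟨fun _ => by have := hv.pos; simp; omega, ih.2⟩
  | con2 _ _ _ _ _ _ _ _ _ _ hv _ ih => exact ⟨ih.1, fun _ => by have := hv.pos; simp; omega⟩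

lemma Run.sound {N : ℤ} {off : ℕ} {n1 n2 : Bool} {c : ℕ} {G1 G2 : List Lt}
    (H : Run k E N off n1 n2 c G1 G2) {h1 h2 : ℕ} {i1 i2 : ℤ} (a1 : At (TT h1) i1 G1)
    (a2 : At (TT h2) i2 G2) :
    N * 3 ^ (c + 1) ≤ 3 ^ off * (k * (G1.length + G2.length) + E) := by
  induction H generalizing i1 i2 with
  | finA off n1 n2 c G1 G2 hf =>
    obtain ⟨_, _, h, rfl, rfl⟩ := hf
    have := h.2.2.2.2
    rw [zero_mul]; positivity
  | finB N n1 n2 c G1 G2 hf =>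
    obtain ⟨_, _, h, rfl, rfl⟩ := hf
    have := h.2.2.2.2
    have := pow3_pos (c + 1)
    nlinarith
  | desc N off n1 n2 c G1 G2 _ _ ih =>
    have := ih a1 a2
    rw [pow_succ 3 off] at this
    linarith
  | con1 N off n1 n2 c c' v G1 G2 _ hv _ ih =>
    obtain ⟨rfl, hl⟩ := hv.sound a1.left
    have := ih a1.right a2
    have hp := pow3_pos off
    rw [List.length_append, Nat.cast_add, hl, show c' + off + 1 = off + (c' + 1) by ring, pow_add]
    simp only [pow_zero, one_mul] at this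
    nlinarith
  | con2 N off n1 n2 c c' v G1 G2 _ hv _ ih =>
    obtain ⟨rfl, hl⟩ := hv.sound a2.left
    have := ih a1 a2.right
    have hp := pow3_pos off
    rw [List.length_append, Nat.cast_add, hl, show c' + off + 1 = off + (c' + 1) by ring, pow_add]
    simp only [pow_zero, one_mul] at this
    nlinarith

lemma at_cell {h j : ℕ} {i : ℤ} (hj : j ≤ h) (hi : (3 : ℤ) ^ j ∣ i) {G : List Lt}
    (aG : At (TT h) i G) (hl : (3 : ℤ) ^ j ≤ G.length) : ∃ x G', G = cell j x ++ G' := by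
  obtain ⟨g, rfl⟩ : ∃ g, h = g + j := ⟨h - j, by omega⟩
  obtain ⟨q, rfl⟩ := hi
  obtain ⟨G', e⟩ := (grid g j q).pre aG (by have := len_cell j (TT g q); omega)
  exact ⟨_, G', e.symm⟩

lemma run_complete (hk : 1 ≤ k) (hE : -(10 * k : ℤ) ≤ E) (hE' : E ≤ 10 * k) {h1 h2 : ℕ} (j : ℕ)
    (hj1 : j ≤ h1) (hj2 : j ≤ h2) :
    ∀ (L : ℕ) (N : ℤ) (off : ℕ) (n1 n2 : Bool) (c : ℕ) (G1 G2 : List Lt) (i1 i2 : ℤ),
      G1.length + G2.length = L → At (TT h1) i1 G1 → At (TT h2) i2 G2 →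
      (3 : ℤ) ^ j ∣ i1 → (3 : ℤ) ^ j ∣ i2 → c + 1 = j + off →
      k * (G1.length + G2.length) + E = N * 3 ^ j → N ≤ 100 * k →
      (off ≤ 2 ∨ (3 : ℤ) ^ off ≤ 9 * |N|) → (n1 = true → 1 ≤ G1.length) →
      (n2 = true → 1 ≤ G2.length) → Run k E N off n1 n2 c G1 G2 := by
  have hk' : (1 : ℤ) ≤ k := by exact_mod_cast hk
  induction j with
  | zero =>
    intro L N off n1 n2 c G1 G2 i1 i2 _ _ _ _ _ hc he hN _ q1 q2
    obtain rfl : off = c + 1 := by omega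
    simp only [pow_zero, mul_one] at he
    have : (G1.length : ℤ) + G2.length ≤ 110 := by nlinarith
    exact Run.finB _ _ _ _ _ _ ⟨_, _, ⟨by omega, by omega, q1, q2, by omega⟩, rfl, rfl⟩
  | succ j ihj =>
    intro L
    induction L using Nat.strong_induction_on with
    | _ L ihL =>
    intro N off n1 n2 c G1 G2 i1 i2 hL a1 a2 d1 d2 hc he hN hoff q1 q2
    have hp := pow3_pos (j + 1)
    have low : ∀ (N' : ℤ) (l : ℤ), 0 ≤ l → k * l + E = N' * 3 ^ (j + 1) → -(100 * k) ≤ N' := by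
      intro N' l hl e
      by_contra hc
      nlinarith
    by_cases g1 : (3 : ℤ) ^ (j + 1) ≤ G1.length
    · obtain ⟨x, G', rfl⟩ := at_cell hj1 d1 a1 g1
      obtain rfl : c = j + off := by omega
      have lc := len_cell (j + 1) x
      have e' : k * ((G'.length : ℤ) + G2.length) + E = (N - k) * 3 ^ (j + 1) := by
        rw [List.length_append, Nat.cast_add, lc] at he; linarith
      refine Run.con1 _ _ _ _ _ _ _ _ _ ⟨low _ _ (by positivity) e', by omega, by omega⟩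
        (cellP_cell j x) (ihL _ ?_ _ _ _ _ _ _ _ _ _ rfl a1.right a2 ?_ d2 rfl e' (by omega)
          (Or.inl (by omega)) (by simp) q2)
      · simp at hL; omega
      · rw [lc]; exact d1.add dvd_rfl
    by_cases g2 : (3 : ℤ) ^ (j + 1) ≤ G2.length
    · obtain ⟨x, G', rfl⟩ := at_cell hj2 d2 a2 g2
      obtain rfl : c = j + off := by omega
      have lc := len_cell (j + 1) x
      have e' : k * ((G1.length : ℤ) + G'.length) + E = (N - k) * 3 ^ (j + 1) := by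
        rw [List.length_append, Nat.cast_add, lc] at he; linarith
      refine Run.con2 _ _ _ _ _ _ _ _ _ ⟨low _ _ (by positivity) e', by omega, by omega⟩
        (cellP_cell j x) (ihL _ ?_ _ _ _ _ _ _ _ _ _ rfl a1 a2.right d1 ?_ rfl e' (by omega)
          (Or.inl (by omega)) q1 (by simp))
      · simp at hL; omega
      · rw [lc]; exact d2.add dvd_rfl
    by_cases hN0 : N = 0
    · subst hN0
      have : (G1.length : ℤ) + G2.length ≤ 10 := by nlinarith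
      exact Run.finA _ _ _ _ _ _ ⟨_, _, ⟨by omega, by omega, q1, q2, by omega⟩, rfl, rfl⟩
    have up : N ≤ 12 * k := by
      by_contra hc
      nlinarith
    have lo : -(10 * k) ≤ N := by
      by_contra hc
      have : (0 : ℤ) ≤ k * (G1.length + G2.length) := by positivity
      nlinarith
    have habs : |N| ≤ 12 * k := abs_le.2 ⟨by omega, up⟩
    have habs1 : 1 ≤ |N| := Int.one_le_abs hN0
    have h3 : (3 : ℤ) ^ (off + 1) ≤ 9 * |3 * N| := by
      rw [abs_mul, abs_of_pos (by norm_num : (0 : ℤ) < 3)]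
      rcases hoff with h | h
      · have := pow3_le (show off + 1 ≤ 3 by omega); omega
      · rw [pow_succ]; omega
    have h4 : off + 1 ≤ 900 * k + 2 := by
      have : off + 1 < 3 ^ (off + 1) := Nat.lt_pow_self (by norm_num)
      have h5 : ((off + 1 : ℕ) : ℤ) < 3 ^ (off + 1) := by exact_mod_cast this
      rw [abs_mul, abs_of_pos (by norm_num : (0 : ℤ) < 3)] at h3
      omega
    refine Run.desc _ _ _ _ _ _ _ ⟨by omega, by omega, h4⟩ (ihj (by omega) (by omega) _ _ _ _ _ _ _ _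
      i1 i2 rfl a1 a2 ((pow_dvd_pow _ (by omega)).trans d1) ((pow_dvd_pow _ (by omega)).trans d2)
      (by omega) (by rw [he]; ring) (by omega) (Or.inr h3) q1 q2)

end run

/-! ### Context-freeness of runs -/

section cf
variable (k : ℕ) (E : ℤ) (TL : List Lt → Prop)

structure RS where
  N : ℤ
  off : ℕ
  n1 : Bool
  n2 : Bool
  side : Bool
  tl : Option Bool

def tlL : Option Bool → List Lt → Prop
  | none => TL
  | some b => CellTl b

/-- `p` goes to the pending side, `q` to the other side. -/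
def Put (side : Bool) (p q l r : List Lt) : Prop :=
  if side then l = p ∧ r = q else l = q ∧ r = p

def PL (s : RS) (l r : List Lt) : Prop :=
  ∃ c out tl G1 G2 f1 f2, Rep ChD c out ∧ tlL TL s.tl tl ∧ Run k E s.N s.off s.n1 s.n2 c G1 G2 ∧
    ∃ l0 r0, Put s.side (out ++ tl) [] l0 r0 ∧ l = l0 ++ G1 ++ [f1] ∧ r = r0 ++ G2 ++ [f2]

def rsLab (s s' : RS) (l r : List Lt) : Prop :=
  (goodN k s'.N s'.off ∧ s' = ⟨3 * s.N, s.off + 1, s.n1, s.n2, s.side, s.tl⟩) ∧ l = [] ∧ r = [] ∨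
  ∃ b : Bool, (goodN k s'.N s'.off ∧ s' = ⟨s.N - k, 0, s.n1 && !s'.side, s.n2 && s'.side, s'.side, some b⟩) ∧
    ∃ c out tl v, Rep ChD (c + s.off) out ∧ tlL TL s.tl tl ∧ CellIn b c v ∧
      if s.side = s'.side then Put s.side (out ++ tl ++ v) [] l r else Put s.side (out ++ tl) v l r

def rsFin (s : RS) (l r : List Lt) : Prop :=
  ∃ c out tl G1 G2 f1 f2, Rep ChD c out ∧ tlL TL s.tl tl ∧
    (s.N = 0 ∨ s.off = c + 1) ∧ Fin2 k E s.N s.n1 s.n2 G1 G2 ∧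
    ∃ l0 r0, Put s.side (out ++ tl) [] l0 r0 ∧ l = l0 ++ G1 ++ [f1] ∧ r = r0 ++ G2 ++ [f2]

lemma path_PL (s : RS) (l r : List Lt) : Path2 (rsLab k TL) (rsFin k E TL) s l r ↔ PL k E TL s l r := by
  constructor
  · intro H
    induction H with
    | stop s l r hf =>
      obtain ⟨c, out, tl, G1, G2, f1, f2, h1, h2, h3, h4, h5⟩ := hf
      refine ⟨c, out, tl, G1, G2, f1, f2, h1, h2, ?_, h5⟩
      rcases h3 with h3 | h3
      · rw [h3] at h4 ⊢; exact Run.finA _ _ _ _ _ _ h4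
      · rw [h3]; exact Run.finB _ _ _ _ _ _ h4
    | step s s' l r l' r' hl _ ih =>
      obtain ⟨c', out', tl', G1, G2, f1, f2, h1, h2, h3, l0, r0, h4, rfl, rfl⟩ := ih
      rcases hl with ⟨⟨hg, rfl⟩, rfl, rfl⟩ | ⟨b, ⟨hg, e⟩, c, out, tl, v, g1, g2, g3, g4⟩
      · exact ⟨c', out', tl', G1, G2, f1, f2, h1, h2, Run.desc _ _ _ _ _ _ _ hg h3, l0, r0, h4,
          rfl, rfl⟩
      · obtain ⟨N, off, n1, n2, side, τ⟩ := s
        obtain ⟨N', off', n1', n2', side', τ'⟩ := s'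
        simp only [RS.mk.injEq] at e
        obtain ⟨rfl, rfl, rfl, rfl, -, rfl⟩ := e
        have hv : CellP c c' (v ++ out' ++ tl') := ⟨b, v, out', tl', g3, h1, h2, rfl⟩
        cases side' <;> cases side <;> simp [Put] at g4 h4 h3 <;> obtain ⟨rfl, rfl⟩ := g4 <;>
          obtain ⟨rfl, rfl⟩ := h4
        · exact ⟨_, out, tl, G1, _, f1, f2, g1, g2, Run.con2 _ _ _ _ _ _ _ _ _ hg hv h3, [], out ++ tl,
            by simp [Put], by simp, by simp⟩
        · exact ⟨_, out, tl, G1, _, f1, f2, g1, g2, Run.con2 _ _ _ _ _ _ _ _ _ hg hv h3, out ++ tl, [],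
            by simp [Put], by simp, by simp⟩
        · exact ⟨_, out, tl, _, G2, f1, f2, g1, g2, Run.con1 _ _ _ _ _ _ _ _ _ hg hv h3, [], out ++ tl,
            by simp [Put], by simp, by simp⟩
        · exact ⟨_, out, tl, _, G2, f1, f2, g1, g2, Run.con1 _ _ _ _ _ _ _ _ _ hg hv h3, out ++ tl, [],
            by simp [Put], by simp, by simp⟩
  · rintro ⟨c, out, tl, G1, G2, f1, f2, h1, h2, h3, l0, r0, h4, rfl, rfl⟩
    obtain ⟨N, off, n1, n2, side, τ⟩ := s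
    simp only at h2 h3 h4
    induction h3 generalizing out tl side τ l0 r0 with
    | finA off n1 n2 c G1 G2 hf =>
      exact Path2.stop _ _ _ ⟨c, out, tl, G1, G2, f1, f2, h1, h2, Or.inl rfl, hf, l0, r0, h4, rfl, rfl⟩
    | finB N n1 n2 c G1 G2 hf =>
      exact Path2.stop _ _ _ ⟨c, out, tl, G1, G2, f1, f2, h1, h2, Or.inr rfl, hf, l0, r0, h4, rfl, rfl⟩
    | desc N off n1 n2 c G1 G2 hg _ ih =>
      exact Path2.step _ ⟨3 * N, off + 1, n1, n2, side, τ⟩ [] [] _ _ (Or.inl ⟨⟨hg, rfl⟩, rfl, rfl⟩)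
        (ih out tl h1 l0 r0 side τ h2 h4)
    | con1 N off n1 n2 c c' v G1 G2 hg hv _ ih =>
      obtain ⟨b, v1, u3, v2, g1, g2, g3, rfl⟩ := hv
      have := Path2.step (lab := rsLab k TL) (fin := rsFin k E TL) ⟨N, off, n1, n2, side, τ⟩ ⟨N - k, 0, false, n2, true, some b⟩ (l0 ++ v1) r0 _ _
        (Or.inr ⟨b, ⟨hg, by simp⟩, c, out, tl, v1, h1, h2, g1, by
          cases side <;> simp [Put] at h4 ⊢ <;> simp [h4]⟩)
        (ih u3 v2 g2 (u3 ++ v2) [] true (some b) g3 (by simp [Put]))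
      simpa using this
    | con2 N off n1 n2 c c' v G1 G2 hg hv _ ih =>
      obtain ⟨b, v1, u3, v2, g1, g2, g3, rfl⟩ := hv
      have := Path2.step (lab := rsLab k TL) (fin := rsFin k E TL) ⟨N, off, n1, n2, side, τ⟩ ⟨N - k, 0, n1, false, false, some b⟩ l0 (r0 ++ v1) _ _
        (Or.inr ⟨b, ⟨hg, by simp⟩, c, out, tl, v1, h1, h2, g1, by
          cases side <;> simp [Put] at h4 ⊢ <;> simp [h4]⟩)
        (ih u3 v2 g2 [] (u3 ++ v2) false (some b) g3 (by simp [Put]))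
      simpa using this

lemma cf_CellTl (b : Bool) : CF (CellTl b) := CF.letter _

variable {TL}

lemma cf_tlL (hTL : CF TL) (τ : Option Bool) : CF (tlL TL τ) := by
  cases τ with
  | none => exact hTL
  | some b => exact cf_CellTl b

lemma cfp_put {P : List Lt → List Lt → Prop} (h : CFP P) (side : Bool) :
    CFP (fun l r => ∃ p q, P p q ∧ Put side p q l r) := by
  cases side
  · exact h.swap.congr (fun l r => by simp [Put])
  · exact h.congr (fun l r => by simp [Put])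

lemma cfp_cellIn {K : List Lt → Prop} (hK : CF K) (b : Bool) (off : ℕ) :
    CFP (fun l r => ∃ c, Rep K (c + off) l ∧ CellIn b c r) := by
  cases b
  · refine (((CFP.prod (CF.single []) (CF.single [d])).comp (cfp_diff hK cf_ChA off 0)).comp
      (CFP.prod (CF.single []) (cf_ChD.star.append (CF.single [D])))).congr (fun l r => ?_)
    constructor
    · rintro ⟨_, _, _, _, ⟨_, l, _, u1, ⟨rfl, rfl⟩, ⟨c, h1, h2⟩, rfl, rfl⟩,
        ⟨rfl, u2, _, ⟨r, h3⟩, rfl, rfl⟩, rfl, rfl⟩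
      exact ⟨c, by simpa using h1, d, u1, u2, r, h2, by simp [h3]⟩
    · rintro ⟨c, h1, o, u1, u2, r, h2, h3⟩
      simp only [Bool.false_eq_true, if_false] at h3
      obtain ⟨h3, rfl⟩ := h3
      exact ⟨_, _, _, _, ⟨_, l, _, u1, ⟨rfl, rfl⟩, ⟨c, h1, h2⟩, rfl, rfl⟩,
        ⟨rfl, u2, _, ⟨r, h3⟩, rfl, rfl⟩, by simp, by simp⟩
  · refine (((CFP.prod (CF.single []) (CF.letter fun o : Lt => o.op = true)).comp
      (cfp_diff hK cf_ChA off 0)).comp
      (CFP.prod (CF.single []) ((CF.single [a]).append cf_ChA.star))).congr (fun l r => ?_)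
    constructor
    · rintro ⟨_, _, _, _, ⟨_, l, _, u1, ⟨rfl, o, ho, rfl⟩, ⟨c, h1, h2⟩, rfl, rfl⟩,
        ⟨rfl, _, u2, rfl, ⟨r, h3⟩, rfl⟩, rfl, rfl⟩
      exact ⟨c, by simpa using h1, o, u1, u2, r, h2, by simp [h3, ho]⟩
    · rintro ⟨c, h1, o, u1, u2, r, h2, h3⟩
      simp only [if_true] at h3
      obtain ⟨ho, h3, rfl⟩ := h3
      exact ⟨_, _, _, _, ⟨_, l, _, u1, ⟨rfl, o, ho, rfl⟩, ⟨c, h1, h2⟩, rfl, rfl⟩,
        ⟨rfl, _, u2, rfl, ⟨r, h3⟩, rfl⟩, by simp, by simp⟩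

lemma cf_len (r : ℕ) : CF (fun w : List Lt => w.length = r) := (Reg.length_eq r).cf

lemma cfp_Fin2 (X : ℤ) (n1 n2 : Bool) : CFP (Fin2 k E X n1 n2) := by
  refine (CFP.exists_mem (Set.finite_Iic ((200, 200) : ℕ × ℕ)) (fun x _ => CFP.and_const
    ((n1 = true → 1 ≤ x.1) ∧ (n2 = true → 1 ≤ x.2) ∧ X ≤ k * (x.1 + x.2) + E)
    (fun _ => CFP.prod (cf_len x.1) (cf_len x.2)))).congr (fun l r => ?_)
  constructor
  · rintro ⟨x, hx, h1, h2⟩; exact ⟨x.1, x.2, ⟨hx.1, hx.2, h1⟩, h2⟩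
  · rintro ⟨r1, r2, ⟨h1, h2, h3⟩, h4⟩; exact ⟨(r1, r2), ⟨h1, h2⟩, h3, h4⟩

lemma cfp_PL (hTL : CF TL) (s0 : RS) : CFP (PL k E TL s0) := by
  refine (CFP.paths (lab := rsLab k TL) (fin := rsFin k E TL) {s | goodN k s.N s.off} ?_ ?_ ?_ ?_
    s0).congr (path_PL k E TL s0)
  · refine (((Set.finite_Icc (-(100 * k : ℤ)) (100 * k)).prod ((Set.finite_Iic (900 * k + 2)).prod
      (Set.finite_univ (α := Bool × Bool × Bool × Option Bool)))).image
      (fun x => (⟨x.1, x.2.1, x.2.2.1, x.2.2.2.1, x.2.2.2.2.1, x.2.2.2.2.2⟩ : RS))).subset ?_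
    rintro ⟨N, off, n1, n2, side, τ⟩ ⟨h1, h2, h3⟩
    exact ⟨(N, off, n1, n2, side, τ), ⟨⟨h1, h2⟩, h3, trivial⟩, rfl⟩
  · intro s s'
    refine CFP.or (CFP.and_const _ fun _ => cfp_P0) (CFP.exists fun b => CFP.and_const _ fun _ => ?_)
    by_cases hs : s.side = s'.side
    · simp only [if_pos hs]
      have h1 : CF (fun w => ∃ l m r, (∃ c, Rep ChD (c + s.off) (dag l) ∧ CellIn b c r) ∧
          tlL TL s.tl m ∧ w = dag l ++ m ++ r) := by
        refine CFP.closeD ((cfp_cellIn cf_ChA b s.off).congr (fun l r => ?_)) (cf_tlL hTL _)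
        refine exists_congr fun c => and_congr_left fun _ => ⟨rep_dag fun _ => ChA.dg, fun h => ?_⟩
        simpa using rep_dag (fun _ => ChD.dg) h
      refine (cfp_put (CFP.prod h1 (CF.single [])) s.side).congr (fun l r => ?_)
      constructor
      · rintro ⟨_, _, ⟨⟨l, m, r, ⟨c, g1, g2⟩, g3, rfl⟩, rfl⟩, h⟩
        exact ⟨c, _, _, _, g1, g3, g2, h⟩
      · rintro ⟨c, out, tl, v, g1, g3, g2, h⟩
        exact ⟨_, _, ⟨⟨dag out, tl, v, ⟨c, by simpa using g1, g2⟩, g3, rfl⟩, rfl⟩, by simpa using h⟩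
    · simp only [if_neg hs]
      refine (cfp_put ((cfp_cellIn cf_ChD b s.off).comp (CFP.prod (cf_tlL hTL s.tl) (CF.single [])))
        s.side).congr (fun l r => ?_)
      constructor
      · rintro ⟨_, _, ⟨out, tl, v, _, ⟨c, g1, g2⟩, ⟨g3, rfl⟩, rfl, rfl⟩, h⟩
        exact ⟨c, _, _, _, g1, g3, g2, by simpa using h⟩
      · rintro ⟨c, out, tl, v, g1, g3, g2, h⟩
        exact ⟨_, _, ⟨out, tl, v, _, ⟨c, g1, g2⟩, ⟨g3, rfl⟩, rfl, rfl⟩, by simpa using h⟩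
  · intro s
    have h1 : CF (fun w => ∃ c, Rep ChD c w ∧ (s.N = 0 ∨ s.off = c + 1)) := by
      refine ((CF.and_const (s.N = 0) fun _ => cf_ChD.star).or
        (CF.and_const (1 ≤ s.off) fun _ => cf_ChD.rep (s.off - 1))).congr (fun w => ?_)
      constructor
      · rintro (⟨h, c, hc⟩ | ⟨h, hc⟩)
        · exact ⟨c, hc, Or.inl h⟩
        · exact ⟨_, hc, Or.inr (by omega)⟩
      · rintro ⟨c, hc, h | h⟩
        · exact Or.inl ⟨h, c, hc⟩
        · exact Or.inr ⟨by omega, by rw [h]; exact hc⟩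
    refine (((cfp_put (CFP.prod (h1.append (cf_tlL hTL s.tl)) (CF.single [])) s.side).comp
      (cfp_Fin2 k E s.N s.n1 s.n2)).comp (CFP.prod (CF.letter fun _ => True)
      (CF.letter fun _ => True))).congr (fun l r => ?_)
    constructor
    · rintro ⟨_, _, _, _, ⟨l0, G1, r0, G2, ⟨_, _, ⟨⟨out, tl, ⟨c, g1, g2⟩, g3, rfl⟩, rfl⟩, h⟩, g4, rfl, rfl⟩,
        ⟨⟨f1, -, rfl⟩, ⟨f2, -, rfl⟩⟩, rfl, rfl⟩
      exact ⟨c, out, tl, G1, G2, f1, f2, g1, g3, g2, g4, l0, r0, h, rfl, rfl⟩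
    · rintro ⟨c, out, tl, G1, G2, f1, f2, g1, g3, g2, g4, l0, r0, h, rfl, rfl⟩
      exact ⟨_, _, _, _, ⟨l0, G1, r0, G2, ⟨_, _, ⟨⟨out, tl, ⟨c, g1, g2⟩, g3, rfl⟩, rfl⟩, h⟩, g4, rfl, rfl⟩,
        ⟨⟨f1, trivial, rfl⟩, ⟨f2, trivial, rfl⟩⟩, rfl, rfl⟩
  · rintro s s' l r (⟨⟨h, -⟩, -⟩ | ⟨b, ⟨h, -⟩, -⟩) <;> exact h

end cf

end Pool.Agent.Lib.MP_dfa990_al
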