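import Mathlib
import Pool.Agent.Lib.MP_dfa990_al.Run

/-! The certificate at a change of sign. -/

namespace Pool.Agent.Lib.MP_dfa990_al
open Pool.Agent.Lib.helper29 Lt

def ET (e : List Lt) : Prop := ∃ r u c, Rep ChD r u ∧ Lt.op c = false ∧ e = u ++ [c]

def PTo : Option (Lt × Lt) → List Lt → List Lt → Prop
  | none => P0
  | some x => fun dk k' => ∃ r u u' y1 y2, Rep ChA r u ∧ Rep ChA r u' ∧
      dk = x.2.mir :: x.1.mir :: u ∧ k' = y1 :: y2 :: u'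

def PTB (P : ℕ) (z : Lt) (dk k' : List Lt) : Prop :=
  (dk.length = P + 1 ∧ dk.head? = some z.mir) ∧ k'.length = P + 1

def HeadB : Option (Lt × ℕ) → ℕ → List Lt → List Lt → Prop
  | none => fun _ => P0
  | some x => fun c de e' => (∃ n uB, Rep ChA n uB ∧ c + x.2 ≤ n ∧ de = dag (x.1 :: uB)) ∧ ET e'

def RelG (k : ℕ) (drA drB : List Lt) (cA : Lt) (mb : Option (Lt × ℕ)) (uB : Lt)
    (pA pB : Option (Lt × Lt)) (N0 : ℤ) (off0 : ℕ) (E : ℤ) (nd : Bool) (n1 w1 n2 w2 : ℕ)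
    (ω1 ω2 : List Lt) : Prop :=
  ∃ (c c' r : ℕ) (uA uA2 out : List Lt) (u : Lt) (eA deB eB dkA kA dkB kB G1 G2 : List Lt)
    (f1 f2 : Lt), Rep ChA c uA ∧ Rep ChA r uA2 ∧ Rep ChD c' out ∧ u ≠ a ∧ ET eA ∧
    HeadB mb c deB eB ∧ PTo pA dkA kA ∧ PTo pB dkB kB ∧ Run k E N0 off0 nd nd c' G1 G2 ∧
    ArmD drA (dag (cA :: uA ++ a :: uA2 ++ out ++ [A])) eA dkA kA G1 u f1 w1 n1 ω1 ∧
    ArmD drB deB eB dkB kB G2 uB f2 w2 n2 ω2

def RelA (m k φ n1 w1 n2 w2 : ℕ) (ω1 ω2 : List Lt) : Prop :=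
  (∃ xA xB cA uB : Lt, (xA.op = true ∧ xB.op = true ∧ cA.op = true ∧ xA ≠ xB) ∧
    RelG k [xA.mir] [xB.mir] cA none uB none none (12 * m) (2 - dl cA.mir xA)
      (φ + 4 * m - 2 * k) true n1 w1 n2 w2 ω1 ω2) ∨
  (∃ xA xB cA cB uB : Lt, (xA.op = true ∧ xB.op = true ∧ cA.op = true ∧ cB.op = true) ∧
    RelG k [xA.mir] [xB.mir] cA (some (cB, 2 + dl cA.mir xA - dl cB.mir xB)) uB none none (6 * m)
      (2 - dl cA.mir xA) (φ + 2 * m - 2 * k) true n1 w1 n2 w2 ω1 ω2) ∨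
  (∃ uB : Lt, RelG k [] [] d (some (a, 3)) uB none none (2 * m) 0 φ false n1 w1 n2 w2 ω1 ω2) ∨
  (∃ uB : Lt, RelG k [] [] a (some (d, 1)) uB none none (2 * m) 1 φ false n1 w1 n2 w2 ω1 ω2) ∨
  (∃ c1 o1 c2 o2 : Lt, (c1.op = false ∧ c2.op = false ∧ c1 ≠ c2) ∧
    RelG k [] [] d none a (some (c1, o1)) (some (c2, o2)) (6 * m) 0 (φ + 2 * m) false
      n1 w1 n2 w2 ω1 ω2) ∨
  (∃ c1 o1 c2 o2 : Lt, (c1.op = false ∧ c2.op = false ∧ o1 ≠ o2) ∧
    RelG k [] [] d none a (some (c1, o1)) (some (c2, o2)) (6 * m) 0 φ false n1 w1 n2 w2 ω1 ω2) ∨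
  (∃ c1 o1 c2 o2 : Lt, (c1.op = false ∧ c2.op = false ∧ o1.op = true) ∧
    RelG k [] [] d none a (some (c1, o1)) (some (c2, o2)) (2 * m * (3 + 3 ^ dl c1 o1)) 0 φ false
      n1 w1 n2 w2 ω1 ω2)

def RelB (m k φ n1 w1 n2 w2 : ℕ) (ω1 ω2 : List Lt) : Prop :=
  ∃ x ∈ Set.Iic ((12, 24, 24) : ℕ × ℕ × ℕ), ∃ z1 z2 u1 u2 f1 f2 : Lt,
    (z1 ≠ z2 ∧ 2 * m * x.1 ≤ k * (x.2.1 + x.2.2) + φ) ∧
    EndG P0 (PTB x.1 z1) (fun G => G.length = x.2.1) u1 f1 w1 n1 ω1 ∧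
    EndG P0 (PTB x.1 z2) (fun G => G.length = x.2.2) u2 f2 w2 n2 ω2

def Rel (m k φ n1 w1 n2 w2 : ℕ) (ω1 ω2 : List Lt) : Prop :=
  RelA m k φ n1 w1 n2 w2 ω1 ω2 ∨ RelA m k φ n2 w2 n1 w1 ω2 ω1 ∨ RelB m k φ n1 w1 n2 w2 ω1 ω2

/-! ### Context-freeness -/

lemma cf_ET : CF ET :=
  (cf_ChD.star.append (CF.letter fun c : Lt => c.op = false)).congr (fun w => by
    constructor
    · rintro ⟨u, _, ⟨r, hu⟩, ⟨c, hc, rfl⟩, rfl⟩; exact ⟨r, u, c, hu, hc, rfl⟩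
    · rintro ⟨r, u, c, hu, hc, rfl⟩; exact ⟨u, _, ⟨r, hu⟩, ⟨c, hc, rfl⟩, rfl⟩)

lemma cfp_PTo (p : Option (Lt × Lt)) : CFP (PTo p) := by
  cases p with
  | none => exact cfp_P0
  | some x =>
    refine ((CFP.prod (CF.single [x.2.mir, x.1.mir]) (cf_len 2)).comp
      (CFP.star cf_ChA cf_ChA)).congr (fun l r => ?_)
    constructor
    · rintro ⟨_, u, y, u', ⟨rfl, hy⟩, ⟨n, h1, h2⟩, rfl, rfl⟩
      obtain ⟨y1, y2, rfl⟩ := List.length_eq_two.1 hy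
      exact ⟨n, u, u', y1, y2, h1, h2, rfl, rfl⟩
    · rintro ⟨n, u, u', y1, y2, h1, h2, rfl, rfl⟩
      exact ⟨_, u, [y1, y2], u', ⟨rfl, rfl⟩, ⟨n, h1, h2⟩, rfl, rfl⟩

lemma cfp_PTB (P : ℕ) (z : Lt) : CFP (PTB P z) :=
  CFP.prod ((Reg.length_eq _).and (Reg.head (· = some z.mir))).cf (cf_len _)

lemma armD_of_tail {E : List Lt → Prop} {PT : List Lt → List Lt → Prop} {u f : Lt} {w nx n : ℕ}
    {tl dr de G : List Lt} (h : Tail E PT u w nx tl)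
    (hc : (dr ++ dag de ++ tl ++ G ++ [f]).count t = (dr ++ dag de ++ [u]).count t + nx + n) :
    ∃ e' dk k', E e' ∧ PT dk k' ∧ ArmD dr de e' dk k' G u f w n (dr ++ dag de ++ tl ++ G ++ [f]) := by
  obtain ⟨x0, x0', u', e', ch, h1, h2, h3, ⟨dk, k', h4, h5⟩, rfl, rfl⟩ := h
  refine ⟨e', dk, k', h3, h4, x0, x0', u', ch, h1, h2, h5, ?_, by simp⟩
  simp only [List.count_append, List.count_cons, List.count_nil] at hc ⊢
  omega

lemma tail_of_armD {E : List Lt → Prop} {PT : List Lt → List Lt → Prop} {u f : Lt} {w n : ℕ}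
    {dr de e' dk k' G ω : List Lt} (h : ArmD dr de e' dk k' G u f w n ω) (hE : E e')
    (hP : PT dk k') : ∃ nx tl, Tail E PT u w nx tl ∧ ω = dr ++ dag de ++ tl ++ G ++ [f] ∧
      ω.count t = (dr ++ dag de ++ [u]).count t + nx + n := by
  obtain ⟨x0, x0', u', ch, h1, h2, h5, rfl, rfl⟩ := h
  refine ⟨_, _, ⟨x0, x0', u', e', ch, h1, h2, hE, ⟨dk, k', hP, h5⟩, rfl, rfl⟩, by simp, ?_⟩
  simp only [List.count_append, List.count_cons, List.count_nil]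
  omega

def EB : Option (Lt × ℕ) → List Lt → Prop
  | none => fun e => e = []
  | some _ => ET

def hbL : Option (Lt × ℕ) → List Lt
  | none => []
  | some x => [x.1]

def HB0 : Option (Lt × ℕ) → ℕ → List Lt → Prop
  | none => fun _ v => v = []
  | some x => fun c v => ∃ n uB, Rep ChA n uB ∧ c + x.2 ≤ n ∧ v = x.1 :: uB

lemma headB_iff {mb : Option (Lt × ℕ)} {c : ℕ} {de e' : List Lt} :
    HeadB mb c de e' ↔ HB0 mb c (dag de) ∧ EB mb e' := by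
  cases mb with
  | none => exact and_congr_left fun _ => ⟨fun h => by simp [h, HB0], fun h => dag_inj h⟩
  | some x =>
    refine and_congr_left fun _ => exists_congr fun n => exists_congr fun u =>
      and_congr_right fun _ => and_congr_right fun _ => ⟨fun h => by rw [h, dag_dag], fun h => ?_⟩
    rw [← h, dag_dag]

lemma HB0.count {mb : Option (Lt × ℕ)} {c : ℕ} {v : List Lt} (h : HB0 mb c v) :
    v.count t = (hbL mb).count t := by
  cases mb with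
  | none => rw [show v = [] from h]; rfl
  | some x =>
    obtain ⟨n, u, hu, -, rfl⟩ := h
    simp [hbL, List.count_cons, (rep_count (fun _ => ChA.ch) hu).1]

lemma cfp_HB0 (mb : Option (Lt × ℕ)) : CFP (fun l r => ∃ c, Rep ChA c l ∧ HB0 mb c r) := by
  cases mb with
  | none => exact (CFP.prod cf_ChA.star (CF.single [])).congr (fun l r => by simp [HB0])
  | some x =>
    refine ((CFP.prod (CF.single []) (CF.single [x.1])).comp (cfp_le cf_ChA cf_ChA 0 x.2)).congr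
      (fun l r => ?_)
    constructor
    · rintro ⟨_, l, _, u, ⟨rfl, rfl⟩, ⟨c, n, h1, h2, h3⟩, rfl, rfl⟩
      exact ⟨c, h1, n, u, h2, h3, rfl⟩
    · rintro ⟨c, h1, n, u, h2, h3, rfl⟩
      exact ⟨_, l, _, u, ⟨rfl, rfl⟩, ⟨c, n, h1, h2, h3⟩, rfl, rfl⟩

lemma cf_EB (mb : Option (Lt × ℕ)) : CF (EB mb) := by
  cases mb with
  | none => exact CF.single []
  | some _ => exact cf_ET

lemma cfp_RelG (B k : ℕ) (drA drB : List Lt) (cA : Lt) (mb : Option (Lt × ℕ)) (uB : Lt)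
    (pA pB : Option (Lt × Lt)) (N0 : ℤ) (off0 : ℕ) (E : ℤ) (nd : Bool) (n1 w1 n2 w2 : ℕ) :
    CFP (fun ω1 ω2 => RelG k drA drB cA mb uB pA pB N0 off0 E nd n1 w1 n2 w2 ω1 ω2 ∧
      ω1.count t ≤ B ∧ ω2.count t ≤ B) := by
  refine (CFP.exists fun u : Lt => CFP.exists_mem (Set.finite_Iic ((B, B) : ℕ × ℕ)) fun x _ =>
    CFP.and_const (u ≠ a ∧ (drA ++ [cA, u]).count t + x.1 + n1 ≤ B ∧
      (drB ++ hbL mb ++ [uB]).count t + x.2 + n2 ≤ B) fun _ =>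
    (((((CFP.prod (CF.single (drA ++ [cA])) (CF.single drB)).comp (cfp_HB0 mb)).comp
      (CFP.prod ((CF.single [a]).append cf_ChA.star)
        (cf_Tail (cf_EB mb) (cfp_PTo pB) uB w2 x.2))).comp
      (cfp_PL k E ((CF.single [A]).append (cf_Tail cf_ET (cfp_PTo pA) u w1 x.1))
        ⟨N0, off0, nd, nd, true, none⟩)).regL
      (Reg.count_eq t ((drA ++ [cA, u]).count t + x.1 + n1))).regR
      (Reg.count_eq t ((drB ++ hbL mb ++ [uB]).count t + x.2 + n2))).congr (fun ω1 ω2 => ?_)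
  constructor
  · rintro ⟨u, x, -, ⟨hu, b1, b2⟩, ⟨⟨_, _, _, _, ⟨_, _, _, tlB, ⟨_, uA, _, vB, ⟨rfl, rfl⟩, ⟨c, h1, h2⟩,
      rfl, rfl⟩, ⟨⟨_, uA2, rfl, ⟨r, h3⟩, rfl⟩, h4⟩, rfl, rfl⟩,
      ⟨c', out, _, G1, G2, f1, f2, h5, ⟨_, tlA, rfl, h6, rfl⟩, h7, _, _, ⟨rfl, rfl⟩, rfl, rfl⟩,
      rfl, rfl⟩, k1⟩, k2⟩
    refine ⟨?_, by omega, by omega⟩
    obtain ⟨eA, dkA, kA, g1, g2, g3⟩ := armD_of_tail (dr := drA) (G := G1) (f := f1) (n := n1)
      (de := dag (cA :: uA ++ a :: uA2 ++ out ++ [A])) h6 (by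
        have := (rep_count (fun _ => ChA.ch) h1).1
        have := (rep_count (fun _ => ChA.ch) h3).1
        have := (rep_count (fun _ => ChD.ch) h5).1
        simp only [dag_dag, List.count_append, List.count_cons, List.count_nil,
          show (a == t) = false from rfl, show (A == t) = false from rfl, Bool.false_eq_true,
          if_false] at *
        omega)
    obtain ⟨eB, dkB, kB, g4, g5, g6⟩ := armD_of_tail (dr := _) (G := G2) (f := f2) (n := n2)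
      (de := dag vB) h4 (by
        have := h2.count
        simp only [dag_dag, List.count_append, List.count_cons, List.count_nil] at *
        omega)
    exact ⟨c, c', r, uA, uA2, out, u, eA, dag vB, eB, dkA, kA, dkB, kB, G1, G2, f1, f2, h1, h3, h5,
      hu, g1, headB_iff.2 ⟨by simpa using h2, g4⟩, g2, g5, h7, by simpa using g3, by simpa using g6⟩
  · rintro ⟨⟨c, c', r, uA, uA2, out, u, eA, deB, eB, dkA, kA, dkB, kB, G1, G2, f1, f2, h1, h3, h5,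
      hu, g1, hB, g2, g5, h7, g3, g6⟩, b1, b2⟩
    obtain ⟨h2, g4⟩ := headB_iff.1 hB
    obtain ⟨x1, tlA, h6, rfl, k1⟩ := tail_of_armD g3 g1 g2
    obtain ⟨x2, tlB, h4, rfl, k2⟩ := tail_of_armD g6 g4 g5
    have k1' : (drA ++ dag (dag (cA :: uA ++ a :: uA2 ++ out ++ [A])) ++ tlA ++ G1 ++ [f1]).count t =
        (drA ++ [cA, u]).count t + x1 + n1 := by
      rw [k1]
      have := (rep_count (fun _ => ChA.ch) h1).1
      have := (rep_count (fun _ => ChA.ch) h3).1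
      have := (rep_count (fun _ => ChD.ch) h5).1
      simp only [dag_dag, List.count_append, List.count_cons, List.count_nil] at *
      simp; omega
    have k2' : (drB ++ dag deB ++ tlB ++ G2 ++ [f2]).count t =
        (drB ++ hbL mb ++ [uB]).count t + x2 + n2 := by
      rw [k2]
      have := h2.count
      simp only [List.count_append, List.count_cons, List.count_nil] at *
      omega
    exact ⟨u, (x1, x2), ⟨by simp only; omega, by simp only; omega⟩, ⟨hu, by simp only; omega,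
      by simp only; omega⟩,
      ⟨⟨_, _, _, _, ⟨_, _, _, tlB, ⟨_, uA, _, dag deB, ⟨rfl, rfl⟩, ⟨c, h1, h2⟩,
      rfl, rfl⟩, ⟨⟨_, uA2, rfl, ⟨r, h3⟩, rfl⟩, h4⟩, rfl, rfl⟩,
      ⟨c', out, _, G1, G2, f1, f2, h5, ⟨_, tlA, rfl, h6, rfl⟩, h7, _, _, ⟨rfl, rfl⟩, rfl, rfl⟩,
      by simp, by simp⟩, k1'⟩, k2'⟩

lemma cfp_RelA (B m k φ n1 w1 n2 w2 : ℕ) :
    CFP (fun ω1 ω2 => RelA m k φ n1 w1 n2 w2 ω1 ω2 ∧ ω1.count t ≤ B ∧ ω2.count t ≤ B) := by
  simp only [RelA, or_and_right, ← exists_and_right, and_assoc (c := _ ≤ B ∧ _ ≤ B)]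
  refine CFP.or ?_ (CFP.or ?_ (CFP.or ?_ (CFP.or ?_ (CFP.or ?_ (CFP.or ?_ ?_)))))
  all_goals
    repeat refine CFP.exists fun _ => ?_
    first
    | exact CFP.and_const _ fun _ => cfp_RelG ..
    | exact cfp_RelG ..

lemma reg_count_le (x : Lt) (B : ℕ) : Reg (fun w : List Lt => w.count x ≤ B) := by
  induction B with
  | zero => exact (Reg.count_eq x 0).congr (fun w => by omega)
  | succ B ih => exact (ih.or (Reg.count_eq x (B + 1))).congr (fun w => by omega)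

lemma cfp_Rel (B m k φ n1 w1 n2 w2 : ℕ) :
    CFP (fun ω1 ω2 => Rel m k φ n1 w1 n2 w2 ω1 ω2 ∧ ω1.count t ≤ B ∧ ω2.count t ≤ B) := by
  have hB : CFP (RelB m k φ n1 w1 n2 w2) :=
    CFP.exists_mem (Set.finite_Iic _) fun x _ => CFP.exists fun z1 => CFP.exists fun z2 =>
      CFP.exists fun u1 => CFP.exists fun u2 => CFP.exists fun f1 => CFP.exists fun f2 =>
      CFP.and_const _ fun _ => CFP.prod (cf_EndG cfp_P0 (cfp_PTB _ _) (cf_len _) _ _ _ _)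
        (cf_EndG cfp_P0 (cfp_PTB _ _) (cf_len _) _ _ _ _)
  refine ((cfp_RelA B m k φ n1 w1 n2 w2).or ((cfp_RelA B m k φ n2 w2 n1 w1).swap.or
    ((hB.regL (reg_count_le t B)).regR (reg_count_le t B)))).congr (fun l r => ?_)
  unfold Rel; tauto

end Pool.Agent.Lib.MP_dfa990_al
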