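import Mathlib
import Pool.Agent.Lib.MP_dfa990_al.Rel

/-! Soundness and completeness of the certificate at a change of sign. -/

namespace Pool.Agent.Lib.MP_dfa990_al
open Pool.Agent.Lib.helper29 Lt

def ArmX (ld lg w n : ℕ) (ω : List Lt) : Prop :=
  ∃ (dr de e' dk k' G : List Lt) (u f : Lt), ArmD dr de e' dk k' G u f w n ω ∧ HeadOK de e' ∧
    HeadOK dk k' ∧ dr.length = ld ∧ G.length = lg

lemma ArmD.fwd {dr de e' dk k' G ω : List Lt} {u f : Lt} {w n : ℕ}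
    (H : ArmD dr de e' dk k' G u f w n ω) (h1 : HeadOK de e') (h2 : HeadOK dk k')
    {h : ℕ} {s : ℤ} (hω : At (TT h) s ω) :
    At (TT h) (-(s + dr.length)) (dag dk) ∧ At (TT h) (-(s + dr.length)) (G ++ [f]) := by
  obtain ⟨β, y, ρ, b1, -, -, -, -, K⟩ := H.sound h1 h2 hω
  obtain ⟨d1, -, a1, a2, -, e⟩ := K h 0 s b1.le (fun r _ _ => by simp)
  have e' := e (by omega)
  have per : el h ∣ -(s + dr.length) - (0 + β + y) := by
    rw [show -(s + dr.length) - (0 + β + y) = -2 * (0 + β) by omega]; exact d1.mul_left _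
  exact ⟨a1.per per, a2.per per⟩

lemma ArmD.start {dr de e' dk k' G ω : List Lt} {u f : Lt} {w n : ℕ}
    (H : ArmD dr de e' dk k' G u f w n ω) : ∃ r, ω = dr ++ dag de ++ u :: r := by
  obtain ⟨x0, x0', u', ch, -, -, -, -, rfl⟩ := H
  exact ⟨_, by simp; rfl⟩

lemma ArmX.out {ld lg w n : ℕ} {ω : List Lt} (H : ArmX ld lg w n ω) {V : ℤ → Lt} {a : ℤ}
    (hω : At V a ω) : ∃ (β : ℤ) (ρ : List Lt), a < β ∧ At V β ρ ∧ ρ.count t = n ∧
      β + ρ.length = a + ω.length ∧ V β = t ∧ ∀ (h : ℕ) (o s : ℤ), s ≤ β →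
      (∀ r, s ≤ r → r < a + ω.length → V r = TT h (o + r)) →
      el h ∣ o + β ∧ β - max s (a + ld) + 2 * w * el h + lg + 1 ≤ a + ω.length - β := by
  obtain ⟨dr, de, e', dk, k', G, u, f, H, h1, h2, rfl, rfl⟩ := H
  obtain ⟨β, y, ρ, b1, b2, b3, b4, b5, K⟩ := H.sound h1 h2 hω
  refine ⟨β, ρ, b1, b2, b3, b4, b5, fun h o s hs hV => ?_⟩
  obtain ⟨d1, e, -, -, q1, q2⟩ := K h o s hs hV
  refine ⟨d1, ?_⟩
  rcases le_total s (a + dr.length) with hh | hh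
  · have := q2 hh; rw [max_eq_right hh]; omega
  · have := q1 hh; rw [max_eq_left hh]; omega

lemma headOK_det {K : List Lt → Prop} (hK : Det K) {p q : List Lt} (hp : K p) (hq : K q) :
    HeadOK p q := fun V i a b => hK V i p q hp hq a b

lemma det_ET : Det ET := by
  rintro V i _ _ ⟨r, u, c, hu, hc, rfl⟩ ⟨r', u', c', hu', hc', rfl⟩ a b
  obtain ⟨-, rfl⟩ := star_det det_ChD (· = d) (fun _ => ChD.fst) hu hu' a.left b.left
    (by rw [a.right.1]; rintro rfl; simp at hc) (by rw [b.right.1]; rintro rfl; simp at hc')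
  rw [a.right.1.symm.trans b.right.1]

lemma et_dag {o : Lt} (ho : o.op = true) {n : ℕ} {u : List Lt} (hu : Rep ChA n u) :
    ET (dag (o :: u)) := ⟨n, dag u, o.mir, rep_dag (fun _ => ChA.dg) hu, by simp [ho], by simp⟩

lemma PTo.headOK {p : Option (Lt × Lt)} {dk k' : List Lt} (h : PTo p dk k') : HeadOK dk k' := by
  cases p with
  | none => obtain ⟨rfl, rfl⟩ := h; exact headOK_nil
  | some x =>
    obtain ⟨r, u, u', y1, y2, hu, hu', rfl, rfl⟩ := h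
    intro V i a b
    rw [← a.1, ← a.2.1, ← b.1, ← b.2.1, det_ChA.rep r V _ _ _ hu hu' a.2.2 b.2.2]

lemma PTB.headOK {P : ℕ} {z : Lt} {dk k' : List Lt} (h : PTB P z dk k') : HeadOK dk k' :=
  fun _ _ a b => a.eq b (by rw [h.1.1, h.2])

lemma HeadB.headOK {mb : Option (Lt × ℕ)} (hmb : ∀ x, mb = some x → x.1.op = true) {c : ℕ}
    {de e' : List Lt} (h : HeadB mb c de e') : HeadOK de e' := by
  cases mb with
  | none => obtain ⟨rfl, rfl⟩ := h; exact headOK_nil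
  | some x =>
    obtain ⟨⟨n, u, hu, -, rfl⟩, he⟩ := h
    exact headOK_det det_ET (et_dag (hmb x rfl) hu) he

lemma PTo.fwd {x : Lt × Lt} {dk k' : List Lt} (h : PTo (some x) dk k') :
    ∃ r u, Rep ChD r u ∧ dag dk = u ++ [x.1, x.2] := by
  obtain ⟨r, u, u', y1, y2, hu, hu', rfl, rfl⟩ := h
  exact ⟨r, dag u, rep_dag (fun _ => ChA.dg) hu, by simp⟩

lemma relG_facts {k : ℕ} {drA drB : List Lt} {cA : Lt} {mb : Option (Lt × ℕ)} {uB : Lt}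
    {pA pB : Option (Lt × Lt)} {N0 : ℤ} {off0 : ℕ} {E : ℤ} {nd : Bool} {n1 w1 n2 w2 : ℕ}
    {ω1 ω2 : List Lt} (H : RelG k drA drB cA mb uB pA pB N0 off0 E nd n1 w1 n2 w2 ω1 ω2)
    (hA : cA.op = true) (hmb : ∀ x, mb = some x → x.1.op = true) :
    ∃ lg1 lg2 : ℕ, ArmX drA.length lg1 w1 n1 ω1 ∧ ArmX drB.length lg2 w2 n2 ω2 ∧
      (nd = true → 1 ≤ lg1 ∧ 1 ≤ lg2) ∧ ∀ (h1 : ℕ) (s1 : ℤ) (h2 : ℕ) (s2 : ℤ), At (TT h1) s1 ω1 →
      At (TT h2) s2 ω2 → ∃ c, Nd h1 (s1 + drA.length) cA (c + 1) ∧ At (TT h1) s1 drA ∧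
        At (TT h2) s2 drB ∧ N0 * 3 ^ (c + 1) ≤ 3 ^ off0 * (k * (lg1 + lg2) + E) ∧
        (mb = none → TT h2 (s2 + drB.length) = uB) ∧
        (∀ x, mb = some x → ∃ n, c + x.2 ≤ n ∧ Nd h2 (s2 + drB.length) x.1 n) ∧
        (∀ x, pA = some x → ∃ r u, Rep ChD r u ∧
          At (TT h1) (-(s1 + drA.length)) (u ++ [x.1, x.2])) ∧
        (∀ x, pB = some x → ∃ r u, Rep ChD r u ∧
          At (TT h2) (-(s2 + drB.length)) (u ++ [x.1, x.2])) := by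
  obtain ⟨c, c', r, uA, uA2, out, u, eA, deB, eB, dkA, kA, dkB, kB, G1, G2, f1, f2, h1, h3, h5,
    hu, g1, hB, g2, g5, h7, g3, g6⟩ := H
  have hc : ChA (a :: (uA2 ++ out) ++ [A]) := ⟨uA2 ++ out, bal_append
    (rep_bal (h3.mono fun _ => ChA.ch)) (rep_bal (h5.mono fun _ => ChD.ch)), rfl⟩
  have okA : HeadOK (dag (cA :: uA ++ a :: uA2 ++ out ++ [A])) eA := by
    refine headOK_det det_ET ?_ g1
    have := et_dag hA (h1.snoc hc)
    simpa using this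
  have okB := hB.headOK hmb
  refine ⟨G1.length, G2.length, ⟨_, _, _, _, _, _, _, _, g3, okA, g2.headOK, rfl, rfl⟩,
    ⟨_, _, _, _, _, _, _, _, g6, okB, g5.headOK, rfl, rfl⟩, fun hn => ⟨h7.need.1 hn, h7.need.2 hn⟩,
    fun l1 s1 l2 s2 a1 a2 => ?_⟩
  obtain ⟨b1, b2⟩ := g3.fwd okA g2.headOK a1
  obtain ⟨b3, b4⟩ := g6.fwd okB g5.headOK a2
  obtain ⟨r1, e1⟩ := g3.start
  obtain ⟨r2, e2⟩ := g6.start
  rw [e1, dag_dag] at a1
  rw [e2] at a2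
  obtain ⟨rfl, e3⟩ := opened_sound hA h1 h3 h5 a1.left.right
  rw [e3] at a1
  obtain ⟨-, n, -, H, hn⟩ := alpha_pat hA (rep_AA _) a1.left.right
  obtain rfl := hn (by
    have := a1.right.1
    simp only [List.length_append, List.length_cons, Nat.cast_add, len_AA, Nat.cast_one] at this
    rw [show s1 + drA.length + 3 ^ (c' + 1) = s1 + (drA.length + (3 ^ (c' + 1) - 1 + 1)) by ring, this]
    exact hu)
  refine ⟨c', H, a1.left.left, a2.left.left, h7.sound b2.left b4.left, ?_, ?_, ?_, ?_⟩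
  · rintro rfl
    obtain ⟨rfl, -⟩ := hB
    simpa using a2.right.1
  · rintro x rfl
    obtain ⟨⟨n, v, hv, hn, rfl⟩, -⟩ := hB
    rw [dag_dag] at a2
    obtain ⟨-, n', hn', H', -⟩ := alpha_pat (hmb x rfl) hv a2.left.right
    exact ⟨n', by omega, H'⟩
  · rintro x rfl
    obtain ⟨r, v, hv, e⟩ := g2.fwd
    exact ⟨r, v, hv, e ▸ b1⟩
  · rintro x rfl
    obtain ⟨r, v, hv, e⟩ := g5.fwd
    exact ⟨r, v, hv, e ▸ b3⟩

def RelOut (m k φ n1 w1 n2 w2 : ℕ) (ω1 ω2 : List Lt) : Prop :=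
  ∃ ld lg1 lg2 : ℕ, ArmX ld lg1 w1 n1 ω1 ∧ ArmX ld lg2 w2 n2 ω2 ∧ ld ≤ lg1 ∧ ld ≤ lg2 ∧
    ∀ (h1 : ℕ) (s1 : ℤ) (h2 : ℕ) (s2 p : ℤ), At (TT h1) s1 ω1 → At (TT h2) s2 ω2 →
      Agr h1 (-s1) h2 (-s2) p → 2 * m * p + 2 * k * ld ≤ k * (lg1 + lg2) + φ

/-- The node before a closing letter followed by a node. -/
lemma prev_sib {h : ℕ} {s : ℤ} {x c : Lt} {n : ℕ} (hx : x.op = true) (e : TT h s = x.mir)
    (H : Nd h (s + 1) c n) : ∃ ψ, Nd h (-s - 1) x ψ ∧ ψ + 1 = n + dl c.mir x := by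
  obtain ⟨ψ, K⟩ := exists_Nd h (-s - 1) (by
    rw [show -s - 1 = -1 - s by ring, TT_neg, e, mir_mir]; exact hx)
  rw [show TT h (-s - 1) = x by rw [show -s - 1 = -1 - s by ring, TT_neg, e, mir_mir]] at K
  have := K.dg.sib (o' := c) (n' := n) (by
    rwa [show -(-s - 1) - 2 * 3 ^ ψ + 2 * 3 ^ ψ = s + 1 by ring])
  rw [← mir_bar, bar_bar] at this
  have h2 := dl_mir x.mir c
  rw [mir_mir] at h2
  exact ⟨ψ, K, by omega⟩

lemma Nd.dg' {h : ℕ} {s : ℤ} {o : Lt} {n : ℕ} (H : Nd h s o n) :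
    Nd h (-s - 2 * 3 ^ n) o.bar.mir n := H.dg

lemma pow_scale {N X : ℤ} {c δ : ℕ} (hd : δ ≤ 2) (r : 3 * N * 3 ^ (c + 1) ≤ 3 ^ (2 - δ) * X) :
    N * 3 ^ (c + δ) ≤ X := by
  have e : (3 : ℤ) * 3 ^ (c + 1) = 3 ^ (2 - δ) * 3 ^ (c + δ) := by
    rw [← pow_add, ← pow_succ']; congr 1; omega
  have := pow3_pos (2 - δ)
  refine le_of_mul_le_mul_left ?_ this
  calc 3 ^ (2 - δ) * (N * 3 ^ (c + δ)) = N * (3 * 3 ^ (c + 1)) := by rw [e]; ring
    _ ≤ _ := by linarith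

lemma RelA.out {m k φ n1 w1 n2 w2 : ℕ} {ω1 ω2 : List Lt} (H : RelA m k φ n1 w1 n2 w2 ω1 ω2) :
    RelOut m k φ n1 w1 n2 w2 ω1 ω2 := by
  have hm : (0 : ℤ) ≤ m := by positivity
  rcases H with ⟨xA, xB, cA, uB, ⟨o1, o2, o3, hne⟩, H⟩ | ⟨xA, xB, cA, cB, uB, ⟨o1, o2, o3, o4⟩, H⟩ |
    ⟨uB, H⟩ | ⟨uB, H⟩ | ⟨c1, y1, c2, y2, ⟨o1, o2, o3⟩, H⟩ | ⟨c1, y1, c2, y2, ⟨o1, o2, o3⟩, H⟩ |
    ⟨c1, y1, c2, y2, ⟨o1, o2, o3⟩, H⟩
  · obtain ⟨lg1, lg2, X1, X2, hn, K⟩ := relG_facts H o3 (by simp)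
    refine ⟨1, lg1, lg2, X1, X2, (hn rfl).1, (hn rfl).2, fun h1 s1 h2 s2 p a1 a2 ag => ?_⟩
    obtain ⟨c, N1, b1, b2, r, -⟩ := K h1 s1 h2 s2 a1 a2
    obtain ⟨ψ, K1, e⟩ := prev_sib o1 b1.1 N1
    obtain ⟨ψ2, K2⟩ := exists_Nd h2 (-s2 - 1) (by
      rw [show -s2 - 1 = -1 - s2 by ring, TT_neg, b2.1, mir_mir]; exact o2)
    rw [show TT h2 (-s2 - 1) = xB by rw [show -s2 - 1 = -1 - s2 by ring, TT_neg, b2.1, mir_mir]] at K2
    have := bound_open K1 K2 hne ag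
    obtain rfl : ψ = c + dl cA.mir xA := by omega
    have := pow_scale (N := 4 * m) (dl_le cA.mir xA) (le_of_eq_of_le (by ring) r)
    push_cast; nlinarith
  · obtain ⟨lg1, lg2, X1, X2, hn, K⟩ := relG_facts H o3 (by rintro _ ⟨rfl⟩; exact o4)
    refine ⟨1, lg1, lg2, X1, X2, (hn rfl).1, (hn rfl).2, fun h1 s1 h2 s2 p a1 a2 ag => ?_⟩
    obtain ⟨c, N1, b1, b2, r, -, k2, -⟩ := K h1 s1 h2 s2 a1 a2
    obtain ⟨n, hn, N2⟩ := k2 _ rfl
    obtain ⟨ψ, K1, e⟩ := prev_sib o1 b1.1 N1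
    obtain ⟨ψ2, K2, e2⟩ := prev_sib o2 b2.1 N2
    have hd2 := dl_le cB.mir xB
    have := bound_open_lt K1 K2 (by simp only at hn e2; omega) ag
    obtain rfl : ψ = c + dl cA.mir xA := by omega
    have := pow_scale (N := 2 * m) (dl_le cA.mir xA) (le_of_eq_of_le (by ring) r)
    push_cast; nlinarith
  · obtain ⟨lg1, lg2, X1, X2, -, K⟩ := relG_facts H rfl (by rintro _ ⟨rfl⟩; rfl)
    refine ⟨0, lg1, lg2, X1, X2, by omega, by omega, fun h1 s1 h2 s2 p a1 a2 ag => ?_⟩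
    obtain ⟨c, N1, -, -, r, -, k2, -⟩ := K h1 s1 h2 s2 a1 a2
    obtain ⟨n, hn, N2⟩ := k2 _ rfl
    simp only [List.length_nil, Nat.cast_zero, add_zero] at N1 N2 hn
    have := bound_AD_lt N1.dg' N2.dg' (by omega) ag
    push_cast; nlinarith
  · obtain ⟨lg1, lg2, X1, X2, -, K⟩ := relG_facts H rfl (by rintro _ ⟨rfl⟩; rfl)
    refine ⟨0, lg1, lg2, X1, X2, by omega, by omega, fun h1 s1 h2 s2 p a1 a2 ag => ?_⟩
    obtain ⟨c, N1, -, -, r, -, k2, -⟩ := K h1 s1 h2 s2 a1 a2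
    obtain ⟨n, hn, N2⟩ := k2 _ rfl
    simp only [List.length_nil, Nat.cast_zero, add_zero] at N1 N2 hn
    have := bound_AD_gt N2.dg' N1.dg' (by omega) ag.symm
    push_cast; nlinarith
  all_goals
    obtain ⟨lg1, lg2, X1, X2, -, K⟩ := relG_facts H rfl (by simp)
    refine ⟨0, lg1, lg2, X1, X2, by omega, by omega, fun h1 s1 h2 s2 p a1 a2 ag => ?_⟩
    obtain ⟨c, N1, -, -, r, k1, -, k3, k4⟩ := K h1 s1 h2 s2 a1 a2
    obtain ⟨r1, u1, hu1, b1⟩ := k3 _ rfl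
    obtain ⟨r2, u2, hu2, b2⟩ := k4 _ rfl
    have k1 := k1 rfl
    simp only [List.length_nil, Nat.cast_zero, add_zero] at N1 k1 b1 b2
    obtain ⟨q1, q2, q3⟩ := bound_AD_eq N1.dg' (by
      rw [show -s2 - 1 = -1 - s2 by ring, TT_neg, k1]; rfl) hu1 hu2 o1 o2 b1 b2 ag
  · have := q1 o3
    rw [pow_succ] at this
    push_cast; nlinarith
  · have := q2 o3
    rw [pow_succ] at this
    push_cast; nlinarith
  · have := q3 o3
    have e : (3 : ℤ) ^ (c + 1 + 2) + 3 ^ (c + 1 + 1 + dl c1 y1) =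
        3 * ((3 + 3 ^ dl c1 y1) * 3 ^ (c + 1)) := by ring
    have : p ≤ (3 + 3 ^ dl c1 y1) * 3 ^ (c + 1) := by omega
    push_cast; nlinarith

lemma RelOut.swap {m k φ n1 w1 n2 w2 : ℕ} {ω1 ω2 : List Lt} (H : RelOut m k φ n1 w1 n2 w2 ω1 ω2) :
    RelOut m k φ n2 w2 n1 w1 ω2 ω1 := by
  obtain ⟨ld, lg1, lg2, X1, X2, b1, b2, K⟩ := H
  refine ⟨ld, lg2, lg1, X2, X1, b2, b1, fun h1 s1 h2 s2 p a1 a2 ag => ?_⟩
  have := K h2 s2 h1 s1 p a2 a1 ag.symm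
  linarith

lemma endB_facts {P g : ℕ} {z u f : Lt} {w n : ℕ} {ω : List Lt}
    (H : EndG P0 (PTB P z) (fun G => G.length = g) u f w n ω) :
    ArmX 0 g w n ω ∧ ∀ h s, At (TT h) s ω → TT h (-s + P) = z := by
  obtain ⟨_, _, dk, k', G, ⟨rfl, rfl⟩, hP, hG, H⟩ := H
  refine ⟨⟨_, _, _, _, _, _, _, _, H, headOK_nil, hP.headOK, rfl, hG⟩, fun h s a => ?_⟩
  have b := (H.fwd headOK_nil hP.headOK a).1
  obtain ⟨⟨l, hd⟩, -⟩ := hP
  cases dk with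
  | nil => simp at l
  | cons y dk =>
    simp only [List.head?_cons, Option.some.injEq] at hd
    subst hd
    rw [dag_cons, mir_mir] at b
    have := b.right.1
    simp only [List.length_cons, Nat.add_right_cancel_iff] at l
    simpa [l] using this

theorem Rel.out {m k φ n1 w1 n2 w2 : ℕ} {ω1 ω2 : List Lt} (H : Rel m k φ n1 w1 n2 w2 ω1 ω2) :
    RelOut m k φ n1 w1 n2 w2 ω1 ω2 := by
  rcases H with H | H | ⟨x, -, z1, z2, u1, u2, f1, f2, ⟨hz, hi⟩, H1, H2⟩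
  · exact H.out
  · exact H.out.swap
  · obtain ⟨X1, K1⟩ := endB_facts H1
    obtain ⟨X2, K2⟩ := endB_facts H2
    refine ⟨0, _, _, X1, X2, by omega, by omega, fun h1 s1 h2 s2 p a1 a2 ag => ?_⟩
    have := ag.le (P := x.1) (by positivity) (by rw [K1 _ _ a1, K2 _ _ a2]; exact hz)
    have hi' : (2 * m * x.1 : ℤ) ≤ k * (x.2.1 + x.2.2) + φ := by exact_mod_cast hi
    have hm : (0 : ℤ) ≤ m := by positivity
    push_cast; nlinarith

/-! ### Completeness -/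

def ArmGeo (h : ℕ) (s g : ℤ) (n : ℕ) (ω : List Lt) : Prop :=
  At (TT h) s ω ∧ ∃ (β : ℤ) (ρ : List Lt), At (TT h) β ρ ∧ ρ.count t = n ∧ el h ∣ β ∧
    s + 3 * el h ≤ β ∧ β ≤ s + 4 * el h ∧ β + ρ.length = s + ω.length ∧
    (ρ.length : ℤ) = β - s + 10 * el h + g + 1

lemma arm_geo {h : ℕ} {s : ℤ} {dr de dk G : List Lt} {f : Lt} (hdr : dr.length ≤ 1)
    (a1 : At (TT h) s (dr ++ dag de)) (lde : (de.length : ℤ) ≤ 2 * el h)
    (a2 : At (TT h) (-(s + dr.length)) (dag dk)) (ldk : (dk.length : ℤ) ≤ 3 * el h)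
    (a3 : At (TT h) (-(s + dr.length)) (G ++ [f])) :
    ∃ (n : ℕ) (ω : List Lt), ArmD dr de de dk dk G (TT h (s + dr.length + de.length)) f 5 n ω ∧
      ArmGeo h s (G.length - dr.length) n ω := by
  obtain ⟨β, ρ, ω, H, b1, b2, b3, b4, b5, b6, b7⟩ := arm_complete a1 lde a2 ldk a3
  exact ⟨_, ω, H, b1, β, ρ, b2, rfl, b3, by omega, by omega, b6, by omega⟩

lemma exists_G (V : ℤ → Lt) (i : ℤ) (g : ℕ) : ∃ G, G.length = g ∧ At V i (G ++ [V (i + g)]) :=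
  ⟨seg V i g, by simp, (At_seg _ _ _).app (j := i + g) ⟨rfl, trivial⟩ (by simp)⟩

lemma three_le_el {j h : ℕ} (hj : j ≤ h) : 2 * (3 : ℤ) ^ j ≤ el h := el_mono hj

lemma relG_complete {k : ℕ} (hk : 1 ≤ k) {drA drB : List Lt} (lA : drA.length ≤ 1)
    (lB : drB.length ≤ 1) {cA : Lt} {mb : Option (Lt × ℕ)}
    {pA pB : Option (Lt × Lt)} {N0 : ℤ} {off0 : ℕ} {E : ℤ} {nd : Bool} {h1 h2 : ℕ} {s1 s2 : ℤ}
    {c j : ℕ} {deB dkA dkB : List Lt} (lg1 lg2 : ℕ) (hE : -(10 * k : ℤ) ≤ E) (hE' : E ≤ 10 * k)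
    (a1 : At (TT h1) s1 drA) (N1 : Nd h1 (s1 + drA.length) cA (c + 1))
    (a2 : At (TT h2) s2 (drB ++ dag deB)) (hB : HeadB mb c deB deB)
    (ldeB : (deB.length : ℤ) ≤ 2 * el h2) (pa : PTo pA dkA dkA) (pb : PTo pB dkB dkB)
    (a3 : At (TT h1) (-(s1 + drA.length)) (dag dkA)) (l3 : (dkA.length : ℤ) ≤ 3 * el h1)
    (a4 : At (TT h2) (-(s2 + drB.length)) (dag dkB)) (l4 : (dkB.length : ℤ) ≤ 3 * el h2)
    (j1 : j ≤ h1) (j2 : j ≤ h2) (d1 : (3 : ℤ) ^ j ∣ -(s1 + drA.length))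
    (d2 : (3 : ℤ) ^ j ∣ -(s2 + drB.length)) (hc : c + 1 = j + off0)
    (he : k * (lg1 + lg2) + E = N0 * 3 ^ j) (hN : N0 ≤ 100 * k) (ho : off0 ≤ 2)
    (hn : nd = true → 1 ≤ lg1 ∧ 1 ≤ lg2) :
    ∃ n1 n2 ω1 ω2, RelG k drA drB cA mb (TT h2 (s2 + drB.length + deB.length)) pA pB N0 off0 E nd
      n1 5 n2 5 ω1 ω2 ∧ ArmGeo h1 s1 (lg1 - drA.length) n1 ω1 ∧
      ArmGeo h2 s2 (lg2 - drB.length) n2 ω2 := by
  obtain ⟨G1, rfl, b1⟩ := exists_G (TT h1) (-(s1 + drA.length)) lg1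
  obtain ⟨G2, rfl, b2⟩ := exists_G (TT h2) (-(s2 + drB.length)) lg2
  have e : cA :: AA c ++ a :: AA c ++ DD c ++ [A] = cA :: AA (c + 1) := by simp [AA_succ, chunk]
  have lA' : ((dag (cA :: AA (c + 1))).length : ℤ) = 3 ^ (c + 1) := by simp [len_DD]
  obtain ⟨n1, ω1, H1, K1⟩ := arm_geo (de := dag (cA :: AA (c + 1))) lA
    (by rw [dag_dag]; exact a1.app (v := _ :: _) ⟨N1.fst, N1.atA⟩ rfl)
    (by rw [lA']; have := three_le_el N1.le.1; have := pow3_pos (c + 1); omega) a3 l3 b1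
  obtain ⟨n2, ω2, H2, K2⟩ := arm_geo lB a2 ldeB a4 l4 b2
  refine ⟨n1, n2, ω1, ω2, ⟨c, c, c, AA c, AA c, DD c, _, _, deB, deB, dkA, dkA, dkB, dkB, G1, G2, _, _,
    rep_AA c, rep_AA c, rep_DD c, ?_, et_dag N1.1 (rep_AA (c + 1)), hB, pa, pb, ?_, by rw [e]; exact H1, H2⟩,
    K1, K2⟩
  · rw [lA']; exact N1.mid_ne
  · exact run_complete hk hE hE' j j1 j2 _ _ _ _ _ _ _ _ _ _ rfl b1.left b2.left d1 d2 hc he hN
      (Or.inl ho) (fun h => (hn h).1) (fun h => (hn h).2)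

/-- The node after the mirror image of a node. -/
lemma next_sib {h : ℕ} {s : ℤ} {x : Lt} {ψ : ℕ} (H : Nd h (-s - 1) x ψ) (hψ : 1 ≤ ψ) :
    TT h s = x.mir ∧ ∃ c n, Nd h (s + 1) c n ∧ ψ + 1 = n + dl c.mir x := by
  have e : TT h s = x.mir := by
    rw [← H.fst, show -s - 1 = -1 - s by ring, TT_neg, mir_mir]
  have := H.dg.next_op hψ
  rw [show -(-s - 1) - 2 * 3 ^ ψ + 2 * 3 ^ ψ = s + 1 by ring] at this
  obtain ⟨n, K⟩ := exists_Nd h _ this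
  obtain ⟨ψ', K', e'⟩ := prev_sib H.1 e K
  obtain ⟨-, rfl⟩ := H.unique K'
  exact ⟨e, _, n, K, e'⟩

lemma headB_some {h : ℕ} {i : ℤ} {o : Lt} {n c e : ℕ} (H : Nd h i o n) (hn : c + e ≤ n) :
    HeadB (some (o, e)) c (dag (o :: AA n)) (dag (o :: AA n)) ∧
      At (TT h) i (dag (dag (o :: AA n))) ∧ ((dag (o :: AA n)).length : ℤ) ≤ 2 * el h := by
  refine ⟨⟨⟨n, _, rep_AA n, hn, rfl⟩, et_dag H.1 (rep_AA n)⟩, ?_, ?_⟩
  · rw [dag_dag]; exact ⟨H.fst, H.atA⟩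
  · have := three_le_el H.le.1; have := pow3_pos n
    simp [len_DD]; omega

lemma pto_some {h : ℕ} {i : ℤ} {c : Lt} {n : ℕ} (hn : n ≤ h + 1) (hh : 1 ≤ h)
    (H : At (TT h) i (DD n ++ [c])) :
    ∃ dk, PTo (some (c, TT h (i + 3 ^ n))) dk dk ∧ At (TT h) i (dag dk) ∧
      (dk.length : ℤ) ≤ 3 * el h := by
  refine ⟨(TT h (i + 3 ^ n)).mir :: c.mir :: AA n, ⟨n, _, _, _, _, rep_AA n, rep_AA n, rfl, rfl⟩,
    ?_, ?_⟩
  · simp only [dag_cons, mir_mir, dag_AA]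
    exact H.app (j := i + 3 ^ n) ⟨rfl, trivial⟩ (by simp [len_DD])
  · have := pow3_le hn
    have := pow3_le hh
    simp only [List.length_cons, Nat.cast_add, len_AA, el]
    rw [pow_succ] at *; omega

lemma relA_complete {m k φ : ℕ} (hφ : φ < 2 * k) (hm : m < k) {h1 h2 : ℕ} (q1 : 1 ≤ h1)
    (q2 : 1 ≤ h2) {s1 s2 P : ℤ} {g1 g2 : ℕ} (hne : TT h1 s1 ≠ TT h2 s2)
    (B : Big h1 (-s1) h2 (-s2) P) (he : (k : ℤ) * (g1 + g2) + φ = 2 * m * P) :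
    ∃ n1 n2 ω1 ω2, (RelA m k φ n1 5 n2 5 ω1 ω2 ∨ RelA m k φ n2 5 n1 5 ω2 ω1) ∧
      ArmGeo h1 s1 g1 n1 ω1 ∧ ArmGeo h2 s2 g2 n2 ω2 := by
  have hk : 1 ≤ k := by omega
  have p1 := el_pos h1
  have p2 := el_pos h2
  rcases B with ⟨xA, xB, n1, n2, hn, H1, H2, B⟩ |
    ⟨n1, n2, c1, c2, hn1, hn2, H1, H2, o1, o2, b1, b2, B⟩
  · obtain ⟨e1, cA, n, K1, s⟩ := next_sib H1 (by omega)
    have hd := dl_le cA.mir xA
    obtain ⟨c, rfl⟩ : ∃ c, n = c + 1 := ⟨n - 1, by omega⟩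
    obtain ⟨j, rfl⟩ : ∃ j, n1 = j + 1 := ⟨n1 - 1, by omega⟩
    have d1 : (3 : ℤ) ^ j ∣ -(s1 + ([xA.mir].length : ℕ)) := by
      rw [show -(s1 + ([xA.mir].length : ℕ)) = -s1 - 1 by simp; ring]
      exact (pow_dvd_pow _ (by omega)).trans H1.le.2
    have d2 : (3 : ℤ) ^ j ∣ -(s2 + ([xB.mir].length : ℕ)) := by
      rw [show -(s2 + ([xB.mir].length : ℕ)) = -s2 - 1 by simp; ring]
      exact (pow_dvd_pow _ (by omega)).trans H2.le.2
    have j1 := H1.le.1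
    have j2 := H2.le.1
    obtain ⟨e2, cB, nB, K2, s'⟩ := next_sib H2 (by omega)
    rcases B with ⟨rfl, rfl⟩ | ⟨hlt, rfl⟩
    · obtain ⟨r1, r2, ω1, ω2, R, G1, G2⟩ := relG_complete (k := k) (drA := [xA.mir]) (drB := [xB.mir])
        (cA := cA) (mb := none) (pA := none) (pB := none) (N0 := 12 * m)
        (off0 := 2 - dl cA.mir xA) (E := φ + 4 * m - 2 * k) (nd := true) (h1 := h1) (h2 := h2)
        (s1 := s1) (s2 := s2) (c := c) (j := j) (deB := []) (dkA := []) (dkB := []) hk le_rfl le_rfl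
        (g1 + 1) (g2 + 1) (by omega) (by omega) ⟨e1, trivial⟩ K1 ⟨e2, trivial⟩ ⟨rfl, rfl⟩
        (by simp; omega) ⟨rfl, rfl⟩ ⟨rfl, rfl⟩ trivial (by simp; omega) trivial (by simp; omega)
        (by omega) (by omega) d1 d2 (by omega) (by rw [pow_succ] at he; push_cast; linarith)
        (by omega) (by omega) (by omega)
      refine ⟨r1, r2, ω1, ω2, Or.inl (Or.inl ⟨xA, xB, cA, _, ⟨H1.1, H2.1, K1.1, ?_⟩, R⟩),
        by simpa using G1, by simpa using G2⟩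
      rintro rfl; exact hne (e1.trans e2.symm)
    · have hd2 := dl_le cB.mir xB
      obtain ⟨u1, u2, u3⟩ := headB_some (c := c) (e := 2 + dl cA.mir xA - dl cB.mir xB) K2 (by omega)
      obtain ⟨r1, r2, ω1, ω2, R, G1, G2⟩ := relG_complete (k := k) (drA := [xA.mir]) (drB := [xB.mir])
        (cA := cA) (pA := none) (pB := none) (N0 := 6 * m)
        (off0 := 2 - dl cA.mir xA) (E := φ + 2 * m - 2 * k) (nd := true) (h1 := h1) (h2 := h2)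
        (s1 := s1) (s2 := s2) (c := c) (j := j) (dkA := []) (dkB := []) hk le_rfl le_rfl
        (g1 + 1) (g2 + 1) (by omega) (by omega) ⟨e1, trivial⟩ K1 ⟨e2, u2⟩ u1
        u3 ⟨rfl, rfl⟩ ⟨rfl, rfl⟩ trivial (by simp; omega) trivial (by simp; omega)
        (by omega) (by omega) d1 d2 (by omega) (by rw [pow_succ] at he; push_cast; linarith)
        (by omega) (by omega) (by omega)
      exact ⟨r1, r2, ω1, ω2, Or.inl (Or.inr (Or.inl ⟨xA, xB, cA, cB, _, ⟨H1.1, H2.1, K1.1, K2.1⟩, R⟩)),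
        by simpa using G1, by simpa using G2⟩
  · have K1 : Nd h1 s1 d n1 := by
      have := H1.dg; rwa [show -(-s1 - 2 * 3 ^ n1) - 2 * 3 ^ n1 = s1 by ring] at this
    have K2 : Nd h2 s2 a n2 := by
      have := H2.dg; rwa [show -(-s2 - 2 * 3 ^ n2) - 2 * 3 ^ n2 = s2 by ring] at this
    have j1 := K1.le.1
    have j2 := K2.le.1
    have d1 : ∀ j ≤ n1, (3 : ℤ) ^ j ∣ -(s1 + (([] : List Lt).length : ℕ)) := fun j hj => by
      simpa using (pow_dvd_pow _ hj).trans K1.le.2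
    have d2 : ∀ j ≤ n2, (3 : ℤ) ^ j ∣ -(s2 + (([] : List Lt).length : ℕ)) := fun j hj => by
      simpa using (pow_dvd_pow _ hj).trans K2.le.2
    rcases B with ⟨hlt, rfl⟩ | ⟨hlt, hP⟩ | ⟨rfl, B⟩
    · obtain ⟨c, rfl⟩ : ∃ c, n1 = c + 1 := ⟨n1 - 1, by omega⟩
      obtain ⟨u1, u2, u3⟩ := headB_some (c := c) (e := 3) K2 (by omega)
      obtain ⟨r1, r2, ω1, ω2, R, G1, G2⟩ := relG_complete (k := k) (drA := []) (drB := [])
        (cA := d) (pA := none) (pB := none) (N0 := 2 * m)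
        (off0 := 0) (E := φ) (nd := false) (h1 := h1) (h2 := h2)
        (s1 := s1) (s2 := s2) (c := c) (j := c + 1) (dkA := []) (dkB := []) hk (by simp) (by simp)
        g1 g2 (by omega) (by omega) trivial (by simpa using K1) u2 u1
        u3 ⟨rfl, rfl⟩ ⟨rfl, rfl⟩ trivial (by simp; omega) trivial (by simp; omega)
        (by omega) (by omega) (d1 _ le_rfl) (d2 _ (by omega)) (by omega) he
        (by omega) (by omega) (by simp)
      exact ⟨r1, r2, ω1, ω2, Or.inl (Or.inr (Or.inr (Or.inl ⟨_, R⟩))),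
        by simpa using G1, by simpa using G2⟩
    · obtain ⟨c, rfl⟩ : ∃ c, n2 = c + 1 := ⟨n2 - 1, by omega⟩
      obtain ⟨u1, u2, u3⟩ := headB_some (c := c) (e := 1) K1 (by omega)
      obtain rfl : P = 3 ^ c := by rw [pow_succ] at hP; omega
      obtain ⟨r1, r2, ω1, ω2, R, G1, G2⟩ := relG_complete (k := k) (drA := []) (drB := [])
        (cA := a) (pA := none) (pB := none) (N0 := 2 * m)
        (off0 := 1) (E := φ) (nd := false) (h1 := h2) (h2 := h1)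
        (s1 := s2) (s2 := s1) (c := c) (j := c) (dkA := []) (dkB := []) hk (by simp) (by simp)
        g2 g1 (by omega) (by omega) trivial (by simpa using K2) u2 u1
        u3 ⟨rfl, rfl⟩ ⟨rfl, rfl⟩ trivial (by simp; omega) trivial (by simp; omega)
        (by omega) (by omega) (d2 _ (by omega)) (d1 _ (by omega)) (by omega) (by linarith)
        (by omega) (by omega) (by simp)
      exact ⟨r2, r1, ω2, ω1, Or.inr (Or.inr (Or.inr (Or.inr (Or.inl ⟨_, R⟩)))),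
        by simpa using G2, by simpa using G1⟩
    · obtain ⟨c, rfl⟩ : ∃ c, n1 = c + 1 := ⟨n1 - 1, by omega⟩
      obtain ⟨dkA, v1, v2, v3⟩ := pto_some (by omega) q1 b1
      obtain ⟨dkB, v4, v5, v6⟩ := pto_some (by omega) q2 b2
      have key : ∀ (N0 E : ℤ), -(10 * k : ℤ) ≤ E → E ≤ 10 * k → N0 ≤ 100 * k →
          k * (g1 + g2) + E = N0 * 3 ^ (c + 1) → ∃ r1 r2 ω1 ω2,
          RelG k [] [] d none a (some (c1, TT h1 (-s1 + 3 ^ (c + 1 + 1))))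
            (some (c2, TT h2 (-s2 + 3 ^ (c + 1 + 1)))) N0 0 E false r1 5 r2 5 ω1 ω2 ∧
          ArmGeo h1 s1 g1 r1 ω1 ∧ ArmGeo h2 s2 g2 r2 ω2 := by
        intro N0 E e1 e2 e3 e4
        obtain ⟨r1, r2, ω1, ω2, R, G1, G2⟩ := relG_complete (k := k) (drA := []) (drB := [])
          (cA := d) (mb := none) (N0 := N0) (off0 := 0) (E := E) (nd := false) (h1 := h1) (h2 := h2)
          (s1 := s1) (s2 := s2) (c := c) (j := c + 1) (deB := []) hk (by simp) (by simp)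
          g1 g2 e1 e2 trivial (by simpa using K1) trivial ⟨rfl, rfl⟩
          (by simp; omega) v1 v4 (by simpa using v2) v3 (by simpa using v5) v6
          (by omega) (by omega) (d1 _ le_rfl) (d2 _ (by omega)) (by omega) e4
          e3 (by omega) (by simp)
        simp only [List.length_nil, Nat.cast_zero, add_zero, K2.fst, sub_zero] at R G1 G2
        exact ⟨r1, r2, ω1, ω2, R, G1, G2⟩
      rcases B with ⟨hc, rfl⟩ | ⟨-, hy, rfl⟩ | ⟨rfl, o, n, ho, hn, rfl, b3, b4⟩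
      · obtain ⟨r1, r2, ω1, ω2, R, G1, G2⟩ := key (6 * m) (φ + 2 * m) (by omega) (by omega) (by omega)
          (by rw [pow_succ] at he; linarith)
        exact ⟨r1, r2, ω1, ω2, Or.inl (Or.inr (Or.inr (Or.inr (Or.inr (Or.inl
          ⟨_, _, _, _, ⟨o1, o2, hc⟩, R⟩))))), G1, G2⟩
      · obtain ⟨r1, r2, ω1, ω2, R, G1, G2⟩ := key (6 * m) φ (by omega) (by omega) (by omega)
          (by rw [pow_succ] at he; linarith)
        exact ⟨r1, r2, ω1, ω2, Or.inl (Or.inr (Or.inr (Or.inr (Or.inr (Or.inr (Or.inl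
          ⟨_, _, _, _, ⟨o1, o2, hy⟩, R⟩)))))), G1, G2⟩
      · have hd := dl_le c1 o
        have h9 := pow3_le hd
        obtain rfl : n = c + 1 + dl c1 o := by omega
        obtain ⟨r1, r2, ω1, ω2, R, G1, G2⟩ := key (2 * m * (3 + 3 ^ dl c1 o)) φ (by omega) (by omega)
          (by nlinarith) (by rw [he]; ring)
        rw [b3.1] at R
        exact ⟨r1, r2, ω1, ω2, Or.inl (Or.inr (Or.inr (Or.inr (Or.inr (Or.inr (Or.inr
          ⟨_, _, _, _, ⟨o1, o2, ho⟩, R⟩)))))), G1, G2⟩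

lemma endB_complete {h : ℕ} (hh : 1 ≤ h) (s : ℤ) {P : ℕ} (hP : P ≤ 12) (g : ℕ) :
    ∃ u f n ω, EndG P0 (PTB P (TT h (-s + P))) (fun G => G.length = g) u f 5 n ω ∧
      ArmGeo h s g n ω := by
  obtain ⟨G, hG, b⟩ := exists_G (TT h) (-s) g
  obtain ⟨K, hK, b'⟩ := exists_G (TT h) (-s) P
  have := el_ge h hh
  obtain ⟨n, ω, H, K'⟩ := arm_geo (h := h) (s := s) (dr := []) (de := []) (G := G)
    (dk := dag (K ++ [TT h (-s + P)])) (by simp) trivial (by simp; omega) (by simpa using b')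
    (by simp; omega) (by simpa using b)
  exact ⟨_, _, n, ω, ⟨_, _, _, _, _, ⟨rfl, rfl⟩, ⟨⟨by simp [hK], by simp⟩, by simp [hK]⟩, hG, H⟩,
    by simpa [hG] using K'⟩

theorem rel_complete {m k φ : ℕ} (hφ : φ < 2 * k) (hm : m < k) {h1 h2 : ℕ} (q1 : 1 ≤ h1)
    (q2 : 1 ≤ h2) {s1 s2 P : ℤ} {g1 g2 : ℕ} (hne : TT h1 s1 ≠ TT h2 s2) (hP : 0 ≤ P)
    (ag : Agr h1 (-s1) h2 (-s2) P) (hne' : TT h1 (-s1 + P) ≠ TT h2 (-s2 + P))
    (he : (k : ℤ) * (g1 + g2) + φ = 2 * m * P) :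
    ∃ n1 n2 ω1 ω2, Rel m k φ n1 5 n2 5 ω1 ω2 ∧ ArmGeo h1 s1 g1 n1 ω1 ∧ ArmGeo h2 s2 g2 n2 ω2 := by
  have hx : TT h1 (-s1 - 1) ≠ TT h2 (-s2 - 1) := by
    rw [show -s1 - 1 = -1 - s1 by ring, show -s2 - 1 = -1 - s2 by ring, TT_neg, TT_neg]
    exact fun h => hne (mir_inj h)
  rcases classify hx hP ag hne' with h | B | B
  · lift P to ℕ using hP
    obtain ⟨u1, f1, n1, ω1, E1, G1⟩ := endB_complete q1 s1 (P := P) (by omega) g1
    obtain ⟨u2, f2, n2, ω2, E2, G2⟩ := endB_complete q2 s2 (P := P) (by omega) g2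
    have he' : k * (g1 + g2) + φ = 2 * m * P := by exact_mod_cast he
    have hP : P ≤ 12 := by omega
    have : g1 + g2 ≤ 24 := by
      by_contra hc
      nlinarith
    exact ⟨n1, n2, ω1, ω2, Or.inr (Or.inr ⟨(P, g1, g2), ⟨hP, by simp only; omega, by simp only; omega⟩,
      _, _, u1, u2, f1, f2, ⟨hne', he'.ge⟩, E1, E2⟩), G1, G2⟩
  · obtain ⟨n1, n2, ω1, ω2, R, G⟩ := relA_complete hφ hm q1 q2 hne B he
    exact ⟨n1, n2, ω1, ω2, R.imp id Or.inl, G⟩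
  · obtain ⟨n2, n1, ω2, ω1, R, G2, G1⟩ := relA_complete (g1 := g2) (g2 := g1) hφ hm q2 q1 hne.symm B
      (by linarith)
    exact ⟨n1, n2, ω1, ω2, R.symm.imp id Or.inl, G1, G2⟩

end Pool.Agent.Lib.MP_dfa990_al
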