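import Mathlib
import Pool.Agent.Lib.MP_dfa990_al.RelS

/-! The certificate at an overlap of two long windows of the same sign. -/

namespace Pool.Agent.Lib.MP_dfa990_al
open Pool.Agent.Lib.helper29 Lt

def CE (v : List Lt) : Prop :=
  ∃ c o : Lt, (c.op = false ∧ o.op = true) ∧ ∃ n n' u u', Rep ChD n u ∧ Rep ChA n' u' ∧
    n' + 1 = n + dl c o ∧ v = u ++ [c, o] ++ u'

def KE : Option ℕ → List Lt → Prop
  | none => CE
  | some P => fun v => v.length = P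

def JG (H : List Lt → List Lt → Prop) (K1 Mid K2 : List Lt → Prop) (u1 f1 u2 f2 : Lt)
    (n1 w1 n2 w2 : ℕ) (x : List Lt) : Prop :=
  ∃ ω1 mid ω2, EndG H P0 K1 u1 f1 w1 n1 ω1 ∧ Mid mid ∧ EndG P0 P0 K2 u2 f2 w2 n2 ω2 ∧
    x = dag ω1 ++ mid ++ ω2

def H1 (de e' : List Lt) : Prop := ∃ r, Rep Ch r de ∧ Rep Ch r e'
def H2 (de e' : List Lt) : Prop :=
  ∃ (o o' : Lt) (v v' : List Lt), o.op = true ∧ H1 v v' ∧ de = o :: v ∧ e' = o' :: v'
def SCh (v : List Lt) : Prop := ∃ r, Rep Ch r v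
def SChC (v : List Lt) : Prop := ∃ (u : List Lt) (c : Lt), SCh u ∧ c.op = false ∧ v = u ++ [c]

def JL (n1 w1 n2 w2 : ℕ) (x : List Lt) : Prop :=
  ∃ u1 f1 u2 f2 : Lt, (u1 ≠ f2 ∧ u2 ≠ f1) ∧
    ((∃ p ∈ insert none (some '' Set.Iic 12), JG P0 (KE p) (KE p) (KE p) u1 f1 u2 f2 n1 w1 n2 w2 x) ∨
    ((u1.op = false ∧ f2.op = false) ∧ JG H1 (· = []) (· = []) SCh u1 f1 u2 f2 n1 w1 n2 w2 x) ∨
    JG H2 (· = []) (· = []) SChC u1 f1 u2 f2 n1 w1 n2 w2 x)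

def Junc (n1 w1 n2 w2 : ℕ) (x : List Lt) : Prop := JL n1 w1 n2 w2 x ∨ JL n2 w2 n1 w1 (dag x)

/-! ### Context-freeness -/

lemma cf_CE : CF CE := by
  refine CF.exists fun c => CF.exists fun o => CF.and_const _ fun _ => ?_
  refine (CFP.closeD (cfp_diff cf_ChA cf_ChA (1 - dl c o) (dl c o - 1)) (CF.single [c, o])).congr
    (fun w => ?_)
  constructor
  · rintro ⟨l, _, r, ⟨n, h1, h2⟩, rfl, rfl⟩
    exact ⟨_, _, _, _, rep_dag (fun _ => ChA.dg) h1, h2, by omega, rfl⟩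
  · rintro ⟨n, n', u, u', h1, h2, h3, rfl⟩
    refine ⟨dag u, _, u', ⟨min n n', ?_, ?_⟩, rfl, by simp⟩
    · rw [show min n n' + (1 - dl c o) = n by omega]; exact rep_dag (fun _ => ChD.dg) h1
    · rw [show min n n' + (dl c o - 1) = n' by omega]; exact h2

lemma cf_KE (p : Option ℕ) : CF (KE p) := by
  cases p with
  | none => exact cf_CE
  | some P => exact cf_len P

lemma cf_JG {H : List Lt → List Lt → Prop} {K1 Mid K2 : List Lt → Prop} (hH : CFP H) (h1 : CF K1)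
    (hM : CF Mid) (h2 : CF K2) (u1 f1 u2 f2 : Lt) (n1 w1 n2 w2 : ℕ) :
    CF (JG H K1 Mid K2 u1 f1 u2 f2 n1 w1 n2 w2) :=
  CFP.closeD (CFP.prod (cf_EndG hH cfp_P0 h1 u1 f1 w1 n1) (cf_EndG cfp_P0 cfp_P0 h2 u2 f2 w2 n2)) hM
    |>.congr (fun w => by simp only [JG]; tauto)

lemma cfp_H1 : CFP H1 := CFP.star cf_Ch cf_Ch
lemma cfp_H2 : CFP H2 :=
  ((CFP.prod (CF.letter fun o : Lt => o.op = true) (CF.letter fun _ => True)).comp cfp_H1).congr
    (fun l r => by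
      constructor
      · rintro ⟨_, v, _, v', ⟨⟨o, ho, rfl⟩, ⟨o', -, rfl⟩⟩, h, rfl, rfl⟩
        exact ⟨o, o', v, v', ho, h, rfl, rfl⟩
      · rintro ⟨o, o', v, v', ho, h, rfl, rfl⟩
        exact ⟨_, v, _, v', ⟨⟨o, ho, rfl⟩, ⟨o', trivial, rfl⟩⟩, h, rfl, rfl⟩)
lemma cf_SCh : CF SCh := cf_Ch.star
lemma cf_SChC : CF SChC :=
  (cf_SCh.append (CF.letter fun c : Lt => c.op = false)).congr (fun w => by
    constructor
    · rintro ⟨u, _, hu, ⟨c, hc, rfl⟩, rfl⟩; exact ⟨u, c, hu, hc, rfl⟩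
    · rintro ⟨u, c, hu, hc, rfl⟩; exact ⟨u, _, hu, ⟨c, hc, rfl⟩, rfl⟩)

lemma cf_JL (n1 w1 n2 w2 : ℕ) : CF (JL n1 w1 n2 w2) :=
  CF.exists fun _ => CF.exists fun _ => CF.exists fun _ => CF.exists fun _ =>
    CF.and_const _ fun _ => CF.or
      (CF.exists_mem (((Set.finite_Iic 12).image _).insert _) fun p _ =>
        cf_JG cfp_P0 (cf_KE p) (cf_KE p) (cf_KE p) ..)
      (CF.or (CF.and_const _ fun _ => cf_JG cfp_H1 (CF.single _) (CF.single _) cf_SCh ..)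
        (cf_JG cfp_H2 (CF.single _) (CF.single _) cf_SChC ..))

lemma cf_Junc (n1 w1 n2 w2 : ℕ) : CF (Junc n1 w1 n2 w2) :=
  (cf_JL n1 w1 n2 w2).or (CF.dg (cf_JL n2 w2 n1 w1))

/-! ### Soundness -/

/-- A window containing the arm extends at most `lg` letters to the left of it. -/
def Blk (pre ω : List Lt) (lg : ℕ) : Prop :=
  ∀ (V : ℤ → Lt) (c : ℤ), At V (c - pre.length) pre → At V c ω → ∀ (h : ℕ) (o s : ℤ),
    (∀ r, s ≤ r → r < c + ω.length → V r = TT h (o + r)) → c - s ≤ lg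

lemma blk_of_inc {de e' G ω pre ctx : List Lt} {u f : Lt} {w n : ℕ}
    (H : ArmD [] de e' [] [] G u f w n ω) (h1 : HeadOK de e') (hi : Inc ctx (G ++ [f]))
    (hc : ctx <+: dag pre) : Blk pre ω G.length := by
  intro V c a1 a2 h o s hV
  by_contra hs
  have b1 : At (TT h) (o + c) ω := a2.congr (fun r h0 hr => by
    rw [hV _ (by omega) (by omega), add_assoc])
  have b2 := (H.fwd h1 headOK_nil b1).2
  obtain ⟨r, hr⟩ := hc
  have b3 := a1.dg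
  rw [← hr] at b3
  refine hi (flip V) (-c) (b3.left.cast (by ring)) (b2.congr (fun r h0 hr => ?_))
  simp only [List.length_append, List.length_singleton, Nat.cast_add, Nat.cast_one] at hr
  rw [flip, hV _ (by omega) (by omega), ← TT_neg]
  congr 1; simp; ring

def JOut (n1 w1 n2 w2 : ℕ) (x : List Lt) : Prop :=
  ∃ (ω1 mid ω2 : List Lt) (lg1 lg2 : ℕ), x = dag ω1 ++ mid ++ ω2 ∧ ArmX 0 lg1 w1 n1 ω1 ∧
    ArmX 0 lg2 w2 n2 ω2 ∧ Blk (dag ω2 ++ dag mid) ω1 lg1 ∧ Blk (dag ω1 ++ mid) ω2 lg2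

lemma JOut.dg {n1 w1 n2 w2 : ℕ} {x : List Lt} (H : JOut n1 w1 n2 w2 (dag x)) :
    JOut n2 w2 n1 w1 x := by
  obtain ⟨ω1, mid, ω2, lg1, lg2, e, X1, X2, B1, B2⟩ := H
  exact ⟨ω2, dag mid, ω1, lg2, lg1, by rw [← dag_dag x, e]; simp, X2, X1, by simpa using B2, B1⟩

lemma JG.out {H : List Lt → List Lt → Prop} {K1 Mid K2 : List Lt → Prop} {u1 f1 u2 f2 : Lt}
    {n1 w1 n2 w2 : ℕ} {x : List Lt} (J : JG H K1 Mid K2 u1 f1 u2 f2 n1 w1 n2 w2 x)
    (hH : ∀ p q, H p q → HeadOK p q)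
    (i1 : ∀ mid G, Mid mid → K1 G → Inc (mid ++ [u2]) (G ++ [f1]))
    (i2 : ∀ mid G de e', Mid mid → K2 G → H de e' → Inc (dag mid ++ dag de ++ [u1]) (G ++ [f2])) :
    JOut n1 w1 n2 w2 x := by
  obtain ⟨ω1, mid, ω2, ⟨de, e', _, _, G1, h1, ⟨rfl, rfl⟩, k1, A1⟩, hm,
    ⟨_, _, _, _, G2, ⟨rfl, rfl⟩, ⟨rfl, rfl⟩, k2, A2⟩, rfl⟩ := J
  refine ⟨ω1, mid, ω2, _, _, rfl, ⟨_, _, _, _, _, _, _, _, A1, hH _ _ h1, headOK_nil, rfl, rfl⟩,
    ⟨_, _, _, _, _, _, _, _, A2, headOK_nil, headOK_nil, rfl, rfl⟩,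
    blk_of_inc A1 (hH _ _ h1) (i1 _ _ hm k1) ?_, blk_of_inc A2 headOK_nil (i2 _ _ _ _ hm k2 h1) ?_⟩
  · obtain ⟨r, rfl⟩ := A2.start
    exact ⟨r, by simp⟩
  · obtain ⟨r, rfl⟩ := A1.start
    exact ⟨r, by simp⟩

lemma inc_det {K : List Lt → Prop} (hK : Det K) {p q : List Lt} (hp : K p) (hq : K q) {x y : Lt}
    (hxy : x ≠ y) : Inc (p ++ [x]) (q ++ [y]) := by
  intro V i a b
  obtain rfl := hK V i p q hp hq a.left b.left
  exact hxy (a.right.1.symm.trans b.right.1)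

lemma det_CE : Det CE := by
  rintro V i _ _ ⟨c, o, ⟨hc, -⟩, n, n', u, u', h1, h2, h3, rfl⟩
    ⟨c2, o2, ⟨hc2, -⟩, m, m', v, v', g1, g2, g3, rfl⟩ a b
  obtain ⟨rfl, rfl⟩ := star_det det_ChD (· = d) (fun _ => ChD.fst) h1 g1 a.left.left b.left.left
    (by rw [a.left.right.1]; rintro rfl; simp at hc) (by rw [b.left.right.1]; rintro rfl; simp at hc2)
  obtain rfl := a.left.right.1.symm.trans b.left.right.1
  obtain rfl := a.left.right.2.1.symm.trans b.left.right.2.1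
  obtain rfl : n' = m' := by omega
  rw [det_ChA.rep _ V _ _ _ h2 g2 a.right b.right]

lemma det_KE (p : Option ℕ) : Det (KE p) := by
  cases p with
  | none => exact det_CE
  | some P => exact fun V i u v hu hv a b => a.eq b (hu.trans hv.symm)

lemma KE.dg {p : Option ℕ} {v : List Lt} (h : KE p v) : KE p (dag v) := by
  cases p with
  | none =>
    obtain ⟨c, o, ⟨hc, ho⟩, n, n', u, u', h1, h2, h3, rfl⟩ := h
    have := dl_mir c o
    exact ⟨o.mir, c.mir, ⟨by simp [ho], by simp [hc]⟩, n', n, _, _, rep_dag (fun _ => ChA.dg) h2,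
      rep_dag (fun _ => ChD.dg) h1, by omega, by simp⟩
  | some P => simpa [KE] using h

lemma SCh.dg {v : List Lt} (h : SCh v) : SCh (dag v) := h.imp fun _ => rep_dag fun _ => Ch.dg

lemma det_SChC : Det SChC := by
  rintro V i _ _ ⟨u, c, ⟨r, hu⟩, hc, rfl⟩ ⟨u', c', ⟨r', hu'⟩, hc', rfl⟩ a b
  obtain ⟨-, rfl⟩ := star_det det_Ch (fun x => x.op = true) (fun _ => Ch.fst) hu hu' a.left b.left
    (by rw [a.right.1]; simp [hc]) (by rw [b.right.1]; simp [hc'])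
  rw [a.right.1.symm.trans b.right.1]

lemma H1.headOK {p q : List Lt} (h : H1 p q) : HeadOK p q := by
  obtain ⟨r, h1, h2⟩ := h
  exact headOK_det (det_Ch.rep r) h1 h2

lemma JL.out {n1 w1 n2 w2 : ℕ} {x : List Lt} (J : JL n1 w1 n2 w2 x) : JOut n1 w1 n2 w2 x := by
  obtain ⟨u1, f1, u2, f2, ⟨n1, n2⟩, ⟨p, -, J⟩ | ⟨⟨c1, c2⟩, J⟩ | J⟩ := J
  · refine J.out (by rintro _ _ ⟨rfl, rfl⟩; exact headOK_nil)
      (fun mid G hm hG => inc_det (det_KE p) hm hG n2) ?_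
    rintro mid G _ _ hm hG ⟨rfl, rfl⟩
    simpa using inc_det (det_KE p) hm.dg hG n1
  · refine J.out (fun _ _ => H1.headOK) ?_ ?_
    · rintro _ _ rfl rfl V i a b; exact n2 (a.1.symm.trans b.1)
    · rintro _ G de e' rfl hG ⟨r, h1, -⟩ V i a b
      have := det_SChC V i _ _ ⟨_, _, SCh.dg ⟨r, h1⟩, c1, rfl⟩ ⟨_, _, hG, c2, rfl⟩ a b
      exact n1 (by simpa using (List.append_inj' this rfl).2)
  · refine J.out ?_ ?_ ?_
    · rintro _ _ ⟨o, o', v, v', -, h, rfl, rfl⟩ V i a b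
      rw [← a.1, ← b.1, h.headOK V _ a.2 b.2]
    · rintro _ _ rfl rfl V i a b; exact n2 (a.1.symm.trans b.1)
    · rintro _ G _ _ rfl hG ⟨o, o', v, v', ho, ⟨r, h1, -⟩, rfl, rfl⟩
      exact inc_det det_SChC ⟨dag v, o.mir, SCh.dg ⟨r, h1⟩, by simp [ho], by simp⟩ hG n1

theorem Junc.out {n1 w1 n2 w2 : ℕ} {x : List Lt} (J : Junc n1 w1 n2 w2 x) : JOut n1 w1 n2 w2 x :=
  J.elim JL.out (fun J => J.out.dg)

/-! ### Completeness -/

lemma endG_complete {H : List Lt → List Lt → Prop} {K : List Lt → Prop} {h : ℕ} {s : ℤ}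
    {de G : List Lt} (a1 : At (TT h) s (dag de)) (lde : (de.length : ℤ) ≤ 2 * el h) (hH : H de de)
    (a3 : At (TT h) (-s) G) (hK : K G) :
    ∃ n ω, EndG H P0 K (TT h (s + de.length)) (TT h (-s + G.length)) 5 n ω ∧
      ArmGeo h s G.length n ω := by
  have := el_pos h
  obtain ⟨n, ω, H', K'⟩ := arm_geo (h := h) (s := s) (dr := []) (de := de) (G := G)
    (dk := []) (f := TT h (-s + G.length)) (by simp) a1 lde trivial (by simp; omega)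
    (by simpa using a3.app (v := [_]) ⟨rfl, trivial⟩ rfl)
  exact ⟨n, ω, ⟨_, _, _, _, _, hH, ⟨rfl, rfl⟩, hK, by simpa using H'⟩, by simpa using K'⟩

def JGeo (h1 : ℕ) (i1 : ℤ) (h2 : ℕ) (i2 P : ℤ) (n1 n2 : ℕ) (x : List Lt) : Prop :=
  ∃ (q1 : ℤ) (ω1 mid ω2 : List Lt), 0 ≤ q1 ∧ q1 + mid.length ≤ P ∧ x = dag ω1 ++ mid ++ ω2 ∧
    ArmGeo h1 (-(i1 + q1)) (P - q1) n1 ω1 ∧ At (TT h1) (i1 + q1) mid ∧ At (TT h2) (i2 + q1) mid ∧
    ArmGeo h2 (i2 + (q1 + mid.length)) (q1 + mid.length) n2 ω2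

lemma JGeo.dg {h1 h2 : ℕ} {i1 i2 P : ℤ} {n1 n2 : ℕ} {x : List Lt}
    (H : JGeo h2 (-(i2 + P)) h1 (-(i1 + P)) P n2 n1 x) : JGeo h1 i1 h2 i2 P n1 n2 (dag x) := by
  obtain ⟨q, ω2, mid, ω1, b1, b2, rfl, G2, a2, a1, G1⟩ := H
  refine ⟨P - (q + mid.length), ω1, dag mid, ω2, by omega, by simp; omega, by simp, ?_, ?_, ?_, ?_⟩
  · rwa [show -(i1 + (P - (q + mid.length))) = -(i1 + P) + (q + mid.length) by ring,
      show P - (P - (q + mid.length)) = q + mid.length by ring]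
  · exact a1.dgT.cast (by ring)
  · exact a2.dgT.cast (by ring)
  · rwa [length_dag, show i2 + (P - (q + mid.length) + mid.length) = -(-(i2 + P) + q) by ring,
      show P - (q + mid.length) + mid.length = P - q by ring]

def FormL (x1 x2 : Lt) (u : List Lt) : Prop :=
  u.length ≤ 12 ∨ CE u ∨ (x1.op = true ∧ x2.op = true ∧ SCh u) ∨ SChC (dag u)

lemma jl_complete {h1 h2 : ℕ} {i1 i2 : ℤ} {u : List Lt} (a1 : At (TT h1) i1 u)
    (a2 : At (TT h2) i2 u) (hx : TT h1 (i1 - 1) ≠ TT h2 (i2 - 1))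
    (hne : TT h1 (i1 + u.length) ≠ TT h2 (i2 + u.length)) (l1 : (u.length : ℤ) ≤ 2 * el h1)
    (F : FormL (TT h1 (i1 - 1)) (TT h2 (i2 - 1)) u) :
    ∃ n1 n2 x, JL n1 5 n2 5 x ∧ JGeo h1 i1 h2 i2 u.length n1 n2 x := by
  have p1 := el_pos h1
  have p2 := el_pos h2
  have e1 : TT h1 (-i1) = (TT h1 (i1 - 1)).mir := by rw [← TT_neg]; congr 1; ring
  have e2 : TT h2 (-i2) = (TT h2 (i2 - 1)).mir := by rw [← TT_neg]; congr 1; ring
  have hx' : TT h1 (-i1) ≠ TT h2 (-i2) := by rw [e1, e2]; exact fun h => hx (mir_inj h)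
  have kE : ∀ p ∈ insert none (some '' Set.Iic 12), KE p u →
      ∃ n1 n2 x, JL n1 5 n2 5 x ∧ JGeo h1 i1 h2 i2 u.length n1 n2 x := by
    intro p hp hu
    obtain ⟨n1, ω1, E1, G1⟩ := endG_complete (H := P0) (K := KE p) (h := h1) (s := -i1) (de := [])
      (G := u) trivial (by simp; omega) ⟨rfl, rfl⟩ (by simpa using a1) hu
    obtain ⟨n2, ω2, E2, G2⟩ := endG_complete (H := P0) (K := KE p) (h := h2) (s := i2 + u.length)
      (de := []) (G := dag u) trivial (by simp; omega) ⟨rfl, rfl⟩ (a2.dgT.cast (by ring)) hu.dg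
    refine ⟨n1, n2, _, ⟨_, _, _, _, ?_, Or.inl ⟨p, hp, ω1, u, ω2, E1, hu, E2, rfl⟩⟩,
      0, ω1, u, ω2, le_rfl, by simp, rfl, by simpa using G1, by simpa using a1, by simpa using a2,
      by simpa using G2⟩
    simpa using ⟨hx', hne.symm⟩
  have kL : ∀ (H : List Lt → List Lt → Prop) (K : List Lt → Prop), H u u → K (dag u) →
      ∃ n1 n2 x, JG H (· = []) (· = []) K (TT h1 (-i1)) (TT h1 (i1 + u.length))
        (TT h2 (i2 + u.length)) (TT h2 (-i2)) n1 5 n2 5 x ∧ JGeo h1 i1 h2 i2 u.length n1 n2 x := by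
    intro H K hH hK
    obtain ⟨n1, ω1, E1, G1⟩ := endG_complete (H := H) (K := (· = [])) (h := h1)
      (s := -(i1 + u.length)) (de := u) (G := []) (a1.dgT.cast (by ring)) l1 hH trivial rfl
    obtain ⟨n2, ω2, E2, G2⟩ := endG_complete (H := P0) (K := K) (h := h2) (s := i2 + u.length)
      (de := []) (G := dag u) trivial (by simp; omega) ⟨rfl, rfl⟩ (a2.dgT.cast (by ring)) hK
    exact ⟨n1, n2, _, ⟨ω1, [], ω2, by simpa using E1, rfl, by simpa using E2, rfl⟩,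
      u.length, ω1, [], ω2, by simp, by simp, rfl, by simpa using G1, trivial, trivial,
      by simpa using G2⟩
  rcases F with h | h | ⟨o1, o2, h⟩ | h
  · exact kE (some u.length) (Or.inr ⟨_, h, rfl⟩) rfl
  · exact kE none (Or.inl rfl) h
  · obtain ⟨n1, n2, x, J, G⟩ := kL H1 SCh (h.imp fun _ h => ⟨h, h⟩) h.dg
    exact ⟨n1, n2, x, ⟨_, _, _, _, ⟨hx', hne.symm⟩, Or.inr (Or.inl
      ⟨⟨by simp [e1, o1], by simp [e2, o2]⟩, J⟩)⟩, G⟩
  · obtain ⟨n1, n2, x, J, G⟩ := kL H2 SChC (by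
      obtain ⟨v, c, hv, hc, e⟩ := h
      have : u = c.mir :: dag v := by rw [← dag_dag u, e]; simp
      exact ⟨_, _, _, _, by simp [hc], hv.dg.imp fun _ h => ⟨h, h⟩, this, this⟩) h
    exact ⟨n1, n2, x, ⟨_, _, _, _, ⟨hx', hne.symm⟩, Or.inr (Or.inr J)⟩, G⟩

lemma FormL.symm {x1 x2 : Lt} {u : List Lt} (h : FormL x1 x2 u) : FormL x2 x1 u := by
  unfold FormL at *; tauto

lemma sch_AA (n : ℕ) : SCh (AA n) := ⟨n, (rep_AA n).mono fun _ => ChA.ch⟩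
lemma sch_DD (n : ℕ) : SCh (DD n) := ⟨n, (rep_DD n).mono fun _ => ChD.ch⟩

lemma big_form {h1 h2 : ℕ} {i1 i2 : ℤ} {u : List Lt} (a1 : At (TT h1) i1 u)
    (a2 : At (TT h2) i2 u) (B : Big h1 i1 h2 i2 u.length) :
    FormL (TT h1 (i1 - 1)) (TT h2 (i2 - 1)) u ∨
      FormL (TT h1 (i1 + u.length)).mir (TT h2 (i2 + u.length)).mir (dag u) := by
  have eq1 : ∀ v, At (TT h1) i1 v → (v.length : ℤ) = u.length → u = v :=
    fun v hv e => a1.eq hv (by omega)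
  rcases B with ⟨o1, o2, n1, n2, -, H1, H2, B⟩ |
    ⟨n1, n2, c1, c2, hn1, hn2, H1, H2, o1, o2, b1, b2, B⟩
  · refine Or.inl (Or.inr (Or.inr (Or.inl ⟨by rw [H1.fst]; exact H1.1, by rw [H2.fst]; exact H2.1, ?_⟩)))
    rcases B with ⟨rfl, e⟩ | ⟨-, e⟩
    · have b := H1.2.2
      rw [sub_add_cancel] at b
      rw [eq1 _ (At.left b) (by simp [len_AA, len_DD]; omega)]
      exact ⟨_, rep_AD n1⟩
    · have b := H1.atA
      rw [sub_add_cancel] at b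
      rw [eq1 _ b (by simp [len_AA]; omega)]
      exact sch_AA _
  rcases B with ⟨-, e⟩ | ⟨-, e⟩ | ⟨rfl, ⟨-, e⟩ | ⟨-, -, e⟩ | ⟨rfl, o, n, ho, hn, e, b3, -⟩⟩
  · have K := at_DD_nd b1
    rw [eq1 (d :: AA n1) ⟨K.fst, K.atA⟩ (by simp [len_AA]; omega)]
    exact Or.inl (Or.inr (Or.inr (Or.inr ⟨_, A, sch_DD n1, rfl, by simp⟩)))
  · obtain ⟨j, rfl⟩ : ∃ j, n2 = j + 1 := ⟨n2 - 1, by omega⟩
    have K := at_DD_nd b2
    rw [a2.eq (v := d :: AA j) ⟨K.fst, K.atA⟩ (by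
      have := len_AA j
      rw [pow_succ] at e; simp; omega)]
    exact Or.inl (Or.inr (Or.inr (Or.inr ⟨_, A, sch_DD j, rfl, by simp⟩)))
  · have f1 := b1.right.1
    have f2 := b2.right.1
    rw [len_DD, ← e] at f1 f2
    refine Or.inr (Or.inr (Or.inr (Or.inl ⟨by simp [f1, o1], by simp [f2, o2], ?_⟩)))
    rw [eq1 _ b1.left (by simp [len_DD]; omega), dag_DD]
    exact sch_AA _
  · rw [eq1 _ b1 (by simp [len_DD]; omega)]
    exact Or.inr (Or.inr (Or.inr (Or.inr ⟨_, c1, sch_DD (n1 + 1), o1, by simp⟩)))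
  · rw [eq1 _ (b1.app b3 (by simp [len_DD])) (by simp [len_DD, len_AA]; omega)]
    exact Or.inl (Or.inr (Or.inl ⟨c1, o, ⟨o1, ho⟩, _, _, _, _, rep_DD _, rep_AA _, hn, by simp⟩))

theorem junc_complete {h1 h2 : ℕ} {i1 i2 P : ℤ} (hP : 0 ≤ P) (ag : Agr h1 i1 h2 i2 P)
    (hx : TT h1 (i1 - 1) ≠ TT h2 (i2 - 1)) (hne : TT h1 (i1 + P) ≠ TT h2 (i2 + P))
    (l1 : P ≤ 2 * el h1) (l2 : P ≤ 2 * el h2) :
    ∃ n1 n2 x, Junc n1 5 n2 5 x ∧ JGeo h1 i1 h2 i2 P n1 n2 x := by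
  obtain ⟨u, a1, e⟩ := exists_seg (TT h1) (show i1 ≤ i1 + P by omega)
  obtain rfl : P = u.length := by omega
  have a2 : At (TT h2) i2 u := a1.congr (fun r h0 hr => (ag r h0 hr).symm)
  have F : FormL (TT h1 (i1 - 1)) (TT h2 (i2 - 1)) u ∨
      FormL (TT h1 (i1 + u.length)).mir (TT h2 (i2 + u.length)).mir (dag u) := by
    rcases classify hx hP ag hne with h | B | B
    · exact Or.inl (Or.inl (by omega))
    · exact big_form a1 a2 B
    · exact (big_form a2 a1 B).imp FormL.symm FormL.symm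
  rcases F with F | F
  · obtain ⟨n1, n2, x, J, G⟩ := jl_complete a1 a2 hx hne l1 F
    exact ⟨n1, n2, x, Or.inl J, G⟩
  · have e1 : ∀ h i, TT h (-(i + u.length) - 1) = (TT h (i + u.length)).mir := fun h i => by
      rw [← TT_neg]; congr 1; ring
    have e2 : ∀ h i, TT h (-(i + u.length) + (dag u).length) = (TT h (i - 1)).mir := fun h i => by
      rw [← TT_neg]; congr 1; simp; ring
    obtain ⟨n2, n1, x, J, G⟩ := jl_complete (h1 := h2) (h2 := h1) (i1 := -(i2 + u.length))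
      (i2 := -(i1 + u.length)) (u := dag u) (a2.dgT.cast (by ring)) (a1.dgT.cast (by ring))
      (by rw [e1, e1]; exact fun h => hne (mir_inj h).symm)
      (by rw [e2, e2]; exact fun h => hx (mir_inj h).symm) (by simpa using l2)
      (by rw [e1, e1]; exact F.symm)
    rw [length_dag] at G
    exact ⟨n1, n2, dag x, Or.inr (by simpa using J), G.dg⟩

end Pool.Agent.Lib.MP_dfa990_al
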