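import Mathlib
import Pool.Agent.Lib.MP_dfa990_al.Junc

/-! The certificate language over signed letters. -/

namespace Pool.Agent.Lib.MP_dfa990_al
open Pool.Agent.Lib.helper29 Lt

def sg (σ : Bool) (v : List Lt) : List (Lt × Bool) := v.map (fun x => (x, σ))

@[simp] lemma length_sg (σ : Bool) (v : List Lt) : (sg σ v).length = v.length := by simp [sg]

def MGc (m nl φl nr φr a b ny a' b' g l0 : ℕ) : Prop :=
  (m + 6) * l0 + φl + φr ≤ 2 * (m + 6) ∧ φl ≤ m + 6 ∧ φr ≤ m + 6 ∧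
  2 * (nl + a + b) + 2 * (nr + a' + b') ≤ m + b + b' + 20 ∧
  (nl + a + b) + 1 + ny + 2 * (nr + a' + b') ≤ m + b' + 10 ∧
  2 * (nl + a + b) + ny + (nr + a' + b') + 1 ≤ m + b + 10 ∧
  (nl + a + b) + ny + (nr + a' + b') + 2 ≤ m ∧
  69 + a + b + ny ≤ m ∧ 69 + ny + g ≤ m

def MG (m nl φl nr φr : ℕ) (x : List Lt) : Prop :=
  ∃ z B1 Y1 Y0 Y2 B2 z' : List Lt, x = z ++ B1 ++ Y1 ++ Y0 ++ (Y2 ++ B2 ++ z') ∧
    Y1.length ≤ z.length ∧ Y2.length ≤ z'.length ∧ B1.getLast? = some T ∧ B2.head? = some t ∧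
    MGc m nl φl nr φr (z.count t) (B1.count t) (Y1.count t + Y0.count t + Y2.count t)
      (z'.count T) (B2.count T) (B2.count t + z'.count t) Y0.length

inductive St
  | P (l : Option (Lt × Bool)) (c : ℕ) (fb : Option Lt)
  | L (σ : Bool) (n φ : ℕ)
  | M (σ : Bool) (n φ : ℕ)

def Solo (u f : Lt) (n : ℕ) (ω : List Lt) : Prop := EndG P0 P0 (· = []) u f 5 n ω

def lab (m : ℕ) : St → St → List (Lt × Bool) → Prop
  | .P l c fb, .P l' c' fb', x => (c' + 69 ≤ m ∧ fb' = none) ∧ ∃ (σ : Bool) (y y' : Lt),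
      (l' = some (y', σ) ∧ ∀ z, l = some (z, σ) → fb ≠ some y) ∧ ∃ v,
      ((v.head? = some y ∧ v.getLast? = some y') ∧
        ((((∀ z, l = some (z, σ) → c + [y].count t ≤ c') ∧ 1 ≤ c') ∧ v = [y]) ∨
          (4 ≤ c' ∧ Brk v))) ∧ x = sg σ v
  | .P l _ fb, .L σ n φ, x => (n ≤ m ∧ φ ≤ m + 6) ∧ ∃ u f : Lt,
      ((∀ z, l = some (z, σ) → f ≠ z.mir ∧ fb ≠ some u) ∧ ∀ z, l = some (z, !σ) → fb = none) ∧
      ∃ v, (Solo u f n v ∧ v.count t ≤ 60) ∧ x = sg σ v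
  | .L σ n φ, .M σ' n' φ', x => (σ' = σ ∧ n' ≤ m ∧ φ' ≤ m + 6) ∧ ∃ v, MG m n φ n' φ' v ∧ x = sg σ v
  | .M σ n _, .P l c fb, x => (c + 69 ≤ m ∧ 60 ≤ c) ∧ ∃ u f : Lt,
      (l = some (u.mir, σ) ∧ fb = some f) ∧ ∃ v, (Solo u f n (dag v) ∧ v.count t ≤ 60) ∧ x = sg σ v
  | .M σ n φ, .L σ' n' φ', x => (n' ≤ m ∧ φ' ≤ m + 6) ∧
      ((σ' = σ ∧ ∃ v, (Junc n 5 n' 5 v ∧ v.count t ≤ 60) ∧ x = sg σ v) ∨
      (σ' = !σ ∧ ∃ ω1 ω2, ((Rel m (m + 6) (φ + φ') n 5 n' 5 ω1 ω2 ∧ ω1.count t ≤ 60 ∧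
        ω2.count t ≤ 60) ∧ ω1.count T ≤ 60) ∧ x = sg σ (dag ω1) ++ sg σ' ω2))
  | _, _, _ => False

def fin : St → List (Lt × Bool) → Prop
  | .P _ _ _, x => x = []
  | _, _ => False

def Cert (m : ℕ) (w : List (Lt × Bool)) : Prop := Path1 (lab m) fin (.P none 0 none) w

lemma cfp_lelen : CFP (fun l r : List Lt => r.length ≤ l.length) :=
  (CFP.eqlen.comp (CFP.prod CF.univ (CF.single []))).congr (fun l r => by
    constructor
    · rintro ⟨l1, l2, r1, _, h, ⟨-, rfl⟩, rfl, rfl⟩; simp; omega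
    · intro h
      exact ⟨l.take r.length, l.drop r.length, r, [], by simp [h], ⟨trivial, rfl⟩, by simp, by simp⟩)

lemma cf_half {P1 P2 P3 : List Lt → Prop} (h1 : Reg P1) (h2 : Reg P2) (h3 : Reg P3) :
    CF (fun w => ∃ x y z, (z.length ≤ x.length ∧ P1 x ∧ P2 y ∧ P3 z) ∧ w = x ++ y ++ z) := by
  refine (((cfp_lelen.regL h1.reverse).regR h3).close id id h2.cf).congr (fun w => ?_)
  constructor
  · rintro ⟨l, y, z, ⟨⟨g1, g2⟩, g3⟩, g4, rfl⟩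
    exact ⟨l.reverse, y, z, ⟨by simpa, g2, g4, g3⟩, by simp⟩
  · rintro ⟨x, y, z, ⟨g1, g2, g4, g3⟩, rfl⟩
    exact ⟨x.reverse, y, z, ⟨⟨by simpa, by simpa⟩, g3⟩, g4, by simp⟩

lemma cf_half' {P1 P2 P3 : List Lt → Prop} (h1 : Reg P1) (h2 : Reg P2) (h3 : Reg P3) :
    CF (fun w => ∃ x y z, (x.length ≤ z.length ∧ P1 x ∧ P2 y ∧ P3 z) ∧ w = x ++ y ++ z) := by
  refine (((cfp_lelen.swap.regL h1.reverse).regR h3).close id id h2.cf).congr (fun w => ?_)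
  constructor
  · rintro ⟨l, y, z, ⟨⟨g1, g2⟩, g3⟩, g4, rfl⟩
    exact ⟨l.reverse, y, z, ⟨by simpa, g2, g4, g3⟩, by simp⟩
  · rintro ⟨x, y, z, ⟨g1, g2, g4, g3⟩, rfl⟩
    exact ⟨x.reverse, y, z, ⟨⟨by simpa, by simpa⟩, g3⟩, g4, by simp⟩

lemma cf_MG (m nl φl nr φr : ℕ) : CF (MG m nl φl nr φr) := by
  refine (CF.exists_mem (Set.finite_Iic (fun _ : Fin 10 => m + 2)) fun c _ => CF.and_const
    (MGc m nl φl nr φr (c 0) (c 1) (c 2 + c 3 + c 4) (c 5) (c 6) (c 7 + c 8) (c 9)) fun _ =>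
    ((cf_half (Reg.count_eq t (c 0)) ((Reg.count_eq t (c 1)).and (Reg.last (· = some T)))
      (Reg.count_eq t (c 2))).append ((Reg.count_eq t (c 3)).and (Reg.length_eq (c 9))).cf).append
    (cf_half' (Reg.count_eq t (c 4))
      (((Reg.count_eq T (c 6)).and (Reg.count_eq t (c 7))).and (Reg.head (· = some t)))
      ((Reg.count_eq T (c 5)).and (Reg.count_eq t (c 8))))).congr (fun w => ?_)
  constructor
  · rintro ⟨c, -, hc, _, _, ⟨_, Y0, ⟨z, B1, Y1, ⟨g1, g2, ⟨g3, g4⟩, g5⟩, rfl⟩, ⟨g6, g7⟩, rfl⟩,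
      ⟨Y2, B2, z', ⟨g8, g9, ⟨⟨g10, g11⟩, g12⟩, g13, g14⟩, rfl⟩, rfl⟩
    refine ⟨z, B1, Y1, Y0, Y2, B2, z', rfl, g1, g8, g4, g12, ?_⟩
    rwa [g2, g3, g5, g6, g7, g9, g10, g11, g13, g14]
  · rintro ⟨z, B1, Y1, Y0, Y2, B2, z', rfl, g1, g8, g4, g12, hc⟩
    refine ⟨![z.count t, B1.count t, Y1.count t, Y0.count t, Y2.count t, z'.count T, B2.count T,
      B2.count t, z'.count t, Y0.length], ?_, hc, _, _, ⟨_, Y0, ⟨z, B1, Y1, ⟨g1, rfl, ⟨rfl, g4⟩, rfl⟩,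
      rfl⟩, ⟨rfl, rfl⟩, rfl⟩, ⟨Y2, B2, z', ⟨g8, rfl, ⟨⟨rfl, rfl⟩, g12⟩, rfl, rfl⟩, rfl⟩, rfl⟩
    obtain ⟨c1, -, -, -, -, -, c2, c3, c4⟩ := hc
    have : Y0.length ≤ 2 := by
      by_contra h
      nlinarith
    intro i
    fin_cases i <;> simp <;> omega

lemma cf_sg {P : List Lt → Prop} (h : CF P) (σ : Bool) : CF (fun x => ∃ v, P v ∧ x = sg σ v) :=
  h.map _

lemma cf_Solo (u f : Lt) (n : ℕ) : CF (Solo u f n) := cf_EndG cfp_P0 cfp_P0 (CF.single _) ..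

lemma cf_lab (m : ℕ) (s s' : St) : CF (lab m s s') := by
  cases s <;> cases s' <;> try exact CF.empty
  · refine CF.and_const _ fun _ => CF.exists fun σ => CF.exists fun y => CF.exists fun y' =>
      CF.and_const _ fun _ => cf_sg ?_ σ
    exact (((CF.and_const _ fun _ => CF.single _).or (CF.and_const _ fun _ => cf_Brk)).and_reg
      ((Reg.head (· = some y)).and (Reg.last (· = some y')))).congr (fun w => and_comm)
  · exact CF.and_const _ fun _ => CF.exists fun u => CF.exists fun f => CF.and_const _ fun _ =>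
      cf_sg ((cf_Solo ..).and_reg (reg_count_le t 60)) _
  · exact CF.and_const _ fun _ => cf_sg (cf_MG ..) _
  · exact CF.and_const _ fun _ => CF.exists fun u => CF.exists fun f => CF.and_const _ fun _ =>
      cf_sg ((CF.dg (cf_Solo ..)).and_reg (reg_count_le t 60)) _
  · rename_i σ n φ σ' n' φ'
    refine CF.and_const _ fun _ => CF.or
      (CF.and_const _ fun _ => cf_sg ((cf_Junc ..).and_reg (reg_count_le t 60)) _)
      (CF.and_const _ fun _ => ?_)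
    refine (((cfp_Rel 60 m (m + 6) (φ + φ') n 5 n' 5).regL (reg_count_le T 60)).close
      (fun x => (x.mir, σ)) (fun x => (x, σ')) (CF.single [])).congr (fun w => ?_)
    constructor
    · rintro ⟨l, _, r, h, rfl, rfl⟩
      exact ⟨l, r, h, by simp [sg, dag, Function.comp_def]⟩
    · rintro ⟨l, r, h, rfl⟩
      exact ⟨l, _, r, h, rfl, by simp [sg, dag, Function.comp_def]⟩

def goodSt (m : ℕ) : St → Prop
  | .P _ c _ => c ≤ m
  | .L _ n φ => n ≤ m ∧ φ ≤ m + 6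
  | .M _ n φ => n ≤ m ∧ φ ≤ m + 6

theorem cf_Cert (m : ℕ) : CF (Cert m) := by
  refine CF.paths {s | goodSt m s} ?_ (cf_lab m) ?_ ?_ _
  · refine ((((Set.finite_univ (α := Option (Lt × Bool) × Option Lt)).prod (Set.finite_Iic m)).image
      (fun x => St.P x.1.1 x.2 x.1.2)).union
      ((((Set.finite_univ (α := Bool)).prod (Set.finite_Iic (m, m + 6))).image
        (fun x => St.L x.1 x.2.1 x.2.2)).union
      (((Set.finite_univ (α := Bool)).prod (Set.finite_Iic (m, m + 6))).image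
        (fun x => St.M x.1 x.2.1 x.2.2)))).subset ?_
    rintro (⟨l, c, fb⟩ | ⟨σ, n, φ⟩ | ⟨σ, n, φ⟩) h
    · exact Or.inl ⟨((l, fb), c), ⟨trivial, h⟩, rfl⟩
    · exact Or.inr (Or.inl ⟨(σ, n, φ), ⟨trivial, h⟩, rfl⟩)
    · exact Or.inr (Or.inr ⟨(σ, n, φ), ⟨trivial, h⟩, rfl⟩)
  · intro s
    cases s
    · exact CF.single _
    · exact CF.empty
    · exact CF.empty
  · intro s s' x h
    cases s <;> cases s' <;> first | exact h.elim | skip
    · have := h.1.1; simp only [Set.mem_ofPred_eq, goodSt]; omega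
    · exact h.1
    · exact h.1.2
    · have := h.1.1; simp only [Set.mem_ofPred_eq, goodSt]; omega
    · exact h.1

end Pool.Agent.Lib.MP_dfa990_al
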