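import Mathlib
import Pool.Agent.Lib.MP_dfa990_al.Top

/-! The words `AA n ++ DD n` are free generators of a subgroup of the free group. -/

namespace Pool.Agent.Lib.MP_dfa990_al
open Pool.Agent.Lib.helper29 Lt FreeGroup

lemma red_eq {α : Type} {u v : List (α × Bool)} (hu : IsReduced u) (hv : IsReduced v)
    (h : mk u = mk v) : u = v := by
  classical
  rw [← hu.reduce_eq, ← hv.reduce_eq]; exact reduce.sound h

lemma red_sub {α : Type} {u v : List (α × Bool)} (h : IsReduced v) (h' : u <:+: v) :
    IsReduced u := by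
  obtain ⟨s, r, rfl⟩ := h'
  exact List.IsChain.right_of_append (List.IsChain.left_of_append h)

lemma red_toWord {α : Type} [DecidableEq α] {u : List (α × Bool)} (hu : IsReduced u) :
    (mk u).toWord = u := by rw [toWord_mk, hu.reduce_eq]

lemma red_invRev {α : Type} {u : List (α × Bool)} (hu : IsReduced u) : IsReduced (invRev u) := by
  classical
  rw [isReduced_iff_reduce_eq] at hu ⊢
  rw [reduce_invRev, hu]

lemma red_sg (σ : Bool) (v : List Lt) : IsReduced (sg σ v) := by
  rw [FreeGroup.IsReduced, sg, List.isChain_map]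
  exact List.isChain_iff_forall_rel_of_append_cons_cons.2 (fun _ _ _ _ _ _ => rfl)

lemma pp {α : Type} [DecidableEq α] (p : List (α × Bool)) (x : α × Bool) (s : List (α × Bool))
    (g : FreeGroup α) (hr : IsReduced (p ++ x :: s)) (hg : ¬ invRev (x :: s) <+: g.toWord) :
    p ++ [x] <+: (mk (p ++ x :: s) * g).toWord := by
  have key : ∀ (u : List (α × Bool)) (y : α × Bool) (g : FreeGroup α), IsReduced (u ++ [y]) →
      (mk (u ++ [y]) * g).toWord = u ++ [y] ++ g.toWord ∨
        ∃ r, g.toWord = (y.1, !y.2) :: r ∧ (mk r).toWord = r ∧ mk (u ++ [y]) * g = mk u * mk r := by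
    intro u y g hr
    by_cases h : g.toWord.head? = some (y.1, !y.2)
    · right
      obtain ⟨r, hr'⟩ := List.head?_eq_some_iff.1 h
      refine ⟨r, hr', red_toWord (red_sub (hr' ▸ isReduced_toWord (x := g))
        ⟨[(y.1, !y.2)], [], by simp⟩), ?_⟩
      rw [← mk_toWord (x := g), hr', mul_mk, mul_mk]
      exact Quot.sound (by rw [List.append_assoc]; exact Red.Step.not)
    · left
      rw [← mk_toWord (x := g), mul_mk, mk_toWord]
      refine red_toWord (List.isChain_append.2 ⟨hr, isReduced_toWord, ?_⟩)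
      intro a ha b hb hab
      simp only [List.getLast?_concat, Option.mem_def, Option.some.injEq] at ha
      subst ha
      by_contra hc
      refine h (hb.trans ?_)
      obtain ⟨b1, b2⟩ := b
      simp only at hab hc
      rw [hab]; congr 2; revert hc; cases y.2 <;> cases b2 <;> simp
  induction s using List.reverseRecOn generalizing g with
  | nil =>
    rcases key p x g hr with h | ⟨r, h, -⟩
    · rw [h]; exact List.prefix_append _ _
    · exact absurd ⟨r, by rw [h]; simp [invRev]⟩ hg
  | append_singleton s y ih =>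
    rw [show p ++ x :: (s ++ [y]) = (p ++ x :: s) ++ [y] by simp] at hr ⊢
    rcases key _ y g hr with h | ⟨r, h, h1, h2⟩
    · rw [h]; exact ⟨s ++ [y] ++ g.toWord, by simp⟩
    · rw [h2]
      refine ih _ (red_sub hr ⟨[], [y], by simp⟩) ?_
      rw [h1]
      rintro ⟨q, hq⟩
      exact hg ⟨q, by rw [h, ← hq]; simp [invRev]⟩

def JJ (n : ℕ) : List Lt := AA n ++ DD n

def eW (j : ℕ) : List (Lt × Bool) := sg true (AA (j + 1) ++ chunk d j) ++ invRev (sg true (AA j))

lemma red_eW (j : ℕ) : IsReduced (eW j) := by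
  refine List.isChain_append.2 ⟨red_sg _ _, red_invRev (red_sg _ _), ?_⟩
  intro x hx y hy hxy
  exfalso
  cases j with
  | zero => simp [sg] at hy
  | succ j =>
    rw [AA_succ j, chunk] at hy
    rw [chunk, ← List.append_assoc, sg, List.map_append, List.map_singleton,
      List.getLast?_concat] at hx
    simp [sg, invRev] at hx hy
    rw [← hx, ← hy] at hxy
    simp at hxy

lemma pf_eq {n n' : ℕ} {z z' : Lt × Bool} {w : List (Lt × Bool)} (hz : z ≠ (a, true))
    (hz' : z' ≠ (a, true)) (h : sg true (AA n) ++ [z] <+: w) (h' : sg true (AA n') ++ [z'] <+: w) :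
    n = n' ∧ z = z' := by
  have key : ∀ {n n' : ℕ} {z z' : Lt × Bool}, z ≠ (a, true) → sg true (AA n) ++ [z] <+: w →
      sg true (AA n') ++ [z'] <+: w → ¬ n < n' := by
    intro n n' z z' hz h h' hn
    obtain ⟨r, hr⟩ := AA_lt hn
    have h2 : sg true (AA n) ++ [(a, true)] <+: w := List.IsPrefix.trans
      ⟨sg true (AA n ++ DD n ++ [A] ++ r) ++ [z'], by rw [hr]; simp [sg, chunk]⟩ h'
    have := (List.prefix_of_prefix_length_le h h2 (by simp)).eq_of_length (by simp)
    exact hz (by simpa using this)
  obtain rfl : n = n' := by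
    have := key hz h h'
    have := key hz' h' h
    omega
  have := (List.prefix_of_prefix_length_le h h' (by simp)).eq_of_length (by simp)
  exact ⟨rfl, by simpa using this⟩

lemma inj_e : Function.Injective (FreeGroup.lift fun j => mk (eW j)) := by
  let X : ℕ → Set (FreeGroup Lt) := fun j => {g | sg true (AA (j + 1)) ++ [(d, true)] <+: g.toWord}
  let Y : ℕ → Set (FreeGroup Lt) := fun j =>
    {g | sg true (AA j) ++ invRev (sg true (chunk d j)) <+: g.toWord}
  have hY : ∀ j g, g ∈ Y j → sg true (AA j) ++ [(D, false)] <+: g.toWord := fun j g hg =>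
    List.IsPrefix.trans ⟨invRev (sg true (d :: (AA j ++ DD j))), by simp [sg, chunk, invRev]⟩ hg
  refine injective_lift_of_ping_pong _ X Y (fun j => ⟨mk (sg true (AA (j + 1) ++ [d])), ?_⟩)
    (fun i j hij => ?_) (fun i j hij => ?_) (fun i j => ?_) (fun j => ?_) (fun j => ?_)
  · change _ <+: _
    rw [red_toWord (red_sg _ _)]; simp [sg]
  · exact Set.disjoint_left.2 fun g h1 h2 => hij (by simpa using (pf_eq (by simp) (by simp) h1 h2).1)
  · exact Set.disjoint_left.2 fun g h1 h2 =>
      hij (pf_eq (by simp) (by simp) (hY _ _ h1) (hY _ _ h2)).1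
  · exact Set.disjoint_left.2 fun g h1 h2 => by
      simpa using (pf_eq (by simp) (by simp) h1 (hY _ _ h2)).2
  · rintro _ ⟨g, hg, rfl⟩
    have e : eW j = sg true (AA (j + 1)) ++ (d, true) ::
        (sg true (AA j ++ DD j ++ [D]) ++ invRev (sg true (AA j))) := by simp [eW, sg, chunk]
    have := pp _ _ _ g (e ▸ red_eW j) (by
      intro h; apply hg; change _ <+: _; simpa [sg, chunk, invRev, Function.comp_def] using h)
    rw [← e] at this
    exact this
  · rintro _ ⟨g, hg, rfl⟩
    have e : invRev (eW j) = (sg true (AA j) ++ invRev (sg true (AA j ++ DD j ++ [D]))) ++ (d, false) ::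
        invRev (sg true (AA (j + 1))) := by simp [eW, sg, chunk, invRev]
    have := pp _ _ _ g (e ▸ red_invRev (red_eW j)) (by
      intro h; apply hg; change _ <+: _; simpa [sg, chunk, invRev, Function.comp_def] using h)
    rw [← e, ← inv_mk] at this
    change _ <+: ((mk (eW j))⁻¹ * g).toWord
    simpa [sg, chunk, invRev] using this

def sig : ℕ → FreeGroup ℕ
  | 0 => of 0
  | n + 1 => of (n + 1) * sig n

def tau : ℕ → FreeGroup ℕ
  | 0 => of 0
  | n + 1 => of (n + 1) * (of n)⁻¹

def φ1 : FreeGroup ℕ →* FreeGroup Lt := FreeGroup.lift fun n => mk (sg true (JJ (n + 1)))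

lemma J_succ (j : ℕ) : mk (sg true (JJ (j + 1))) = mk (eW j) * mk (sg true (JJ j)) := by
  rw [eW, ← mul_mk, ← inv_mk, show sg true (JJ j) = sg true (AA j) ++ sg true (DD j) by simp [sg, JJ],
    ← mul_mk, mul_assoc, inv_mul_cancel_left, mul_mk]
  simp [sg, JJ, DD_succ]

theorem φ1_inj : Function.Injective φ1 := by
  have h1 : φ1 = (FreeGroup.lift fun j => mk (eW j)).comp (FreeGroup.lift sig) := by
    ext n
    simp only [φ1, lift_apply_of, MonoidHom.comp_apply]
    induction n with
    | zero => rw [J_succ]; simp [sig, JJ, sg, ← one_eq_mk]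
    | succ n ih => rw [J_succ, ih]; simp [sig]
  have h2 : (FreeGroup.lift tau).comp (FreeGroup.lift sig) = MonoidHom.id _ := by
    ext n
    simp only [lift_apply_of, MonoidHom.comp_apply, MonoidHom.id_apply]
    induction n with
    | zero => simp [sig, tau]
    | succ n ih => simp [sig, ih, tau]
  rw [h1, MonoidHom.coe_comp]
  exact inj_e.comp (Function.LeftInverse.injective (g := FreeGroup.lift tau)
    (fun x => DFunLike.congr_fun h2 x))

end Pool.Agent.Lib.MP_dfa990_al
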