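import Mathlib
import Pool.Agent.Lib.MP_dfa990_al.FreeJ

/-! The free product factor and its spelling lemma. -/

namespace Pool.Agent.Lib.MP_dfa990_al
open Pool.Agent.Lib.helper29 Lt Monoid
open FreeGroup hiding map_mul map_inv map_one map_pure

lemma push_nil {ι M H : Type} [Group M] [Group H] (φ : ι → H →* M)
    (hφ : ∀ i, Function.Injective (φ i)) (l : List (ι × M)) (h1 : ∀ x ∈ l, x.2 ∉ (φ x.1).range)
    (h2 : l.IsChain (fun x y => x.1 ≠ y.1))
    (h : (l.map fun x => PushoutI.of (G := fun _ => M) (φ := φ) x.1 x.2).prod = 1) : l = [] := by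
  let w : CoprodI.Word (fun _ : ι => M) := ⟨l.map fun x => ⟨x.1, x.2⟩, by
    intro y hy
    obtain ⟨x, hx, rfl⟩ := List.mem_map.1 hy
    intro e
    exact h1 x hx (by simp only at e; rw [e]; exact one_mem _), by rwa [List.isChain_map]⟩
  have hw : PushoutI.Reduced φ w := by
    intro y hy
    obtain ⟨x, hx, rfl⟩ := List.mem_map.1 hy
    exact h1 x hx
  have := hw.eq_empty_of_mem_range hφ (by
    rw [show PushoutI.ofCoprodI w.prod = 1 by
      rw [← h]; simp [w, CoprodI.Word.prod, map_list_prod, Function.comp_def]]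
    exact one_mem _)
  simpa [w, CoprodI.Word.empty] using this

abbrev H1g (k : ℕ) := FreeGroup Bool × Multiplicative (ZMod k)
abbrev KK (k : ℕ) := PushoutI (G := fun _ : Option ℕ => H1g k) (fun _ => (1 : Unit →* H1g k))

variable (k : ℕ)

def oK (x : Option ℕ × H1g k) : KK k := PushoutI.of x.1 x.2
def fT : FreeGroup Bool →* KK k := (PushoutI.of none).comp (MonoidHom.inl _ _)
def cc (n : ℕ) (j : ℤ) : KK k := oK k (some n, (1, Multiplicative.ofAdd (j : ZMod k)))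

lemma cc_add (n : ℕ) (i j : ℤ) : cc k n i * cc k n j = cc k n (i + j) := by
  simp only [cc, oK, ← map_mul]; simp [ofAdd_add]
lemma cc_zero (n : ℕ) : cc k n 0 = 1 := by simp only [cc, oK]; simp [← Prod.one_eq_mk]
lemma cc_pow (n j : ℕ) : cc k n 1 ^ j = cc k n j := by
  induction j with
  | zero => simp [cc_zero]
  | succ j ih => rw [pow_succ, ih, cc_add]; simp
lemma cc_k (n : ℕ) : cc k n 1 ^ k = 1 := by
  rw [cc_pow, ← cc_zero k n]; simp [cc]

def ψ : FreeGroup (Bool ⊕ ℕ) →* KK k := FreeGroup.lift fun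
  | .inl b => fT k (of b)
  | .inr n => fT k (of true)⁻¹ * cc k n 1 * fT k (of false)⁻¹

def tw (τ : List (Bool × Bool)) : List ((Bool ⊕ ℕ) × Bool) := τ.map fun x => (.inl x.1, x.2)
def jw (c : List (ℕ × Bool)) : List ((Bool ⊕ ℕ) × Bool) := c.map fun x => (.inr x.1, x.2)
def yy (ε : Bool) : List (Bool × Bool) :=
  if ε then [(false, true), (true, true)] else [(true, false), (false, false)]
def s1 (ε : Bool) : FreeGroup Bool := if ε then (of true)⁻¹ else of false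
def s2 (ε : Bool) : FreeGroup Bool := if ε then (of false)⁻¹ else of true
def sn (ε : Bool) : ℤ := if ε then 1 else -1

def Rn (n : ℕ) (ε : Bool) : ℕ → List ((Bool ⊕ ℕ) × Bool)
  | 0 => [(.inr n, ε)]
  | j + 1 => (.inr n, ε) :: (tw (yy ε) ++ Rn n ε j)

def Zb (n : ℕ) (ε : Bool) : ℕ → List ((Bool ⊕ ℕ) × Bool)
  | 0 => tw (yy ε)
  | j + 1 => tw (yy ε) ++ (.inr n, ε) :: Zb n ε j

lemma Rn_succ (n : ℕ) (ε : Bool) (j : ℕ) :
    Rn n ε (j + 1) = (.inr n, ε) :: Zb n ε j ++ [(.inr n, ε)] := by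
  induction j with
  | zero => rfl
  | succ j ih => rw [Rn, ih, Zb]; simp

lemma mk_cons {α : Type} (x : α × Bool) (l : List (α × Bool)) : mk (x :: l) = mk [x] * mk l := by
  rw [mul_mk]; rfl

lemma ψ_t (b e : Bool) : ψ k (mk [(.inl b, e)]) = fT k (mk [(b, e)]) := by
  cases e
  · rw [show mk [((.inl b : Bool ⊕ ℕ), false)] = (of (.inl b))⁻¹ from rfl,
      show mk [(b, false)] = (of b)⁻¹ from rfl, map_inv, map_inv]; simp [ψ]
  · rw [show mk [((.inl b : Bool ⊕ ℕ), true)] = of (.inl b) from rfl,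
      show mk [(b, true)] = of b from rfl]; simp [ψ]

lemma ψ_J (n : ℕ) (ε : Bool) :
    ψ k (mk [(.inr n, ε)]) = fT k (s1 ε) * cc k n (sn ε) * fT k (s2 ε) := by
  cases ε
  · have : (cc k n 1)⁻¹ = cc k n (-1) := by
      rw [inv_eq_iff_mul_eq_one, cc_add]; exact cc_zero k n
    rw [show mk [((.inr n : Bool ⊕ ℕ), false)] = (of (.inr n))⁻¹ from rfl, map_inv]
    simp [ψ, s1, s2, sn, mul_assoc, this]
  · rw [show mk [((.inr n : Bool ⊕ ℕ), true)] = of (.inr n) from rfl]; simp [ψ, s1, s2, sn]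

def GoodK (l : List (Option ℕ × H1g k)) : Prop :=
  (∀ x ∈ l, x.2 ≠ 1) ∧ l.IsChain (fun x y => x.1 ≠ y.1)

variable {k}

lemma GoodK.nil {l : List (Option ℕ × H1g k)} (h : GoodK k l) (e : (l.map (oK k)).prod = 1) :
    l = [] :=
  push_nil _ (fun _ => Function.injective_of_subsingleton _) l (fun x hx => by
    simpa using h.1 x hx) h.2 e

lemma GoodK.cons {l : List (Option ℕ × H1g k)} (h : GoodK k l) {x : Option ℕ × H1g k}
    (h1 : x.2 ≠ 1) (h2 : ∀ y ∈ l.head?, x.1 ≠ y.1) : GoodK k (x :: l) :=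
  ⟨by simpa [h1] using h.1, List.isChain_cons.2 ⟨h2, h.2⟩⟩

/-- Prepending an element of the free factor. -/
lemma GoodK.consT {l : List (Option ℕ × H1g k)} (h : GoodK k l) (f : FreeGroup Bool)
    (h2 : ∀ y ∈ l.head?, y.1 ≠ none) : ∃ l', GoodK k l' ∧
      (l'.map (oK k)).prod = fT k f * (l.map (oK k)).prod ∧ (l ≠ [] → l' ≠ []) ∧
      ((f ≠ 1 ∧ ∀ y ∈ l'.head?, y.1 = none) ∨ (f = 1 ∧ l' = l)) := by
  by_cases hf : f = 1
  · exact ⟨l, h, by simp [hf], id, Or.inr ⟨hf, rfl⟩⟩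
  · exact ⟨(none, (f, 1)) :: l, h.cons (by simp [hf]) (fun y hy => (h2 y hy).symm), rfl, by simp,
      Or.inl ⟨hf, by simp⟩⟩

lemma cc_ne (ε : Bool) {j : ℕ} (hj : j + 1 < k) :
    ((1, Multiplicative.ofAdd ((sn ε * (j + 1) : ℤ) : ZMod k)) : H1g k) ≠ 1 := by
  intro h
  have h1 : ((sn ε * (j + 1) : ℤ) : ZMod k) = 0 := (Prod.ext_iff.1 h).2
  rw [ZMod.intCast_zmod_eq_zero_iff_dvd] at h1
  have h2 : (k : ℤ) ∣ j + 1 := by
    cases ε
    · rw [← dvd_neg]; simpa [sn] using h1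
    · simpa [sn] using h1
  have := Int.le_of_dvd (by omega) h2
  omega

def InvK (k : ℕ) (B : List ((Bool ⊕ ℕ) × Bool)) : Prop :=
  ∃ τ B', B = tw τ ++ B' ∧ ((B' = [] ∧ ψ k (mk B) = fT k (mk τ)) ∨
    ∃ n ε j r l, B' = Rn n ε j ++ r ∧ j + 1 < k ∧ GoodK k l ∧ (∀ y ∈ l.head?, some n ≠ y.1) ∧
      ψ k (mk B) = fT k (mk τ * s1 ε) * (cc k n (sn ε * (j + 1)) * (l.map (oK k)).prod))

lemma red_tw {τ : List (Bool × Bool)} (h : IsReduced (tw τ)) : IsReduced τ := by
  rw [FreeGroup.IsReduced, tw, List.isChain_map] at h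
  exact h.imp (fun _ _ h e => h (by rw [e]))

lemma invK (hk : 2 ≤ k) {B : List ((Bool ⊕ ℕ) × Bool)} (hB : IsReduced B)
    (nb : ∀ n ε, ¬ Zb n ε (k - 2) <:+: B) : InvK k B := by
  induction B with
  | nil => exact ⟨[], [], rfl, Or.inl ⟨rfl, by simp [← one_eq_mk]⟩⟩
  | cons x B ih =>
    obtain ⟨τ, B', rfl, H⟩ := ih (red_sub hB ⟨[x], [], by simp⟩)
      (fun n ε h => nb n ε (h.trans ⟨[x], [], by simp⟩))
    obtain ⟨b | n, ε⟩ := x
    · refine ⟨(b, ε) :: τ, B', rfl, ?_⟩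
      rw [mk_cons, map_mul, ψ_t, mk_cons (b, ε) τ]
      rcases H with ⟨h1, h2⟩ | ⟨n, e, j, r, l, h1, h2, h3, h4, h5⟩
      · exact Or.inl ⟨h1, by rw [h2, map_mul]⟩
      · exact Or.inr ⟨n, e, j, r, l, h1, h2, h3, h4, by rw [h5]; simp only [map_mul, mul_assoc]⟩
    · refine ⟨[], _, rfl, Or.inr ?_⟩
      rw [mk_cons, map_mul, ψ_J, ← one_eq_mk]
      simp only [one_mul]
      rcases H with ⟨rfl, h2⟩ | ⟨n', e, j, r, l, rfl, h2, h3, h4, h5⟩
      · obtain ⟨l', g1, g2, -, g3⟩ := GoodK.consT (k := k) (l := []) ⟨by simp, by simp⟩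
          (s2 ε * mk τ) (by simp)
        refine ⟨n, ε, 0, _, l', rfl, by omega, g1, ?_, by rw [h2, g2]; simp [mul_assoc]⟩
        rcases g3 with ⟨-, g3⟩ | ⟨-, rfl⟩
        · intro y hy; simp [g3 y hy]
        · simp
      · obtain ⟨l', g1, g2, -, g3⟩ := (h3.cons (x := (some n', _)) (cc_ne e h2) h4).consT
          (s2 ε * mk τ * s1 e) (by simp)
        by_cases hc : n = n' ∧ s2 ε * mk τ * s1 e = 1
        · obtain ⟨rfl, hf⟩ := hc
          have rτ : IsReduced τ := red_tw (red_sub hB ⟨[_], _, rfl⟩)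
          by_cases he : ε = e
          · subst he
            obtain rfl : τ = yy ε := red_eq rτ (by cases ε <;> simp [yy]) (by
              rw [mul_assoc, mul_eq_one_iff_inv_eq, eq_comm, ← eq_mul_inv_iff_mul_eq] at hf
              rw [hf]; cases ε <;> rfl)
            refine ⟨n, ε, j + 1, r, l, by simp [Rn], ?_, h3, h4, ?_⟩
            · by_contra hj
              obtain rfl : j = k - 2 := by omega
              refine nb n ε ⟨[(.inr n, ε)], (.inr n, ε) :: r, ?_⟩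
              have := Rn_succ n ε (k - 2)
              rw [Rn] at this
              rw [← List.append_assoc, ← List.cons_append, this]; simp
            · rw [h5, mul_assoc, mul_assoc, ← mul_assoc (fT k (s2 ε)), ← map_mul, ← mul_assoc (s2 ε), hf,
                map_one, one_mul, ← mul_assoc (cc k n _), cc_add]
              congr 3; push_cast; ring
          · exfalso
            obtain rfl : τ = [] := red_eq rτ IsReduced.nil (by
              rw [mul_assoc, mul_eq_one_iff_inv_eq, eq_comm, ← eq_mul_inv_iff_mul_eq] at hf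
              rw [hf, ← one_eq_mk]; revert he; cases ε <;> cases e <;> simp [s1, s2])
            cases j <;> simp [Rn, tw, isReduced_cons_cons, he] at hB
        · refine ⟨n, ε, 0, _, l', rfl, by omega, g1, ?_, ?_⟩
          · rcases g3 with ⟨-, g3⟩ | ⟨g3, rfl⟩
            · intro y hy; simp [g3 y hy]
            · simpa using fun h => hc ⟨h, g3⟩
          · rw [h5, g2]; simp [mul_assoc, cc]

theorem KL0 (hk : 2 ≤ k) {B : List ((Bool ⊕ ℕ) × Bool)} (hB : IsReduced B) (h0 : B ≠ [])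
    (h1 : ψ k (mk B) = 1) : ∃ n ε, Zb n ε (k - 2) <:+: B := by
  by_contra nb
  push Not at nb
  obtain ⟨τ, B', rfl, ⟨rfl, h2⟩ | ⟨n, e, j, r, l, rfl, h2, h3, h4, h5⟩⟩ := invK hk hB nb
  · obtain ⟨l', g1, g2, -, g3⟩ := GoodK.consT (k := k) (l := []) ⟨by simp, by simp⟩ (mk τ) (by simp)
    by_cases hf : mk τ = 1
    · obtain rfl := red_eq (red_tw (by simpa using hB)) IsReduced.nil hf
      exact h0 rfl
    · have := GoodK.nil (k := k) (l := [(none, (mk τ, 1))]) ⟨by simp [hf], by simp⟩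
        (by rw [← h1, h2]; simp [oK, fT])
      simp at this
  · obtain ⟨l', g1, g2, g3, -⟩ := (h3.cons (x := (some n, _)) (cc_ne e h2) h4).consT
      (mk τ * s1 e) (by simp)
    exact g3 (by simp) (g1.nil (by rw [g2, ← h1, h5]; simp [cc]))

def φ2 (k : ℕ) : FreeGroup ℕ →* KK k := (ψ k).comp (FreeGroup.map Sum.inr)

lemma φ2_mk (c : List (ℕ × Bool)) : φ2 k (mk c) = ψ k (mk (jw c)) := rfl

lemma red_jw {c : List (ℕ × Bool)} (h : IsReduced c) : IsReduced (jw c) := by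
  rw [FreeGroup.IsReduced, jw, List.isChain_map]
  exact h.imp (fun _ _ h e => h (by simpa using e))

lemma Zb_last (n : ℕ) (ε : Bool) (j : ℕ) : ∃ Z b e, Zb n ε j = Z ++ [(.inl b, e)] := by
  induction j with
  | zero => cases ε; exacts [⟨[_], _, _, rfl⟩, ⟨[_], _, _, rfl⟩]
  | succ j ih =>
    obtain ⟨Z, b, e, h⟩ := ih
    exact ⟨tw (yy ε) ++ (.inr n, ε) :: Z, b, e, by rw [Zb, h]; simp⟩

lemma Zb_head (n : ℕ) (ε : Bool) (j : ℕ) : ∃ Z b e, Zb n ε j = (.inl b, e) :: Z := by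
  cases j <;> cases ε <;> exact ⟨_, _, _, rfl⟩

lemma Zb_jw {n : ℕ} {ε : Bool} {j : ℕ} {P : List ((Bool ⊕ ℕ) × Bool)} {c : List (ℕ × Bool)}
    (h : Zb n ε j <:+: P ++ jw c) : Zb n ε j <:+: P := by
  obtain ⟨Z, b, e, hZ⟩ := Zb_last n ε j
  obtain ⟨s, r, h⟩ := h
  rcases List.append_eq_append_iff.1 h with ⟨q, h1, -⟩ | ⟨q, h1, h2⟩
  · exact ⟨s, q, h1.symm⟩
  · rcases List.eq_nil_or_concat q with rfl | ⟨q, y, rfl⟩
    · exact ⟨s, [], by simpa using h1⟩
    · rw [hZ, List.concat_eq_append, ← List.append_assoc, ← List.append_assoc] at h1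
      have h3 : y ∈ jw c := by rw [h2]; simp
      rw [← List.singleton_inj.1 (List.append_inj' h1 rfl).2] at h3
      simp [jw] at h3

theorem φ2_inj (hk : 2 ≤ k) : Function.Injective (φ2 k) := by
  rw [injective_iff_map_eq_one]
  intro c hc
  by_contra h0
  rw [← mk_toWord (x := c), φ2_mk] at hc
  obtain ⟨n, ε, h⟩ := KL0 hk (red_jw isReduced_toWord) (by simpa [jw] using h0) hc
  obtain ⟨Z, b, e, hZ⟩ := Zb_head n ε (k - 2)
  have := Zb_jw (P := []) h
  simp [hZ] at this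

theorem KL1 (hk : 2 ≤ k) {B : List ((Bool ⊕ ℕ) × Bool)} (hB : IsReduced B)
    (h0 : ∃ y ∈ B, y.1.isLeft = true) (h1 : ψ k (mk B) ∈ (φ2 k).range) :
    ∃ n ε, Zb n ε (k - 2) <:+: B := by
  obtain ⟨B1, b, e, c1, rfl⟩ : ∃ B1 b e c1, B = B1 ++ [(.inl b, e)] ++ jw c1 := by
    clear hB h1
    induction B using List.reverseRecOn with
    | nil => simp at h0
    | append_singleton B y ih =>
      obtain ⟨b | n, e⟩ := y
      · exact ⟨B, b, e, [], by simp [jw]⟩
      · obtain ⟨B1, b, e', c1, rfl⟩ := ih (by simpa using h0)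
        exact ⟨B1, b, e', c1 ++ [(n, e)], by simp [jw]⟩
  obtain ⟨c, hc⟩ := h1
  obtain ⟨n, ε, h⟩ := KL0 hk (B := B1 ++ [(.inl b, e)] ++ jw (mk c1 * c⁻¹).toWord)
    (List.isChain_append.2 ⟨red_sub hB ⟨[], _, rfl⟩, red_jw isReduced_toWord, by
      intro x hx y hy hxy
      have := List.mem_of_mem_head? hy
      simp only [List.getLast?_concat, Option.mem_def, Option.some.injEq] at hx
      subst hx
      obtain ⟨z, -, rfl⟩ := List.mem_map.1 this
      simp at hxy⟩) (by simp) (by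
      rw [← mul_mk, map_mul, ← φ2_mk, mk_toWord, map_mul, map_inv, hc,
        ← mul_mk (L₂ := jw c1), map_mul, φ2_mk]
      group)
  exact ⟨n, ε, (Zb_jw h).trans ⟨[], _, rfl⟩⟩

end Pool.Agent.Lib.MP_dfa990_al
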