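import Mathlib
import Pool.Agent.Lib.MP_dfa990_al.Top

/-! Windows, loads and the local inequalities. -/

namespace Pool.Agent.Lib.MP_dfa990_al
open Pool.Agent.Lib.helper29 Lt

def nb (h : ℕ) (x : ℤ) : ℤ := (x + el h - 1) / el h

lemma nb_spec (h : ℕ) (x : ℤ) : x ≤ el h * nb h x ∧ el h * nb h x < x + el h := ceil_spec h x
lemma nb_dvd {h : ℕ} {x : ℤ} (hx : el h ∣ x) : el h * nb h x = x := ceil_dvd hx
lemma nb_count {h : ℕ} {i : ℤ} {v : List Lt} (hv : At (TT h) i v) :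
    (v.count t : ℤ) = nb h (i + v.length) - nb h i := count_t hv

lemma nb_len (h : ℕ) (x y : ℤ) : x - y < (nb h x - nb h y + 1) * el h := by
  have := nb_spec h x
  have := nb_spec h y
  nlinarith

lemma long_cnt {h : ℕ} {θ o s e : ℤ} (hl : θ * el h < e - s) : θ ≤ nb h (o + e) - nb h (o + s) := by
  have := nb_len h (o + e) (o + s)
  have := el_pos h
  nlinarith

lemma At.val {V : ℤ → Lt} {h : ℕ} {o p : ℤ} {v : List Lt} (a : At V p v)
    (hV : ∀ r, p ≤ r → r < p + v.length → V r = TT h (o + r)) : At (TT h) (o + p) v :=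
  a.congr (fun r h0 hr => by rw [hV _ (by omega) (by omega), add_assoc])

lemma nb_le {V : ℤ → Lt} {h : ℕ} {o p x y : ℤ} {v : List Lt} (a : At V p v)
    (hV : ∀ r, x ≤ r → r < y → V r = TT h (o + r)) (h1 : p ≤ x) (h2 : x ≤ y)
    (h3 : y ≤ p + v.length) : nb h (o + y) - nb h (o + x) ≤ v.count t := by
  obtain ⟨u, au, lu⟩ := exists_seg V h2
  have b := nb_count (au.val (h := h) (o := o) (fun r h0 hr => hV r h0 (by omega)))
  rw [show o + x + u.length = o + y by omega] at b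
  rw [← b]
  obtain ⟨n, hn⟩ : ∃ n : ℕ, x = p + n := ⟨(x - p).toNat, by omega⟩
  rw [← List.take_append_drop n v] at a
  have a2 := a.right
  rw [List.length_take, min_eq_left (by omega), ← hn] at a2
  have := (au.pre a2 (by simp; omega)).sublist.trans (List.drop_sublist n v)
  exact_mod_cast this.count_le t

lemma At.last {V : ℤ → Lt} {i : ℤ} {v : List Lt} {x : Lt} (h : At V i v)
    (hx : v.getLast? = some x) : V (i + v.length - 1) = x := by
  obtain ⟨u, rfl⟩ := List.getLast?_eq_some_iff.1 hx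
  have := h.right.1
  rw [← this]; congr 1; simp; ring

def AtW (V : ℤ → Lt) (S : ℤ → Bool) : ℤ → List (Lt × Bool) → Prop
  | _, [] => True
  | i, x :: v => (V i = x.1 ∧ S i = x.2) ∧ AtW V S (i + 1) v

lemma AtW_append (V : ℤ → Lt) (S : ℤ → Bool) (i : ℤ) (u v : List (Lt × Bool)) :
    AtW V S i (u ++ v) ↔ AtW V S i u ∧ AtW V S (i + u.length) v := by
  induction u generalizing i with
  | nil => simp [AtW]
  | cons x u ih =>
    simp only [List.cons_append, AtW, ih, List.length_cons, and_assoc]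
    rw [show i + 1 + (u.length : ℤ) = i + ((u.length + 1 : ℕ) : ℤ) by push_cast; ring]

lemma AtW_sg (V : ℤ → Lt) (S : ℤ → Bool) (i : ℤ) (σ : Bool) (v : List Lt) :
    AtW V S i (sg σ v) ↔ At V i v ∧ ∀ r, i ≤ r → r < i + v.length → S r = σ := by
  induction v generalizing i with
  | nil => simp [AtW, sg]; intro r h1 h2; omega
  | cons x v ih =>
    rw [show sg σ (x :: v) = (x, σ) :: sg σ v from rfl, AtW, ih, At_cons]
    simp only [List.length_cons, Nat.cast_add, Nat.cast_one]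
    constructor
    · rintro ⟨⟨h1, h2⟩, h3, h4⟩
      refine ⟨⟨h1, h3⟩, fun r r1 r2 => ?_⟩
      rcases r1.eq_or_lt with rfl | r1
      · exact h2
      · exact h4 r (by omega) (by omega)
    · rintro ⟨⟨h1, h3⟩, h4⟩
      exact ⟨⟨h1, h4 i le_rfl (by omega)⟩, h3, fun r r1 r2 => h4 r (by omega) (by omega)⟩

/-- A window: a stretch of constant sign that reads like a periodic text. -/
def Val (V : ℤ → Lt) (S : ℤ → Bool) (h : ℕ) (o s e : ℤ) (σ : Bool) : Prop :=
  1 ≤ h ∧ 0 ≤ s ∧ ∀ r, s ≤ r → r < e → V r = TT h (o + r) ∧ S r = σ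

lemma Val.sub {V : ℤ → Lt} {S : ℤ → Bool} {h : ℕ} {o s e s' e' : ℤ} {σ : Bool}
    (H : Val V S h o s e σ) (h1 : s ≤ s') (h2 : e' ≤ e) : Val V S h o s' e' σ :=
  ⟨H.1, H.2.1.trans h1, fun r r1 r2 => H.2.2 r (by omega) (by omega)⟩

lemma Val.v {V : ℤ → Lt} {S : ℤ → Bool} {h : ℕ} {o s e s' e' : ℤ} {σ : Bool}
    (H : Val V S h o s e σ) (h1 : s ≤ s') (h2 : e' ≤ e) (r : ℤ) (r1 : s' ≤ r) (r2 : r < e') :
    V r = TT h (o + r) := (H.2.2 r (by omega) (by omega)).1

lemma Val.s {V : ℤ → Lt} {S : ℤ → Bool} {h : ℕ} {o s e : ℤ} {σ : Bool}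
    (H : Val V S h o s e σ) {r : ℤ} (r1 : s ≤ r) (r2 : r < e) : S r = σ := (H.2.2 r r1 r2).2

section
variable (m : ℕ) (θ : ℤ) (V : ℤ → Lt) (S : ℤ → Bool) (βL βR : ℤ → ℕ)

def JOK (h : ℕ) (o s : ℤ) (σ : Bool) : Prop :=
  ∀ (h1 : ℕ) (o1 s1 p : ℤ), Val V S h1 o1 s1 s (!σ) → θ * el h1 < s - s1 →
    Agr h1 (o1 + s) h (-(o + s)) p → 2 * m * p ≤ βL s + βR s

def Good (π : ℤ) : Prop :=
  ∀ (h : ℕ) (o s e : ℤ) (σ : Bool), Val V S h o s e σ → e ≤ π → θ * el h < e - s →
    (m + 6) * (e - s) + βR s + βL e ≤ (m + 6) * m * el h ∧ JOK m θ V S βL βR h o s σ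

def Flow (N : ℤ) : Prop := ∃ βL βR : ℤ → ℕ, Good m θ V S βL βR N

end

lemma JOK.inner {m : ℕ} {θ : ℤ} (hθ : 0 ≤ θ) {V : ℤ → Lt} {S : ℤ → Bool} {βL βR : ℤ → ℕ} {h : ℕ}
    {o s : ℤ} {σ : Bool} (hs : S (s - 1) = σ) : JOK m θ V S βL βR h o s σ := by
  intro h1 o1 s1 p H hl _
  have := el_pos h1
  have := H.s (r := s - 1) (by nlinarith) (by omega)
  simp [hs] at this

def Half (k : ℤ) (h : ℕ) (x y : ℤ) (n φ load : ℕ) : Prop :=
  (nb h x - nb h y ≤ n ∧ load = 0) ∨ 2 * k * el h * (nb h x - n + 5) + load + k ≤ k * (x + y) + φ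

lemma arm_half {ld lg n : ℕ} {ω : List Lt} (X : ArmX ld lg 5 n ω) {V : ℤ → Lt} {a : ℤ}
    (hω : At V a ω) {h : ℕ} {o s k : ℤ} {φ load : ℕ} (hk : 0 ≤ k)
    (hV : ∀ r, s ≤ r → r < a + ω.length → V r = TT h (o + r)) (hs : s ≤ a + ω.length)
    (hA : k * (max s (a + ld) - s) + load ≤ k * lg + φ) (hB : a < s → load = 0) :
    Half k h (o + (a + ω.length)) (o + s) n φ load := by
  obtain ⟨β, ρ, b1, b2, rfl, b4, -, K⟩ := X.out hω
  rcases le_or_gt s β with hh | hh
  · right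
    obtain ⟨d1, e⟩ := K h o s hh hV
    have c := nb_count (b2.val (h := h) (o := o) (fun r h0 hr => hV r (by omega) (by omega)))
    rw [add_assoc, b4] at c
    have e2 := nb_dvd d1
    have e3 : el h * (nb h (o + (a + ω.length)) - ρ.count t) = o + β := by rw [c]; linarith
    have e4 := mul_le_mul_of_nonneg_left e hk
    push_cast at e4
    nlinarith
  · exact Or.inl ⟨nb_le b2 hV hh.le hs b4.ge, hB (by omega)⟩

lemma flip_val {V : ℤ → Lt} {h : ℕ} {o s e : ℤ} (hV : ∀ r, s ≤ r → r < e → V r = TT h (o + r))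
    (r : ℤ) (r1 : -e ≤ r) (r2 : r < -s) : flip V r = TT h (-o + r) := by
  rw [flip, hV _ (by omega) (by omega), ← TT_neg]; congr 1; ring

lemma At.undag {V : ℤ → Lt} {π : ℤ} {ω : List Lt} (h : At V π (dag ω)) :
    At (flip V) (-(π + ω.length)) ω := by
  have := h.dg
  rw [dag_dag, length_dag] at this
  exact this.cast (by ring)

lemma arm_half' {ld lg n : ℕ} {ω : List Lt} (X : ArmX ld lg 5 n ω) {V : ℤ → Lt} {π : ℤ}
    (hω : At V π (dag ω)) {h : ℕ} {o e k : ℤ} {φ load : ℕ} (hk : 0 ≤ k)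
    (hV : ∀ r, π ≤ r → r < e → V r = TT h (o + r)) (hs : π ≤ e)
    (hA : k * (e - min e (π + ω.length - ld)) + load ≤ k * lg + φ)
    (hB : e < π + ω.length → load = 0) : Half k h (-(o + π)) (-(o + e)) n φ load := by
  have := arm_half X hω.undag (h := h) (o := -o) (s := -e) (φ := φ) (load := load) hk
    (fun r r1 r2 => flip_val hV r r1 (by omega)) (by omega)
    (by rwa [show max (-e) (-(π + ω.length) + ld) - -e = e - min e (π + ω.length - ld) by omega])
    (fun h => hB (by omega))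
  rwa [show -o + (-(π + ω.length) + ω.length) = -(o + π) by ring,
    show -o + -e = -(o + e) by ring] at this

def Bd (k : ℤ) (h : ℕ) (x y : ℤ) (J b ly φ load : ℕ) : Prop :=
  k * (x - y) + load + k * ly + k ≤ k * (2 * J - b - 10) * el h + φ ∨
    (load = 0 ∧ x - y ≤ (J + 1) * el h)

lemma half_bd {k : ℤ} (hk : 0 ≤ k) {h : ℕ} {x y : ℤ} {n φ load ly : ℕ} (H : Half k h x y n φ load)
    {z B : List Lt} (a : At (TT h) x (z ++ B)) (hB : B.getLast? = some T) (hl : ly ≤ z.length) :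
    Bd k h (x + z.length + B.length) y (n + z.count t + B.count t) (B.count t) ly φ load := by
  have d1 : el h ∣ x + z.length + B.length := by
    have := (TT_eq_T _ _).1 (a.right.last hB)
    rwa [sub_add_cancel] at this
  have c := nb_count a
  rw [List.count_append, List.length_append, Nat.cast_add, Nat.cast_add, ← add_assoc] at c
  have e := nb_dvd d1
  have e2 := cnt_end a.right d1
  have hl' : (ly : ℤ) ≤ z.length := by exact_mod_cast hl
  rcases H with ⟨h1, h2⟩ | H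
  · refine Or.inr ⟨h2, ?_⟩
    have := nb_len h (x + z.length + B.length) y
    have := el_pos h
    push_cast; nlinarith
  · left
    have e3 : el h * nb h x = x + z.length + B.length - el h * (z.count t + B.count t) := by
      rw [c]; linarith
    have e4 := mul_le_mul_of_nonneg_left (add_le_add hl' e2) hk
    have e5 : 2 * k * el h * (nb h x - n + 5) =
        2 * k * (el h * nb h x) - 2 * k * el h * n + 10 * k * el h := by ring
    rw [e5, e3] at H
    push_cast; nlinarith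

lemma mg_arith {m nl φl nr φr a b ny a' b' g l0 l1 l2 ld1 ld2 : ℕ} {h : ℕ} {x1 x2 y y' : ℤ}
    (C : MGc m nl φl nr φr a b ny a' b' g l0) (B1 : Bd (m + 6) h x1 y (nl + a + b) b l1 φl ld1)
    (B2 : Bd (m + 6) h (-x2) y' (nr + a' + b') b' l2 φr ld2) (e1 : x2 - x1 = l1 + l0 + l2)
    (e2 : x2 - x1 = ny * el h) : (m + 6) * (-y' - y) + ld1 + ld2 ≤ (m + 6) * m * el h := by
  obtain ⟨c1, c2, c3, c4, c5, c6, c7, -⟩ := C
  zify at c1 c2 c3 c4 c5 c6 c7
  have hp := el_pos h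
  have hk : (0 : ℤ) ≤ (m + 6) * el h := by positivity
  have l0' : (0 : ℤ) ≤ (m + 6) * l0 := by positivity
  have l1' : (0 : ℤ) ≤ (m + 6) * l1 := by positivity
  have l2' : (0 : ℤ) ≤ (m + 6) * l2 := by positivity
  have hk' : (0 : ℤ) ≤ m + 6 := by positivity
  have e3 : (m + 6) * (x2 - x1) = (m + 6) * (l1 + l0 + l2 : ℤ) := by rw [e1]
  have e4 : (m + 6) * (x2 - x1) = (m + 6) * (ny * el h) := by rw [e2]
  rcases B1 with B1 | ⟨rfl, B1⟩ <;> rcases B2 with B2 | ⟨rfl, B2⟩ <;> push_cast at B1 B2 ⊢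
  · have := mul_le_mul_of_nonneg_left c4 hk
    linarith
  · have := mul_le_mul_of_nonneg_left c6 hk
    have := mul_le_mul_of_nonneg_left B2 hk'
    linarith
  · have := mul_le_mul_of_nonneg_left c5 hk
    have := mul_le_mul_of_nonneg_left B1 hk'
    linarith
  · have := mul_le_mul_of_nonneg_left c7 hk
    have := mul_le_mul_of_nonneg_left B1 hk'
    have := mul_le_mul_of_nonneg_left B2 hk'
    linarith

end Pool.Agent.Lib.MP_dfa990_al
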