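import Mathlib
import Pool.Agent.Lib.MP_dfa990_al.Flow

/-! Geometry of honest certificates. -/

namespace Pool.Agent.Lib.MP_dfa990_al
open Pool.Agent.Lib.helper29 Lt

def Geo (k : ℤ) (h : ℕ) (x y : ℤ) (n φ load : ℕ) : Prop :=
  y + 3 * el h ≤ el h * (nb h x - n) ∧ el h * (nb h x - n) ≤ y + 6 * el h ∧
    k * (x - el h * (nb h x - n)) + φ = k * (el h * (nb h x - n) - y) + load + k + 10 * k * el h ∧
    load ≤ 4 * k * el h ∧ φ < k

lemma ArmGeo.geo {h : ℕ} {s g k q : ℤ} {n φ load : ℕ} {ω : List Lt} (H : ArmGeo h s g n ω)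
    (q0 : 0 ≤ q) (q1 : q ≤ 2 * el h) (e : k * g + φ = k * q + load) (hl : load ≤ 4 * k * el h)
    (hφ : φ < k) : Geo k h (s + ω.length) (s - q) n φ load := by
  obtain ⟨-, β, ρ, a, rfl, d1, b1, b2, b3, b4⟩ := H
  have c := nb_count a
  rw [b3] at c
  have e2 := nb_dvd d1
  have e3 : el h * (nb h (s + ω.length) - ρ.count t) = β := by rw [c]; linarith
  rw [Geo, e3]
  refine ⟨by omega, by omega, ?_, hl, hφ⟩
  rw [← b3, b4]; linarith

lemma Geo.len {k : ℤ} {h : ℕ} {x y : ℤ} {n φ load : ℕ} (G : Geo k h x y n φ load) :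
    x - y ≤ 26 * el h + 1 ∧ 10 * el h < x - y ∧ n ≤ 22 := by
  obtain ⟨g1, g2, g3, g4, g5⟩ := G
  have hp := el_pos h
  have hk : 0 < k := by omega
  have sp := nb_spec h x
  have h1 : x - el h * (nb h x - n) ≤ 20 * el h + 1 := by
    by_contra hc
    nlinarith
  have h2 : 10 * el h < x - el h * (nb h x - n) := by
    by_contra hc
    nlinarith
  refine ⟨by omega, by omega, ?_⟩
  by_contra hc
  have : (23 : ℤ) ≤ n := by omega
  nlinarith

lemma cancel_le {a b l : ℤ} (hl : 0 < l) (h : a * l < (b + 1) * l) : a ≤ b := by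
  have := lt_of_mul_lt_mul_right h hl.le
  omega

lemma mgc_arith {m nl φl nr φr ld1 ld2 : ℕ} (hm : 400 ≤ m) {h : ℕ} (hh : 1 ≤ h) {x y x' y' : ℤ}
    (G1 : Geo (m + 6) h x y nl φl ld1) (G2 : Geo (m + 6) h x' y' nr φr ld2)
    (hl : (m - 130) * el h < -y' - y)
    (hF : (m + 6) * (-y' - y) + ld1 + ld2 ≤ (m + 6) * m * el h) :
    ∃ b ny b' l1 l0 l2 : ℕ, 1 ≤ b ∧ 1 ≤ b' ∧ (b + ny + b' : ℤ) = -nb h x' - nb h x ∧
      (l1 + l0 + l2 : ℤ) = ny * el h ∧ l1 ≤ el h * nb h x - x ∧ l2 ≤ el h * nb h x' - x' ∧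
      ∀ g ≤ b' + 1, MGc m nl φl nr φr 0 b ny 0 b' g l0 := by
  obtain ⟨u1, -, u2⟩ := G1.len
  obtain ⟨u3, -, u4⟩ := G2.len
  obtain ⟨g1, -, g3, -, g5⟩ := G1
  obtain ⟨g1', -, g3', -, g5'⟩ := G2
  have hp := el_ge h hh
  have s1 := nb_spec h x
  have s2 := nb_spec h x'
  generalize nb h x = A at *
  generalize nb h x' = A' at *
  generalize el h = l at *
  obtain ⟨z, hz⟩ : ∃ z : ℕ, (z : ℤ) = l * A - x := ⟨(l * A - x).toNat, by omega⟩
  obtain ⟨z', hz'⟩ : ∃ z : ℕ, (z : ℤ) = l * A' - x' := ⟨(l * A' - x').toNat, by omega⟩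
  have hk : (0 : ℤ) < m + 6 := by positivity
  have hl0 : 0 < l := by omega
  have d1 : m - 186 ≤ -A' - A := cancel_le hl0 (by linarith)
  have hp3 : 3 * l ≤ l * (A - nl) - y := by omega
  have hp3' : 3 * l ≤ l * (A' - nr) - y' := by omega
  have zl : (z : ℤ) < l := by omega
  have zl' : (z' : ℤ) < l := by omega
  obtain ⟨D, hD⟩ : ∃ D : ℕ, (D : ℤ) = -A' - A := ⟨(-A' - A).toNat, by omega⟩
  have elen : -y' - y = (l * (A - nl) - y) + (D + nl + nr) * l + (l * (A' - nr) - y') := by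
    rw [hD]; ring
  have e1 : x - l * (A - nl) = nl * l - z := by rw [hz]; ring
  have e2 : x' - l * (A' - nr) = nr * l - z' := by rw [hz']; ring
  rw [e1] at g3
  rw [e2] at g3'
  rw [elen] at hF
  generalize l * (A - nl) - y = p at *
  generalize l * (A' - nr) - y' = p' at *
  have ld1' : (0 : ℤ) ≤ ld1 := by positivity
  have ld2' : (0 : ℤ) ≤ ld2 := by positivity
  have φ1 : (0 : ℤ) ≤ φl := by positivity
  have φ2 : (0 : ℤ) ≤ φr := by positivity
  clear u1 u3 s1 s2 g1 g1' hl elen e1 e2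
  have m0 : (m + 6) * ((2 * nl + 2 * nr + D - 20 - m) * l) + φl + φr ≤ (m + 6) * (z + z' + 2 : ℤ) := by
    linarith
  have m1 : (D + nl + nr + nr - 8 : ℤ) ≤ m := by
    have : (m + 6 : ℤ) * (p + (D + nl + nr) * l + nr * l - z' - 1 - 10 * l) ≤ (m + 6) * (m * l) := by
      linarith
    have := le_of_mul_le_mul_left this hk
    exact cancel_le hl0 (by linarith)
  have m2 : (D + nl + nr + nl - 8 : ℤ) ≤ m := by
    have : (m + 6 : ℤ) * (p' + (D + nl + nr) * l + nl * l - z - 1 - 10 * l) ≤ (m + 6) * (m * l) := by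
      linarith
    have := le_of_mul_le_mul_left this hk
    exact cancel_le hl0 (by linarith)
  have m3 : (D + nl + nr + 6 : ℤ) ≤ m := by
    have : (m + 6 : ℤ) * (p + (D + nl + nr) * l + p') ≤ (m + 6) * (m * l) := by
      linarith
    have := le_of_mul_le_mul_left this hk
    exact cancel_le hl0 (by linarith)
  have m4 : (2 * nl + 2 * nr + D - 20 - m : ℤ) * l ≤ z + z' + 2 := by
    refine le_of_mul_le_mul_left ?_ hk
    linarith
  have m5 : (2 * nl + 2 * nr + D - 20 - m : ℤ) ≤ 2 := cancel_le hl0 (by linarith)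
  obtain ⟨L, hL⟩ : ∃ L : ℕ, (L : ℤ) = l := ⟨l.toNat, by omega⟩
  subst hL
  set ny := 2 * nl + 2 * nr + D - 20 - m with hny
  refine ⟨(D - ny) / 2, ny, D - ny - (D - ny) / 2, min z (ny * L),
    ny * L - min z (ny * L) - min z' (ny * L - min z (ny * L)), min z' (ny * L - min z (ny * L)),
    by omega, by omega, by omega, ?_, by omega, by omega, fun g hg =>
      ⟨?_, by omega, by omega, by omega, by omega, by omega, by omega, by omega, by omega⟩⟩
  · have : ((ny * L : ℕ) : ℤ) = ny * L := by push_cast; rfl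
    omega
  · by_cases h0 : ny * L - min z (ny * L) - min z' (ny * L - min z (ny * L)) = 0
    · rw [h0]; omega
    · have h1 : ny ≠ 0 := by rintro h; rw [h] at h0; simp at h0
      have h2 : (ny : ℤ) = 2 * nl + 2 * nr + D - 20 - m := by omega
      rw [← h2] at m0
      rw [show ny * L - min z (ny * L) - min z' (ny * L - min z (ny * L)) = ny * L - (z + z') by omega]
      have h3 : z + z' ≤ ny * L := by omega
      zify [h3]
      linarith

lemma mg_complete {m nl φl nr φr ld1 ld2 : ℕ} (hm : 400 ≤ m) {h : ℕ} (hh : 1 ≤ h) {x y x' y' : ℤ}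
    (G1 : Geo (m + 6) h x y nl φl ld1) (G2 : Geo (m + 6) h x' y' nr φr ld2)
    (hl : (m - 130) * el h < -y' - y)
    (hF : (m + 6) * (-y' - y) + ld1 + ld2 ≤ (m + 6) * m * el h) :
    ∃ v, MG m nl φl nr φr v ∧ At (TT h) x v ∧ x + v.length = -x' ∧ 0 < v.length := by
  obtain ⟨b, ny, b', l1, l0, l2, hb, hb', e1, e2, q1, q2, C⟩ := mgc_arith hm hh G1 G2 hl hF
  have hp := el_pos h
  have s1 := nb_spec h x
  have s2 := nb_spec h x'
  have hb1 : el h ≤ b * el h := by nlinarith
  have hb2 : el h ≤ b' * el h := by nlinarith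
  have e3 : -(el h * nb h x') = el h * nb h x + b * el h + ny * el h + b' * el h := by
    have : el h * (b + ny + b') = el h * (-nb h x' - nb h x) := by rw [e1]
    linarith
  set p1 := el h * nb h x with hp1
  set p2 := -(el h * nb h x') with hp2
  have d1 : el h ∣ p1 := Dvd.intro _ rfl
  have d2 : el h ∣ p1 + b * el h := d1.add (Dvd.intro_left _ rfl)
  have d3 : el h ∣ p1 + b * el h + ny * el h := d2.add (Dvd.intro_left _ rfl)
  have d4 : el h ∣ p2 := (Dvd.intro _ rfl : el h ∣ el h * nb h x').neg_right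
  obtain ⟨z, az, lz⟩ := exists_seg (TT h) s1.1
  obtain ⟨B1, aB1, lB1⟩ := exists_seg (TT h) (show p1 ≤ p1 + b * el h by omega)
  obtain ⟨Y1, aY1, lY1⟩ := exists_seg (TT h) (show p1 + b * el h ≤ p1 + b * el h + l1 by omega)
  obtain ⟨Y0, aY0, lY0⟩ := exists_seg (TT h) (show p1 + b * el h + l1 ≤ p1 + b * el h + l1 + l0 by omega)
  obtain ⟨Y2, aY2, lY2⟩ := exists_seg (TT h)
    (show p1 + b * el h + l1 + l0 ≤ p1 + b * el h + ny * el h by omega)
  obtain ⟨B2, aB2, lB2⟩ := exists_seg (TT h) (show p1 + b * el h + ny * el h ≤ p2 by omega)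
  obtain ⟨z', az', lz'⟩ := exists_seg (TT h) (show p2 ≤ -x' by omega)
  have c1 : z.count t = 0 := by
    have := cnt_end az (by rwa [show x + z.length = p1 by omega])
    by_contra hc
    have : (1 : ℤ) ≤ z.count t := by omega
    nlinarith
  have c2 : B1.count t = b := by
    have := cnt_bd aB1 d1 (by rwa [show p1 + B1.length = p1 + b * el h by omega])
    have : (B1.count t : ℤ) * el h = b * el h := by omega
    exact_mod_cast mul_right_cancel₀ hp.ne' this
  have c3 : Y1.count t + Y0.count t + Y2.count t = ny := by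
    have := cnt_bd ((aY1.app aY0 (by omega)).app aY2 (by simp; omega)) d2 (by
      rwa [show p1 + b * el h + (Y1 ++ Y0 ++ Y2).length = p1 + b * el h + ny * el h by simp; omega])
    simp only [List.count_append, List.length_append, Nat.cast_add] at this
    have : (Y1.count t + Y0.count t + Y2.count t : ℤ) * el h = ny * el h := by omega
    exact_mod_cast mul_right_cancel₀ hp.ne' this
  have c4 : z'.count T = 0 := by
    have := cnt_end az'.dgT (by rw [length_dag, sub_add_cancel]; exact d4.neg_right)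
    rw [count_dag, mir_t, length_dag] at this
    by_contra hc
    have : (1 : ℤ) ≤ z'.count T := by omega
    nlinarith
  have c5 : B2.count T = b' := by
    have := cnt_bd aB2.dgT (by
      rw [show -(p1 + b * el h + ny * el h) - B2.length = -p2 by omega]; exact d4.neg_right)
      (by rw [length_dag, sub_add_cancel]; exact d3.neg_right)
    rw [count_dag, mir_t, length_dag] at this
    have : (B2.count T : ℤ) * el h = b' * el h := by omega
    exact_mod_cast mul_right_cancel₀ hp.ne' this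
  have c6 : B2.count t + z'.count t ≤ b' + 1 := by
    have := cnt_le (aB2.app az' (by omega)) (c := b' + 1) (by simp; linarith)
    simpa using this
  refine ⟨_, ⟨z, B1, Y1, Y0, Y2, B2, z', rfl, by omega, by omega, ?_, ?_, ?_⟩, ?_, by simp; omega,
    by simp; omega⟩
  · obtain ⟨u, c, rfl⟩ : ∃ u c, B1 = u ++ [c] := by
      rcases List.eq_nil_or_concat B1 with rfl | ⟨u, c, rfl⟩
      · simp at lB1; omega
      · exact ⟨u, c, by simp⟩
    simp only [List.getLast?_concat, Option.some.injEq]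
    rw [← aB1.right.1, TT_eq_T]
    simp at lB1
    rwa [show p1 + u.length + 1 = p1 + b * el h by omega]
  · rw [aB2.head_eq (by omega), (TT_eq_t _ _).2 d3]
  · rw [c1, c2, c3, c4, c5, show Y0.length = l0 by omega]
    exact C _ c6
  · exact (((az.app aB1 (by omega)).app aY1 (by simp; omega)).app aY0 (by simp; omega)).app
      ((aY2.app aB2 (by omega)).app az' (by simp; omega)) (by simp; omega)

lemma exists_lcp {h1 h2 : ℕ} {i1 i2 : ℤ} (hx : TT h1 (i1 - 1) ≠ TT h2 (i2 - 1)) :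
    ∃ P, 0 ≤ P ∧ P < 2 * el h1 ∧ P < 2 * el h2 ∧ Agr h1 i1 h2 i2 P ∧
      TT h1 (i1 + P) ≠ TT h2 (i2 + P) := by
  have na : ∀ n, Agr h1 i1 h2 i2 n → n < 2 * el h1 ∧ n < 2 * el h2 := by
    intro n ag
    by_contra hc
    obtain ⟨rfl, hd⟩ := aligned_of_agree' (n := n) (by omega) ag
    exact hx (TT_per (by simpa using hd))
  have ex : ∃ n : ℕ, TT h1 (i1 + n) ≠ TT h2 (i2 + n) := by
    by_contra hc
    push Not at hc
    have := (na (2 * el h1) (fun r h0 _ => by lift r to ℕ using h0; exact hc r)).1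
    omega
  have ag : Agr h1 i1 h2 i2 (Nat.find ex) := by
    intro r h0 hr
    lift r to ℕ using h0
    by_contra hc
    exact Nat.find_min ex (by exact_mod_cast hr) hc
  exact ⟨_, by positivity, (na _ ag).1, (na _ ag).2, ag, Nat.find_spec ex⟩

end Pool.Agent.Lib.MP_dfa990_al
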