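import Mathlib
import Pool.Agent.Lib.MP_dfa990_al.Geo

/-! Completeness of certificates. -/

namespace Pool.Agent.Lib.MP_dfa990_al
open Pool.Agent.Lib.helper29 Lt

lemma AtW.pre {V : ℤ → Lt} {S : ℤ → Bool} {i : ℤ} {u v : List (Lt × Bool)} (hu : AtW V S i u)
    (hv : AtW V S i v) (hl : u.length ≤ v.length) : ∃ w, v = u ++ w := by
  induction u generalizing i v with
  | nil => exact ⟨v, rfl⟩
  | cons x u ih =>
    cases v with
    | nil => simp at hl
    | cons y v =>
      obtain ⟨w, rfl⟩ := ih hu.2 hv.2 (by simpa using hl)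
      exact ⟨w, by rw [show x = y from Prod.ext (hu.1.1.symm.trans hv.1.1) (hu.1.2.symm.trans hv.1.2)]; rfl⟩

def Red (V : ℤ → Lt) (S : ℤ → Bool) (N : ℤ) : Prop :=
  ∀ c, 0 < c → c < N → S (c - 1) ≠ S c → V c ≠ (V (c - 1)).mir

section
variable (m : ℕ) (V : ℤ → Lt) (S : ℤ → Bool) (N : ℤ)

def Acc (s : St) (π : ℤ) : Prop := ∀ w, AtW V S π w → π + w.length = N → Path1 (lab m) fin s w

def LF (h : ℕ) (o s e : ℤ) (σ : Bool) : Prop :=
  Val V S h o s e σ ∧ e ≤ N ∧ (m - 130) * el h < e - s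

def Start (x : ℤ) : Prop := ∃ h o e σ, LF m V S N h o x e σ

def RMax (h : ℕ) (o e : ℤ) (σ : Bool) : Prop := ¬ (e < N ∧ V e = TT h (o + e) ∧ S e = σ)

def HP (π : ℤ) (l : Option (Lt × Bool)) (c : ℕ) (fb : Option Lt) : Prop :=
  0 ≤ π ∧ π ≤ N ∧ (∀ x, l = some x → 0 < π ∧ x = (V (π - 1), S (π - 1))) ∧
    (∀ h o s e σ, LF m V S N h o s e σ → s < π → e ≤ π) ∧
    (π < N → S π = S (π - 1) → fb ≠ some (V π)) ∧
    (S π ≠ S (π - 1) → Start m V S N π → fb = none) ∧
    (0 < π → ∀ v, At V π v → (∀ r, π ≤ r → r < π + v.length → S r = S (π - 1) ∧ ¬ Start m V S N r) →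
      π + v.length ≤ N → NoB v → c + v.count t + 69 ≤ m)

def HL (βR : ℤ → ℕ) (π : ℤ) (σ : Bool) (n φ : ℕ) : Prop :=
  ∃ (h : ℕ) (o s e : ℤ) (load : ℕ), LF m V S N h o s e σ ∧ RMax V S N h o e σ ∧
    Geo (m + 6) h (o + π) (o + s) n φ load ∧ load ≤ βR s

end

variable {m : ℕ} {V : ℤ → Lt} {S : ℤ → Bool} {N : ℤ} {βL βR : ℤ → ℕ}

lemma acc_step {s s' : St} {π : ℤ} {x : List (Lt × Bool)} (hl : lab m s s' x) (a : AtW V S π x)
    (hN : π + x.length ≤ N) (A : Acc m V S N s' (π + x.length)) : Acc m V S N s π := by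
  intro w aw e
  obtain ⟨w', rfl⟩ := a.pre aw (by omega)
  exact Path1.step _ _ _ _ hl (A w' ((AtW_append ..).1 aw).2 (by simpa [add_assoc] using e))

lemma LF.len (hm : 400 ≤ m) {h : ℕ} {o s e : ℤ} {σ : Bool} (H : LF m V S N h o s e σ) :
    270 * el h < e - s := by
  have := el_pos h
  have := H.2.2
  have : (270 : ℤ) ≤ m - 130 := by omega
  nlinarith

lemma LF.rmax {h : ℕ} {o s e : ℤ} {σ : Bool} (H : LF m V S N h o s e σ) :
    ∃ e', e ≤ e' ∧ LF m V S N h o s e' σ ∧ RMax V S N h o e' σ := by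
  obtain ⟨n, hn⟩ : ∃ n : ℕ, N - e = n := ⟨(N - e).toNat, by have := H.2.1; omega⟩
  induction n generalizing e with
  | zero => exact ⟨e, le_rfl, H, fun h => by omega⟩
  | succ n ih =>
    by_cases hr : RMax V S N h o e σ
    · exact ⟨e, le_rfl, H, hr⟩
    · obtain ⟨h1, h2⟩ := not_not.1 hr
      obtain ⟨e', g1, g2⟩ := ih (e := e + 1) ⟨⟨H.1.1, H.1.2.1, fun r r1 r2 => by
        rcases (Int.lt_add_one_iff.1 r2).eq_or_lt with rfl | r2
        · exact h2
        · exact H.1.2.2 r r1 r2⟩, by omega, by have := H.2.2; omega⟩ (by omega)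
      exact ⟨e', by omega, g2⟩

lemma LF.lmax {h : ℕ} {o s e : ℤ} {σ : Bool} (H : LF m V S N h o s e σ) :
    ∃ s', s' ≤ s ∧ LF m V S N h o s' e σ ∧
      ¬ (0 < s' ∧ V (s' - 1) = TT h (o + s' - 1) ∧ S (s' - 1) = σ) := by
  obtain ⟨n, hn⟩ : ∃ n : ℕ, s = n := ⟨s.toNat, by have := H.1.2.1; omega⟩
  induction n generalizing s with
  | zero => exact ⟨s, le_rfl, H, fun h => by omega⟩
  | succ n ih =>
    by_cases hr : 0 < s ∧ V (s - 1) = TT h (o + s - 1) ∧ S (s - 1) = σ
    · obtain ⟨s', g1, g2⟩ := ih (s := s - 1) ⟨⟨H.1.1, by omega, fun r r1 r2 => by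
        rcases r1.eq_or_lt with rfl | r1
        · exact ⟨by rw [hr.2.1, add_sub_assoc], hr.2.2⟩
        · exact H.1.2.2 r (by omega) r2⟩, H.2.1, by have := H.2.2; omega⟩ (by omega)
      exact ⟨s', by omega, g2⟩
    · exact ⟨s, le_rfl, H, hr⟩

lemma At.unval {h : ℕ} {o p : ℤ} {v : List Lt} (a : At (TT h) (o + p) v)
    (hV : ∀ r, p ≤ r → r < p + v.length → V r = TT h (o + r)) : At V p v :=
  a.congr (fun r h0 hr => by rw [hV _ (by omega) (by omega), add_assoc])

lemma Val.atW {h : ℕ} {o s e p : ℤ} {σ : Bool} (H : Val V S h o s e σ) {v : List Lt}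
    (a : At (TT h) (o + p) v) (h1 : s ≤ p) (h2 : p + v.length ≤ e) : AtW V S p (sg σ v) :=
  (AtW_sg ..).2 ⟨a.unval (H.v h1 h2), fun _ r1 r2 => H.s (by omega) (by omega)⟩

lemma fresh_cnt (hm : 400 ≤ m) {π : ℤ} (h0 : 0 ≤ π) {σ : Bool} {v : List Lt} (a : At V π v)
    (hr : ∀ r, π ≤ r → r < π + v.length → S r = σ ∧ ¬ Start m V S N r) (hN : π + v.length ≤ N)
    (hv : NoB v) : v.count t + 129 ≤ m := by
  by_contra hc
  obtain ⟨n, hn, p, u, s, rfl, au, lu⟩ := noB_long (m - 130) hv (by omega)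
  have hp := el_pos n
  have e : ((m - 130 : ℕ) : ℤ) = m - 130 := by omega
  rw [e] at lu
  have : (0 : ℤ) < (m - 130 + 1) * el n := by apply mul_pos <;> omega
  simp only [List.length_append, Nat.cast_add] at hr hN
  refine (hr (π + p.length) (by omega) (by omega)).2 ⟨n, -(π + p.length), π + p.length + u.length, σ,
    ⟨hn, by omega, fun r r1 r2 => ⟨?_, (hr r (by omega) (by omega)).1⟩⟩, by omega, by linarith⟩
  have := a.left.right.agree au (r - (π + p.length)) (by omega) (by omega)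
  rw [add_sub_cancel, zero_add] at this
  rw [this]; congr 1; ring

lemma noB_nil : NoB [] := fun _ hu hb => hb.small.2.2 (List.infix_nil.1 hu)

lemma cnt_arm {h : ℕ} {i : ℤ} {v : List Lt} (a : At (TT h) i v) (hh : 1 ≤ h)
    (hl : (v.length : ℤ) ≤ 26 * el h + 1) : v.count t ≤ 27 := by
  have := el_ge h hh
  exact cnt_le a (by push_cast; omega)

/-- Steps from the free phase. -/
lemma comp_P (hm : 400 ≤ m) {π : ℤ} {l : Option (Lt × Bool)} {c : ℕ} {fb : Option Lt}
    (H : HP m V S N π l c fb)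
    (ihP : ∀ π', π < π' → ∀ l c fb, HP m V S N π' l c fb → Acc m V S N (.P l c fb) π')
    (ihL : ∀ π', π < π' → ∀ σ n φ, HL m V S N βR π' σ n φ → Acc m V S N (.L σ n φ) π') :
    Acc m V S N (.P l c fb) π := by
  obtain ⟨h0, hN, hl, ns, f1, f2, cn⟩ := H
  rcases hN.eq_or_lt with rfl | hN
  · intro w _ e
    obtain rfl : w = [] := List.length_eq_zero_iff.1 (by omega)
    exact Path1.stop _ _ rfl
  have hd : ∀ z, l = some (z, S π) → fb ≠ some (V π) := fun z hz =>
    f1 hN (Prod.ext_iff.1 (hl _ hz).2).2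
  by_cases hs : Start m V S N π
  · obtain ⟨h, o, e, σ, F⟩ := id hs
    obtain ⟨e, -, F, R⟩ := F.rmax
    have q := F.len hm
    have hp := el_pos h
    obtain rfl : σ = S π := (F.1.s le_rfl (by omega)).symm
    obtain ⟨n, ω, E, G⟩ := endG_complete (H := P0) (K := (· = [])) (h := h) (s := o + π) (de := [])
      (G := []) trivial (by simp; omega) ⟨rfl, rfl⟩ trivial rfl
    have G' := G.geo (k := m + 6) (q := 0) (φ := 0) (load := 0) le_rfl (by omega) (by simp)
      (by positivity) (by positivity)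
    obtain ⟨u1, u2, u3⟩ := G'.len
    refine acc_step (s' := .L (S π) n 0) (x := sg (S π) ω) ⟨⟨by omega, by omega⟩, _, _, ⟨fun z hz => ⟨?_, ?_⟩,
      fun z hz => f2 ?_ hs⟩, ω, ⟨E, (cnt_arm G.1 F.1.1 (by omega)).trans (by omega)⟩, rfl⟩
      (F.1.atW G.1 le_rfl (by omega)) (by have := F.2.1; simp; omega)
      (ihL _ (by simp; omega) _ _ _ ⟨h, o, π, e, 0, F, R, by simpa [add_assoc] using G', by omega⟩)
    · obtain ⟨p1, p2⟩ := hl _ hz
      obtain ⟨rfl, p3⟩ := Prod.ext_iff.1 p2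
      intro hf
      have := ns h o (π - 1) e (S π) ⟨⟨F.1.1, by omega, fun r r1 r2 => ?_⟩, F.2.1,
        by have := F.2.2; omega⟩ (by omega)
      · omega
      rcases r1.eq_or_lt with rfl | r1
      · refine ⟨mir_inj ?_, p3.symm⟩
        simp only at hf
        rw [← hf, ← TT_neg]; congr 1; simp; ring
      · exact F.1.2.2 r (by omega) r2
    · have := hd z hz
      rw [F.1.v le_rfl le_rfl π le_rfl (by omega)] at this
      simpa using this
    · have := (Prod.ext_iff.1 (hl _ hz).2).2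
      simp only at this
      rw [← this]; simp
  have ns' : ∀ π', (∀ r, π ≤ r → r < π' → ¬ Start m V S N r) →
      ∀ h o s e σ, LF m V S N h o s e σ → s < π' → π ≤ π' → e ≤ π' := by
    intro π' hr h o s e σ F h1 h2
    rcases lt_or_ge s π with h3 | h3
    · have := ns _ _ _ _ _ F h3; omega
    · exact absurd ⟨h, o, e, σ, F⟩ (hr s h3 h1)
  by_cases hb : ∃ v, Brk v ∧ At V π v ∧ π + v.length ≤ N ∧
      ∀ r, π ≤ r → r < π + v.length → S r = S π ∧ ¬ Start m V S N r
  · obtain ⟨v, hv, a, h1, h2⟩ := hb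
    have lv : 0 < v.length := List.length_pos_iff.2 hv.small.2.2
    obtain ⟨y', hy'⟩ : ∃ y', v.getLast? = some y' := by cases v <;> simp at lv ⊢; exact ⟨_, List.getLast?_eq_some_getLast (by simp)⟩
    refine acc_step (s' := .P (some (y', S π)) 4 none) (x := sg (S π) v)
      ⟨⟨by omega, rfl⟩, _, V π, y', ⟨rfl, hd⟩, v, ⟨⟨a.head_eq lv, hy'⟩, Or.inr ⟨le_rfl, hv⟩⟩, rfl⟩
      ((AtW_sg ..).2 ⟨a, fun r r1 r2 => (h2 r r1 r2).1⟩) (by simpa using h1) (ihP _ (by simp; omega) _ _ _ ?_)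
    rw [length_sg]
    refine ⟨by omega, h1, ?_, fun h o s e σ F h3 => ns' _ (fun r r1 r2 => (h2 r r1 r2).2) _ _ _ _ _ F h3
      (by omega), by simp, by simp, fun _ u au hr hu nb => ?_⟩
    · rintro _ ⟨rfl⟩
      exact ⟨by omega, by rw [a.last hy', (h2 (π + v.length - 1) (by omega) (by omega)).1]⟩
    · have := fresh_cnt hm (by omega) au hr hu nb
      omega
  have nob : ∀ u, At V (π + 1) u → (∀ r, π + 1 ≤ r → r < π + 1 + u.length → S r = S π ∧ ¬ Start m V S N r) →
      π + 1 + u.length ≤ N → NoB u → NoB (V π :: u) := by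
    intro u au hr hu nb v hv hB
    rcases List.infix_cons_iff.1 hv with ⟨w, hw⟩ | hv
    · have a : At V π (v ++ w) := by rw [hw]; exact ⟨rfl, au⟩
      have lw := congrArg List.length hw
      simp at lw
      refine hb ⟨v, hB, a.left, by omega, fun r r1 r2 => ?_⟩
      rcases r1.eq_or_lt with rfl | r1
      · exact ⟨rfl, hs⟩
      · exact hr r (by omega) (by omega)
    · exact nb v hv hB
  have key : ∀ c', (∀ z, l = some (z, S π) → c + [V π].count t ≤ c') → 1 ≤ c' →
      (∀ u, At V (π + 1) u → (∀ r, π + 1 ≤ r → r < π + 1 + u.length → S r = S π ∧ ¬ Start m V S N r) →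
        π + 1 + u.length ≤ N → NoB u → c' + u.count t + 69 ≤ m) → Acc m V S N (.P l c fb) π := by
    intro c' k1 k2 k3
    have := k3 [] trivial (fun r r1 r2 => by simp at r2; omega) (by simp; omega) noB_nil
    refine acc_step (s' := .P (some (V π, S π)) c' none) (x := sg (S π) [V π])
      ⟨⟨by omega, rfl⟩, _, V π, V π, ⟨rfl, hd⟩, _, ⟨⟨rfl, rfl⟩, Or.inl ⟨⟨k1, k2⟩, rfl⟩⟩, rfl⟩
      ⟨⟨rfl, rfl⟩, trivial⟩ (by simp; omega) (ihP _ (by simp) _ _ _ ?_)
    simp only [length_sg, List.length_singleton, Nat.cast_one]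
    refine ⟨by omega, by omega, ?_, fun h o s e σ F h3 => ns' _ (fun r r1 r2 => ?_) _ _ _ _ _ F h3
      (by omega), by simp, by simp, fun _ => by simpa using k3⟩
    · rintro _ ⟨rfl⟩
      exact ⟨by omega, by simp⟩
    · rwa [show r = π by omega]
  by_cases hsame : 0 < π ∧ S (π - 1) = S π
  · refine key (max 1 (c + [V π].count t)) (fun _ _ => by omega) (by omega) (fun u au hr hu nb => ?_)
    have := fresh_cnt hm (by omega) au hr hu nb
    have := cn hsame.1 (V π :: u) ⟨rfl, au⟩ (fun r r1 r2 => by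
      rw [hsame.2]
      rcases r1.eq_or_lt with rfl | r1
      · exact ⟨rfl, hs⟩
      · exact hr r (by omega) (by simp at r2; omega)) (by simp; omega) (nob u au hr hu nb)
    simp only [List.count_cons, List.count_nil] at this ⊢
    omega
  · refine key 1 (fun z hz => ?_) le_rfl (fun u au hr hu nb => ?_)
    · obtain ⟨p1, p2⟩ := hl _ hz
      exact absurd ⟨p1, (Prod.ext_iff.1 p2).2.symm⟩ hsame
    · have := fresh_cnt hm (by omega) au hr hu nb
      omega

/-- Steps from the beginning of a long window. -/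
lemma comp_L (hm : 400 ≤ m) (G : Good m (m - 130) V S βL βR N) (hR : Red V S N) {π : ℤ} {σ : Bool}
    {n φ : ℕ} (H : HL m V S N βR π σ n φ)
    (ihP : ∀ π', π < π' → ∀ l c fb, HP m V S N π' l c fb → Acc m V S N (.P l c fb) π')
    (ihL : ∀ π', π < π' → ∀ σ n φ, HL m V S N βR π' σ n φ → Acc m V S N (.L σ n φ) π') :
    Acc m V S N (.L σ n φ) π := by
  obtain ⟨h, o, s, e, ld, F, R, G1, hld⟩ := H
  have q := F.len hm
  have hp := el_pos h
  have hk : (0 : ℤ) < m + 6 := by positivity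
  have eN := F.2.1
  have s0 := F.1.2.1
  obtain ⟨u1, u2, -⟩ := G1.len
  have key : ∀ (π' : ℤ) (n' φ' ld' : ℕ), Geo (m + 6) h (-(o + π')) (-(o + e)) n' φ' ld' →
      ld' ≤ βL e → (π < π' → Acc m V S N (.M σ n' φ') π') → Acc m V S N (.L σ n φ) π := by
    intro π' n' φ' ld' G2 h1 A
    obtain ⟨u3, u4, u5⟩ := G2.len
    have := (G _ _ _ _ _ F.1 F.2.1 F.2.2).1
    have h1' : (ld' : ℤ) ≤ βL e := by exact_mod_cast h1
    have h2' : (ld : ℤ) ≤ βR s := by exact_mod_cast hld
    obtain ⟨v, hv, a, lv, l0⟩ := mg_complete hm F.1.1 G1 G2 (by have := F.2.2; linarith)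
      (by linarith)
    have := G2.2.2.2.2
    refine acc_step (s' := .M σ n' φ') (x := sg σ v) ⟨⟨rfl, by omega, by omega⟩, v, hv, rfl⟩
      (F.1.atW a (by omega) (by omega)) (by simp; omega) ?_
    rw [length_sg, show π + v.length = π' by omega]
    exact A (by omega)
  have Se : S (e - 1) = σ := F.1.s (by omega) (by omega)
  have Ve : V (e - 1) = TT h (o + (e - 1)) := F.1.v le_rfl le_rfl _ (by omega) (by omega)
  by_cases h1 : ∃ h2 o2 s2 e2 σ2, LF m V S N h2 o2 s2 e2 σ2 ∧ s2 < e ∧ e < e2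
  · obtain ⟨h2, o2, s2, e2, σ2, F2, b1, b2⟩ := h1
    obtain ⟨e3, b3, F2, R2⟩ := F2.rmax
    obtain ⟨s3, b4, F2, L2⟩ := F2.lmax
    obtain rfl : σ2 = σ := by rw [← Se, F2.1.s (by omega) (by omega)]
    have q2 := F2.len hm
    have hp2 := el_pos h2
    have hne : TT h (o + e) ≠ TT h2 (o2 + e) := fun hh => R ⟨by have := F2.2.1; omega,
      by rw [hh]; exact F2.1.v le_rfl le_rfl _ (by omega) (by omega), F2.1.s (by omega) (by omega)⟩
    have ov : ∀ x, s ≤ x → s3 ≤ x → e - x < 2 * el h ∧ e - x < 2 * el h2 := by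
      intro x x1 x2
      by_contra hc
      obtain ⟨rfl, hd⟩ := aligned_of_agree' (h := h) (h' := h2) (o := o + x) (o' := o2 + x)
        (n := e - x) (by omega) (fun r r1 r2 => by
          rw [add_assoc, add_assoc, ← F.1.v le_rfl le_rfl _ (by omega) (by omega),
            ← F2.1.v le_rfl le_rfl _ (by omega) (by omega)])
      exact hne (TT_per (by simpa using hd))
    have b5 : s < s3 := by
      by_contra hc
      have := ov s le_rfl (by omega); omega
    obtain ⟨b6, b7⟩ := ov s3 b5.le le_rfl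
    obtain ⟨n1, n2, x, J, q1, ω1, mid, ω2, c1, c2, rfl, A1, a1, a2, A2⟩ := junc_complete
      (h1 := h) (h2 := h2) (i1 := o + s3) (i2 := o2 + s3) (P := e - s3) (by omega)
      (fun r r1 r2 => by
        rw [add_assoc, add_assoc, ← F.1.v le_rfl le_rfl _ (by omega) (by omega),
          ← F2.1.v le_rfl le_rfl _ (by omega) (by omega)])
      (fun hh => L2 ⟨by omega, by
        rw [← hh, add_sub_assoc]; exact F.1.v le_rfl le_rfl _ (by omega) (by omega),
        F.1.s (by omega) (by omega)⟩)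
      (by rwa [show o + s3 + (e - s3) = o + e by ring, show o2 + s3 + (e - s3) = o2 + e by ring])
      b6.le b7.le
    have G2 := A1.geo (k := m + 6) (q := e - s3 - q1) (φ := 0) (load := 0) (by omega) (by omega)
      rfl (by positivity) hk
    have G3 := A2.geo (k := m + 6) (q := q1 + mid.length) (φ := 0) (load := 0) (by omega) (by omega)
      rfl (by positivity) hk
    obtain ⟨v1, v2, -⟩ := G2.len
    obtain ⟨v3, v4, v5⟩ := G3.len
    refine key (s3 + q1 - ω1.length) n1 0 0 (by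
      rwa [show -(o + s3 + q1) + ω1.length = -(o + (s3 + q1 - ω1.length)) by ring,
        show -(o + s3 + q1) - (e - s3 - q1) = -(o + e) by ring] at G2) (by omega) (fun hπ => ?_)
    have d1 : At (TT h) (o + (s3 + q1 - ω1.length)) (dag ω1 ++ mid) :=
      (A1.1.dgT.cast (by ring)).app a1 (by simp; ring)
    have d2 : At (TT h2) (o2 + (s3 + q1 + mid.length)) ω2 := A2.1.cast (by ring)
    have w1 := F.1.atW d1 (by omega) (by simp; omega)
    have w2 := F2.1.atW d2 (by omega) (by omega)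
    have := cnt_arm d1 F.1.1 (by simp; omega)
    have := cnt_arm d2 F2.1.1 (by omega)
    have := F2.2.1
    refine acc_step (s' := .L σ2 n2 0) (x := sg σ2 (dag ω1 ++ mid ++ ω2)) ⟨⟨by omega, by omega⟩,
      Or.inl ⟨rfl, _, ⟨J, by rw [List.count_append]; omega⟩, rfl⟩⟩ ?_ (by simp; omega)
      (ihL _ (by simp; omega) _ _ _ ⟨h2, o2, s3, e3, 0, F2, R2, ?_, by omega⟩)
    · rw [sg, List.map_append]
      refine (AtW_append ..).2 ⟨w1, ?_⟩
      rwa [show s3 + q1 - ω1.length + _ = s3 + q1 + mid.length by simp; ring]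
    · rw [add_sub_cancel_right] at G3
      rwa [show o2 + (s3 + q1 - ω1.length + (sg σ2 (dag ω1 ++ mid ++ ω2)).length) =
        o2 + s3 + (q1 + mid.length) + ω2.length by simp; ring]
  by_cases h2 : S e ≠ S (e - 1) ∧ Start m V S N e
  · obtain ⟨b1, h2, o2, e2, σ2, F2⟩ := h2
    obtain ⟨e3, -, F2, R2⟩ := F2.rmax
    have q2 := F2.len hm
    have hp2 := el_pos h2
    have e3N := F2.2.1
    have S2 : S e = σ2 := F2.1.s le_rfl (by omega)
    obtain rfl : σ2 = !σ := by rw [Se, S2] at b1; revert b1; cases σ <;> cases σ2 <;> simp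
    have hne : TT h (-(o + e)) ≠ TT h2 (o2 + e) := by
      have := hR e (by omega) (by omega) b1.symm
      rw [Ve, F2.1.v le_rfl le_rfl e le_rfl (by omega), ← TT_neg,
        show -1 - (o + (e - 1)) = -(o + e) by ring] at this
      exact this.symm
    obtain ⟨P, p0, p1, p2, ag, pne⟩ := exists_lcp (h1 := h) (h2 := h2) (i1 := o + e)
      (i2 := -(o2 + e)) (by
        rw [show o + e - 1 = -1 - (-(o + e)) by ring, show -(o2 + e) - 1 = -1 - (o2 + e) by ring,
          TT_neg, TT_neg]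
        exact fun hh => hne (mir_inj hh))
    have j := (G _ _ _ _ _ F2.1 F2.2.1 F2.2.2).2 h o s P (by simpa using F.1) F.2.2 ag
    lift P to ℕ using p0
    obtain ⟨l1, l2, k1, k2, k3⟩ : ∃ l1 l2 : ℕ, l1 ≤ βL e ∧ l2 ≤ βR e ∧ l1 + l2 = 2 * m * P := by
      have : 2 * m * P ≤ βL e + βR e := by exact_mod_cast j
      exact ⟨min (βL e) (2 * m * P), 2 * m * P - min (βL e) (2 * m * P), by omega, by omega, by omega⟩
    have k3' : (l1 : ℤ) + l2 = 2 * m * P := by exact_mod_cast k3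
    have m1 := Nat.mod_lt l1 (show 0 < m + 6 by omega)
    have m2 := Nat.mod_lt l2 (show 0 < m + 6 by omega)
    have m3 : ((m + 6 : ℕ) : ℤ) * (l1 / (m + 6) : ℕ) + (l1 % (m + 6) : ℕ) = l1 := by
      exact_mod_cast Nat.div_add_mod l1 (m + 6)
    have m4 : ((m + 6 : ℕ) : ℤ) * (l2 / (m + 6) : ℕ) + (l2 % (m + 6) : ℕ) = l2 := by
      exact_mod_cast Nat.div_add_mod l2 (m + 6)
    generalize l1 / (m + 6) = g1 at m3
    generalize l2 / (m + 6) = g2 at m4
    generalize l1 % (m + 6) = φ1 at m1 m3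
    generalize l2 % (m + 6) = φ2 at m2 m4
    obtain ⟨n1, n2, ω1, ω2, Rl, A1, A2⟩ := rel_complete (m := m) (k := m + 6) (φ := φ1 + φ2)
      (g1 := g1) (g2 := g2) (s1 := -(o + e)) (s2 := o2 + e) (P := P) (by omega) (by omega) F.1.1
      F2.1.1 hne (by omega) (by simpa using ag) (by simpa using pne) (by push_cast at *; linarith)
    have hm0 : (0 : ℤ) ≤ m := by positivity
    have G2 := A1.geo (k := m + 6) (q := 0) (φ := φ1) (load := l1) le_rfl (by omega)
      (by push_cast at m3; linarith) (by nlinarith) (by omega)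
    have G3 := A2.geo (k := m + 6) (q := 0) (φ := φ2) (load := l2) le_rfl (by omega)
      (by push_cast at m4; linarith) (by nlinarith) (by omega)
    obtain ⟨v1, v2, -⟩ := G2.len
    obtain ⟨v3, v4, v5⟩ := G3.len
    refine key (e - ω1.length) n1 φ1 l1 (by
      rwa [show -(o + e) + ω1.length = -(o + (e - ω1.length)) by ring, sub_zero] at G2) k1
      (fun hπ => ?_)
    have d1 : At (TT h) (o + (e - ω1.length)) (dag ω1) := A1.1.dgT.cast (by ring)
    have w1 := F.1.atW d1 (by omega) (by simp)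
    have w2 := F2.1.atW A2.1 le_rfl (by omega)
    have c1 := cnt_arm d1 F.1.1 (by simp; omega)
    have c2 := cnt_arm A1.1 F.1.1 (by omega)
    have c3 := cnt_arm A2.1 F2.1.1 (by omega)
    rw [count_dag, mir_t] at c1
    refine acc_step (s' := .L (!σ) n2 φ2) (x := sg σ (dag ω1) ++ sg (!σ) ω2) ⟨⟨by omega, by omega⟩,
      Or.inr ⟨rfl, ω1, ω2, ⟨⟨Rl, by omega, by omega⟩, by omega⟩, rfl⟩⟩
      ((AtW_append ..).2 ⟨w1, by simpa using w2⟩) (by simp; omega)
      (ihL _ (by simp; omega) _ _ _ ⟨h2, o2, e, e3, l2, F2, R2, ?_, k2⟩)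
    rw [sub_zero] at G3
    rwa [show o2 + (e - ω1.length + (sg σ (dag ω1) ++ sg (!σ) ω2).length) = o2 + e + ω2.length by
      simp; ring]
  obtain ⟨n1, ω, E, A⟩ := endG_complete (H := P0) (K := (· = [])) (h := h) (s := -(o + e)) (de := [])
    (G := []) trivial (by simp; omega) ⟨rfl, rfl⟩ trivial rfl
  have G2 := A.geo (k := m + 6) (q := 0) (φ := 0) (load := 0) le_rfl (by omega) (by simp)
    (by positivity) hk
  obtain ⟨v1, v2, -⟩ := G2.len
  refine key (e - ω.length) n1 0 0 (by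
    rwa [show -(o + e) + ω.length = -(o + (e - ω.length)) by ring, sub_zero] at G2) (by omega)
    (fun hπ => ?_)
  have d1 : At (TT h) (o + (e - ω.length)) (dag ω) := A.1.dgT.cast (by ring)
  have c1 := cnt_arm d1 F.1.1 (by simp; omega)
  simp only [List.length_nil, Nat.cast_zero, add_zero, neg_neg] at E
  refine acc_step (s' := .P (some ((TT h (-(o + e))).mir, σ)) 60 (some (TT h (o + e))))
    (x := sg σ (dag ω)) ⟨⟨by omega, le_rfl⟩, _, _, ⟨rfl, rfl⟩, _, ⟨by rw [dag_dag]; exact E, by omega⟩, rfl⟩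
    (F.1.atW d1 (by omega) (by simp)) (by simp; omega) (ihP _ (by simp; omega) _ _ _ ?_)
  simp only [length_sg, length_dag, sub_add_cancel]
  refine ⟨by omega, eN, ?_, fun h2 o2 s2 e2 σ2 F2 b => ?_, fun b1 b2 b3 => R ⟨b1, ?_, b2.trans Se⟩,
    fun b1 b2 => absurd ⟨b1, b2⟩ h2, fun _ u au hr hu nb => ?_⟩
  · rintro _ ⟨rfl⟩
    refine ⟨by omega, ?_⟩
    rw [Ve, Se, ← TT_neg]; congr 2; ring
  · by_contra hc
    exact h1 ⟨h2, o2, s2, e2, σ2, F2, b, by omega⟩
  · simpa using b3.symm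
  · have := fresh_cnt hm (by omega) au hr hu nb
    omega

theorem cert_complete (hm : 400 ≤ m) {w : List (Lt × Bool)} (a : AtW V S 0 w)
    (hF : Flow m (m - 130) V S w.length) (hR : Red V S w.length) : Cert m w := by
  obtain ⟨βL, βR, G⟩ := hF
  have key : ∀ (n : ℕ) (π : ℤ), w.length - π ≤ n →
      (∀ l c fb, HP m V S w.length π l c fb → Acc m V S w.length (.P l c fb) π) ∧
      (∀ σ n φ, HL m V S w.length βR π σ n φ → Acc m V S w.length (.L σ n φ) π) := by
    intro n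
    induction n using Nat.strong_induction_on with
    | _ n ih =>
    intro π hπ
    have ihP : ∀ π', π < π' → ∀ l c fb, HP m V S w.length π' l c fb →
        Acc m V S w.length (.P l c fb) π' := fun π' h l c fb H =>
      (ih (n - 1) (by have := H.2.1; omega) π' (by omega)).1 l c fb H
    have ihL : ∀ π', π < π' → ∀ σ n φ, HL m V S w.length βR π' σ n φ →
        Acc m V S w.length (.L σ n φ) π' := fun π' h σ n' φ H =>
      (ih (n - 1) (by
        obtain ⟨h, o, s, e, ld, F, -, G1, -⟩ := H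
        have := F.len hm
        have := G1.len.1
        have := F.2.1
        have := el_pos h
        omega) π' (by omega)).2 σ n' φ H
    exact ⟨fun l c fb H => comp_P hm H ihP ihL, fun σ n φ H => comp_L hm G hR H ihP ihL⟩
  refine (key w.length 0 (by omega)).1 none 0 none ⟨le_rfl, by omega, by simp,
    fun h o s e σ F hs => by have := F.1.2.1; omega, by simp, by simp, by simp⟩ w a (by simp)

end Pool.Agent.Lib.MP_dfa990_al
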