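import Mathlib

/-! Word length, quasigeodesic languages and Gromov hyperbolic groups. -/

namespace Pool.Agent.Lib.MP_dfa990_al

variable {G : Type} [Group G]

/-- `S` is a finite symmetric generating set of `G`. -/
def IsSymmGen (S : Finset G) : Prop :=
  (∀ s ∈ S, s⁻¹ ∈ S) ∧ Subgroup.closure (S : Set G) = ⊤

/-- The word length of `g` with respect to `S`: the least length of a word over `S` that
represents `g`. -/
noncomputable def wordLen (S : Finset G) (g : G) : ℕ :=
  sInf {n | ∃ w : List S, w.length = n ∧ (w.map Subtype.val).prod = g}

/-- The language of all `(lam, eps)`-quasigeodesic words over the alphabet `S`: every subword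
(block of consecutive letters) `u` satisfies `|u| ≤ lam * d(u) + eps`. -/
def QGLang (S : Finset G) (lam eps : ℝ) : Language S :=
  {w | ∀ u : List S, u <:+: w → (u.length : ℝ) ≤ lam * wordLen S (u.map Subtype.val).prod + eps}

/-- The Gromov product of `x` and `y` at the base point `w`, in the word metric of `S`. -/
noncomputable def gromovProd (S : Finset G) (x y w : G) : ℝ :=
  ((wordLen S (x⁻¹ * w) : ℝ) + wordLen S (y⁻¹ * w) - wordLen S (x⁻¹ * y)) / 2

/-- `G` is Gromov hyperbolic: for some finite symmetric generating set, the word metric satisfies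
the four-point condition of Gromov for some constant `δ`. -/
def IsHyperbolic (G : Type) [Group G] : Prop :=
  ∃ (T : Finset G) (δ : ℝ), IsSymmGen T ∧
    ∀ x y z w : G, min (gromovProd T x y w) (gromovProd T y z w) - δ ≤ gromovProd T x z w

end Pool.Agent.Lib.MP_dfa990_al
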