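import Mathlib
import Pool.Agent.Lib.MP_dfa990_al.Defs

/-! A hyperbolic group has no long uniformly bi-Lipschitz cycles. -/

namespace Pool.Agent.Lib.MP_dfa990_al

lemma chain_gp {X : Type} (g : X → X → ℝ) {δ : ℝ} (hδ : 0 ≤ δ)
    (H : ∀ x y z, min (g x y) (g y z) - δ ≤ g x z) (c : ℕ → X) (j : ℕ) :
    ∀ s n : ℕ, 1 ≤ n → n ≤ 2 ^ j →
      ∃ i, s ≤ i ∧ i < s + n ∧ g (c i) (c (i + 1)) - j * δ ≤ g (c s) (c (s + n)) := by
  induction j with
  | zero =>
    intro s n h1 h2
    obtain rfl : n = 1 := by omega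
    exact ⟨s, le_rfl, by omega, by simp⟩
  | succ j ih =>
    intro s n h1 h2
    rcases h1.eq_or_lt with rfl | h1
    · exact ⟨s, le_rfl, by omega, sub_le_self _ (by positivity)⟩
    rw [pow_succ] at h2
    obtain ⟨i, a1, a2, a3⟩ := ih s (n / 2) (by omega) (by omega)
    obtain ⟨i', b1, b2, b3⟩ := ih (s + n / 2) (n - n / 2) (by omega) (by omega)
    rw [show s + n / 2 + (n - n / 2) = s + n by omega] at b2 b3
    have := H (c s) (c (s + n / 2)) (c (s + n))
    rcases le_total (g (c s) (c (s + n / 2))) (g (c (s + n / 2)) (c (s + n))) with h | h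
    · rw [min_eq_left h] at this
      exact ⟨i, a1, by omega, by push_cast; linarith⟩
    · rw [min_eq_right h] at this
      exact ⟨i', by omega, b2, by push_cast; linarith⟩

lemma no_cycles {X : Type} (d : X → X → ℝ) (d0 : ∀ x, d x x = 0) (ds : ∀ x y, d x y = d y x)
    (dt : ∀ x y z, d x z ≤ d x y + d y z) {δ A b : ℝ} (hA : 0 ≤ A) (hb : 0 ≤ b)
    (H : ∀ x y z w, min ((d x w + d y w - d x y) / 2) ((d y w + d z w - d y z) / 2) - δ ≤
      (d x w + d z w - d x z) / 2)
    (mid : ∀ x y, ∃ p, d x p + d p y ≤ d x y ∧ d x y ≤ 2 * d x p + 1 ∧ d x y ≤ 2 * d p y + 1)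
    (cyc : ∀ M : ℝ, ∃ n j : ℕ, 1 ≤ n ∧ n ≤ 2 ^ j ∧ M * (j + 1) < n ∧ ∃ c : ℕ → X, c (2 * n) = c 0 ∧
      (∀ i, d (c i) (c (i + 1)) ≤ b) ∧ ∀ i r : ℕ, r ≤ 2 * n →
        min (r : ℝ) (2 * n - r) ≤ A * d (c i) (c (i + r))) : False := by
  obtain ⟨n, j, h1, h2, h3, c, c0, c1, c2⟩ := cyc (A * (2 + 4 * A * b) * (δ + b) + A)
  have hδ : 0 ≤ δ := by simpa [d0] using H (c 0) (c 0) (c 0) (c 0)
  obtain ⟨p, p1, p2, p3⟩ := mid (c 0) (c n)
  have lip : ∀ i r : ℕ, d (c i) (c (i + r)) ≤ b * r := by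
    intro i r
    induction r with
    | zero => simp [d0]
    | succ r ih =>
      have := dt (c i) (c (i + r)) (c (i + r + 1))
      have := c1 (i + r)
      rw [← add_assoc]; push_cast; linarith
  have near : ∀ s, d (c s) p + d (c (s + n)) p ≤ d (c s) (c (s + n)) →
      ∃ i, s ≤ i ∧ i < s + n ∧ d (c i) p ≤ j * δ + b := by
    intro s hs
    obtain ⟨i, a1, a2, a3⟩ := chain_gp (fun x y => (d x p + d y p - d x y) / 2) hδ
      (fun x y z => H x y z p) c j s n h1 h2
    have := dt (c i) (c (i + 1)) p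
    have := c1 i
    exact ⟨i, a1, a2, by linarith⟩
  obtain ⟨i, -, a2, a3⟩ := near 0 (by rw [zero_add, ds (c n) p]; exact p1)
  obtain ⟨i', b1, b2, b3⟩ := near n (by
    rw [← two_mul, c0, ds (c n) p, ds (c n) (c 0)]; linarith)
  obtain ⟨r, rfl⟩ : ∃ r, i' = i + r := ⟨i' - i, by omega⟩
  set R := j * δ + b with hR
  have hR0 : 0 ≤ R := by positivity
  have e1 : min (r : ℝ) (2 * n - r) ≤ A * (2 * R) := by
    refine (c2 i r (by omega)).trans (mul_le_mul_of_nonneg_left ?_ hA)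
    have := dt (c i) p (c (i + r))
    rw [ds p] at this; linarith
  have e2 : d (c 0) (c n) ≤ 2 * R + 4 * A * b * R + 1 := by
    rcases min_le_iff.1 e1 with e | e
    · obtain ⟨q, hq⟩ : ∃ q, n = i + q := ⟨n - i, by omega⟩
      have h5 := lip i q
      rw [← hq] at h5
      have h6 : (q : ℝ) ≤ r := by exact_mod_cast (show q ≤ r by omega)
      have := mul_le_mul_of_nonneg_left (h6.trans e) hb
      have := dt p (c i) (c n)
      rw [ds p (c i)] at this
      linarith
    · have h5 := lip 0 i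
      rw [zero_add] at h5
      have h6 : (i : ℝ) + r ≤ 2 * n := by exact_mod_cast (show i + r ≤ 2 * n by omega)
      have := mul_le_mul_of_nonneg_left ((show (i : ℝ) ≤ 2 * n - r by linarith).trans e) hb
      have := dt (c 0) (c i) p
      linarith
  have e3 := c2 0 n (by omega)
  rw [zero_add, show 2 * (n : ℝ) - n = n by ring, min_self] at e3
  have e4 := mul_le_mul_of_nonneg_left e2 hA
  have e5 : R ≤ (δ + b) * (j + 1) := by
    have : 0 ≤ b * j := by positivity
    rw [hR]; linarith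
  have e6 := mul_le_mul_of_nonneg_left e5 (show 0 ≤ A * (2 + 4 * A * b) by positivity)
  have : 0 ≤ A * j := by positivity
  linarith

variable {G : Type} [Group G] {T : Finset G}

lemma wl_le (w : List T) : wordLen T (w.map Subtype.val).prod ≤ w.length :=
  Nat.sInf_le ⟨w, rfl, rfl⟩

lemma IsSymmGen.geo (hT : IsSymmGen T) (g : G) :
    ∃ w : List T, w.length = wordLen T g ∧ (w.map Subtype.val).prod = g := by
  refine Nat.sInf_mem (s := {n | ∃ w : List T, w.length = n ∧ (w.map Subtype.val).prod = g}) ?_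
  have hg : g ∈ Subgroup.closure (T : Set G) := by rw [hT.2]; trivial
  suffices ∃ w : List T, (w.map Subtype.val).prod = g from
    this.elim fun w h => ⟨_, w, rfl, h⟩
  induction hg using Subgroup.closure_induction_left with
  | one => exact ⟨[], rfl⟩
  | mul_left x hx y _ ih =>
    exact ih.elim fun w h => ⟨⟨x, hx⟩ :: w, by rw [List.map_cons, List.prod_cons, h]⟩
  | inv_mul_cancel x hx y _ ih =>
    exact ih.elim fun w h => ⟨⟨x⁻¹, hT.1 x hx⟩ :: w, by rw [List.map_cons, List.prod_cons, h]⟩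

lemma wl_one : wordLen T 1 = 0 := by simpa using wl_le (T := T) []

lemma IsSymmGen.mul (hT : IsSymmGen T) (g g' : G) :
    wordLen T (g * g') ≤ wordLen T g + wordLen T g' := by
  obtain ⟨w, h1, rfl⟩ := hT.geo g
  obtain ⟨w', h2, rfl⟩ := hT.geo g'
  rw [← List.prod_append, ← List.map_append, ← h1, ← h2, ← List.length_append]
  exact wl_le _

lemma IsSymmGen.sub (hT : IsSymmGen T) {f : G → ℕ} (f1 : f 1 = 0)
    (fm : ∀ g g', f (g * g') ≤ f g + f g') : ∃ A : ℕ, ∀ g, f g ≤ A * wordLen T g := by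
  refine ⟨T.sup f, fun g => ?_⟩
  obtain ⟨w, h1, rfl⟩ := hT.geo g
  rw [← h1]
  clear h1
  induction w with
  | nil => simp [f1]
  | cons x w ih =>
    have := fm x (w.map Subtype.val).prod
    have := Finset.le_sup (f := f) x.2
    rw [List.map_cons, List.prod_cons, List.length_cons, mul_add]
    omega

lemma IsSymmGen.inv (hT : IsSymmGen T) (g : G) : wordLen T g⁻¹ = wordLen T g := by
  have key : ∀ g : G, wordLen T g⁻¹ ≤ wordLen T g := by
    intro g
    obtain ⟨w, h1, rfl⟩ := hT.geo g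
    rw [← h1]
    clear h1
    induction w with
    | nil => simp [wl_one]
    | cons x w ih =>
      have := hT.mul (w.map Subtype.val).prod⁻¹ (x : G)⁻¹
      have h2 := wl_le (T := T) [⟨(x : G)⁻¹, hT.1 _ x.2⟩]
      simp only [List.map_cons, List.map_nil, List.prod_cons, List.prod_nil, mul_one,
        List.length_cons, List.length_nil, mul_inv_rev] at h2 ⊢
      omega
  exact (key g).antisymm (by simpa using key g⁻¹)

theorem not_hyp {ι : Type} [Finite ι] (s : ι → G) (f : G → ℕ) (f1 : f 1 = 0)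
    (fm : ∀ g g', f (g * g') ≤ f g + f g') (B : ℕ)
    (cyc : ∀ M : ℝ, ∃ n j : ℕ, 1 ≤ n ∧ n ≤ 2 ^ j ∧ M * (j + 1) < n ∧ ∃ c : ℕ → G, c (2 * n) = c 0 ∧
      (∀ i, ∃ x, c (i + 1) = c i * s x) ∧ ∀ i r : ℕ, r ≤ 2 * n →
        min r (2 * n - r) ≤ B * f ((c i)⁻¹ * c (i + r))) : ¬ IsHyperbolic G := by
  rintro ⟨T, δ, hT, H⟩
  obtain ⟨A, hA⟩ := hT.sub f1 fm
  obtain ⟨b, hb⟩ := (Set.finite_range fun x => wordLen T (s x)).bddAbove
  refine no_cycles (fun x y => (wordLen T (x⁻¹ * y) : ℝ)) (by simp [wl_one])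
    (fun x y => by rw [← hT.inv]; simp) (fun x y z => ?_) (A := B * A) (b := b) (by positivity)
    (by positivity) H (fun x y => ?_) (fun M => ?_)
  · have := hT.mul (x⁻¹ * y) (y⁻¹ * z)
    rw [show x⁻¹ * y * (y⁻¹ * z) = x⁻¹ * z by group] at this
    exact_mod_cast this
  · obtain ⟨w, h1, h2⟩ := hT.geo (x⁻¹ * y)
    have a1 := wl_le (w.take (w.length / 2))
    have a2 := wl_le (w.drop (w.length / 2))
    rw [← List.take_append_drop (w.length / 2) w, List.map_append, List.prod_append] at h2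
    have a3 := hT.mul ((w.take (w.length / 2)).map Subtype.val).prod
      ((w.drop (w.length / 2)).map Subtype.val).prod
    rw [h2, ← h1] at a3
    rw [List.length_take] at a1
    rw [List.length_drop] at a2
    refine ⟨x * ((w.take (w.length / 2)).map Subtype.val).prod, ?_⟩
    rw [inv_mul_cancel_left, mul_inv_rev, mul_assoc, ← h1, ← h2, inv_mul_cancel_left]
    refine ⟨?_, ?_, ?_⟩ <;> norm_cast <;> omega
  · obtain ⟨n, j, h1, h2, h3, c, c0, c1, c2⟩ := cyc M
    refine ⟨n, j, h1, h2, h3, c, c0, fun i => ?_, fun i r hr => ?_⟩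
    · obtain ⟨x, hx⟩ := c1 i
      rw [hx, inv_mul_cancel_left]
      exact_mod_cast hb ⟨x, rfl⟩
    · have := (c2 i r hr).trans (Nat.mul_le_mul_left B (hA _))
      rw [← mul_assoc] at this
      have e : (2 * n - r : ℝ) = (2 * n - r : ℕ) := by rw [Nat.cast_sub hr]; push_cast; ring
      rw [e]
      exact_mod_cast this

end Pool.Agent.Lib.MP_dfa990_al
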