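import Mathlib
import Pool.Agent.Lib.MP_dfa990_al.Amal

/-! The group and its spelling theorem. -/

namespace Pool.Agent.Lib.MP_dfa990_al
open Pool.Agent.Lib.helper29 Lt Monoid
open FreeGroup hiding map_mul map_inv map_one map_pure

abbrev H2g (k : ℕ) := FreeGroup Lt × KK k

def φφ (k : ℕ) : Bool → FreeGroup ℕ →* H2g k
  | true => (MonoidHom.inl _ _).comp φ1
  | false => (MonoidHom.inr _ _).comp (φ2 k)

abbrev PP (k : ℕ) := PushoutI (G := fun _ : Bool => H2g k) (φφ k)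

def oP (k : ℕ) (x : Bool × H2g k) : PP k := PushoutI.of x.1 x.2
def oF (k : ℕ) : FreeGroup Lt →* PP k := (PushoutI.of true).comp (MonoidHom.inl _ _)
def oR (k : ℕ) : KK k →* PP k := (PushoutI.of false).comp (MonoidHom.inr _ _)

def tl : Bool → Lt
  | true => t
  | false => T
def isT (x : Lt) : Prop := x = t ∨ x = T
instance : DecidablePred isT := fun x => inferInstanceAs (Decidable (x = t ∨ x = T))

def Ψ (k : ℕ) : FreeGroup Lt →* PP k := FreeGroup.lift fun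
  | t => oR k (fT k (of true))
  | T => oR k (fT k (of false))
  | x => oF k (of x)

variable {k : ℕ}

lemma mk_one {α : Type} (x : α) (e : Bool) : mk [(x, e)] = if e then of x else (of x)⁻¹ := by
  cases e <;> rfl

lemma Ψ_noT {x : List (Lt × Bool)} (h : ∀ y ∈ x, ¬ isT y.1) : Ψ k (mk x) = oF k (mk x) := by
  induction x with
  | nil => simp [← one_eq_mk]
  | cons y x ih =>
    rw [mk_cons, map_mul, map_mul, ih (fun z hz => h z (by simp [hz]))]
    have := h y (by simp)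
    obtain ⟨y, e⟩ := y
    congr 1
    cases y <;> cases e <;> simp [isT] at this <;> simp [mk_one, Ψ]

lemma Ψ_t (b e : Bool) : Ψ k (mk [(tl b, e)]) = oR k (fT k (mk [(b, e)])) := by
  cases b <;> cases e <;> simp [mk_one, Ψ, tl]

lemma JJ_noT (n : ℕ) : ∀ y ∈ sg true (JJ n), ¬ isT y.1 := by
  intro y hy
  obtain ⟨x, hx, rfl⟩ := List.mem_map.1 hy
  obtain ⟨h1, h2⟩ := bal_count (bal_append (bal_AA n) (bal_DD n))
  rintro (rfl | rfl)
  · exact List.count_eq_zero.1 h1 hx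
  · exact List.count_eq_zero.1 h2 hx

lemma Ψ_φ1 (c : FreeGroup ℕ) : Ψ k (φ1 c) = oR k (φ2 k c) := by
  have : (Ψ k).comp φ1 = (oR k).comp (φ2 k) := by
    ext n
    simp only [MonoidHom.comp_apply]
    rw [show oR k (φ2 k (of n)) = PushoutI.of false (φφ k false (of n)) from rfl,
      PushoutI.of_apply_eq_base, ← PushoutI.of_apply_eq_base (φφ k) true, φ1, lift_apply_of,
      Ψ_noT (JJ_noT _)]
    simp [φφ, φ1, oF]
  exact DFunLike.congr_fun this c

inductive Rp : List (Lt × Bool) → List ((Bool ⊕ ℕ) × Bool) → Prop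
  | nil : Rp [] []
  | tc (b e w B) : Rp w B → Rp ((tl b, e) :: w) ((.inl b, e) :: B)
  | xc (x c w B) : IsReduced x → x ≠ [] → (∀ y ∈ x, ¬ isT y.1) → IsReduced c → c ≠ [] →
      mk x = φ1 (mk c) → (∀ y ∈ B.head?, y.1.isLeft = true) → Rp w B → Rp (x ++ w) (jw c ++ B)

lemma Rp.psi {w B} (h : Rp w B) : Ψ k (mk w) = oR k (ψ k (mk B)) := by
  induction h with
  | nil => simp [← one_eq_mk]
  | tc b e w B _ ih => rw [mk_cons, mk_cons (Sum.inl b, e), map_mul, map_mul, map_mul, ih, Ψ_t, ψ_t]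
  | xc x c w B _ _ _ _ _ e _ _ ih =>
    rw [← mul_mk, ← mul_mk, map_mul, map_mul, map_mul, ih, e, Ψ_φ1, φ2_mk]

lemma Rp.inv_t {w B b e} (h : Rp w ((.inl b, e) :: B)) : ∃ w', w = (tl b, e) :: w' ∧ Rp w' B := by
  generalize hB : (Sum.inl b, e) :: B = B' at h
  cases h with
  | nil => simp at hB
  | tc b' e' w B' h => simp at hB; obtain ⟨⟨rfl, rfl⟩, rfl⟩ := hB; exact ⟨w, rfl, h⟩
  | xc x c w B' _ _ _ _ hc => cases c <;> simp [jw] at hB hc

def Jw (n : ℕ) (ε : Bool) : List (Lt × Bool) :=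
  if ε then sg true (JJ (n + 1)) else invRev (sg true (JJ (n + 1)))

lemma Rp.inv_J {w B n ε b e} (h : Rp w ((.inr n, ε) :: (.inl b, e) :: B)) :
    ∃ w', w = Jw n ε ++ w' ∧ Rp w' ((.inl b, e) :: B) := by
  generalize hB : (Sum.inr n, ε) :: (Sum.inl b, e) :: B = B' at h
  cases h with
  | nil => simp at hB
  | tc b' e' w B' h => simp at hB
  | xc x c w B' hx _ _ _ hc e' _ h =>
    obtain _ | ⟨y, _ | ⟨z, c⟩⟩ := c
    · simp at hc
    · simp only [jw, List.map_cons, List.map_nil, List.cons_append, List.nil_append, List.cons.injEq,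
        Prod.mk.injEq, Sum.inr.injEq] at hB
      obtain ⟨⟨rfl, rfl⟩, rfl⟩ := hB
      refine ⟨w, ?_, h⟩
      congr 1
      refine red_eq hx ?_ ?_
      · unfold Jw; split_ifs
        · exact red_sg _ _
        · exact red_invRev (red_sg _ _)
      · rw [e', show y = (y.1, y.2) from rfl, mk_one, Jw]
        cases y.2 <;> simp [φ1, ← inv_mk]
    · simp [jw] at hB

lemma Rp.red {w B} (h : Rp w B) (hw : IsReduced w) : IsReduced B := by
  induction h with
  | nil => exact IsReduced.nil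
  | tc b e w B h ih =>
    have := ih (red_sub hw ⟨[_], [], by simp; rfl⟩)
    obtain _ | ⟨⟨b' | n, e'⟩, B⟩ := B
    · exact IsReduced.singleton
    · obtain ⟨w', rfl, -⟩ := h.inv_t
      rw [isReduced_cons_cons] at hw ⊢
      exact ⟨fun h => hw.1 (by simp at h; simp [h]), this⟩
    · rw [isReduced_cons_cons]; exact ⟨by simp, this⟩
  | xc x c w B _ _ _ hc _ _ hB _ ih =>
    refine List.isChain_append.2 ⟨red_jw hc, ih (red_sub hw ⟨x, [], by simp⟩), ?_⟩
    intro y hy z hz hyz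
    obtain ⟨u, -, rfl⟩ := List.mem_map.1 (List.mem_of_mem_getLast? hy)
    have := hB z hz
    rw [← hyz] at this
    simp at this

lemma Rp.drop {w B} (h : Rp w B) {B1 B2 b e} (hB : B = B1 ++ (.inl b, e) :: B2) :
    ∃ w1 w2, w = w1 ++ w2 ∧ Rp w2 ((.inl b, e) :: B2) := by
  induction h generalizing B1 with
  | nil => simp at hB
  | tc b' e' w B h ih =>
    cases B1 with
    | nil => exact ⟨[], _, rfl, by rw [← List.nil_append (_ :: B2), ← hB]; exact Rp.tc _ _ _ _ h⟩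
    | cons y B1 =>
      obtain ⟨w1, w2, rfl, h2⟩ := ih (List.cons.inj hB).2
      exact ⟨_ :: w1, w2, rfl, h2⟩
  | xc x c w B _ _ _ _ _ _ _ _ ih =>
    rcases List.append_eq_append_iff.1 hB with ⟨q, -, h2⟩ | ⟨q, h1, h2⟩
    · obtain ⟨w1, w2, rfl, h3⟩ := ih h2
      exact ⟨x ++ w1, w2, by simp, h3⟩
    · cases q with
      | nil =>
        obtain ⟨w1, w2, rfl, h3⟩ := ih (B1 := []) h2.symm
        exact ⟨x ++ w1, w2, by simp, h3⟩
      | cons y q =>
        have : y ∈ jw c := by rw [h1]; simp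
        rw [← (List.cons.inj h2).1] at this
        simp [jw] at this

def cv (x : Lt × Bool) : Lt × Bool := if x.2 then x else (x.1.mir, false)

def zz (n : ℕ) : ℕ → List Lt
  | 0 => [T, t]
  | j + 1 => [T, t] ++ JJ (n + 1) ++ zz n j

lemma Jw_eq (n : ℕ) (ε : Bool) : Jw n ε = (sg ε (JJ (n + 1))).map cv := by
  cases ε
  · have : dag (JJ (n + 1)) = JJ (n + 1) := by simp [JJ]
    conv_rhs => rw [← this]
    simp [Jw, sg, invRev, cv, dag, Function.comp_def]
  · simp [Jw, sg, cv]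

lemma Rp.pre {n ε j w r} (h : Rp w (Zb n ε j ++ r)) : (sg ε (zz n j)).map cv <+: w := by
  have two : ∀ {w r}, Rp w (tw (yy ε) ++ r) → ∃ w', w = (sg ε [T, t]).map cv ++ w' ∧ Rp w' r := by
    intro w r h
    cases ε <;> obtain ⟨_, rfl, h1⟩ := Rp.inv_t h <;> obtain ⟨w', rfl, h2⟩ := h1.inv_t <;>
      exact ⟨w', rfl, h2⟩
  induction j generalizing w with
  | zero => obtain ⟨w', rfl, -⟩ := two h; exact List.prefix_append _ _
  | succ j ih =>
    rw [Zb, List.append_assoc] at h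
    obtain ⟨w1, rfl, h1⟩ := two h
    obtain ⟨Z, b, e, hZ⟩ := Zb_head n ε j
    rw [hZ] at h1
    obtain ⟨w2, rfl, h2⟩ := h1.inv_J
    obtain ⟨q, rfl⟩ := ih (w := w2) (by rw [hZ]; exact h2)
    exact ⟨q, by simp [zz, sg, Jw_eq]⟩

lemma Rp.big {w B n ε j} (h : Rp w B) (hB : Zb n ε j <:+: B) : (sg ε (zz n j)).map cv <:+: w := by
  obtain ⟨B1, B2, rfl⟩ := hB
  obtain ⟨Z, b, e, hZ⟩ := Zb_head n ε j
  obtain ⟨w1, w2, rfl, h2⟩ := h.drop (B1 := B1) (B2 := Z ++ B2) (b := b) (e := e) (by simp [hZ])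
  obtain ⟨q, rfl⟩ := Rp.pre (n := n) (ε := ε) (j := j) (r := B2) (by rw [hZ]; exact h2)
  exact ⟨w1, q, by simp⟩

lemma Rp.nil_iff {w B} (h : Rp w B) : w = [] ↔ B = [] := by
  cases h with
  | nil => simp
  | tc => simp
  | xc x c w B _ hx _ _ hc => simp [hx, hc, jw]

lemma Rp.head {y w B} (h : Rp (y :: w) B) (hy : isT y.1) : ∃ z B', B = z :: B' ∧ z.1.isLeft = true := by
  generalize hw : y :: w = w' at h
  cases h with
  | nil => simp at hw
  | tc => exact ⟨_, _, rfl, rfl⟩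
  | xc x c w B _ hx h3 =>
    cases x with
    | nil => simp at hx
    | cons z x => exact absurd hy ((List.cons.inj hw).1 ▸ h3 z (by simp))

def GoodP (k : ℕ) (l : List (Bool × H2g k)) : Prop :=
  (∀ x ∈ l, x.2 ∉ (φφ k x.1).range) ∧ l.IsChain (fun x y => x.1 ≠ y.1)

lemma φφ_inj (hk : 2 ≤ k) : ∀ i, Function.Injective (φφ k i)
  | true => fun _ _ h => φ1_inj (Prod.ext_iff.1 h).1
  | false => fun _ _ h => φ2_inj hk (Prod.ext_iff.1 h).2

lemma GoodP.cons {l : List (Bool × H2g k)} (h : GoodP k l) {x : Bool × H2g k}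
    (h1 : x.2 ∉ (φφ k x.1).range) (h2 : ∀ y ∈ l.head?, x.1 ≠ y.1) : GoodP k (x :: l) :=
  ⟨List.forall_mem_cons.2 ⟨h1, h.1⟩, List.isChain_cons.2 ⟨h2, h.2⟩⟩

def Dec (k : ℕ) (w : List (Lt × Bool)) : Prop :=
  ∃ w0 w1 B l, w = w0 ++ w1 ∧ Rp w0 B ∧ GoodP k l ∧ (∀ y ∈ l.head?, false ≠ y.1) ∧
    Ψ k (mk w1) = (l.map (oP k)).prod ∧ (w1 = [] ↔ l = []) ∧ (∀ y ∈ w1.head?, ¬ isT y.1) ∧
    (l ≠ [] → B = [] ∨ ∃ y ∈ B, y.1.isLeft = true)

lemma block_ok (hk : 2 ≤ k) {w0 w1 B} (hw : IsReduced (w0 ++ w1))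
    (nb : ∀ n ε, ¬ (sg ε (zz n (k - 2))).map cv <:+: w0 ++ w1) (h : Rp w0 B)
    (hB : ∃ y ∈ B, y.1.isLeft = true) : ((1, ψ k (mk B)) : H2g k) ∉ (φφ k false).range := by
  rintro ⟨c, hc⟩
  obtain ⟨n, ε, hZ⟩ := KL1 hk (h.red (red_sub hw ⟨[], w1, rfl⟩)) hB ⟨c, (Prod.ext_iff.1 hc).2⟩
  exact nb n ε ((h.big hZ).trans ⟨[], w1, rfl⟩)

lemma dec (hk : 2 ≤ k) (w : List (Lt × Bool)) (hw : IsReduced w)
    (nb : ∀ n ε, ¬ (sg ε (zz n (k - 2))).map cv <:+: w) : Dec k w := by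
  induction hn : w.length using Nat.strong_induction_on generalizing w with
  | _ N ih =>
  cases w with
  | nil => exact ⟨[], [], [], [], rfl, Rp.nil, ⟨by simp, by simp⟩, by simp, by simp [← one_eq_mk],
      by simp, by simp, by simp⟩
  | cons y w =>
  by_cases hy : isT y.1
  · obtain ⟨w0, w1, B, l, rfl, h1, h2, h3, h4, h5, h6, -⟩ := ih _ (by simp at hn; omega) w
      (red_sub hw ⟨[y], [], by simp⟩) (fun n ε h => nb n ε (h.trans ⟨[y], [], by simp⟩)) rfl
    obtain ⟨b, hb⟩ : ∃ b, y = (tl b, y.2) := by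
      rcases hy with h | h
      · exact ⟨true, Prod.ext h rfl⟩
      · exact ⟨false, Prod.ext h rfl⟩
    exact ⟨y :: w0, w1, (.inl b, y.2) :: B, l, rfl, by
      have := Rp.tc b y.2 _ _ h1
      rwa [← hb] at this, h2, h3, h4, h5, h6,
      fun _ => Or.inr ⟨_, List.mem_cons_self, rfl⟩⟩
  obtain ⟨x, w', e, hx0, hx, hw'⟩ : ∃ x w', y :: w = x ++ w' ∧ x ≠ [] ∧ (∀ z ∈ x, ¬ isT z.1) ∧
      ∀ z ∈ w'.head?, isT z.1 :=
    ⟨(y :: w).takeWhile (fun z => ¬ isT z.1), (y :: w).dropWhile (fun z => ¬ isT z.1),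
      List.takeWhile_append_dropWhile.symm, by simp [hy],
      fun z hz => by simpa using List.mem_takeWhile_imp hz,
      fun z hz => by
        have := List.head?_dropWhile_not (fun z => ¬ isT z.1) (y :: w)
        rw [Option.mem_def.1 hz] at this
        simpa using this⟩
  rw [e] at hw nb hn ⊢
  have lx := List.length_pos_iff.2 hx0
  have hw2 : IsReduced w' := red_sub hw ⟨x, [], by simp⟩
  have nb2 : ∀ n ε, ¬ (sg ε (zz n (k - 2))).map cv <:+: w' :=
    fun n ε h => nb n ε (h.trans ⟨x, [], by simp⟩)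
  obtain ⟨w0, w1, B, l, rfl, h1, h2, h3, h4, h5, h6, -⟩ := ih _ (by simp at hn; omega) w' hw2 nb2 rfl
  have hB : (B = [] ∧ w0 = [] ∧ w1 = [] ∧ l = []) ∨ ∃ z B', B = z :: B' ∧ z.1.isLeft = true := by
    cases w0 with
    | nil =>
      have : w1 = [] := by
        cases w1 with
        | nil => rfl
        | cons z w1 => exact absurd (hw' z rfl) (h6 z rfl)
      exact Or.inl ⟨h1.nil_iff.1 rfl, rfl, this, h5.1 this⟩
    | cons z w0 => exact Or.inr (h1.head (hw' z rfl))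
  have rx : IsReduced x := red_sub hw ⟨[], _, rfl⟩
  by_cases hc : mk x ∈ φ1.range
  · obtain ⟨c, hc⟩ := hc
    refine ⟨x ++ w0, w1, jw c.toWord ++ B, l, by simp, Rp.xc _ _ _ _ rx hx0 hx isReduced_toWord ?_
      (by rw [mk_toWord, hc]) ?_ h1, h2, h3, h4, h5, h6, fun hl => Or.inr ?_⟩
    · intro h
      rw [toWord_eq_nil_iff.1 h, map_one] at hc
      exact hx0 (red_eq rx IsReduced.nil hc.symm)
    · rcases hB with ⟨rfl, -⟩ | ⟨z, B', rfl, hz⟩
      · simp
      · simpa using hz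
    · rcases hB with ⟨-, -, -, h⟩ | ⟨z, B', rfl, hz⟩
      · exact absurd h hl
      · exact ⟨z, by simp, hz⟩
  have hc' : ((mk x, 1) : H2g k) ∉ (φφ k true).range := fun ⟨c, h⟩ => hc ⟨c, (Prod.ext_iff.1 h).1⟩
  have hd : ∀ z ∈ (x ++ (w0 ++ w1)).head?, ¬ isT z.1 := by
    cases x with
    | nil => simp at hx0
    | cons z x => simpa using hx z (by simp)
  rcases hB with ⟨rfl, rfl, rfl, rfl⟩ | ⟨z, B', rfl, hz⟩
  · exact ⟨[], x ++ ([] ++ []), [], [(true, (mk x, 1))], rfl, Rp.nil, h2.cons hc' (by simp), by simp,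
      by simp [Ψ_noT hx, oP, oF], by simp [hx0], hd, by simp⟩
  · refine ⟨[], x ++ (w0 ++ w1), [], (true, (mk x, 1)) :: (false, (1, ψ k (mk (z :: B')))) :: l, rfl, Rp.nil,
      (h2.cons (x := (false, _)) (block_ok hk hw2 nb2 h1 ⟨z, by simp, hz⟩) h3).cons hc' (by simp),
      by simp, ?_, by simp [hx0], hd, by simp⟩
    rw [← mul_mk, ← mul_mk, map_mul, map_mul, Ψ_noT hx, h1.psi, h4]
    simp [oP, oF, oR]

theorem GL0std (hk : 2 ≤ k) {w : List (Lt × Bool)} (hw : IsReduced w) (h0 : w ≠ [])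
    (h1 : Ψ k (mk w) = 1) : ∃ n ε, (sg ε (zz n (k - 2))).map cv <:+: w := by
  by_contra nb
  push Not at nb
  obtain ⟨w0, w1, B, l, rfl, g1, g2, g3, g4, g5, -, g7⟩ := dec hk w hw nb
  rw [← mul_mk, map_mul, g1.psi, g4] at h1
  by_cases hl : l = []
  · obtain rfl := g5.2 hl
    subst hl
    have : ψ k (mk B) = 1 := by
      have h2 : PushoutI.of (φ := φφ k) false (1, ψ k (mk B)) = PushoutI.of false 1 := by
        rw [map_one]; simpa [oR] using h1
      exact (Prod.ext_iff.1 (PushoutI.of_injective (φφ_inj hk) false h2)).2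
    obtain ⟨n, ε, hZ⟩ := KL0 hk (g1.red (by simpa using hw))
      (fun h => h0 (by simp [g1.nil_iff.2 h])) this
    exact nb n ε (by simpa using g1.big hZ)
  rcases g7 hl with rfl | hB
  · have h2 : (l.map (oP k)).prod = 1 := by simpa [← one_eq_mk] using h1
    exact hl (push_nil _ (φφ_inj hk) l g2.1 g2.2 h2)
  · have g := g2.cons (x := (false, _)) (block_ok hk hw nb g1 hB) g3
    simpa using push_nil _ (φφ_inj hk) _ g.1 g.2 h1

/-! ### The group -/

def rels (k : ℕ) : Set (FreeGroup Lt) := {r | ∃ h, 1 ≤ h ∧ r = mk (sg true (chunk t h)) ^ k}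

abbrev GG (k : ℕ) := PresentedGroup (rels k)

def ev (k : ℕ) (w : List (Lt × Bool)) : GG k := PresentedGroup.mk (rels k) (mk (w.map cv))

@[simp] lemma ev_nil : ev k [] = 1 := by simp [ev, ← one_eq_mk]
@[simp] lemma ev_append (u v : List (Lt × Bool)) : ev k (u ++ v) = ev k u * ev k v := by
  simp [ev, ← mul_mk]

def inv1 (x : Lt × Bool) : Lt × Bool := (x.1.mir, !x.2)
def RedW (w : List (Lt × Bool)) : Prop := w.IsChain (fun x y => y ≠ inv1 x)

lemma cv_cv (x : Lt × Bool) : cv (cv x) = x := by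
  obtain ⟨x, _ | _⟩ := x <;> simp [cv]

lemma at_zz (n j : ℕ) : At (TT (n + 1)) (-1) (zz n j) ∧ ((zz n j).length : ℤ) = j * el (n + 1) + 2 := by
  have h0 := nd_zero (n + 1)
  have hT : TT (n + 1) (-1) = T := by rw [TT_eq_T]; simp
  have hJ : At (TT (n + 1)) (0 + 1) (JJ (n + 1)) := At.left h0.2.2
  have lJ : ((JJ (n + 1)).length : ℤ) = el (n + 1) - 2 := by simp [JJ, len_AA, len_DD, el]; ring
  induction j with
  | zero => exact ⟨⟨hT, h0.fst, trivial⟩, by simp [zz]⟩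
  | succ j ih =>
    refine ⟨At.app (At.app (u := [T, t]) ⟨hT, h0.fst, trivial⟩ hJ (by simp))
      (ih.1.per (j := -1 + el (n + 1)) (by simp)) (by simp [lJ]; ring), ?_⟩
    simp [zz, lJ, ih.2]; ring

theorem GL0 (hk : 2 ≤ k) {w : List (Lt × Bool)} (hw : RedW w) (h0 : w ≠ []) (h1 : ev k w = 1) :
    ∃ (h : ℕ) (σ : Bool) (z : List Lt), 1 ≤ h ∧ sg σ z <:+: w ∧ At (TT h) (-1) z ∧
      (z.length : ℤ) = (k - 2) * el h + 2 := by
  have hr : IsReduced (w.map cv) := by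
    rw [FreeGroup.IsReduced, List.isChain_map]
    refine hw.imp ?_
    rintro ⟨x, _ | _⟩ ⟨y, _ | _⟩ h e <;> simp [cv, inv1] at h e ⊢
    · exact h e.symm
    · exact h (by rw [e, mir_mir])
  have hΨ : Ψ k (mk (w.map cv)) = 1 := by
    have : Subgroup.normalClosure (rels k) ≤ (Ψ k).ker := Subgroup.normalClosure_le_normal (by
      rintro _ ⟨h, hh, rfl⟩
      obtain ⟨n, rfl⟩ : ∃ n, h = n + 1 := ⟨h - 1, by omega⟩
      have : Ψ k (mk (sg true (chunk t (n + 1)))) = oR k (cc k n 1) := by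
        rw [show sg true (chunk t (n + 1)) = [(tl true, true)] ++ sg true (JJ (n + 1)) ++ [(tl false, true)]
          by simp [sg, chunk, JJ, tl], ← mul_mk, ← mul_mk, map_mul, map_mul, Ψ_t, Ψ_t,
          show mk (sg true (JJ (n + 1))) = φ1 (of n) by simp [φ1], Ψ_φ1, ← map_mul, ← map_mul]
        simp [φ2, ψ, mk_one, mul_assoc]
      simp only [SetLike.mem_coe, MonoidHom.mem_ker]
      rw [map_pow, this, ← map_pow, cc_k, map_one])
    exact this (PresentedGroup.mk_eq_one_iff.1 h1)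
  obtain ⟨n, ε, h⟩ := GL0std hk hr (by simpa using h0) hΨ
  refine ⟨n + 1, ε, zz n (k - 2), by omega, ?_, (at_zz _ _).1, by rw [(at_zz _ _).2]; push_cast [hk]; rfl⟩
  simpa [Function.comp_def, cv_cv] using h.map cv

end Pool.Agent.Lib.MP_dfa990_al
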