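import Mathlib
import Pool.Agent.Lib.MP_dfa990_al.GL0
import Pool.Agent.Lib.MP_dfa990_al.Complete

/-! Admissible loads imply the quasigeodesic inequality. -/

namespace Pool.Agent.Lib.MP_dfa990_al
open Pool.Agent.Lib.helper29 Lt

variable {k : ℕ}

noncomputable def nrm (k : ℕ) (g : GG k) : ℕ := sInf {n | ∃ w, w.length = n ∧ ev k w = g}

lemma ev_surj (g : GG k) : ∃ w, ev k w = g := by
  obtain ⟨x, rfl⟩ := PresentedGroup.mk_surjective _ g
  exact ⟨x.toWord.map cv, by simp [ev, Function.comp_def, cv_cv, FreeGroup.mk_toWord]⟩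

lemma nrm_le (w : List (Lt × Bool)) : nrm k (ev k w) ≤ w.length := Nat.sInf_le ⟨w, rfl, rfl⟩

lemma exists_geo (g : GG k) : ∃ w, w.length = nrm k g ∧ ev k w = g := by
  obtain ⟨w, hw⟩ := ev_surj g
  exact Nat.sInf_mem (s := {n | ∃ w, w.length = n ∧ ev k w = g}) ⟨_, w, rfl, hw⟩

def invW (w : List (Lt × Bool)) : List (Lt × Bool) := w.reverse.map inv1

lemma ev_invW (w : List (Lt × Bool)) : ev k (invW w) = (ev k w)⁻¹ := by
  rw [ev, ev, ← map_inv, FreeGroup.inv_mk]
  congr 2
  simp only [invW, FreeGroup.invRev, List.map_reverse, List.map_map]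
  congr 2
  funext ⟨x, b⟩
  cases b <;> simp [cv, inv1]

lemma invW_sg (σ : Bool) (v : List Lt) : invW (sg σ v) = sg (!σ) (dag v) := by
  simp [invW, sg, dag, inv1, Function.comp_def]

lemma ev_dag (σ : Bool) (v : List Lt) : ev k (sg (!σ) (dag v)) = (ev k (sg σ v))⁻¹ := by
  rw [← invW_sg, ev_invW]

lemma nrm_inv_le (g : GG k) : nrm k g⁻¹ ≤ nrm k g := by
  obtain ⟨w, h1, rfl⟩ := exists_geo g
  rw [← ev_invW, ← h1]
  simpa [invW] using nrm_le (k := k) (invW w)

@[simp] lemma nrm_inv (g : GG k) : nrm k g⁻¹ = nrm k g :=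
  (nrm_inv_le g).antisymm (by simpa using nrm_inv_le g⁻¹)

lemma nrm_mul (g g' : GG k) : nrm k (g * g') ≤ nrm k g + nrm k g' := by
  obtain ⟨w, h1, rfl⟩ := exists_geo g
  obtain ⟨w', h2, rfl⟩ := exists_geo g'
  rw [← ev_append, ← h1, ← h2, ← List.length_append]
  exact nrm_le _

lemma nrm_one : nrm k 1 = 0 := by simpa using nrm_le (k := k) []

lemma sg_append (σ : Bool) (u v : List Lt) : sg σ (u ++ v) = sg σ u ++ sg σ v := List.map_append

lemma cyc {h : ℕ} (hh : 1 ≤ h) {i : ℤ} {w : List Lt} (a : At (TT h) i w)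
    (hl : (w.length : ℤ) = k * el h) (σ : Bool) : ev k (sg σ w) = 1 := by
  have base : ∀ j : ℕ, ∃ w, At (TT h) 0 w ∧ (w.length : ℤ) = j * el h ∧
      ev k (sg true w) = ev k (sg true (chunk t h)) ^ j := by
    intro j
    induction j with
    | zero => exact ⟨[], trivial, by simp, by simp [sg]⟩
    | succ j ih =>
      obtain ⟨w, h1, h2, h3⟩ := ih
      refine ⟨chunk t h ++ w, (nd_zero h).2.app (h1.per (j := el h) (by simp))
        (by rw [len_chunk]; simp [el]), ?_, by rw [sg_append, ev_append, h3, pow_succ']⟩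
      rw [List.length_append, Nat.cast_add, h2, len_chunk]; simp [el]; ring
  have step : ∀ i, ev k (sg true (seg (TT h) i w.length)) = 1 ↔
      ev k (sg true (seg (TT h) (i + 1) w.length)) = 1 := by
    intro i
    have e1 : seg (TT h) i w.length ++ [TT h i] = [TT h i] ++ seg (TT h) (i + 1) w.length := by
      refine At.eq (V := TT h) (i := i) ((At_seg _ _ _).app (j := i + w.length) ⟨?_, trivial⟩ (by simp))
        ⟨rfl, At_seg _ _ _⟩ (by simp)
      rw [hl, mul_comm, TT_add]
    have e2 := congrArg (fun v => ev k (sg true v)) e1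
    simp only [sg_append, ev_append] at e2
    constructor
    · intro h1; rw [h1, one_mul] at e2; exact (mul_eq_left.1 e2.symm)
    · intro h1; rw [h1, mul_one] at e2; exact (mul_eq_right.1 e2)
  have all : ∀ i, ev k (sg true (seg (TT h) i w.length)) = 1 := by
    intro i
    induction i using Int.induction_on with
    | zero =>
      obtain ⟨w', h1, h2, h3⟩ := base k
      rw [← h1.eq (At_seg _ _ _) (by simp; omega), h3, ev, ← map_pow]
      exact PresentedGroup.one_of_mem ⟨h, hh, by simp [sg, cv, Function.comp_def]⟩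
    | succ i ih => exact (step i).1 ih
    | pred i ih => exact (step _).2 (by simpa using ih)
  cases σ
  · have := all (-i - w.length)
    rw [← a.dgT.eq (At_seg _ _ _) (by simp)] at this
    have h2 := ev_dag (k := k) false w
    rw [Bool.not_false, this] at h2
    exact inv_eq_one.1 h2.symm
  · rw [a.eq_seg]; exact all i

lemma arc {h : ℕ} (hh : 1 ≤ h) {i : ℤ} {w : List Lt} (a : At (TT h) i w)
    (hl : (w.length : ℤ) ≤ k * el h) (σ : Bool) :
    ∃ q, At (TT h) (-i) q ∧ (w.length + q.length : ℤ) = k * el h ∧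
      ev k (sg σ w) = ev k (sg (!σ) q) := by
  obtain ⟨r, ar, lr⟩ := exists_seg (TT h) (show i + w.length ≤ i + k * el h by omega)
  refine ⟨dag r, ar.dgT.per ⟨k, by linarith⟩, by simp; omega, ?_⟩
  have := cyc (k := k) hh (a.app ar rfl) (by simp; omega) σ
  rw [sg_append, ev_append] at this
  rw [ev_dag, eq_inv_of_mul_eq_one_left this]

lemma nrm_arc {h : ℕ} (hh : 1 ≤ h) {i : ℤ} {w : List Lt} (a : At (TT h) i w)
    (hl : (w.length : ℤ) ≤ k * el h) (σ : Bool) :
    (w.length + nrm k (ev k (sg σ w)) : ℤ) ≤ k * el h := by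
  obtain ⟨q, -, h1, h2⟩ := arc hh a hl σ
  have := nrm_le (k := k) (sg (!σ) q)
  rw [← h2, length_sg] at this
  omega

def Geod (k : ℕ) (w : List (Lt × Bool)) : Prop := w.length ≤ nrm k (ev k w)

lemma Geod.sub {u w : List (Lt × Bool)} (h : Geod k w) (hu : u <:+: w) : Geod k u := by
  obtain ⟨s, r, rfl⟩ := hu
  unfold Geod at *
  have h1 := nrm_mul (ev k s * ev k u) (ev k r)
  have h2 := nrm_mul (ev k s) (ev k u)
  have h3 := nrm_le (k := k) s
  have h4 := nrm_le (k := k) r
  simp only [List.length_append, ev_append] at h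
  omega

lemma ev_cancel (x : Lt × Bool) : ev k [x] * ev k [inv1 x] = 1 := by
  rw [show [inv1 x] = invW [x] from rfl, ev_invW, mul_inv_cancel]

lemma Geod.red {w : List (Lt × Bool)} (h : Geod k w) : RedW w := by
  refine List.isChain_iff_forall_rel_of_append_cons_cons.2 ?_
  rintro x y s r rfl rfl
  have := h.sub (u := [x] ++ [inv1 x]) ⟨s, r, by simp⟩
  rw [Geod, ev_append, ev_cancel, nrm_one] at this
  simp at this

lemma ext_face {X : List (Lt × Bool)} {h : ℕ} {σ : Bool} (n : ℕ) :
    ∀ (X1 X2 : List (Lt × Bool)) (z : List Lt) (i : ℤ), X = X1 ++ sg σ z ++ X2 → At (TT h) i z →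
      (z.length + n : ℤ) = k * el h → ∃ (X1 X2 : List (Lt × Bool)) (z' : List Lt) (i : ℤ),
        X = X1 ++ sg σ z' ++ X2 ∧ At (TT h) i z' ∧ z.length ≤ z'.length ∧
        (z'.length : ℤ) ≤ k * el h ∧ ((z'.length : ℤ) = k * el h ∨
          (X1.getLast? ≠ some (TT h (i - 1), σ) ∧ X2.head? ≠ some (TT h (i + z'.length), σ))) := by
  induction n with
  | zero => intro X1 X2 z i e a l; exact ⟨X1, X2, z, i, e, a, le_rfl, by omega, Or.inl (by omega)⟩
  | succ n ih =>
    intro X1 X2 z i e a l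
    by_cases h1 : X1.getLast? = some (TT h (i - 1), σ)
    · obtain ⟨Y, rfl⟩ := List.getLast?_eq_some_iff.1 h1
      obtain ⟨Y1, Y2, z', i', g1, g2, g3, g4⟩ := ih Y X2 (TT h (i - 1) :: z) (i - 1)
        (by rw [e]; simp [sg]) ⟨rfl, a.cast (by ring)⟩ (by simp at l ⊢; omega)
      exact ⟨Y1, Y2, z', i', g1, g2, by simp at g3; omega, g4⟩
    by_cases h2 : X2.head? = some (TT h (i + z.length), σ)
    · obtain ⟨Y, rfl⟩ := List.head?_eq_some_iff.1 h2
      obtain ⟨Y1, Y2, z', i', g1, g2, g3, g4⟩ := ih X1 Y (z ++ [TT h (i + z.length)]) i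
        (by rw [e]; simp [sg]) (a.app (v := [_]) ⟨rfl, trivial⟩ rfl) (by simp at l ⊢; omega)
      exact ⟨Y1, Y2, z', i', g1, g2, by simp at g3; omega, g4⟩
    exact ⟨X1, X2, z, i, e, a, le_rfl, by omega, Or.inr ⟨h1, h2⟩⟩

lemma sg_split {σ : Bool} {z : List Lt} {A B : List (Lt × Bool)} (h : sg σ z <:+: A ++ B) :
    ∃ z1 z2, z = z1 ++ z2 ∧ sg σ z1 <:+: A ∧ sg σ z2 <:+: B := by
  rcases List.infix_append_iff.1 h with h | h | ⟨Z1, Z2, e, h1, h2⟩
  · exact ⟨z, [], by simp, h, List.nil_infix⟩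
  · exact ⟨[], z, by simp, List.nil_infix, h⟩
  · obtain ⟨z1, z2, rfl, rfl, rfl⟩ := List.map_eq_append_iff.1 e
    exact ⟨z1, z2, rfl, h1.isInfix, h2.isInfix⟩

lemma sg_inf {σ τ : Bool} {y q : List Lt} (h : sg σ y <:+: sg τ q) : y <:+: q := by
  simpa [sg, Function.comp_def] using h.map Prod.fst

/-- One face is peeled off. -/
lemma peel {m : ℕ} (hm : 69 ≤ m) {u g : List (Lt × Bool)} {q : List Lt} {τ : Bool} {h2 : ℕ} {j : ℤ}
    (fu : ∀ h σ i y, 1 ≤ h → sg σ y <:+: u → At (TT h) i y → (y.length : ℤ) ≤ m * el h)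
    (hg : Geod (m + 6) g) (aq : At (TT h2) j q) (lq : (q.length : ℤ) < 2 * el h2)
    (hr : RedW (u ++ sg τ q ++ g)) (h0 : u ++ sg τ q ++ g ≠ [])
    (h1 : ev (m + 6) (u ++ sg τ q ++ g) = 1) :
    ∃ (u' g' : List (Lt × Bool)) (z1 z2 q' : List Lt) (h : ℕ) (i : ℤ) (σ : Bool), 1 ≤ h ∧
      u = u' ++ sg σ z1 ∧ g = sg σ z2 ++ g' ∧ (q ≠ [] → σ = τ) ∧ At (TT h) i (z1 ++ q ++ z2) ∧
      (z1.length + q.length + z2.length + q'.length : ℤ) = (m + 6) * el h ∧
      (q.length : ℤ) < 2 * el h ∧ (q'.length : ℤ) < 2 * el h ∧ At (TT h) (-i) q' ∧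
      ev (m + 6) (u' ++ sg (!σ) q' ++ g') = 1 ∧ (q' = [] ∨ RedW (u' ++ sg (!σ) q' ++ g')) := by
  obtain ⟨h, σ, z0, hh, ⟨Y1, Y2, e0⟩, a0, l0⟩ := GL0 (by omega) hr h0 h1
  have hp := el_ge h hh
  push_cast at l0
  obtain ⟨X1, X2, z, i, e, a, l1, l2, mx⟩ := ext_face (k := m + 6) (2 * el h - 2).toNat Y1 Y2 z0 (-1)
    e0.symm a0 (by push_cast; rw [Int.toNat_of_nonneg (by omega)]; linarith)
  push_cast at l2 mx
  have l3 : (m + 4) * el h + 2 ≤ z.length := by linarith [show (z0.length : ℤ) ≤ z.length by omega]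
  have fq : ∀ i y, y <:+: q → At (TT h) i y → (y.length : ℤ) < 2 * el h := by
    rintro i y ⟨s, r, rfl⟩ ay
    by_contra hc
    obtain ⟨rfl, -⟩ := aligned_of_agree' (n := y.length) (Or.inl (by omega))
      (fun r r1 r2 => ay.agree aq.left.right r r1 r2)
    simp at lq; omega
  have fg : ∀ i y, sg σ y <:+: g → At (TT h) i y → (y.length : ℤ) ≤ (m + 6) * el h →
      2 * (y.length : ℤ) ≤ (m + 6) * el h := by
    intro i y hy ay ly
    have h3 := nrm_arc (k := m + 6) hh ay (by push_cast; exact ly) σ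
    have h4 := hg.sub hy
    rw [Geod, length_sg] at h4
    push_cast at h3
    omega
  have hm' : 69 * el h ≤ m * el h := by nlinarith
  have c1 : X1.length < u.length := by
    by_contra hc
    obtain ⟨Y, rfl⟩ : u <+: X1 := List.prefix_of_prefix_length_le
      (⟨sg τ q ++ g, by simp⟩ : u <+: u ++ sg τ q ++ g) ⟨sg σ z ++ X2, by rw [e]; simp⟩ (by omega)
    obtain ⟨y1, y2, rfl, g1, g2⟩ := sg_split (σ := σ) (z := z) (A := sg τ q) (B := g)
      ⟨Y, X2, by simpa using e.symm⟩
    have := fq _ _ (sg_inf g1) a.left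
    have := fg _ _ g2 a.right (by simp at l2; omega)
    simp at l3; linarith
  have c2 : X2.length < g.length := by
    by_contra hc
    obtain ⟨Y, rfl⟩ : g <:+ X2 := List.suffix_of_suffix_length_le ⟨_, rfl⟩ ⟨_, e.symm⟩ (by omega)
    obtain ⟨y1, y2, rfl, g1, g2⟩ := sg_split (σ := σ) (z := z) (A := u) (B := sg τ q)
      ⟨X1, Y, by rw [← List.append_assoc] at e; exact (List.append_cancel_right e).symm⟩
    have := fq _ _ (sg_inf g2) a.right
    have := fu _ _ _ _ hh g1 a.left
    simp at l3; linarith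
  obtain ⟨Z1, rfl⟩ : X1 <+: u := List.prefix_of_prefix_length_le
    (⟨sg σ z ++ X2, by rw [e]; simp⟩ : X1 <+: u ++ sg τ q ++ g) ⟨sg τ q ++ g, by simp⟩ c1.le
  obtain ⟨Z2, rfl⟩ : X2 <:+ g := List.suffix_of_suffix_length_le ⟨_, e.symm⟩ ⟨_, rfl⟩ c2.le
  have e2 : sg σ z = Z1 ++ sg τ q ++ Z2 := by
    simp only [List.append_assoc, List.append_cancel_left_eq] at e
    simp only [← List.append_assoc, List.append_cancel_right_eq] at e
    exact e.symm
  obtain ⟨z12, z2, rfl, e3, rfl⟩ := List.map_eq_append_iff.1 e2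
  obtain ⟨z1, q1, rfl, rfl, e4⟩ := List.map_eq_append_iff.1 e3
  obtain rfl : q1 = q := by simpa [sg, Function.comp_def] using congrArg (List.map Prod.fst) e4
  obtain ⟨q', b1, b2, b3⟩ := arc (k := m + 6) hh a (by push_cast; exact l2) σ
  push_cast at b2
  refine ⟨X1, X2, z1, z2, q', h, i, σ, hh, rfl, rfl, ?_, a, by simp at b2; linarith,
    fq _ _ List.infix_rfl a.left.right, by linarith, b1, ?_, ?_⟩
  · intro hq
    cases q1 with
    | nil => simp at hq
    | cons x q1 => simp [sg] at e4; exact e4.1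
  · rw [e, ev_append, ev_append, b3] at h1
    simpa [mul_assoc] using h1
  · by_cases hq : q' = []
    · exact Or.inl hq
    right
    have lq' := List.length_pos_iff.2 hq
    obtain ⟨m1, m2⟩ := mx.resolve_left (by omega)
    rw [e] at hr
    have r0 : RedW (sg (!σ) q') := by
      rw [RedW, sg, List.isChain_map]
      exact List.isChain_iff_forall_rel_of_append_cons_cons.2 (fun _ _ _ _ _ => by simp [inv1])
    refine List.isChain_append.2 ⟨List.isChain_append.2 ⟨hr.left_of_append.left_of_append, r0, ?_⟩,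
      hr.right_of_append, ?_⟩
    · intro x hx y hy hxy
      apply m1
      rw [hx]
      simp only [sg, List.head?_map, b1.head_eq lq', Option.map_some, Option.mem_def,
        Option.some.injEq] at hy
      rw [← hy, inv1, Prod.mk.injEq] at hxy
      refine congrArg some (Prod.ext (mir_inj ?_) (by simpa using hxy.2.symm))
      rw [← hxy.1, ← TT_neg]; congr 1; ring
    · intro x hx y hy hxy
      apply m2
      rw [hy, hxy]
      obtain ⟨p, c, rfl⟩ : ∃ p c, q' = p ++ [c] := ⟨_, _, (List.dropLast_append_getLast hq).symm⟩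
      simp only [sg, List.map_append, List.map_cons, List.map_nil, ← List.append_assoc,
        List.getLast?_concat, Option.mem_def, Option.some.injEq] at hx
      rw [← hx, inv1, ← b1.right.1, ← TT_neg]
      simp only [Bool.not_not, Option.some.injEq, Prod.mk.injEq, and_true]
      refine TT_per ⟨-(m + 6), ?_⟩
      simp at b2 ⊢; linarith

variable {m : ℕ} {V : ℤ → Lt} {S : ℤ → Bool} {N : ℤ} {βL βR : ℤ → ℕ}

lemma AtW.val {a i : ℤ} {σ : Bool} {y : List Lt} {h : ℕ} (hh : 1 ≤ h) (h0 : 0 ≤ a)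
    (w : AtW V S a (sg σ y)) (ay : At (TT h) i y) : Val V S h (i - a) a (a + y.length) σ := by
  obtain ⟨w1, w2⟩ := (AtW_sg ..).1 w
  refine ⟨hh, h0, fun r r1 r2 => ⟨?_, w2 r r1 r2⟩⟩
  have := w1.agree ay (r - a) (by omega) (by omega)
  rw [add_sub_cancel] at this
  rw [this]; congr 1; ring

lemma AtW.red (hR : Red V S N) {a : ℤ} {u : List (Lt × Bool)} (h0 : 0 ≤ a) (w : AtW V S a u)
    (hN : a + u.length ≤ N) : RedW u := by
  refine List.isChain_iff_forall_rel_of_append_cons_cons.2 ?_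
  rintro x y s r rfl rfl
  obtain ⟨⟨e1, e2⟩, ⟨e3, e4⟩, -⟩ := ((AtW_append ..).1 w).2
  simp at hN
  refine hR (a + s.length + 1) (by omega) (by omega) ?_ ?_
  · simp [e2, e4, inv1]
  · simp [e1, e3, inv1]

theorem flow_qg (hm : 69 ≤ m) (hF : Flow m (m - 8) V S N) (hR : Red V S N) {a : ℤ}
    {u : List (Lt × Bool)} (h0 : 0 ≤ a) (w : AtW V S a u) (hN : a + u.length ≤ N) :
    6 * u.length ≤ m * nrm (m + 6) (ev (m + 6) u) := by
  obtain ⟨βL, βR, G⟩ := hF
  have key : ∀ (n : ℕ) (u g : List (Lt × Bool)), AtW V S a u → a + u.length ≤ N → Geod (m + 6) g →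
      u.length + g.length ≤ n → (ev (m + 6) (u ++ g) = 1 → 6 * u.length ≤ m * g.length) ∧
      ∀ (q : List Lt) (σ : Bool) (h2 : ℕ) (o2 e2 : ℤ), q ≠ [] →
        Val V S h2 o2 (a + u.length) e2 σ → e2 ≤ N → (m - 8) * el h2 < e2 - (a + u.length) →
        At (TT h2) (-(o2 + (a + u.length))) q → (q.length : ℤ) < 2 * el h2 →
        RedW (u ++ sg (!σ) q ++ g) → ev (m + 6) (u ++ sg (!σ) q ++ g) = 1 →
        6 * u.length + m * q.length ≤ m * g.length + βR (a + u.length) := by
    intro n
    induction n using Nat.strong_induction_on with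
    | _ n ih =>
    intro u g w hN hg hn
    have fu : ∀ h σ i y, 1 ≤ h → sg σ y <:+: u → At (TT h) i y → (y.length : ℤ) ≤ m * el h := by
      rintro h σ i y hh ⟨s, r, rfl⟩ ay
      have F := AtW.val hh (by omega) ((AtW_append ..).1 ((AtW_append ..).1 w).1).2 ay
      have hp := el_pos h
      by_cases hl : (m - 8) * el h < a + s.length + y.length - (a + s.length)
      · have := (G _ _ _ _ _ F (by simp at hN; omega) hl).1
        refine le_of_mul_le_mul_left ?_ (show (0 : ℤ) < m + 6 by positivity)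
        have : (0 : ℤ) ≤ βR (a + s.length) := by positivity
        have : (0 : ℤ) ≤ βL (a + s.length + y.length) := by positivity
        linarith
      · linarith
    have main : ∀ (q : List Lt) (τ : Bool) (h2 : ℕ) (j : ℤ), At (TT h2) j q →
        (q.length : ℤ) < 2 * el h2 → RedW (u ++ sg τ q ++ g) → u ++ sg τ q ++ g ≠ [] →
        ev (m + 6) (u ++ sg τ q ++ g) = 1 → 6 * u.length + m * q.length ≤ m * g.length ∨
        ∃ h o s σ, Val V S h o s (a + u.length) σ ∧ (m - 8) * el h < a + u.length - s ∧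
          (q ≠ [] → σ = τ) ∧ At (TT h) (o + (a + u.length)) q ∧
          6 * u.length + βL (a + u.length) ≤ m * g.length + m * q.length := by
      intro q τ h2 j aq lq hr hne h1
      obtain ⟨u', g', z1, z2, q', h, i, σ, hh, rfl, rfl, b1, b2, b3, b4, b5, b6, b7, b8⟩ :=
        peel hm fu hg aq lq hr hne h1
      obtain ⟨w1, w2⟩ := (AtW_append ..).1 w
      have F := AtW.val hh (by omega) w2 b2.left.left
      have hp := el_pos h
      have hm' : 69 * el h ≤ m * el h := by nlinarith
      simp only [List.length_append, length_sg, Nat.cast_add] at hN hn ⊢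
      have hg' := hg.sub (u := g') ⟨sg σ z2, [], by simp⟩
      have C1 : 6 * u'.length ≤ m * g'.length + m * q'.length := by
        obtain ⟨g2, e1, e2⟩ := exists_geo (ev (m + 6) (sg (!σ) q' ++ g'))
        have e3 := nrm_le (k := m + 6) (sg (!σ) q' ++ g')
        rw [← e1, List.length_append, length_sg] at e3
        have lt : (q'.length : ℤ) < z1.length + z2.length := by linarith
        have := (ih (u'.length + g2.length) (by omega) u' g2 w1 (by omega) (by rw [Geod, e2, e1])
          le_rfl).1 (by rw [ev_append, e2, ← ev_append, ← List.append_assoc, b7])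
        nlinarith
      have hm0 : (0 : ℤ) ≤ m := by positivity
      have b3' : (m : ℤ) * (z1.length + q.length + z2.length + q'.length) = m * ((m + 6) * el h) := by
        rw [b3]
      by_cases hl : (m - 8) * el h < a + u'.length + z1.length - (a + u'.length)
      · right
        have C2 : 6 * u'.length + m * q'.length ≤ m * g'.length + βR (a + u'.length) := by
          rcases b8 with rfl | b8
          · simp at C1 ⊢; omega
          by_cases hq : q' = []
          · subst hq; simp at C1 ⊢; omega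
          have lt : (0 : ℤ) < z1.length := by nlinarith
          exact (ih (u'.length + g'.length) (by omega) u' g' w1 (by omega) hg' le_rfl).2 q' σ h _ _ hq F
            (by omega) hl (b6.cast (by ring)) b5 b8 b7
        have F1 := (G _ _ _ _ _ F (by omega) hl).1
        rw [← add_assoc]
        refine ⟨h, _, _, σ, F, hl, b1, b2.left.right.cast (by ring), ?_⟩
        zify at C2 ⊢
        linarith
      · left
        zify at C1 ⊢
        have := mul_le_mul_of_nonneg_left (not_lt.1 hl) (show (0 : ℤ) ≤ m + 6 by positivity)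
        have := mul_le_mul_of_nonneg_left b4.le hm0
        have := mul_le_mul_of_nonneg_left b5.le hm0
        linarith
    refine ⟨fun h1 => ?_, fun q σ h2 o2 e2 hq F2 b1 b2 b3 b4 hr h1 => ?_⟩
    · by_cases hu : u = []
      · simp [hu]
      by_cases hr : RedW (u ++ g)
      · rcases main [] true 0 0 trivial (by simp [el]) (by simpa [sg] using hr) (by simp [hu])
          (by simpa [sg] using h1) with h | ⟨-, -, -, -, -, -, -, -, h⟩ <;> simp at h <;> omega
      · rw [RedW, List.isChain_append] at hr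
        obtain ⟨x, hx, y, hy, rfl⟩ : ∃ x ∈ u.getLast?, ∃ y ∈ g.head?, y = inv1 x := by
          by_contra hc
          push Not at hc
          exact hr ⟨w.red hR h0 hN, hg.red, hc⟩
        obtain ⟨u', rfl⟩ := List.getLast?_eq_some_iff.1 hx
        obtain ⟨g', rfl⟩ := List.head?_eq_some_iff.1 hy
        simp only [List.length_append, List.length_cons, List.length_nil, Nat.cast_add] at hn hN ⊢
        have := (ih (u'.length + g'.length) (by omega) u' g' ((AtW_append ..).1 w).1 (by omega)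
          (hg.sub ⟨[_], [], by simp; rfl⟩) le_rfl).1 (by
            rw [← h1, show u' ++ [x] ++ inv1 x :: g' = u' ++ ([x] ++ [inv1 x]) ++ g' by simp]
            simp only [ev_append, ev_cancel, mul_one])
        nlinarith
    · rcases main q (!σ) h2 _ b3 b4 hr (by simp [sg, hq]) h1 with h | ⟨h, o, s, σ', F, c1, c2, c3, c4⟩
      · omega
      · obtain rfl := c2 hq
        have := (G _ _ _ _ _ F2 b1 b2).2 h o s q.length F c1 (fun r r1 r2 => c3.agree b3 r r1 r2)
        zify at c4 ⊢
        linarith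
  obtain ⟨g, e1, e2⟩ := exists_geo (ev (m + 6) u)⁻¹
  have := (key _ u g w hN (by rw [Geod, e2, e1]) le_rfl).1 (by rw [ev_append, e2, mul_inv_cancel])
  rwa [e1, nrm_inv] at this

end Pool.Agent.Lib.MP_dfa990_al
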