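import Mathlib
import Pool.Agent.Lib.MP_dfa990_al.Peel

/-! The quasigeodesic inequality yields admissible loads. -/

namespace Pool.Agent.Lib.MP_dfa990_al
open Pool.Agent.Lib.helper29 Lt

variable {k m : ℕ} {V : ℤ → Lt} {S : ℤ → Bool} {N θ : ℤ}

def QG (m : ℕ) (V : ℤ → Lt) (S : ℤ → Bool) (N : ℤ) : Prop :=
  ∀ a u, 0 ≤ a → AtW V S a u → a + u.length ≤ N → 6 * u.length ≤ m * nrm (m + 6) (ev (m + 6) u)

def vx (k : ℕ) (V : ℤ → Lt) (S : ℤ → Bool) (c : ℤ) : GG k :=
  ev k ((List.range c.toNat).map fun i : ℕ => (V i, S i))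

lemma vx_step {a : ℤ} {u : List (Lt × Bool)} (h0 : 0 ≤ a) (w : AtW V S a u) :
    vx k V S (a + u.length) = vx k V S a * ev k u := by
  induction u generalizing a with
  | nil => simp
  | cons x u ih =>
    obtain ⟨⟨e1, e2⟩, w⟩ := w
    have := ih (by omega) w
    rw [List.length_cons, Nat.cast_add, Nat.cast_one, add_comm (u.length : ℤ), ← add_assoc, this,
      show x :: u = [x] ++ u from rfl, ev_append, ← mul_assoc]
    congr 1
    rw [vx, vx, show (a + 1).toNat = a.toNat + 1 by omega, List.range_succ, List.map_append,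
      ev_append, List.map_singleton, Int.toNat_of_nonneg h0, e1, e2]

lemma exists_segW (V : ℤ → Lt) (S : ℤ → Bool) {a b : ℤ} (h : a ≤ b) :
    ∃ u, AtW V S a u ∧ a + u.length = b := by
  obtain ⟨n, rfl⟩ : ∃ n : ℕ, b = a + n := ⟨(b - a).toNat, by omega⟩
  clear h
  induction n generalizing a with
  | zero => exact ⟨[], trivial, rfl⟩
  | succ n ih =>
    obtain ⟨u, h1, h2⟩ := ih (a := a + 1)
    exact ⟨(V a, S a) :: u, ⟨⟨rfl, rfl⟩, h1⟩, by simp at h2 ⊢; omega⟩

noncomputable def dd (k : ℕ) (x y : GG k) : ℤ := nrm k (x⁻¹ * y)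

lemma dd_tri (x y z : GG k) : dd k x z ≤ dd k x y + dd k y z := by
  have := nrm_mul (x⁻¹ * y) (y⁻¹ * z)
  rw [show x⁻¹ * y * (y⁻¹ * z) = x⁻¹ * z by group] at this
  unfold dd; omega

lemma dd_self (x : GG k) : dd k x x = 0 := by simp [dd, nrm_one]

lemma QG.dist (H : QG m V S N) {a b : ℤ} (h0 : 0 ≤ a) (hab : a ≤ b) (hb : b ≤ N) :
    6 * (b - a) ≤ m * dd (m + 6) (vx (m + 6) V S a) (vx (m + 6) V S b) := by
  obtain ⟨u, h1, rfl⟩ := exists_segW V S hab
  have := H a u h0 h1 hb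
  rw [vx_step h0 h1, dd, inv_mul_cancel_left]
  zify at this
  linarith

lemma QG.red (H : QG m V S N) : Red V S N := by
  intro c h0 hN hs hv
  have := H (c - 1) ([(V (c - 1), S (c - 1))] ++ [inv1 (V (c - 1), S (c - 1))]) (by omega)
    ⟨⟨rfl, rfl⟩, ⟨by simpa [inv1] using hv, by
      simp only [sub_add_cancel, inv1]; revert hs; cases S (c - 1) <;> cases S c <;> simp⟩, trivial⟩
    (by simp; omega)
  rw [ev_append, ev_cancel, nrm_one] at this
  simp at this

lemma QG.face (H : QG m V S N) {h : ℕ} {o s e : ℤ} {σ : Bool} (F : Val V S h o s e σ)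
    (he : e ≤ N) : e - s ≤ m * el h := by
  by_contra hc
  have hp := el_pos h
  have hm : 0 ≤ m * el h := by positivity
  obtain ⟨v, a, l⟩ := exists_seg (TT h) (show o + s ≤ o + s + m * el h + 1 by omega)
  have h1 := H s _ F.2.1 (F.atW a le_rfl (by omega)) (by rw [length_sg]; omega)
  have h2 := nrm_arc (k := m + 6) F.1 a (by push_cast; linarith) σ
  rw [length_sg] at h1
  zify at h1
  push_cast at h2
  have := mul_le_mul_of_nonneg_left h2 (show (0 : ℤ) ≤ m by positivity)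
  have l2 : (v.length : ℤ) = m * el h + 1 := by omega
  rw [l2] at h1 this
  have : (0 : ℤ) ≤ m := by positivity
  linarith

lemma Val.alL (hθ : 2 ≤ θ) {h h' : ℕ} {o o' s s' e : ℤ} {σ σ' : Bool} (F : Val V S h o s e σ)
    (F' : Val V S h' o' s' e σ') (l : θ * el h < e - s) (l' : θ * el h' < e - s') :
    h = h' ∧ el h ∣ o - o' ∧ σ = σ' := by
  have := el_pos h
  have := el_pos h'
  have : 2 * el h ≤ θ * el h := by nlinarith
  have : 2 * el h' ≤ θ * el h' := by nlinarith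
  obtain ⟨rfl, d⟩ := aligned_of_agree' (h := h) (h' := h') (o := o + max s s') (o' := o' + max s s')
    (n := e - max s s') (by omega) (fun r r1 r2 => by
      rw [add_assoc, add_assoc, ← F.v (le_max_left s s') le_rfl _ (by omega) (by omega),
        ← F'.v (le_max_right s s') le_rfl _ (by omega) (by omega)])
  exact ⟨rfl, by simpa using d, by
    rw [← F.s (r := e - 1) (by omega) (by omega), ← F'.s (r := e - 1) (by omega) (by omega)]⟩

lemma Val.alR (hθ : 2 ≤ θ) {h h' : ℕ} {o o' s e e' : ℤ} {σ σ' : Bool} (F : Val V S h o s e σ)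
    (F' : Val V S h' o' s e' σ') (l : θ * el h < e - s) (l' : θ * el h' < e' - s) :
    h = h' ∧ el h ∣ o - o' ∧ σ = σ' := by
  have := el_pos h
  have := el_pos h'
  have : 2 * el h ≤ θ * el h := by nlinarith
  have : 2 * el h' ≤ θ * el h' := by nlinarith
  obtain ⟨rfl, d⟩ := aligned_of_agree' (h := h) (h' := h') (o := o + s) (o' := o' + s)
    (n := min e e' - s) (by omega) (fun r r1 r2 => by
      rw [add_assoc, add_assoc, ← F.v le_rfl (min_le_left e e') _ (by omega) (by omega),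
        ← F'.v le_rfl (min_le_right e e') _ (by omega) (by omega)])
  exact ⟨rfl, by simpa using d, by
    rw [← F.s (r := s) (by omega) (by omega), ← F'.s (r := s) (by omega) (by omega)]⟩

/-- A word along which the two long faces meeting at `c` can both be continued. -/
def Adm (V : ℤ → Lt) (S : ℤ → Bool) (N θ c : ℤ) (u : List Lt) (τ : Bool) : Prop :=
  u = [] ∨ ∃ h1 o1 s1 h2 o2 e2, Val V S h1 o1 s1 c τ ∧ θ * el h1 < c - s1 ∧
    Val V S h2 o2 c e2 (!τ) ∧ e2 ≤ N ∧ θ * el h2 < e2 - c ∧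
    At (TT h1) (o1 + c) u ∧ At (TT h2) (-(o2 + c)) u

lemma adm_short (hθ : 2 ≤ θ) (hR : Red V S N) {h1 h2 : ℕ} {o1 s1 o2 e2 c : ℤ} {τ : Bool}
    {u : List Lt} (F1 : Val V S h1 o1 s1 c τ) (l1 : θ * el h1 < c - s1)
    (F2 : Val V S h2 o2 c e2 (!τ)) (he : e2 ≤ N) (l2 : θ * el h2 < e2 - c)
    (a1 : At (TT h1) (o1 + c) u) (a2 : At (TT h2) (-(o2 + c)) u) :
    (u.length : ℤ) < 2 * el h1 ∧ (u.length : ℤ) < 2 * el h2 := by
  have := el_pos h1
  have := el_pos h2
  have : 2 * el h1 ≤ θ * el h1 := by nlinarith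
  have : 2 * el h2 ≤ θ * el h2 := by nlinarith
  have := F1.2.1
  by_contra hc
  obtain ⟨rfl, d⟩ := aligned_of_agree' (n := u.length) (by omega) (a1.agree a2)
  refine hR c (by omega) (by omega) ?_ ?_
  · rw [F1.s (by omega) (by omega), F2.s le_rfl (by omega)]; simp
  · rw [F1.v le_rfl le_rfl (c - 1) (by omega) (by omega), F2.v le_rfl le_rfl c le_rfl (by omega),
      ← TT_neg]
    refine TT_per ?_
    rwa [show o2 + c - (-1 - (o1 + (c - 1))) = o1 + c - -(o2 + c) by ring]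

lemma Adm.left (hθ : 2 ≤ θ) (hR : Red V S N) {h : ℕ} {o s e : ℤ} {σ τ : Bool} {u : List Lt}
    (A : Adm V S N θ e u τ) (F : Val V S h o s e σ) (l : θ * el h < e - s) :
    At (TT h) (o + e) u ∧ (u.length : ℤ) < 2 * el h ∧ sg τ u = sg σ u := by
  rcases A with rfl | ⟨h1, o1, s1, h2, o2, e2, F1, l1, F2, he, l2, a1, a2⟩
  · exact ⟨trivial, by simpa using el_pos h, rfl⟩
  · obtain ⟨rfl, d, rfl⟩ := F.alL hθ F1 l l1
    exact ⟨a1.per (by simpa using d), (adm_short hθ hR F1 l1 F2 he l2 a1 a2).1, rfl⟩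

lemma Adm.right (hθ : 2 ≤ θ) (hR : Red V S N) {h : ℕ} {o s e : ℤ} {σ τ : Bool} {u : List Lt}
    (A : Adm V S N θ s u τ) (F : Val V S h o s e σ) (l : θ * el h < e - s) :
    At (TT h) (-(o + s)) u ∧ (u.length : ℤ) < 2 * el h ∧ sg τ u = sg (!σ) u := by
  rcases A with rfl | ⟨h1, o1, s1, h2, o2, e2, F1, l1, F2, he, l2, a1, a2⟩
  · exact ⟨trivial, by simpa using el_pos h, rfl⟩
  · obtain ⟨rfl, d, rfl⟩ := F2.alR hθ F l2 l
    exact ⟨a2.per (by rwa [show -(o + s) - -(o2 + s) = o2 - o by ring]),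
      (adm_short hθ hR F1 l1 F2 he l2 a1 a2).2, by simp⟩

lemma Adm.bdd (hθ : 2 ≤ θ) (hR : Red V S N) {c : ℤ} {τ : Bool} {u : List Lt}
    (A : Adm V S N θ c u τ) : (u.length : ℤ) ≤ |c| := by
  rcases A with rfl | ⟨h1, o1, s1, h2, o2, e2, F1, l1, F2, he, l2, a1, a2⟩
  · simp
  · have := (adm_short hθ hR F1 l1 F2 he l2 a1 a2).1
    have := el_pos h1
    have : 2 * el h1 ≤ θ * el h1 := by nlinarith
    have := F1.2.1
    have := le_abs_self c
    omega

lemma exists_max (P : ℤ → Prop) (B : ℤ) (hB : ∀ x, P x → x ≤ B) :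
    ∃ n : ℕ, (n = 0 ∨ P n) ∧ ∀ x, P x → x ≤ n := by
  obtain ⟨x, h1, h2⟩ := Int.exists_greatest_of_bdd (P := fun x => x = 0 ∨ P x)
    ⟨max B 0, by rintro x (rfl | h); exacts [le_max_right _ _, (hB x h).trans (le_max_left _ _)]⟩
    ⟨0, Or.inl rfl⟩
  obtain ⟨n, rfl⟩ := Int.eq_ofNat_of_zero_le (h2 0 (Or.inl rfl))
  exact ⟨n, h1.imp (by omega) id, fun x h => h2 x (Or.inr h)⟩

theorem qg_flow (hθ : 2 ≤ θ) (H : QG m V S N) : Flow m θ V S N := by
  have hR := H.red
  have hm : (0 : ℤ) ≤ m := by positivity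
  set v := vx (m + 6) V S
  have eR : ∀ c, ∃ n : ℕ, (n = 0 ∨ ∃ u τ a, Adm V S N θ c u τ ∧ 0 ≤ a ∧ a ≤ c ∧ (n : ℤ) =
      6 * (c - a) + m * u.length - m * dd (m + 6) (v a) (v c * ev (m + 6) (sg τ u))) ∧
      ∀ x, (∃ u τ a, Adm V S N θ c u τ ∧ 0 ≤ a ∧ a ≤ c ∧ x =
      6 * (c - a) + m * u.length - m * dd (m + 6) (v a) (v c * ev (m + 6) (sg τ u))) → x ≤ n := by
    intro c
    refine exists_max (fun x => ∃ u τ a, Adm V S N θ c u τ ∧ 0 ≤ a ∧ a ≤ c ∧ x =
      6 * (c - a) + m * u.length - m * dd (m + 6) (v a) (v c * ev (m + 6) (sg τ u)))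
      (6 * c + m * |c|) ?_
    rintro x ⟨u, τ, a, A, h0, -, rfl⟩
    have := mul_le_mul_of_nonneg_left (A.bdd hθ hR) hm
    have : 0 ≤ m * dd (m + 6) (v a) (v c * ev (m + 6) (sg τ u)) := by unfold dd; positivity
    linarith
  choose βR R1 R2 using eR
  have eL : ∀ c, ∃ n : ℕ, (n = 0 ∨ ∃ u τ, Adm V S N θ c u τ ∧ (n : ℤ) = 2 * m * u.length - βR c) ∧
      ∀ x : ℤ, (∃ u τ, Adm V S N θ c u τ ∧ x = 2 * m * u.length - βR c) → x ≤ n := by
    intro c
    refine exists_max (fun x => ∃ u τ, Adm V S N θ c u τ ∧ x = 2 * m * u.length - βR c)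
      (2 * m * |c|) ?_
    rintro x ⟨u, τ, A, rfl⟩
    have := mul_le_mul_of_nonneg_left (A.bdd hθ hR) hm
    have : (0 : ℤ) ≤ βR c := by positivity
    linarith
  choose βL L1 L2 using eL
  refine ⟨βL, βR, fun h o s e σ F he hl => ⟨?_, fun h1 o1 s1 p F1 l1 ag => ?_⟩⟩
  · have hp := el_pos h
    have : 0 ≤ θ * el h := by positivity
    have := F.2.1
    obtain ⟨u, τ, a, A, a0, a1, b1⟩ : ∃ u τ a, Adm V S N θ s u τ ∧ 0 ≤ a ∧ a ≤ s ∧ (βR s : ℤ) =
        6 * (s - a) + m * u.length - m * dd (m + 6) (v a) (v s * ev (m + 6) (sg τ u)) := by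
      rcases R1 s with h | h
      · exact ⟨[], true, s, Or.inl rfl, F.2.1, le_rfl, by simp [h, sg, dd_self]⟩
      · exact h
    obtain ⟨u', τ', A', b2⟩ : ∃ u τ, Adm V S N θ e u τ ∧ βL e + 6 * (e - a) ≤
        m * u.length + m * dd (m + 6) (v a) (v e * ev (m + 6) (sg τ u)) := by
      rcases L1 e with h | ⟨u, τ, A, h⟩
      · exact ⟨[], true, Or.inl rfl, by simpa [h, sg] using H.dist a0 (by omega) he⟩
      · have := R2 e _ ⟨u, τ, a, A, a0, by omega, rfl⟩
        exact ⟨u, τ, A, by linarith⟩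
    obtain ⟨c1, c2, c3⟩ := A.right hθ hR F hl
    obtain ⟨d1, d2, d3⟩ := A'.left hθ hR F hl
    obtain ⟨z, az, lz⟩ := exists_seg (TT h) (show o + s ≤ o + e by omega)
    have hf := H.face F he
    have ar := nrm_arc (k := m + 6) F.1 ((c1.dgT.app az (by simp)).app d1 (by simp; omega))
      (by simp; linarith) σ
    have st : v e = v s * ev (m + 6) (sg σ z) := by
      have := vx_step (k := m + 6) F.2.1 (F.atW az le_rfl (by omega))
      rwa [length_sg, show s + z.length = e by omega] at this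
    have e3 := ev_dag (k := m + 6) (!σ) u
    rw [Bool.not_not] at e3
    rw [sg_append, sg_append, ev_append, ev_append, e3, ← c3, ← d3] at ar
    have tri := dd_tri (v a) (v s * ev (m + 6) (sg τ u)) (v e * ev (m + 6) (sg τ' u'))
    have e4 : dd (m + 6) (v s * ev (m + 6) (sg τ u)) (v e * ev (m + 6) (sg τ' u')) = nrm (m + 6)
        ((ev (m + 6) (sg τ u))⁻¹ * ev (m + 6) (sg σ z) * ev (m + 6) (sg τ' u')) := by
      rw [dd, st]; congr 2; group
    simp only [List.length_append, length_dag, Nat.cast_add, lz, ← e4] at ar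
    have := mul_le_mul_of_nonneg_left tri hm
    have := mul_le_mul_of_nonneg_left ar hm
    push_cast at this
    linarith
  · rcases le_or_gt p 0 with hp | hp
    · have : 2 * m * p ≤ 0 := by nlinarith
      have : (0 : ℤ) ≤ βL s + βR s := by positivity
      linarith
    obtain ⟨u, au, lu⟩ := exists_seg (TT h1) (show o1 + s ≤ o1 + s + p by omega)
    have := L2 s _ ⟨u, !σ, Or.inr ⟨h1, o1, s1, h, o, e, F1, l1, by simpa using F, he, hl, au,
      au.congr (fun r r1 r2 => (ag r r1 (by omega)).symm)⟩, rfl⟩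
    rw [show (u.length : ℤ) = p by omega] at this
    linarith

end Pool.Agent.Lib.MP_dfa990_al
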