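import Mathlib
import Pool.Agent.Lib.MP_dfa990_al.Flow

/-! Soundness of certificates: they yield admissible loads. -/

namespace Pool.Agent.Lib.MP_dfa990_al
open Pool.Agent.Lib.helper29 Lt

section
variable (m : ℕ) (V : ℤ → Lt) (S : ℤ → Bool) (βL βR : ℤ → ℕ)

def Inv : St → ℤ → Prop
  | .P l c fb, π => c + 69 ≤ m ∧ (π = 0 ∨ l = some (V (π - 1), S (π - 1))) ∧
      ∀ h o s σ, Val V S h o s π σ → s < π →
        nb h (o + π) - nb h (o + s) ≤ c ∨ fb = some (TT h (o + π))
  | .L σ n φ, π => 69 ≤ m ∧ S (π - 1) = σ ∧ ∀ h o s σ', Val V S h o s π σ' → s < π →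
      nb h (o + π) - nb h (o + s) ≤ 60 ∧ JOK m (m - 8) V S βL βR h o s σ' ∧
        Half (m + 6) h (o + π) (o + s) n φ (βR s)
  | .M σ n φ, π => 69 ≤ m ∧ S (π - 1) = σ ∧ ∀ h o s σ', Val V S h o s π σ' → s < π →
      nb h (o + π) - nb h (o + s) + 69 ≤ m ∨ (JOK m (m - 8) V S βL βR h o s σ' ∧
        ∀ (y : ℤ) (load : ℕ), Half (m + 6) h (-(o + π)) y n φ load →
          (m + 6) * (-y - (o + s)) + βR s + load ≤ (m + 6) * m * el h)

def Zr (π : ℤ) : Prop := ∀ x, π ≤ x → βL x = 0 ∧ βR x = 0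

end

variable {m : ℕ} {V : ℤ → Lt} {S : ℤ → Bool} {βL βR : ℤ → ℕ}

lemma Zr.mono {π π' : ℤ} (h : Zr βL βR π) (hh : π ≤ π') : Zr βL βR π' :=
  fun x hx => h x (by omega)

lemma Good.ext {θ π π' : ℤ} (G : Good m θ V S βL βR π)
    (H : ∀ (h : ℕ) (o s e : ℤ) (σ : Bool), Val V S h o s e σ → π < e → e ≤ π' → θ * el h < e - s →
      (m + 6) * (e - s) + βR s + βL e ≤ (m + 6) * m * el h ∧ JOK m θ V S βL βR h o s σ) :
    Good m θ V S βL βR π' := by
  intro h o s e σ H1 h2 h3
  rcases le_or_gt e π with hh | hh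
  · exact G h o s e σ H1 hh h3
  · exact H h o s e σ H1 hh h2 h3

lemma long_lt {h : ℕ} {s e : ℤ} (hm : 69 ≤ m) (hl : (m - 8 : ℤ) * el h < e - s) : s < e := by
  have := el_pos h
  have : (0 : ℤ) ≤ m - 8 := by omega
  nlinarith

/-- Windows crossing the current position in the free phase. -/
lemma invP_key {l : Option (Lt × Bool)} {c : ℕ} {fb : Option Lt} {π : ℤ}
    (I : Inv m V S βL βR (.P l c fb) π) {σ : Bool} (hσ : S π = σ)
    (hd : ∀ z, l = some (z, σ) → fb ≠ some (V π)) {h : ℕ} {o s e : ℤ} {σ' : Bool}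
    (H : Val V S h o s e σ') (h1 : s < π) (h2 : π < e) :
    nb h (o + π) - nb h (o + s) ≤ c ∧ l = some (V (π - 1), σ) := by
  have e1 : S (π - 1) = σ := by
    rw [H.s (by omega) (by omega), ← hσ, H.s (by omega) (by omega)]
  have e2 : l = some (V (π - 1), σ) := by
    rcases I.2.1 with h0 | h0
    · have := H.2.1; omega
    · rw [h0, e1]
  refine ⟨(I.2.2 h o s σ' (H.sub le_rfl h2.le) h1).resolve_right ?_, e2⟩
  rw [← H.v le_rfl le_rfl π h1.le h2]
  exact hd _ e2

lemma cnt_P {l : Option (Lt × Bool)} {c : ℕ} {fb : Option Lt} {π : ℤ}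
    (I : Inv m V S βL βR (.P l c fb) π) {σ : Bool} (hσ : S π = σ)
    (hd : ∀ z, l = some (z, σ) → fb ≠ some (V π)) {v : List Lt} (a : At V π v) {h : ℕ} {o s e : ℤ}
    {σ' : Bool} (H : Val V S h o s e σ') (hse : s ≤ e) (h2 : π < e) (h3 : e ≤ π + v.length) :
    nb h (o + e) - nb h (o + s) ≤ c + v.count t := by
  rcases lt_or_ge s π with h1 | h1
  · have := (invP_key I hσ hd H h1 h2).1
    have := nb_le a (H.v h1.le le_rfl) le_rfl h2.le h3
    omega
  · have := nb_le a (H.v le_rfl le_rfl) h1 hse h3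
    omega

lemma good_P {l : Option (Lt × Bool)} {c : ℕ} {fb : Option Lt} {π : ℤ}
    (I : Inv m V S βL βR (.P l c fb) π) {σ : Bool} (hσ : S π = σ)
    (hd : ∀ z, l = some (z, σ) → fb ≠ some (V π)) {v : List Lt} (a : At V π v)
    (hv : v.count t ≤ 60) (G : Good m (m - 8) V S βL βR π) :
    Good m (m - 8) V S βL βR (π + v.length) := by
  refine G.ext (fun h o s e σ' H h1 h2 hl => ?_)
  have hc := I.1
  have := cnt_P I hσ hd a H (long_lt (by omega) hl).le h1 h2
  have := long_cnt (o := o) hl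
  omega

lemma step_PP {l l' : Option (Lt × Bool)} {c c' : ℕ} {fb fb' : Option Lt} {π : ℤ}
    {x : List (Lt × Bool)} (hl : lab m (.P l c fb) (.P l' c' fb') x) (a : AtW V S π x)
    (I : Inv m V S βL βR (.P l c fb) π) (G : Good m (m - 8) V S βL βR π) :
    Inv m V S βL βR (.P l' c' fb') (π + x.length) ∧ Good m (m - 8) V S βL βR (π + x.length) := by
  obtain ⟨⟨hc, rfl⟩, σ, y, y', ⟨rfl, hd⟩, v, ⟨⟨hy, hy'⟩, hv⟩, rfl⟩ := hl
  rw [AtW_sg] at a
  obtain ⟨a, sv⟩ := a
  have lv : 0 < v.length := by cases v <;> simp at hy ⊢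
  have hσ := sv π le_rfl (by omega)
  rw [← a.head hy] at hd
  rw [length_sg]
  have c4 : v.count t ≤ 4 := by
    rcases hv with ⟨-, rfl⟩ | ⟨-, hv⟩
    · exact List.count_le_length.trans (by simp)
    · exact hv.small.1
  refine ⟨⟨hc, Or.inr (by rw [a.last hy', sv _ (by omega) (by omega)]), fun h o s σ' H hs => ?_⟩,
    good_P I hσ hd a (by omega) G⟩
  left
  rcases lt_or_ge s π with h1 | h1
  · rcases hv with ⟨⟨h2, -⟩, rfl⟩ | ⟨-, hv⟩
    · have := h2 _ (invP_key I hσ hd H h1 (by omega)).2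
      have := cnt_P I hσ hd a H hs.le (by omega) le_rfl
      omega
    · exact absurd (a.val (H.v h1.le le_rfl)) (hv.sound H.1)
  · have := nb_le a (H.v le_rfl le_rfl) h1 hs.le le_rfl
    rcases hv with ⟨⟨-, h2⟩, rfl⟩ | ⟨h2, -⟩
    · have : [y].count t ≤ 1 := List.count_le_length
      omega
    · omega

lemma Solo.facts {u f : Lt} {n : ℕ} {ω : List Lt} (H : Solo u f n ω) :
    ArmX 0 0 5 n ω ∧ ω.head? = some u ∧ (∀ z, f ≠ z.mir → Blk [z] ω 0) ∧
      ∀ h s, At (TT h) s ω → TT h (-s) = f := by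
  obtain ⟨_, _, _, _, _, ⟨rfl, rfl⟩, ⟨rfl, rfl⟩, rfl, A⟩ := H
  refine ⟨⟨_, _, _, _, _, _, _, _, A, headOK_nil, headOK_nil, rfl, rfl⟩, ?_, fun z hz => ?_,
    fun h s a => ?_⟩
  · obtain ⟨r, rfl⟩ := A.start; rfl
  · exact blk_of_inc (ctx := [z.mir]) A headOK_nil
      (fun V i a b => hz (b.1.symm.trans a.1)) (by simp)
  · simpa using (A.fwd headOK_nil headOK_nil a).2

lemma step_PL {l : Option (Lt × Bool)} {c : ℕ} {fb : Option Lt} {σ : Bool} {n φ : ℕ} {π : ℤ}
    {x : List (Lt × Bool)} (hl : lab m (.P l c fb) (.L σ n φ) x) (a : AtW V S π x)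
    (I : Inv m V S βL βR (.P l c fb) π) (G : Good m (m - 8) V S βL βR π) (Z : Zr βL βR π) :
    Inv m V S βL βR (.L σ n φ) (π + x.length) ∧ Good m (m - 8) V S βL βR (π + x.length) := by
  obtain ⟨-, u, f, ⟨hd, hd'⟩, v, ⟨hv, cv⟩, rfl⟩ := hl
  rw [AtW_sg] at a
  obtain ⟨a, sv⟩ := a
  obtain ⟨X, hy, B, -⟩ := hv.facts
  have lv : 0 < v.length := by cases v <;> simp at hy ⊢
  have hσ := sv π le_rfl (by omega)
  have hd1 : ∀ z, l = some (z, σ) → fb ≠ some (V π) := fun z hz => a.head hy ▸ (hd z hz).2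
  rw [length_sg]
  have hm := I.1
  refine ⟨⟨by omega, sv _ (by omega) (by omega), fun h o s σ' H hs => ?_⟩, good_P I hσ hd1 a cv G⟩
  have h1 : π ≤ s := by
    by_contra h1
    have e := (invP_key I hσ hd1 H (by omega) (by omega)).2
    have := B _ (hd _ e).1 V π ⟨by simp, trivial⟩ a h o s (H.v le_rfl le_rfl)
    omega
  obtain rfl : σ' = σ := by rw [← H.s le_rfl hs, sv s h1 hs]
  refine ⟨(nb_le a (H.v le_rfl le_rfl) h1 hs.le le_rfl).trans (by omega), ?_, ?_⟩
  · rcases h1.eq_or_lt with rfl | h1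
    · intro h1 o1 s1 p H1 hl _
      exfalso
      have q := long_lt (by omega) hl
      have q2 := long_cnt (o := o1) hl
      rcases I.2.1 with h0 | h0
      · have := H1.2.1; omega
      · rw [H1.s (by omega) (by omega)] at h0
        have := I.2.2 _ _ _ _ H1 q
        rw [hd' _ h0] at this
        simp at this; omega
    · exact JOK.inner (by omega) (sv _ (by omega) (by omega))
  · rw [(Z s h1).2]
    exact arm_half X a (by positivity) (H.v le_rfl le_rfl) hs.le
      (by simp [max_eq_left h1]) (fun _ => rfl)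

lemma step_LM {σ σ' : Bool} {n φ n' φ' : ℕ} {π : ℤ}
    {x : List (Lt × Bool)} (hl : lab m (.L σ n φ) (.M σ' n' φ') x) (a : AtW V S π x)
    (I : Inv m V S βL βR (.L σ n φ) π) (G : Good m (m - 8) V S βL βR π) (Z : Zr βL βR π) :
    Inv m V S βL βR (.M σ' n' φ') (π + x.length) ∧ Good m (m - 8) V S βL βR (π + x.length) := by
  obtain ⟨⟨rfl, -⟩, v, ⟨z, B1, Y1, Y0, Y2, B2, z', rfl, l1, l2, t1, t2, C⟩, rfl⟩ := hl
  rw [AtW_sg] at a
  obtain ⟨a, sv⟩ := a
  obtain ⟨hm, hS, I⟩ := I
  rw [length_sg]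
  have hk : (0 : ℤ) ≤ m + 6 := by positivity
  have lB2 : 0 < B2.length := by cases B2 <;> simp at t2 ⊢
  have lB1 : 0 < B1.length := by cases B1 <;> simp at t1 ⊢
  set b1 : ℤ := π + z.length + B1.length with hb1
  set b2 : ℤ := b1 + Y1.length + Y0.length + Y2.length with hb2
  set π' : ℤ := π + ((z ++ B1 ++ Y1 ++ Y0 ++ (Y2 ++ B2 ++ z')).length : ℕ) with hπ
  have hπ' : π' = b2 + B2.length + z'.length := by simp [hπ, hb2, hb1]; ring
  have e0 : z ++ B1 ++ Y1 ++ Y0 ++ (Y2 ++ B2 ++ z') = (z ++ B1) ++ ((Y1 ++ Y0 ++ Y2) ++ (B2 ++ z')) := by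
    simp
  rw [e0] at a
  have a1 := a.left
  have a2 : At V b1 (Y1 ++ Y0 ++ Y2) := a.right.left.cast (by simp [hb1]; ring)
  have a3 : At V b2 (B2 ++ z') := a.right.right.cast (by simp [hb1, hb2]; ring)
  have a12 : At V π (z ++ B1 ++ (Y1 ++ Y0 ++ Y2)) := a1.app a2 (by simp [hb1]; ring)
  have a23 : At V b1 (Y1 ++ Y0 ++ Y2 ++ (B2 ++ z')) := a2.app a3 (by simp [hb2]; ring)
  have key : ∀ h o s e σ'', Val V S h o s e σ'' → s < b1 → b2 < e → JOK m (m - 8) V S βL βR h o s σ'' ∧
      ∀ (y : ℤ) (load : ℕ), Bd (m + 6) h (-(o + b2)) y (n' + z'.count T + B2.count T) (B2.count T)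
        Y2.length φ' load → (m + 6) * (-y - (o + s)) + βR s + load ≤ (m + 6) * m * el h := by
    intro h o s e σ'' H h1 h2
    have d1 : el h ∣ o + b1 := by
      have := a1.right.last t1
      rw [H.v le_rfl le_rfl _ (by omega) (by omega), TT_eq_T] at this
      rwa [show o + (π + z.length + B1.length - 1) + 1 = o + b1 by omega] at this
    have d2 : el h ∣ o + b2 := by
      have := a3.left.head t2
      rwa [H.v le_rfl le_rfl _ (by omega) (by omega), TT_eq_t] at this
    have lY : ((Y1 ++ Y0 ++ Y2).length : ℤ) = Y1.length + Y0.length + Y2.length := by simp; ring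
    have cY := cnt_bd (a2.val (H.v h1.le (by omega))) d1 (by
      rwa [show o + b1 + (Y1 ++ Y0 ++ Y2).length = o + b2 by omega])
    rw [List.count_append, List.count_append] at cY
    have : JOK m (m - 8) V S βL βR h o s σ'' ∧
        Bd (m + 6) h (o + b1) (o + s) (n + z.count t + B1.count t) (B1.count t) Y1.length φ (βR s) := by
      rcases lt_or_ge s π with h3 | h3
      · obtain ⟨-, j, hf⟩ := I h o s σ'' (H.sub le_rfl (by omega)) h3
        have := half_bd hk hf (a1.val (H.v h3.le (by simp; omega))) t1 l1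
        exact ⟨j, by rwa [show o + π + z.length + B1.length = o + b1 by omega] at this⟩
      · obtain rfl : σ'' = σ' := by rw [← H.s le_rfl (by omega), sv s h3 (by omega)]
        refine ⟨JOK.inner (by omega) ?_, Or.inr ⟨(Z s h3).2, ?_⟩⟩
        · rcases h3.eq_or_lt with rfl | h3
          · exact hS
          · exact sv _ (by omega) (by omega)
        · have := nb_le a1 (H.v (s' := s) (e' := b1) le_rfl (by omega)) h3 h1.le (by simp; omega)
          have := nb_len h (o + b1) (o + s)
          have := el_pos h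
          rw [List.count_append] at *
          push_cast at *
          nlinarith
    exact ⟨this.1, fun y load hB => mg_arith (x2 := o + b2) C this.2 hB (by omega) (by omega)⟩
  obtain ⟨-, -, -, -, -, -, -, c1, c2⟩ := C
  have small : ∀ h o s e σ'', Val V S h o s e σ'' → b1 ≤ s → s ≤ e → e ≤ π' →
      nb h (o + e) - nb h (o + s) + 69 ≤ m := by
    intro h o s e σ'' H h1 h2 h3
    have := nb_le a23 (H.v le_rfl le_rfl) h1 h2 (by simp; omega)
    simp only [List.count_append] at this
    omega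
  refine ⟨⟨hm, sv _ (by omega) (by omega), fun h o s σ'' H hs => ?_⟩,
    G.ext (fun h o s e σ'' H h1 h2 hl => ?_)⟩
  · rcases le_or_gt b1 s with h1 | h1
    · exact Or.inl (small _ _ _ _ _ H h1 hs.le le_rfl)
    · obtain ⟨j, K⟩ := key h o s _ _ H h1 (by omega)
      refine Or.inr ⟨j, fun y load hf => K y load ?_⟩
      have b := (a3.val (H.v (by omega) (by simp; omega))).dgT
      rw [dag_append] at b
      have := half_bd hk hf (b.cast (by simp; omega)) (by
        cases B2 <;> simp at t2 ⊢; simp [t2]) (ly := Y2.length) (by simpa using l2)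
      simp only [length_dag, count_dag, mir_t] at this
      rwa [show -(o + π') + z'.length + B2.length = -(o + b2) by omega] at this
  · have q := long_lt hm hl
    have q2 := long_cnt (o := o) hl
    have h3 : s < b1 := by
      by_contra h3
      have := small _ _ _ _ _ H (by omega) q.le h2
      omega
    have h4 : b2 < e := by
      by_contra h4
      rcases lt_or_ge s π with h5 | h5
      · have := (I h o s σ'' (H.sub le_rfl (by omega)) h5).1
        have := nb_le a12 (H.v h5.le le_rfl) le_rfl h1.le (by simp; omega)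
        simp only [List.count_append] at this
        omega
      · have := nb_le a12 (H.v le_rfl le_rfl) h5 q.le (by simp; omega)
        simp only [List.count_append] at this
        omega
    obtain ⟨j, K⟩ := key h o s _ _ H h3 h4
    refine ⟨?_, j⟩
    have := K (-(o + e)) 0 (Or.inr ⟨rfl, ?_⟩)
    · rw [(Z e h1.le).1]
      rwa [show - -(o + e) - (o + s) = e - s by ring] at this
    · have b := a3.dg
      have := nb_le (h := h) (o := -o) (x := -e) (y := -b2) b
        (flip_val (H.v (s' := b2) (by omega) le_rfl)) (by simp; omega) (by omega) (by simp; omega)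
      have := nb_len h (-o + -b2) (-o + -e)
      have := el_pos h
      simp only [count_dag, mir_t, List.count_append] at *
      push_cast at *
      nlinarith

/-- Windows that begin before the right arm and end after its beginning. -/
lemma good_M {σ : Bool} {n φ : ℕ} {π : ℤ} (I : Inv m V S βL βR (.M σ n φ) π) {ld lg : ℕ}
    {ω v : List Lt} (X : ArmX ld lg 5 n ω) (a : At V π (dag ω)) (av : At V π v) (cv : v.count t ≤ 60)
    {h : ℕ} {o s e : ℤ} {σ' : Bool} (H : Val V S h o s e σ') (h1 : π < e) (h2 : e ≤ π + v.length)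
    (hl : (m - 8 : ℤ) * el h < e - s) {load : ℕ}
    (hA : s < π → (m + 6 : ℤ) * (e - min e (π + ω.length - ld)) + load ≤ (m + 6) * lg + φ)
    (hB : e < π + ω.length → load = 0) :
    s < π ∧ (m + 6) * (e - s) + βR s + load ≤ (m + 6) * m * el h ∧
      JOK m (m - 8) V S βL βR h o s σ' := by
  have hm := I.1
  have q := long_lt hm hl
  have q2 := long_cnt (o := o) hl
  have h3 : s < π := by
    by_contra h3
    have := nb_le av (H.v le_rfl le_rfl) (by omega) q.le h2
    omega
  have := nb_le av (H.v h3.le le_rfl) le_rfl h1.le h2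
  obtain ⟨j, K⟩ := (I.2.2 h o s σ' (H.sub le_rfl h1.le) h3).resolve_left (by omega)
  have := K _ _ (arm_half' X a (by positivity) (H.v h3.le le_rfl) h1.le (hA h3) hB)
  exact ⟨h3, by rwa [show - -(o + e) - (o + s) = e - s by ring] at this, j⟩

lemma step_MP {l : Option (Lt × Bool)} {c : ℕ} {fb : Option Lt} {σ : Bool} {n φ : ℕ} {π : ℤ}
    {x : List (Lt × Bool)} (hl : lab m (.M σ n φ) (.P l c fb) x) (a : AtW V S π x)
    (I : Inv m V S βL βR (.M σ n φ) π) (G : Good m (m - 8) V S βL βR π) (Z : Zr βL βR π) :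
    Inv m V S βL βR (.P l c fb) (π + x.length) ∧ Good m (m - 8) V S βL βR (π + x.length) := by
  obtain ⟨⟨c1, c2⟩, u, f, ⟨rfl, rfl⟩, v, ⟨hv, cv⟩, rfl⟩ := hl
  rw [AtW_sg] at a
  obtain ⟨a, sv⟩ := a
  obtain ⟨X, hy, -, F⟩ := hv.facts
  have hy' : v.getLast? = some u.mir := by
    rw [← dag_dag v]
    generalize dag v = w at hy
    cases w <;> simp at hy ⊢
    rw [hy]
  have lv : 0 < v.length := by cases v <;> simp at hy' ⊢
  rw [length_sg]
  refine ⟨⟨c1, Or.inr (by rw [a.last hy', sv _ (by omega) (by omega)]), fun h o s σ' H hs => ?_⟩,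
    G.ext (fun h o s e σ' H h1 h2 hl => ?_)⟩
  · rcases le_or_gt π s with h1 | h1
    · exact Or.inl ((nb_le a (H.v le_rfl le_rfl) h1 hs.le le_rfl).trans (by omega))
    · right
      have := F _ _ (a.val (H.v h1.le le_rfl)).dgT
      rw [← this]; congr 2; ring
  · rw [(Z e h1.le).1]
    exact (good_M I X (by simpa using a) a cv H h1 h2 hl
      (fun _ => by simp [min_eq_left h2]) (fun _ => rfl)).2

lemma ArmX.lt {ld lg w n : ℕ} {ω : List Lt} (X : ArmX ld lg w n ω) : ld + lg < ω.length := by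
  obtain ⟨_, _, _, _, _, _, _, _, ⟨_, _, _, _, -, -, -, -, rfl⟩, -, -, rfl, rfl⟩ := X
  simp; omega

lemma step_J {σ : Bool} {n φ n' φ' : ℕ} {π : ℤ} {v : List Lt} (J : Junc n 5 n' 5 v)
    (cv : v.count t ≤ 60) (a : AtW V S π (sg σ v))
    (I : Inv m V S βL βR (.M σ n φ) π) (G : Good m (m - 8) V S βL βR π) (Z : Zr βL βR π) :
    Inv m V S βL βR (.L σ n' φ') (π + v.length) ∧ Good m (m - 8) V S βL βR (π + v.length) := by
  rw [AtW_sg] at a
  obtain ⟨a, sv⟩ := a
  obtain ⟨ω1, mid, ω2, lg1, lg2, rfl, X1, X2, B1, B2⟩ := J.out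
  have q1 := X1.lt
  have q2 := X2.lt
  have hm := I.1
  have hk : (0 : ℤ) ≤ m + 6 := by positivity
  have lv : ((dag ω1 ++ mid ++ ω2).length : ℤ) = ω1.length + mid.length + ω2.length := by simp; ring
  have b1 : ∀ h o s e σ', Val V S h o s e σ' → s ≤ π → e - (π + ω1.length) ≤ lg1 := by
    intro h o s e σ' H hs
    have b := a.dg
    simp only [dag_append, dag_dag, ← List.append_assoc] at b
    have := B1 (flip V) (-(π + ω1.length)) (b.left.cast (by simp; ring)) (b.right.cast (by simp; ring))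
      h (-o) (-e) (fun r r1 r2 => flip_val (H.v hs le_rfl) r r1 (by omega))
    omega
  have b2 : ∀ h o s σ', Val V S h o s (π + (dag ω1 ++ mid ++ ω2).length) σ' →
      π + (dag ω1 ++ mid).length - s ≤ lg2 := fun h o s σ' H =>
    B2 V _ (a.left.cast (by simp)) a.right h o s (H.v le_rfl (by simp; omega))
  refine ⟨⟨hm, sv _ (by omega) (by omega), fun h o s σ' H hs => ?_⟩,
    G.ext (fun h o s e σ' H h1 h2 hl => ?_)⟩
  · have e2 := b2 _ _ _ _ H
    have h1 : π ≤ s := by
      by_contra h1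
      have := b1 _ _ _ _ _ H (by omega)
      simp at e2; omega
    obtain rfl : σ' = σ := by rw [← H.s le_rfl hs, sv s h1 hs]
    refine ⟨(nb_le a (H.v le_rfl le_rfl) h1 hs.le le_rfl).trans (by omega), JOK.inner (by omega) ?_, ?_⟩
    · rcases h1.eq_or_lt with rfl | h1
      · exact I.2.1
      · exact sv _ (by omega) (by omega)
    · rw [(Z s h1).2]
      have := arm_half (h := h) (o := o) (s := s) (φ := φ') (load := 0) X2 a.right hk
        (H.v le_rfl (by simp; omega)) (by simp at hs ⊢; omega) (by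
          have := mul_le_mul_of_nonneg_left (show max s (π + (dag ω1 ++ mid).length + (0 : ℕ)) - s ≤ lg2
            by omega) hk
          push_cast at this ⊢; omega) (fun _ => rfl)
      rwa [show π + (dag ω1 ++ mid).length + ω2.length = π + (dag ω1 ++ mid ++ ω2).length by
        simp; ring] at this
  · rw [(Z e h1.le).1]
    refine (good_M I X1 a.left.left a cv H h1 h2 hl (fun hs => ?_) (fun _ => rfl)).2
    have := b1 _ _ _ _ _ H hs.le
    have := mul_le_mul_of_nonneg_left (show e - min e (π + ω1.length - (0 : ℕ)) ≤ lg1 by omega) hk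
    push_cast at this ⊢; omega

lemma JOK.upd {θ : ℤ} {h : ℕ} {o s c : ℤ} {σ : Bool} {x y : ℕ} (hs : s ≠ c)
    (j : JOK m θ V S βL βR h o s σ) :
    JOK m θ V S (Function.update βL c x) (Function.update βR c y) h o s σ := by
  intro h1 o1 s1 p H hl ag
  rw [Function.update_of_ne hs, Function.update_of_ne hs]
  exact j h1 o1 s1 p H hl ag

lemma step_R {σ : Bool} {n φ n' φ' : ℕ} {π : ℤ} {ω1 ω2 : List Lt}
    (R : Rel m (m + 6) (φ + φ') n 5 n' 5 ω1 ω2) (c1 : ω1.count T ≤ 60) (c2 : ω2.count t ≤ 60)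
    (a : AtW V S π (sg σ (dag ω1) ++ sg (!σ) ω2))
    (I : Inv m V S βL βR (.M σ n φ) π) (G : Good m (m - 8) V S βL βR π) (Z : Zr βL βR π) :
    ∃ βL' βR', Inv m V S βL' βR' (.L (!σ) n' φ') (π + ω1.length + ω2.length) ∧
      Good m (m - 8) V S βL' βR' (π + ω1.length + ω2.length) ∧
      Zr βL' βR' (π + ω1.length + ω2.length) := by
  obtain ⟨a1, a2⟩ := (AtW_append ..).1 a
  obtain ⟨a1, s1⟩ := (AtW_sg ..).1 a1
  obtain ⟨a2, s2⟩ := (AtW_sg ..).1 a2
  simp only [length_sg, length_dag] at a2 s1 s2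
  obtain ⟨ld, lg1, lg2, X1, X2, l1, l2, K⟩ := R.out
  have q1 := X1.lt
  have q2 := X2.lt
  have hm := I.1
  have hk : (0 : ℤ) ≤ m + 6 := by positivity
  set c : ℤ := π + ω1.length with hc
  have c1' : (dag ω1).count t ≤ 60 := by simpa [count_dag] using c1
  have cross : ∀ h o s e σ', Val V S h o s e σ' → c < e → c ≤ s := by
    intro h o s e σ' H he
    by_contra hs
    have e1 := H.s (r := c - 1) (by omega) (by omega)
    have e2 := H.s (r := c) (by omega) (by omega)
    rw [s1 _ (by omega) (by omega)] at e1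
    rw [s2 _ (by omega) (by omega), ← e1] at e2
    simp at e2
  refine ⟨Function.update βL c ((m + 6) * (lg1 - ld) + φ), Function.update βR c ((m + 6) * (lg2 - ld) + φ'),
    ⟨hm, s2 _ (by omega) (by omega), fun h o s σ' H hs => ?_⟩, ?_, fun x hx => ?_⟩
  · have h1 := cross _ _ _ _ _ H (by omega)
    obtain rfl : σ' = !σ := by rw [← H.s le_rfl hs, s2 s h1 hs]
    refine ⟨(nb_le a2 (H.v le_rfl le_rfl) h1 hs.le le_rfl).trans (by omega), ?_, ?_⟩
    · rcases h1.eq_or_lt with rfl | h1
      · intro h1 o1 t1 p H1 hl ag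
        have q := long_lt hm hl
        have q3 := long_cnt (o := o1) hl
        have h3 : t1 ≤ π := by
          by_contra h3
          have := nb_le a1 (H1.v le_rfl le_rfl) (by omega) q.le (by simp; omega)
          omega
        have b1 := (a1.val (H1.v h3 (by simp; omega))).dgT
        rw [dag_dag, length_dag] at b1
        have := K _ _ _ _ p b1 (a2.val (H.v le_rfl le_rfl)) (by
          rwa [show -(-(o1 + π) - ω1.length) = o1 + c by omega])
        simp only [Function.update_self]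
        push_cast [l1, l2] at this ⊢
        linarith
      · exact JOK.inner (by omega) (s2 _ (by omega) (by omega))
    · refine arm_half X2 a2 hk (H.v le_rfl le_rfl) hs.le ?_ (fun h => ?_)
      · rcases h1.eq_or_lt with rfl | h1
        · rw [Function.update_self, max_eq_right (by omega)]
          push_cast [l2]; linarith
        · rw [Function.update_of_ne (by omega), (Z s (by omega)).2]
          have := mul_le_mul_of_nonneg_left (show max s (c + ld) - s ≤ lg2 by omega) hk
          push_cast; omega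
      · rw [Function.update_of_ne (by omega), (Z s (by omega)).2]
  · intro h o s e σ' H h2 hl
    have q := long_lt hm hl
    rcases le_or_gt e π with h1 | h1
    · obtain ⟨g1, g2⟩ := G h o s e σ' H h1 hl
      rw [Function.update_of_ne (by omega), Function.update_of_ne (by omega)]
      exact ⟨g1, g2.upd (by omega)⟩
    rcases le_or_gt e c with h3 | h3
    · obtain ⟨h4, g1, g2⟩ := good_M (load := Function.update βL c ((m + 6) * (lg1 - ld) + φ) e)
        I X1 a1 a1 c1' H h1 (by simpa using h3) hl (fun _ => by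
          rcases h3.eq_or_lt with rfl | h3
          · rw [Function.update_self, min_eq_right (by omega)]
            push_cast [l1]; linarith
          · rw [Function.update_of_ne (by omega), (Z e (by omega)).1]
            have := mul_le_mul_of_nonneg_left (show e - min e (c - ld) ≤ lg1 by omega) hk
            rw [← hc]; push_cast; omega)
        (fun h => by rw [Function.update_of_ne (by omega), (Z e (by omega)).1])
      rw [Function.update_of_ne (show s ≠ c by omega)]
      exact ⟨g1, g2.upd (by omega)⟩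
    · have := nb_le a2 (H.v le_rfl le_rfl) (cross _ _ _ _ _ H h3) q.le h2
      have := long_cnt (o := o) hl
      omega
  · rw [Function.update_of_ne (by omega), Function.update_of_ne (by omega)]
    exact Z x (by omega)

lemma step_all {s s' : St} {π : ℤ} {x : List (Lt × Bool)} (hl : lab m s s' x) (a : AtW V S π x)
    (I : Inv m V S βL βR s π) (G : Good m (m - 8) V S βL βR π) (Z : Zr βL βR π) :
    ∃ βL' βR', Inv m V S βL' βR' s' (π + x.length) ∧ Good m (m - 8) V S βL' βR' (π + x.length) ∧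
      Zr βL' βR' (π + x.length) := by
  have Z' := Z.mono (show π ≤ π + x.length by omega)
  cases s <;> cases s' <;> try exact hl.elim
  · exact ⟨βL, βR, (step_PP hl a I G).1, (step_PP hl a I G).2, Z'⟩
  · exact ⟨βL, βR, (step_PL hl a I G Z).1, (step_PL hl a I G Z).2, Z'⟩
  · exact ⟨βL, βR, (step_LM hl a I G Z).1, (step_LM hl a I G Z).2, Z'⟩
  · exact ⟨βL, βR, (step_MP hl a I G Z).1, (step_MP hl a I G Z).2, Z'⟩
  · obtain ⟨-, ⟨rfl, v, ⟨J, cv⟩, rfl⟩ | ⟨rfl, ω1, ω2, ⟨⟨R, -, c2⟩, c1⟩, rfl⟩⟩ := hl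
    · rw [length_sg] at Z' ⊢
      exact ⟨βL, βR, (step_J J cv a I G Z).1, (step_J (φ' := 0) J cv a I G Z).2, Z'⟩
    · simpa [add_assoc] using step_R R c1 c2 a I G Z

theorem Cert.sound {w : List (Lt × Bool)} (hm : 69 ≤ m) (H : Cert m w) (a : AtW V S 0 w) :
    Flow m (m - 8) V S w.length := by
  have key : ∀ s w, Path1 (lab m) fin s w → ∀ (π : ℤ) (βL βR : ℤ → ℕ), AtW V S π w →
      Inv m V S βL βR s π → Good m (m - 8) V S βL βR π → Zr βL βR π →
      Flow m (m - 8) V S (π + w.length) := by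
    intro s w H
    induction H with
    | stop s w hf =>
      intro π βL βR _ _ G _
      cases s <;> first | exact hf.elim | skip
      rw [show w = [] from hf]
      exact ⟨βL, βR, by simpa using G⟩
    | step s s' x w hl _ ih =>
      intro π βL βR a I G Z
      obtain ⟨a1, a2⟩ := (AtW_append ..).1 a
      obtain ⟨βL', βR', I', G', Z'⟩ := step_all hl a1 I G Z
      simpa [add_assoc] using ih _ _ _ a2 I' G' Z'
  simpa using key _ _ H 0 (fun _ => 0) (fun _ => 0) a
    ⟨by omega, Or.inl rfl, fun h o s σ H hs => by have := H.2.1; omega⟩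
    (fun h o s e σ H he hl => by have := long_lt hm hl; have := H.2.1; omega) (fun _ _ => ⟨rfl, rfl⟩)

end Pool.Agent.Lib.MP_dfa990_al
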