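import Mathlib
import Pool.Agent.Lib.MP_dfa990_al.QGFlow
import Pool.Agent.Lib.MP_dfa990_al.Hyp
import Pool.Agent.Lib.MP_dfa990_al.Sound

/-! The groups are not hyperbolic and their quasigeodesic languages are context-free. -/

namespace Pool.Agent.Lib.MP_dfa990_al
open Pool.Agent.Lib.helper29 Lt

variable {k m : ℕ} {V : ℤ → Lt} {S : ℤ → Bool}

lemma exists_VS (w : List (Lt × Bool)) (i : ℤ) : ∃ V S, AtW V S i w := by
  have cg : ∀ (V V' : ℤ → Lt) (S S' : ℤ → Bool) (w : List (Lt × Bool)) (i : ℤ),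
      (∀ r, i ≤ r → V' r = V r ∧ S' r = S r) → AtW V S i w → AtW V' S' i w := by
    intro V V' S S' w
    induction w with
    | nil => intros; trivial
    | cons x w ih =>
      intro i h a
      exact ⟨by rw [(h i le_rfl).1, (h i le_rfl).2]; exact a.1, ih _ (fun r hr => h r (by omega)) a.2⟩
  induction w generalizing i with
  | nil => exact ⟨fun _ => t, fun _ => true, trivial⟩
  | cons x w ih =>
    obtain ⟨V, S, a⟩ := ih (i + 1)
    exact ⟨Function.update V i x.1, Function.update S i x.2, by simp, cg V _ S _ w _ (fun r hr => by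
      rw [Function.update_of_ne (by omega), Function.update_of_ne (by omega)]; exact ⟨rfl, rfl⟩) a⟩

lemma AtW.eq {i : ℤ} {u v : List (Lt × Bool)} (hu : AtW V S i u) (hv : AtW V S i v)
    (h : u.length = v.length) : u = v := by
  induction u generalizing i v with
  | nil => exact (List.length_eq_zero_iff.1 h.symm).symm
  | cons x u ih =>
    cases v with
    | nil => simp at h
    | cons y v =>
      rw [ih hu.2 hv.2 (by simpa using h),
        show x = y from Prod.ext (hu.1.1.symm.trans hv.1.1) (hu.1.2.symm.trans hv.1.2)]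

lemma AtW.inf {a : ℤ} {u w : List (Lt × Bool)} (hw : AtW V S 0 w) (h0 : 0 ≤ a) (hu : AtW V S a u)
    (hN : a + u.length ≤ w.length) : u <:+: w := by
  obtain ⟨s, a1, e1⟩ := exists_segW V S h0
  obtain ⟨r, a2, e2⟩ := exists_segW V S hN
  refine ⟨s, r, AtW.eq ((AtW_append ..).2 ⟨(AtW_append ..).2 ⟨a1, e1 ▸ hu⟩, ?_⟩) hw ?_⟩
  · rwa [List.length_append, Nat.cast_add, ← add_assoc, e1]
  · simp only [List.length_append]; omega

def QGw (m : ℕ) (w : List (Lt × Bool)) : Prop :=
  ∀ u, u <:+: w → 6 * u.length ≤ m * nrm (m + 6) (ev (m + 6) u)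

theorem qgw_iff (hm : 400 ≤ m) (w : List (Lt × Bool)) : Cert m w ∧ RedW w ↔ QGw m w := by
  obtain ⟨V, S, a⟩ := exists_VS w 0
  constructor
  · rintro ⟨h1, h2⟩ u ⟨s, r, rfl⟩
    refine flow_qg (by omega) (h1.sound (by omega) a) ?_ (a := 0 + s.length) (by omega)
      ((AtW_append ..).1 ((AtW_append ..).1 a).1).2 (by simp)
    intro c c0 c1 hs hv
    obtain ⟨p, q, e⟩ := a.inf (a := c - 1) (u := [(V (c - 1), S (c - 1)), (V c, S c)]) (by omega)
      ⟨⟨rfl, rfl⟩, by simp, trivial⟩ (by simp only [List.length_cons, List.length_nil]; omega)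
    refine List.isChain_iff_forall_rel_of_append_cons_cons.1 h2
      (show _ = p ++ (V (c - 1), S (c - 1)) :: (V c, S c) :: q by simp [← e]) ?_
    rw [inv1, hv]
    revert hs; cases S (c - 1) <;> cases S c <;> simp
  · intro h
    have H : QG m V S w.length := fun b u h0 hu hN => h u (a.inf h0 hu hN)
    exact ⟨cert_complete hm a (qg_flow (by omega) H) H.red, a.red H.red le_rfl (by simp)⟩

theorem cf_qgw (hm : 400 ≤ m) : CF (QGw m) :=
  ((cf_Cert m).and_reg (Reg.chain _)).congr (qgw_iff hm)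

lemma seg_qg (hm : 69 ≤ m) {h : ℕ} {i : ℤ} {v : List Lt} (a : At (TT h) i v)
    (hl : (v.length : ℤ) ≤ m * el h) (σ : Bool) :
    6 * v.length ≤ m * nrm (m + 6) (ev (m + 6) (sg σ v)) := by
  have := flow_qg hm (V := fun r => TT h (i + r)) (S := fun _ => σ) (N := m * el h) (a := 0)
    (u := sg σ v) ⟨fun _ => 0, fun _ => 0, fun h' o s e τ F he hl => ?_⟩ (fun _ _ _ hs => by simp at hs)
    le_rfl ((AtW_sg ..).2 ⟨a.congr (by simp), fun _ _ _ => rfl⟩) (by simpa using hl)
  · simpa using this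
  have hp := el_pos h'
  have h2 : 2 * el h' ≤ (m - 8) * el h' := mul_le_mul_of_nonneg_right (by omega) hp.le
  obtain ⟨rfl, -⟩ := aligned_of_agree' (h := h) (h' := h') (o := i + s) (o' := o + s) (n := e - s)
    (Or.inr (by omega)) (fun r r1 r2 => by
      rw [add_assoc, add_assoc]; exact F.v le_rfl le_rfl _ (by omega) (by omega))
  refine ⟨?_, JOK.inner (by omega) (F.s (r := s) le_rfl (by omega))⟩
  have := mul_le_mul_of_nonneg_left (show e - s ≤ m * el h by have := F.2.1; omega)
    (show (0 : ℤ) ≤ m + 6 by positivity)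
  simp only [Nat.cast_zero, add_zero]
  linarith

theorem gg_not_hyp (hm : 69 ≤ m) : ¬ IsHyperbolic (GG (m + 6)) := by
  refine not_hyp (fun x : Lt => ev (m + 6) [(x, true)]) (nrm (m + 6)) nrm_one nrm_mul m fun M => ?_
  obtain ⟨h, hh⟩ := exists_nat_gt (max (M * (m + 9)) 1)
  have h1 : 1 ≤ h := by exact_mod_cast ((le_max_right _ _).trans hh.le)
  have sq : ∀ n : ℕ, n ^ 2 ≤ 3 ^ n := by
    intro n
    induction n with
    | zero => simp
    | succ n ih =>
      rcases le_or_gt n 1 with hn | hn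
      · interval_cases n <;> simp
      · rw [pow_succ 3]; nlinarith
  have el2 : ((2 * ((m + 6) * 3 ^ h) : ℕ) : ℤ) = (m + 6 : ℕ) * el h := by simp [el]; ring
  refine ⟨(m + 6) * 3 ^ h, m + 6 + 2 * h, Nat.pos_of_ne_zero (by positivity), ?_, ?_,
    fun i => ev (m + 6) (sg true (seg (TT h) 0 i)), ?_, fun i => ⟨TT h i, ?_⟩, fun i r hr => ?_⟩
  · rw [pow_add, pow_mul]
    exact Nat.mul_le_mul Nat.lt_two_pow_self.le (Nat.pow_le_pow_left (by norm_num) _)
  · have a1 : (h : ℝ) ^ 2 ≤ 3 ^ h := by exact_mod_cast sq h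
    have a2 : (1 : ℝ) ≤ h := by exact_mod_cast h1
    have a3 := (le_max_left _ _).trans_lt hh
    have a4 : (0 : ℝ) ≤ m := by positivity
    have a5 : (0 : ℝ) < 3 ^ h := by positivity
    push_cast
    rcases le_total M 0 with hM | hM
    · nlinarith
    · have : M * (m + 6 + 2 * h + 1) ≤ M * ((m + 9) * h) :=
        mul_le_mul_of_nonneg_left (by nlinarith) hM
      nlinarith
  · exact (cyc h1 (At_seg _ _ _) (by simpa using el2) true).trans (by simp [sg, seg])
  · simp only [seg_add, sg_append, ev_append]; simp [seg, sg]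
  · simp only [seg_add, sg_append, ev_append, inv_mul_cancel_left]
    have a := At_seg (TT h) (0 + i) r
    have hp := el_pos h
    by_cases hc : (r : ℤ) ≤ m * el h
    · have := seg_qg hm a (by simpa using hc) true
      simp only [length_seg] at this
      omega
    · obtain ⟨q, b1, b2, b3⟩ := arc (k := m + 6) h1 a (by simp only [length_seg]; omega) true
      have hm' : 69 * el h ≤ m * el h := mul_le_mul_of_nonneg_right (by omega) hp.le
      simp only [length_seg] at b2
      have := seg_qg hm b1 (by push_cast at b2; linarith) (!true)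
      rw [b3]; omega

open Classical in
noncomputable def gens (k : ℕ) : Finset (GG k) := Finset.univ.image fun x => ev k [x]

noncomputable def ltr (k : ℕ) (x : Lt × Bool) : gens k :=
  ⟨ev k [x], by simp [gens]⟩

lemma ltr_surj : Function.Surjective (ltr k) := by
  rintro ⟨g, hg⟩
  simp only [gens, Finset.mem_image, Finset.mem_univ, true_and] at hg
  obtain ⟨x, rfl⟩ := hg
  exact ⟨x, rfl⟩

lemma prod_ltr (v : List (Lt × Bool)) : ((v.map (ltr k)).map Subtype.val).prod = ev k v := by
  induction v with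
  | nil => simp
  | cons x v ih =>
    rw [List.map_cons, List.map_cons, List.prod_cons, ih, ← List.singleton_append, ev_append]
    rfl

lemma gens_ok : IsSymmGen (gens k) := by
  refine ⟨fun s hs => ?_, eq_top_iff.2 fun g _ => ?_⟩
  · obtain ⟨x, hx⟩ := ltr_surj ⟨s, hs⟩
    obtain rfl : ev k [x] = s := congrArg Subtype.val hx
    rw [← ev_invW]
    exact (ltr k (inv1 x)).2
  · obtain ⟨w, rfl⟩ := ev_surj g
    rw [← prod_ltr]
    refine Subgroup.list_prod_mem _ fun x hx => ?_
    obtain ⟨y, -, rfl⟩ := List.mem_map.1 hx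
    exact Subgroup.subset_closure y.2

lemma wl_gens (g : GG k) : wordLen (gens k) g = nrm k g := by
  refine congrArg sInf (Set.ext fun n => ⟨?_, ?_⟩)
  · rintro ⟨w, rfl, rfl⟩
    obtain ⟨v, rfl⟩ := ltr_surj.list_map w
    exact ⟨v, by simp, (prod_ltr v).symm⟩
  · rintro ⟨v, rfl, rfl⟩
    exact ⟨v.map (ltr k), by simp, prod_ltr v⟩

theorem gg_cf (hm : 400 ≤ m) : (QGLang (gens (m + 6)) (m / 6) 0).IsContextFree := by
  have key : ∀ u : List (Lt × Bool), (((u.map (ltr (m + 6))).length : ℝ) ≤ m / 6 *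
      wordLen (gens (m + 6)) ((u.map (ltr (m + 6))).map Subtype.val).prod + 0) ↔
      6 * u.length ≤ m * nrm (m + 6) (ev (m + 6) u) := by
    intro u
    rw [prod_ltr, wl_gens, List.length_map, add_zero, div_mul_eq_mul_div, le_div_iff₀' (by norm_num)]
    norm_cast
  refine (((cf_qgw hm).map (ltr (m + 6))).congr (fun w => ⟨?_, fun h => ?_⟩)).isContextFree
  · rintro ⟨v, hv, rfl⟩ u hu
    obtain ⟨u, h1, rfl⟩ := List.infix_map_iff.1 hu
    exact (key u).2 (hv u h1)
  · obtain ⟨v, rfl⟩ := ltr_surj.list_map w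
    exact ⟨v, fun u hu => (key u).1 (h _ (hu.map _)), rfl⟩

end Pool.Agent.Lib.MP_dfa990_al
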